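import Mathlib
import Pool.Agent.Lib.Bloch.Defs

/-!
# Complete intersections in a product of projective lines

Definitions used in the statement. A point of `(P ^ 1) ^ N` has homogeneous coordinates
`[x (i, false) : x (i, true)]`, `i : Fin N`; the functions `x : Fin N × Bool → ℂ` are the points of
the affine cone. The variety is considered in the projective space of the Segre embedding, with
coordinates indexed by the functions `Fin N → Bool`; the zero-cycles, rational equivalence and the
monomial automorphisms `act` of projective space are those of `Pool/Agent/Lib/Bloch/Defs.lean`.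
-/

open MvPolynomial

namespace Pool.Agent.H10S

variable {N r : ℕ}

/-- `x` is a system of homogeneous coordinates of a point of `(P ^ 1) ^ N`. -/
def IsPoint {R : Type*} [Zero R] (x : Fin N × Bool → R) : Prop := ∀ i, ∃ β, x (i, β) ≠ 0

/-- The Segre embedding `(P ^ 1) ^ N → P ^ (2 ^ N - 1)`. -/
def seg {R : Type*} [CommMonoid R] (x : Fin N × Bool → R) : (Fin N → Bool) → R :=
  fun B => ∏ i, x (i, B i)

/-- The form `F` is multihomogeneous of multidegree `D`: homogeneous of degree `D i` in the two
coordinates of the factor `i`. -/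
def MultiHom (F : MvPolynomial (Fin N × Bool) ℂ) (D : Fin N → ℕ) : Prop :=
  ∀ i, IsWeightedHomogeneous (fun p : Fin N × Bool => if p.1 = i then 1 else 0) F (D i)

/-- The complete intersection `X` in `(P ^ 1) ^ N` with equations `F k = 0`. -/
def locus (F : Fin r → MvPolynomial (Fin N × Bool) ℂ) :
    Set (Projectivization ℂ ((Fin N → Bool) → ℂ)) :=
  {p | ∃ x : Fin N × Bool → ℂ, IsPoint x ∧ (∀ k, eval x (F k) = 0) ∧ p.rep = seg x}

/-- `X` is a smooth complete intersection: the gradients of the `F k` are linearly independent at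
the points of `X`. -/
def IsSmooth (F : Fin r → MvPolynomial (Fin N × Bool) ℂ) : Prop :=
  ∀ x : Fin N × Bool → ℂ, IsPoint x → (∀ k, eval x (F k) = 0) →
    LinearIndependent ℂ fun k : Fin r => fun p : Fin N × Bool => eval x (pderiv p (F k))

/-- The automorphism of `(P ^ 1) ^ N` given by `φ = (γ, σ)`: the factor `i` of the image of `x` is
`[x (σ⁻¹ i, false) : ζ ^ (γ i) x (σ⁻¹ i, true)]`, `ζ = exp (2 π i / d)`. -/
noncomputable def mact {d : ℕ} [NeZero d] (φ : (Fin N → ZMod d) × Equiv.Perm (Fin N))
    (x : Fin N × Bool → ℂ) : Fin N × Bool → ℂ :=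
  fun p => (if p.2 then ZMod.stdAddChar (φ.1 p.1) else 1) * x (φ.2.symm p.1, p.2)

/-- The group `W`: the `(γ, σ)` such that `ζ ^ (γ i)` is a `q i`-th root of unity for all `i` and `σ`
preserves the classes of the partition given by the colouring `c`. -/
def InGroup (c q : Fin N → ℕ) {d : ℕ} (φ : (Fin N → ZMod d) × Equiv.Perm (Fin N)) : Prop :=
  (∀ i, (q i : ZMod d) * φ.1 i = 0) ∧ ∀ i, c (φ.2 i) = c i

/-- The forms `F k` are invariant under `W`. -/
def IsInvariant (c q : Fin N → ℕ) (d : ℕ) [NeZero d]
    (F : Fin r → MvPolynomial (Fin N × Bool) ℂ) : Prop :=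
  ∀ (k : Fin r) (φ : (Fin N → ZMod d) × Equiv.Perm (Fin N)), InGroup c q φ →
    ∀ x : Fin N × Bool → ℂ, eval (mact φ x) (F k) = eval x (F k)

/-- The monomial substitution of the Segre coordinates given by `φ`:
`seg (mact φ x) = Bloch.act (segAct φ) (seg x)`. -/
def segAct {d : ℕ} (φ : (Fin N → ZMod d) × Equiv.Perm (Fin N)) :
    ((Fin N → Bool) → ZMod d) × Equiv.Perm (Fin N → Bool) :=
  (fun B => ∑ i, if B i then φ.1 i else 0, φ.2.arrowCongr (Equiv.refl Bool))

/-- The action on the zero-cycles of the correspondence `Z`, the formal rational combination with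
coefficients `Z φ` of the graphs of the automorphisms `φ`. -/
noncomputable def pushforward {d : ℕ} [NeZero d] (Z : (Fin N → ZMod d) × Equiv.Perm (Fin N) → ℚ)
    (z : Projectivization ℂ ((Fin N → Bool) → ℂ) →₀ ℚ) :
    Projectivization ℂ ((Fin N → Bool) → ℂ) →₀ ℚ :=
  ∑ φ, Z φ • z.mapDomain (Bloch.actP (segAct φ))

/-- The correspondence `Z` acts as zero on the holomorphic top forms of the smooth complete
intersection `X` of multidegrees `D k`: these are the residues of `P Ω / (F 1 ... F r)`, where
`Ω` is the product of the forms `s_i dt_i - t_i ds_i` of the factors, for the forms `P` of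
multidegree `∑ k, D k - (2, ..., 2)`, the residue of `P` is zero if and only if `P` vanishes on `X`,
and `φ = (γ, σ)` in `W` sends the residue of `P` to the one of `det φ • (P ∘ φ)`, where
`det φ = sign σ * ∏ i, ζ ^ (γ i)`. -/
def KillsTopForms (F : Fin r → MvPolynomial (Fin N × Bool) ℂ) (D : Fin r → Fin N → ℕ) {d : ℕ}
    [NeZero d] (Z : (Fin N → ZMod d) × Equiv.Perm (Fin N) → ℚ) : Prop :=
  ∀ (m : Fin N → ℕ) (P : MvPolynomial (Fin N × Bool) ℂ), MultiHom P m →
    (∀ i, m i + 2 = ∑ k, D k i) → ∀ x : Fin N × Bool → ℂ, IsPoint x → (∀ k, eval x (F k) = 0) →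
      ∑ φ, (Z φ : ℂ) * Bloch.detAct φ * eval (mact φ x) P = 0

end Pool.Agent.H10S
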