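import Mathlib
import Pool.Agent.Lib.Bloch.Fourier
import Pool.Agent.Lib.Bloch.General
import Pool.Agent.Lib.Bloch.Main
import Pool.Agent.Lib.H84PD.Gpl
import Pool.Agent.Lib.H7SH.Alg
import Pool.Agent.Lib.H7CX.AL2
import Pool.Agent.Lib.H7CX.AL3
import Pool.Agent.Lib.H7CX.KX1
import Pool.Agent.Lib.H7CX.KX2
import Pool.Agent.Lib.H7CX.KX3
import Pool.Agent.Lib.H7CX.PL2
import Pool.Agent.Lib.H7CX.QU1
import Pool.Agent.Lib.H10S.Defs

/-!
Internal notions of the proof (see PROOF.md).
-/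

open MvPolynomial Finset

namespace Pool.Agent.H10S

open Pool.Agent.Bloch (RespectsG chi)
open Pool.Agent.H7CX (Place)
open Pool.Agent.H7SH (young Killed alg_sg)

variable {N r : ℕ}

/-! ### Geometry -/

/-- The (multi)cone over `X`. -/
def XP (F : Fin r → MvPolynomial (Fin N × Bool) ℂ) : Set (Fin N × Bool → ℂ) :=
  {x | IsPoint x ∧ ∀ k, eval x (F k) = 0}

/-- A class function on `X`: constant in algebraic families of effective zero-cycles. -/
def Cls (F : Fin r → MvPolynomial (Fin N × Bool) ℂ) (φ : (Fin N × Bool → ℂ) → ℂ) : Prop :=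
  RespectsG (XP F) (fun x : Fin N × Bool → ℂ => seg x) φ

/-- The cone over the image of `X` by the Segre embedding, without the origin. -/
def SC (F : Fin r → MvPolynomial (Fin N × Bool) ℂ) : Set ((Fin N → Bool) → ℂ) :=
  {y | ∃ x ∈ XP F, y = seg x}

/-- The coordinates of the factors of a point of the Segre variety. -/
def unseg {R : Type*} (B₀ : Fin N → Bool) (y : (Fin N → Bool) → R) : Fin N × Bool → R :=
  fun p => y (Function.update B₀ p.1 p.2)

/-- The forms `F k` have the multidegrees `D k`, all positive. -/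
structure MD (F : Fin r → MvPolynomial (Fin N × Bool) ℂ) (D : Fin r → Fin N → ℕ) : Prop where
  hom : ∀ k, MultiHom (F k) (D k)
  pos : ∀ k i, 1 ≤ D k i

/-- A point of the cone over `X` with coordinates in the field `K ⊇ ℂ`. -/
def KP {K : Type*} [Field K] [Algebra ℂ K] (F : Fin r → MvPolynomial (Fin N × Bool) ℂ)
    (X : Fin N × Bool → K) : Prop := IsPoint X ∧ ∀ k, aeval X (F k) = 0

/-- The point `x` is the reduction of the point `X` at the place `P`. -/
def RedM {K : Type*} [Field K] [Algebra ℂ K] (P : Place K) (X : Fin N × Bool → K)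
    (x : Fin N × Bool → ℂ) : Prop :=
  IsPoint x ∧ ∀ i, ∃ κ : K, κ ≠ 0 ∧ ∀ β, P.Val (κ * X (i, β)) (x (i, β))

/-- The point `q` of the projective space is the reduction of the point `X` at the place `P`. -/
def RedV {K : Type*} [Field K] [Algebra ℂ K] (P : Place K) {ι : Type*} (X : ι → K) (q : ι → ℂ) :
    Prop := q ≠ 0 ∧ ∃ κ : K, κ ≠ 0 ∧ ∀ i, P.Val (κ * X i) (q i)

/-- The elements `(γ, σ)` of the group supported in the set `B`, with `q γ = 0`. -/
def InB (B : Finset (Fin N)) (q : ℕ) {d : ℕ} (ψ : (Fin N → ZMod d) × Equiv.Perm (Fin N)) : Prop :=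
  (∀ i, (q : ZMod d) * ψ.1 i = 0) ∧ ∀ i, i ∉ B → ψ.1 i = 0 ∧ ψ.2 i = i

/-- The situation of the geometric part: the forms `F k` are invariant under the group of the block
`B`, on which their degrees are `q * e k`. -/
structure Blk (F : Fin r → MvPolynomial (Fin N × Bool) ℂ) (D : Fin r → Fin N → ℕ) (d : ℕ) [NeZero d]
    (B : Finset (Fin N)) (q : ℕ) (e : Fin r → ℕ) : Prop where
  md : MD F D
  ne : B.Nonempty
  dvd : q ∣ d
  deg : ∀ k, ∀ i ∈ B, D k i = q * e k
  inv : ∀ (k : Fin r) (ψ : (Fin N → ZMod d) × Equiv.Perm (Fin N)), InB B q ψ →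
    ∀ x, eval (mact ψ x) (F k) = eval x (F k)

/-- The permutations which move only elements of `B`. -/
def permB (B : Finset (Fin N)) : Finset (Equiv.Perm (Fin N)) :=
  univ.filter fun g => ∀ i, i ∉ B → g i = i

/-- The coefficients of the binary form `∏ i ∈ B, (s_i ^ q Y + t_i ^ q Z)`. -/
def cf {R : Type*} [CommRing R] (B : Finset (Fin N)) (q : ℕ) (x : Fin N × Bool → R)
    (m : Fin (B.card + 1)) : R :=
  ∑ J ∈ B.powersetCard m, (∏ i ∈ J, x (i, true) ^ q) * ∏ i ∈ B \ J, x (i, false) ^ q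

/-- The polynomials `G k` are the `F k` as functions of the coefficients `cf` and of the coordinates
off `B`. -/
structure GB (F : Fin r → MvPolynomial (Fin N × Bool) ℂ) (B : Finset (Fin N)) (q : ℕ)
    (e : Fin r → ℕ) (G : Fin r → MvPolynomial (Fin (B.card + 1) ⊕ (Fin N × Bool)) ℂ) : Prop where
  hom : ∀ k, IsWeightedHomogeneous
    (Sum.elim (fun _ => 1) (fun _ => 0) : Fin (B.card + 1) ⊕ (Fin N × Bool) → ℕ) (G k) (e k)
  eq : ∀ (R : Type) [CommRing R] [Algebra ℂ R] (x y : Fin N × Bool → R),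
    (∀ i, i ∉ B → ∀ β, y (i, β) = x (i, β)) → ∀ k,
      aeval (Sum.elim (cf B q x) y) (G k) = aeval x (F k)

/-! ### Algebra -/

/-- The words with letters `b i < L i`. -/
def wordsL (L : Fin N → ℕ) : Finset (Fin N → ℕ) := Fintype.piFinset fun i => range (L i)

/-- The function `p` is supported on the words with letters `b i < L i`. -/
def IsLet (L : Fin N → ℕ) (p : (Fin N → ℕ) → ℂ) : Prop := ∀ b, p b ≠ 0 → ∀ i, b i < L i

/-- The value at `w` of the multiform of multidegree `L - 1` with coefficients `p`. -/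
noncomputable def PEL (L : Fin N → ℕ) (p : (Fin N → ℕ) → ℂ) (w : Fin N × Bool → ℂ) : ℂ :=
  ∑ b ∈ wordsL L, p b * ∏ i, (w (i, false) ^ (L i - 1 - b i) * w (i, true) ^ b i)

/-- The coordinates `(s_i ^ q_i, t_i ^ q_i)`, or `(s_i + lam t_i, t_i)` if `q_i = 1`. -/
def ww (q : Fin N → ℕ) (lam : ℂ) (x : Fin N × Bool → ℂ) : Fin N × Bool → ℂ := fun p =>
  if q p.1 = 1 then (if p.2 then x (p.1, true) else x (p.1, false) + lam * x (p.1, true))
  else x p ^ q p.1

/-- The relative invariant of the character `a - 1` of the diagonal part. -/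
def mua (q : Fin N → ℕ) {d : ℕ} (a : Fin N → ZMod d) (x : Fin N × Bool → ℂ) : ℂ :=
  ∏ i, if q i = 1 then 1 else if a i = 0 then x (i, false) ^ (q i - 1) * x (i, true) ^ (q i - 1)
    else x (i, false) ^ (q i - 1 - (a i).val) * x (i, true) ^ ((a i).val - 1)

/-- The number of letters. -/
def LL (q : Fin N → ℕ) (D : Fin r → Fin N → ℕ) {d : ℕ} (a : Fin N → ZMod d) (i : Fin N) : ℕ :=
  if a i = 0 then (∑ k, D k i) / q i - 1 else (∑ k, D k i) / q i

/-- The diagonal part of the group. -/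
def TQ (q : Fin N → ℕ) (d : ℕ) [NeZero d] : Finset (Fin N → ZMod d) :=
  univ.filter fun γ => ∀ i, (q i : ZMod d) * γ i = 0

/-- Its characters. -/
def AQ (q : Fin N → ℕ) (d : ℕ) [NeZero d] : Finset (Fin N → ZMod d) :=
  univ.filter fun a => ∀ i, (a i).val < q i

/-- The hypotheses on the equations. -/
structure Hyp (c q : Fin N → ℕ) (d : ℕ) [NeZero d] (F : Fin r → MvPolynomial (Fin N × Bool) ℂ)
    (D : Fin r → Fin N → ℕ) : Prop where
  md : MD F D
  r1 : 1 ≤ r
  dvd : ∀ i, q i ∣ d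
  qcls : ∀ i j, c i = c j → q i = q j
  qD : ∀ k i, q i ∣ D k i
  Dcls : ∀ k i j, c i = c j → D k i = D k j
  inv : IsInvariant c q d F

/-- A class function on `X` on which the group of the colouring `c` acts by the character `a`. -/
structure Equi (F : Fin r → MvPolynomial (Fin N × Bool) ℂ) (c q : Fin N → ℕ) {d : ℕ} [NeZero d]
    (a : Fin N → ZMod d) (φ : (Fin N × Bool → ℂ) → ℂ) : Prop where
  resp : Cls F φ
  eqv : ∀ ψ : (Fin N → ZMod d) × Equiv.Perm (Fin N), InGroup c q ψ → ∀ x ∈ XP F,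
    φ (mact ψ x) = chi a ψ.1 * φ x

end Pool.Agent.H10S
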