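import Mathlib
import Pool.Agent.Lib.H10S.Core

/-!
CHUNK AA1 (M). The adjoint argument with bounded letters (pure algebra of words).
-/

open Finset

namespace Pool.Agent.H10S

open Pool.Agent.H7SH (young Killed alg_sg)
open Pool.Agent.H7CX (ZT WD)

variable {N : ℕ}

theorem aa1_let_comp {c L : Fin N → ℕ} (hL : ∀ i i', c i = c i' → L i = L i') {p : (Fin N → ℕ) → ℂ}
    (hp : IsLet L p) {g : Equiv.Perm (Fin N)} (hg : g ∈ young c) : IsLet L fun b => p (b ∘ g) := by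
  intro b hb i
  have h1 := hp _ hb (g.symm i)
  have h2 : c (g (g.symm i)) = c (g.symm i) := (Pool.Agent.H7SH.alg_mem.1 hg) _
  rw [Equiv.apply_symm_apply] at h2
  have h3 : (b ∘ g) (g.symm i) = b i := by simp
  rw [h3] at h1
  rw [hL _ _ h2]
  exact h1

theorem aa1_let_ZT {c L : Fin N → ℕ} (hL : ∀ i i', c i = c i' → L i = L i') (Z : Equiv.Perm (Fin N) → ℂ)
    {p : (Fin N → ℕ) → ℂ} (hp : IsLet L p) : IsLet L (ZT c Z p) := by
  intro b hb
  unfold Pool.Agent.H7CX.ZT at hb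
  obtain ⟨g, hg, hgb⟩ := Finset.exists_ne_zero_of_sum_ne_zero hb
  exact aa1_let_comp hL hp (Pool.Agent.H7SH.alg_inv hg) b fun h => hgb (by
    have h' : p (b ∘ g.symm) = 0 := h
    rw [h', mul_zero])

theorem aa1_let_star {c L : Fin N → ℕ} (hL : ∀ i i', c i = c i' → L i = L i') (Z : Equiv.Perm (Fin N) → ℂ)
    {p : (Fin N → ℕ) → ℂ} (hp : IsLet L p) : IsLet L (Pool.Agent.H7CX.al3_star c Z p) := by
  intro b hb
  unfold Pool.Agent.H7CX.al3_star at hb
  obtain ⟨g, hg, hgb⟩ := Finset.exists_ne_zero_of_sum_ne_zero hb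
  exact aa1_let_comp hL hp hg b fun h => hgb (by
    have h' : p (b ∘ g) = 0 := h
    rw [h', mul_zero])

/-- CHUNK AA1. PROOF. As `H7CX.zt_zero` (Lib/H7CX/AL3.lean) with the weights `e = fun _ => 1`: copy it (with its lemmas
`killed_comp`, `killed_sum`, `WD_comp`, `al3_star`, `al3_adj`, `al3_zero_of_norm`, which can be used as they are) and
check in addition that `al3_star c Z p` satisfies `IsLet L` if `p` does (`L` is constant on the classes of `c`, and
`b ∘ g` has letters `< L` iff `b` has, for `g ∈ young c`), and `ZT c Z r` too. -/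
theorem zt_zeroL {c L : Fin N → ℕ} (hL : ∀ i i', c i = c i' → L i = L i')
    (Z : Equiv.Perm (Fin N) → ℂ) (j : ℕ)
    (hZ : ∀ p, Killed c p → WD (fun _ => 1) j p → IsLet L p → ZT c Z p = 0)
    {r : (Fin N → ℕ) → ℂ} (hr : WD (fun _ => 1) j r) (hrL : IsLet L r)
    (hK : Killed c (ZT c Z r)) : ZT c Z r = 0 := by
  have he1 : ∀ i : Fin N, 1 ≤ (fun _ => 1 : Fin N → ℕ) i := fun _ => le_rfl
  have he : ∀ i i' : Fin N, c i = c i' → (fun _ => 1 : Fin N → ℕ) i = (fun _ => 1 : Fin N → ℕ) i' := fun _ _ _ => rfl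
  have hWD := Pool.Agent.H7CX.al3_WD_ZT he Z hr
  have hK2 : Killed c (Pool.Agent.H7CX.al3_star c Z (ZT c Z r)) :=
    Pool.Agent.H7CX.killed_sum (young c) (fun g => starRingEnd ℂ (Z g) * alg_sg g)
      (fun g b => ZT c Z r (b ∘ g)) fun g hg => Pool.Agent.H7CX.killed_comp hK hg
  have hWD2 : WD (fun _ => 1) j (Pool.Agent.H7CX.al3_star c Z (ZT c Z r)) := by
    intro b hb
    unfold Pool.Agent.H7CX.al3_star at hb
    obtain ⟨g, hg, hgb⟩ := Finset.exists_ne_zero_of_sum_ne_zero hb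
    exact Pool.Agent.H7CX.WD_comp he hWD hg b fun h => hgb (by
      have h' : ZT c Z r (b ∘ g) = 0 := h
      rw [h', mul_zero])
  have h1 := hZ _ hK2 hWD2 (aa1_let_star hL Z (aa1_let_ZT hL Z hrL))
  have h2 := Pool.Agent.H7CX.al3_adj he1 he Z j (Pool.Agent.H7CX.al3_star c Z (ZT c Z r)) (ZT c Z r)
  rw [h1] at h2
  simp only [Pi.zero_apply, map_zero, zero_mul, Finset.sum_const_zero] at h2
  have h3 := Pool.Agent.H7CX.al3_zero_of_norm h2.symm
  have h4 := Pool.Agent.H7CX.al3_adj he1 he Z j r (ZT c Z r)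
  have h5 : ∑ b ∈ Pool.Agent.H7CX.words (fun _ => 1) j,
      starRingEnd ℂ (r b) * Pool.Agent.H7CX.al3_star c Z (ZT c Z r) b = 0 :=
    Finset.sum_eq_zero fun b hb => by rw [h3 b hb, mul_zero]
  rw [h5] at h4
  have h6 := Pool.Agent.H7CX.al3_zero_of_norm h4
  funext b
  by_contra hb
  exact hb (h6 b ((Pool.Agent.H7CX.mem_words he1).2 (hWD b hb)))

end Pool.Agent.H10S
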