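import Mathlib
import Pool.Agent.Lib.H10S.AA1

/-!
CHUNK AA2 (M/L). Schur-Weyl duality: from the killed functions with bounded letters to the
orthogonality (pure algebra of words).
-/

open Finset

namespace Pool.Agent.H10S

open Pool.Agent.H7SH (young Killed alg_sg alg_T)
open Pool.Agent.H7CX (ZT WD rk)

variable {N : ℕ}

/-- PROOF. The letters of `b` are distinct on the classes of `c'` (`H7CX.inj_of_alt`), the sum of `b` is the sum of the
ranks, so `b` is a rearrangement of the ranks (`H7CX.weighted_eq`/`class_eq` with `e = 1`, `H7CX.exists_rearrangement`):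
`b i = rk c' (g i) < card` of the class (`H7CX.al1_rk_lt_card`) `≤ L i` (`g ∈ young c'`). -/
theorem aa2_letters {c' L : Fin N → ℕ}
    (hbig : ∀ i, (univ.filter fun i' => c' i' = c' i).card ≤ L i) {p : (Fin N → ℕ) → ℂ}
    {b : Fin N → ℕ} (hb : ∑ i, b i = ∑ i, rk c' i)
    (h : ∑ h ∈ young c', alg_sg h * p (b ∘ h) ≠ 0) (i : Fin N) : b i < L i := by
  have h1 := Pool.Agent.H7CX.inj_of_alt h
  have h2 := Pool.Agent.H7CX.class_eq (e := fun _ => 1) h1 (fun _ _ _ => rfl) (fun _ => le_rfl)
    (by simpa using hb)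
  obtain ⟨g, hg, hgb⟩ := Pool.Agent.H7CX.exists_rearrangement h1 h2
  have h3 : b i = rk c' (g i) := congrFun hgb i
  have h4 := Pool.Agent.H7CX.al1_rk_lt_card c' (g i)
  rw [(Pool.Agent.H7SH.alg_mem.1 hg) i] at h4
  rw [h3]
  exact lt_of_lt_of_le h4 (hbig i)

theorem aa2_comp_iff {c L : Fin N → ℕ} (hL : ∀ i i', c i = c i' → L i = L i') {g : Equiv.Perm (Fin N)}
    (hg : g ∈ young c) (b : Fin N → ℕ) : (∀ i, (b ∘ g) i < L i) ↔ ∀ i, b i < L i := by
  have h0 : ∀ i, L (g i) = L i := fun i => hL _ _ ((Pool.Agent.H7SH.alg_mem.1 hg) i)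
  constructor
  · intro h i
    have h1 := h (g.symm i)
    rw [← h0] at h1
    simpa using h1
  · intro h i
    rw [← h0]
    exact h (g i)

/-- CHUNK AA2. PROOF. As `H7CX.alg2` (Lib/H7CX/AL3.lean; copy its proof and adapt). Let
`z g = ∑ g' ∈ young c, Z g' * m (g' * g)`; it suffices that `z = 0` on `young c` (take `g = 1`). Suppose not. There is a least
`j` such that there is `q` with `WD (fun _ => 1) j q` and `alg_T c q z ≠ 0` (`H7CX.al3_exists`, `Nat.find`). The function
`alg_T c q z` is killed: `alg_L c k v` commutes with `alg_T` (`H7SH.alg_L_T`) and lowers the degree (as in `alg2`).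
`H7SH.specht` (or `H7CX.specht_w` with `e = 1`) gives `c'` refining `c` with `∑ i, rk c' i = j` and `b` with
`∑ h ∈ young c', sign h * (alg_T c q z) (b ∘ h) ≠ 0`; then `∑ b = j`. If some class of `c'` has more than `L` elements
this sum is zero by `hm` (the computation at the end of `alg2`). So `aa2_letters` applies: `b i < L i`, also for
`b ∘ h`, `h ∈ young c'`. Let `q' b = if ∀ i, b i < L i then q b else 0`. `alg_T c q' z b = if ∀ i, b i < L i then alg_T c q z b
else 0` (`L` is constant on the classes of `c`), so `alg_T c q' z ≠ 0` (it agrees with `alg_T c q z` at the `b ∘ h`),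
`WD 1 j q'`, so `alg_T c q' z` is killed by the same minimality argument. `alg_T c q' z = ZT c Z (alg_T c q' m)`
(`H7CX.al3_T_eq`), `WD`, `IsLet` of `alg_T c q' m` are clear (`H7CX.al3_alg_T_WD`), and `zt_zeroL` gives that it is zero:
contradiction. -/
theorem alg_sw {c L : Fin N → ℕ} (hL : ∀ i i', c i = c i' → L i = L i')
    (m Z : Equiv.Perm (Fin N) → ℂ)
    (hZ : ∀ j p, Killed c p → WD (fun _ => 1) j p → IsLet L p → ZT c Z p = 0)
    (hm : ∀ c' : Fin N → ℕ, (∀ i i', c' i = c' i' → c i = c i') →
      (∃ i, L i < (univ.filter fun i' => c' i' = c' i).card) →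
      ∀ g ∈ young c, ∀ g' ∈ young c, ∑ h ∈ young c', m (g' * h * g) = 0) :
    ∑ g ∈ young c, Z g * m g = 0 := by
  classical
  have he1 : ∀ i : Fin N, 1 ≤ (fun _ => 1 : Fin N → ℕ) i := fun _ => le_rfl
  have he : ∀ i i' : Fin N, c i = c i' → (fun _ => 1 : Fin N → ℕ) i = (fun _ => 1 : Fin N → ℕ) i' := fun _ _ _ => rfl
  set z : Equiv.Perm (Fin N) → ℂ := fun g => ∑ g' ∈ young c, Z g' * m (g' * g) with hz
  have hgoal : ∀ g ∈ young c, z g = 0 := by
    by_contra hcon
    push Not at hcon
    obtain ⟨g₀, hg₀, hz₀⟩ := hcon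
    have hex := Pool.Agent.H7CX.al3_exists c (fun _ => 1) z hg₀ hz₀
    set j := Nat.find hex with hj
    obtain ⟨q, hqD, hqT⟩ := Nat.find_spec hex
    rw [← hj] at hqD
    have hkillgen : ∀ q : (Fin N → ℕ) → ℂ, WD (fun _ => 1) j q → Killed c (alg_T c q z) := by
      intro q hqD
      rw [Pool.Agent.H7CX.al3_killed_iff]
      intro k v b
      change Pool.Agent.H7SH.alg_L c k v (alg_T c q z) b = 0
      rw [← Pool.Agent.H7SH.alg_L_T]
      by_contra hne
      have hne2 := hne
      unfold alg_T at hne2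
      obtain ⟨g, hg, hgb⟩ := Finset.exists_ne_zero_of_sum_ne_zero hne2
      have h1 : Pool.Agent.H7SH.alg_L c k v q (b ∘ g) ≠ 0 := fun h => hgb (by rw [h, mul_zero])
      obtain ⟨i₀, hi₀, hs₀⟩ := Pool.Agent.H7CX.al3_L hqD _ h1
      have hLD : WD (fun _ => 1) (j - 1) (Pool.Agent.H7SH.alg_L c k v q) := by
        intro b' hb'
        obtain ⟨i, hi, hs⟩ := Pool.Agent.H7CX.al3_L hqD _ hb'
        have hs2 : ∑ i, (fun _ => 1 : Fin N → ℕ) i * b' i + 1 = j := hs
        omega
      have hs2 : ∑ i, (fun _ => 1 : Fin N → ℕ) i * (b ∘ g) i + 1 = j := hs₀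
      have hmin := Nat.find_min hex (m := j - 1) (by omega)
      apply hmin
      exact ⟨Pool.Agent.H7SH.alg_L c k v q, hLD, fun h => hne (by rw [h]; rfl)⟩
    have hkill := hkillgen q hqD
    obtain ⟨c', hc', hnp, b, hb⟩ :=
      Pool.Agent.H7CX.specht_w he hqT hkill (Pool.Agent.H7CX.al3_alg_T_WD he hqD z)
    have hsub : ∀ h ∈ young c', h ∈ young c := by
      intro h hh
      rw [Pool.Agent.H7SH.alg_mem] at *
      intro i
      exact hc' _ _ (hh i)
    by_cases hbig : ∃ i, L i < (univ.filter fun i' => c' i' = c' i).card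
    · apply hb
      have h1 : ∀ h ∈ young c', alg_sg h * alg_T c q z (b ∘ h) =
          ∑ k ∈ young c, alg_sg k * q (b ∘ k) * z (h⁻¹ * k) := by
        intro h hh
        unfold alg_T
        rw [Finset.mul_sum]
        rw [Pool.Agent.H7SH.alg_left (Pool.Agent.H7SH.alg_inv (hsub h hh)) (fun g => alg_sg h *
          (z g * alg_sg g * q ((b ∘ h) ∘ g)))]
        refine Finset.sum_congr rfl fun k _ => ?_
        have h2 : (b ∘ h) ∘ (h⁻¹ * k : Equiv.Perm (Fin N)) = b ∘ k := by
          funext i
          simp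
        rw [h2, Pool.Agent.H7SH.alg_sg_mul, Pool.Agent.H7SH.alg_sg_inv]
        have h3 : alg_sg h * alg_sg h = 1 := by
          unfold alg_sg
          rcases Int.units_eq_one_or (Equiv.Perm.sign h) with h | h <;> rw [h] <;> simp
        calc alg_sg h * (z (h⁻¹ * k) * (alg_sg h * alg_sg k) * q (b ∘ k))
            = (alg_sg h * alg_sg h) * (z (h⁻¹ * k) * alg_sg k * q (b ∘ k)) := by ring
          _ = alg_sg k * q (b ∘ k) * z (h⁻¹ * k) := by rw [h3]; ring
      rw [Finset.sum_congr rfl h1, Finset.sum_comm]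
      refine Finset.sum_eq_zero fun k hk => ?_
      rw [← Finset.mul_sum]
      have h3 : ∑ h ∈ young c', z (h⁻¹ * k) = 0 := by
        simp only [hz]
        rw [Finset.sum_comm]
        refine Finset.sum_eq_zero fun g' hg' => ?_
        rw [← Finset.mul_sum]
        have h4 := hm c' hc' hbig k hk g' hg'
        rw [Pool.Agent.H7SH.alg_sum_inv] at h4
        have h5 : ∑ h ∈ young c', m (g' * (h⁻¹ * k)) = 0 := by
          rw [← h4]
          refine Finset.sum_congr rfl fun h _ => ?_
          rw [mul_assoc]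
        rw [h5, mul_zero]
      rw [h3, mul_zero]
    · push Not at hbig
      obtain ⟨h0, hh0, hne0⟩ := Finset.exists_ne_zero_of_sum_ne_zero hb
      have hne1 : alg_T c q z (b ∘ h0) ≠ 0 := fun h => hne0 (by rw [h, mul_zero])
      have hsum : ∑ i, b i = ∑ i, rk c' i := by
        have h1 := Pool.Agent.H7CX.al3_alg_T_WD he hqD z _ hne1
        have h2 : ∑ i, (b ∘ h0) i = ∑ i, b i := Equiv.sum_comp h0 b
        simp only [one_mul] at h1 hnp
        rw [← h2, h1, hnp]
      have hlet := aa2_letters hbig hsum hb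
      set q' : (Fin N → ℕ) → ℂ := fun b => if ∀ i, b i < L i then q b else 0 with hq'
      have hq'T : ∀ b, alg_T c q' z b = if ∀ i, b i < L i then alg_T c q z b else 0 := by
        intro b
        unfold alg_T
        have h1 : ∀ g ∈ young c, z g * alg_sg g * q' (b ∘ g) =
            if ∀ i, b i < L i then z g * alg_sg g * q (b ∘ g) else 0 := by
          intro g hg
          have h2 : q' (b ∘ g) = if ∀ i, b i < L i then q (b ∘ g) else 0 := by
            rw [hq']
            exact if_congr (aa2_comp_iff hL hg b) rfl rfl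
          rw [h2]
          split_ifs
          · rfl
          · rw [mul_zero]
        rw [Finset.sum_congr rfl h1]
        split_ifs
        · rfl
        · exact Finset.sum_const_zero
      have hq'D : WD (fun _ => 1) j q' := by
        intro b' hb'
        rw [hq'] at hb'
        by_cases h1 : ∀ i, b' i < L i
        · simp only [if_pos h1] at hb'
          exact hqD b' hb'
        · simp only [if_neg h1] at hb'
          exact absurd rfl hb'
      have hq'L : ∀ b', q' b' ≠ 0 → ∀ i, b' i < L i := by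
        intro b' hb'
        by_contra h1
        apply hb'
        rw [hq']
        exact if_neg h1
      have hletm : IsLet L (alg_T c q' m) := by
        intro b' hb'
        unfold alg_T at hb'
        obtain ⟨g, hg, hgb⟩ := Finset.exists_ne_zero_of_sum_ne_zero hb'
        have h1 : q' (b' ∘ g) ≠ 0 := fun h => hgb (by rw [h, mul_zero])
        exact (aa2_comp_iff hL hg b').1 (hq'L _ h1)
      have hkill' := hkillgen q' hq'D
      rw [hz, Pool.Agent.H7CX.al3_T_eq] at hkill'
      have h5 := zt_zeroL hL Z j (hZ j) (Pool.Agent.H7CX.al3_alg_T_WD he hq'D m) hletm hkill'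
      have h6 : alg_T c q' z = 0 := by
        rw [hz, Pool.Agent.H7CX.al3_T_eq]
        exact h5
      apply hne1
      have h7 := hq'T (b ∘ h0)
      rw [h6, if_pos ((aa2_comp_iff hL (hsub h0 hh0) b).2 hlet)] at h7
      exact h7.symm
  have h1 := hgoal 1 Pool.Agent.H7SH.alg_one
  simp only [hz, mul_one] at h1
  exact h1

end Pool.Agent.H10S
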