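import Mathlib
import Pool.Agent.Lib.H10S.Core

/-!
CHUNK AA3 (M). Orthogonality of the characters of the diagonal part.
-/

open Finset

namespace Pool.Agent.H10S

open Pool.Agent.Bloch (chi)

variable {N d : ℕ} [NeZero d]

/-- PROOF. `k ↦ (d / q) * k` is a bijection from `range q` to the `g` with `q * g = 0` (`ZMod d`, `q ∣ d`); the sum is
`∑ k < q, w ^ k` with `w = e (a * (d / q))`, `w ^ q = 1`: it is `q` if `w = 1` and `0` otherwise
(`geom_sum_eq`, `mul_neg_geom_sum`...). `w = 1` iff `d ∣ a.val * (d / q)` iff `q ∣ a.val` iff (as for `a = a₁ - a₂` with values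
`< q`) `a₁ = a₂`: here the statement is for the difference directly. -/
theorem aa3_one {q : ℕ} (hq : q ∣ d) {a₁ a₂ : ZMod d} (h1 : a₁.val < q) (h2 : a₂.val < q) :
    ∑ g ∈ (univ : Finset (ZMod d)).filter (fun g => (q : ZMod d) * g = 0),
      Bloch.e ((a₁ - a₂) * g) = if a₁ = a₂ then (q : ℂ) else 0 := by
  have hd : 0 < d := Nat.pos_of_ne_zero (NeZero.ne d)
  have hq0 : 0 < q := Nat.pos_of_dvd_of_pos hq hd
  obtain ⟨m, hm⟩ := hq
  have hm0 : 0 < m := by
    rcases Nat.eq_zero_or_pos m with h | h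
    · rw [h, mul_zero] at hm
      omega
    · exact h
  have hlt : ∀ k, k < q → m * k < d := by
    intro k hk
    rw [hm, mul_comm q m]
    exact Nat.mul_lt_mul_of_pos_left hk hm0
  have hval : ∀ k, k < q → ((m * k : ℕ) : ZMod d).val = m * k := fun k hk =>
    ZMod.val_cast_of_lt (hlt k hk)
  have e1 : ∑ g ∈ (univ : Finset (ZMod d)).filter (fun g => (q : ZMod d) * g = 0), Bloch.e ((a₁ - a₂) * g) =
      ∑ k ∈ range q, Bloch.e ((a₁ - a₂) * ((m * k : ℕ) : ZMod d)) := by
    symm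
    refine Finset.sum_bij (fun k _ => ((m * k : ℕ) : ZMod d)) ?_ ?_ ?_ ?_
    · intro k _
      rw [mem_filter]
      refine ⟨mem_univ _, ?_⟩
      rw [← Nat.cast_mul, ← mul_assoc, ← hm, Nat.cast_mul, ZMod.natCast_self, zero_mul]
    · intro k hk k' hk' h
      have h3 := congrArg ZMod.val h
      rw [hval k (mem_range.1 hk), hval k' (mem_range.1 hk')] at h3
      exact Nat.eq_of_mul_eq_mul_left hm0 h3
    · intro g hg
      rw [mem_filter] at hg
      have h3 : ((q * g.val : ℕ) : ZMod d) = 0 := by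
        rw [Nat.cast_mul, ZMod.natCast_zmod_val]
        exact hg.2
      rw [ZMod.natCast_eq_zero_iff] at h3
      have h4 : m ∣ g.val := by
        have h5 : q * m ∣ q * g.val := hm ▸ h3
        exact Nat.dvd_of_mul_dvd_mul_left hq0 h5
      obtain ⟨k, hk⟩ := h4
      refine ⟨k, ?_, ?_⟩
      · rw [mem_range]
        have h5 := ZMod.val_lt g
        rw [hk] at h5
        have h6 : m * k < m * q := by
          rw [mul_comm m q, ← hm]
          exact h5
        exact Nat.lt_of_mul_lt_mul_left h6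
      · rw [← hk, ZMod.natCast_zmod_val]
    · intro k _
      rfl
  have e2 : ∀ k : ℕ, Bloch.e ((a₁ - a₂) * ((m * k : ℕ) : ZMod d)) = Bloch.e ((a₁ - a₂) * (m : ZMod d)) ^ k := by
    intro k
    rw [← Bloch.e_nsmul, nsmul_eq_mul]
    congr 1
    push_cast
    ring
  rw [e1, sum_congr rfl fun k _ => e2 k]
  split_ifs with h
  · rw [h, sub_self, zero_mul, Bloch.e_zero]
    simp
  · have h3 : (a₁ - a₂) * (m : ZMod d) ≠ 0 := by
      intro h4
      rw [sub_mul, sub_eq_zero] at h4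
      have h5 : ((m * a₁.val : ℕ) : ZMod d) = ((m * a₂.val : ℕ) : ZMod d) := by
        rw [Nat.cast_mul, Nat.cast_mul, ZMod.natCast_zmod_val, ZMod.natCast_zmod_val, mul_comm, h4, mul_comm]
      have h6 := congrArg ZMod.val h5
      rw [hval _ h1, hval _ h2] at h6
      exact h (ZMod.val_injective d (Nat.eq_of_mul_eq_mul_left hm0 h6))
    have h4 : Bloch.e ((a₁ - a₂) * (m : ZMod d)) ≠ 1 := by
      intro h5
      rw [← Bloch.e_zero (d := d)] at h5
      exact h3 (Bloch.e_injective h5)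
    have h5 : Bloch.e ((a₁ - a₂) * (m : ZMod d)) ^ q = 1 := by
      rw [← Bloch.e_nsmul, nsmul_eq_mul]
      have : (q : ZMod d) * ((a₁ - a₂) * (m : ZMod d)) = (a₁ - a₂) * ((q * m : ℕ) : ZMod d) := by
        push_cast
        ring
      rw [this, ← hm, ZMod.natCast_self, mul_zero, Bloch.e_zero]
    have h6 := mul_geom_sum (Bloch.e ((a₁ - a₂) * (m : ZMod d))) q
    rw [h5, sub_self] at h6
    exact (mul_eq_zero.1 h6).resolve_left (sub_ne_zero.2 h4)

/-- PROOF. `k ↦ (k : ZMod d)` is a bijection from `range q` to the `a` with `a.val < q` (`q ≤ d`); the sum is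
`∑ k < q, e g ^ k`, `(e g) ^ q = e (q * g) = 1`. -/
theorem aa3_two {q : ℕ} (hq : q ∣ d) {g : ZMod d} (hg : (q : ZMod d) * g = 0) :
    ∑ a ∈ (univ : Finset (ZMod d)).filter (fun a => a.val < q), Bloch.e (a * g) =
      if g = 0 then (q : ℂ) else 0 := by
  have hd : 0 < d := Nat.pos_of_ne_zero (NeZero.ne d)
  have hqd : q ≤ d := Nat.le_of_dvd hd hq
  have hval : ∀ k, k < q → ((k : ℕ) : ZMod d).val = k := fun k hk =>
    ZMod.val_cast_of_lt (lt_of_lt_of_le hk hqd)
  have e1 : ∑ a ∈ (univ : Finset (ZMod d)).filter (fun a => a.val < q), Bloch.e (a * g) =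
      ∑ k ∈ range q, Bloch.e ((k : ZMod d) * g) := by
    symm
    refine Finset.sum_bij (fun k _ => (k : ZMod d)) ?_ ?_ ?_ ?_
    · intro k hk
      rw [mem_filter]
      refine ⟨mem_univ _, ?_⟩
      rw [hval k (mem_range.1 hk)]
      exact mem_range.1 hk
    · intro k hk k' hk' h
      have h3 := congrArg ZMod.val h
      rwa [hval k (mem_range.1 hk), hval k' (mem_range.1 hk')] at h3
    · intro a ha
      rw [mem_filter] at ha
      exact ⟨a.val, mem_range.2 ha.2, ZMod.natCast_zmod_val a⟩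
    · intro k _
      rfl
  have e2 : ∀ k : ℕ, Bloch.e ((k : ZMod d) * g) = Bloch.e g ^ k := by
    intro k
    rw [← Bloch.e_nsmul, nsmul_eq_mul]
  rw [e1, sum_congr rfl fun k _ => e2 k]
  split_ifs with h
  · rw [h, Bloch.e_zero]
    simp
  · have h4 : Bloch.e g ≠ 1 := by
      intro h5
      rw [← Bloch.e_zero (d := d)] at h5
      exact h (Bloch.e_injective h5)
    have h5 : Bloch.e g ^ q = 1 := by
      rw [← Bloch.e_nsmul, nsmul_eq_mul, hg, Bloch.e_zero]
    have h6 := mul_geom_sum (Bloch.e g) q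
    rw [h5, sub_self] at h6
    exact (mul_eq_zero.1 h6).resolve_left (sub_ne_zero.2 h4)

/-- PROOF. `TQ q d` is the `Fintype.piFinset` of the sets of `aa3_one`, `chi (a₁ - a₂) γ = ∏ i, e ((a₁ i - a₂ i) * γ i)`
(`Bloch.e_sum`), `Finset.prod_univ_sum`. See `H7CX.sum_chi_TF` (Lib/H7CX/AL5.lean). -/
theorem sum_chi_TQ {q : Fin N → ℕ} (hq : ∀ i, q i ∣ d) {a₁ a₂ : Fin N → ZMod d} (h1 : a₁ ∈ AQ q d)
    (h2 : a₂ ∈ AQ q d) :
    ∑ γ ∈ TQ q d, chi (a₁ - a₂) γ = if a₁ = a₂ then ∏ i, (q i : ℂ) else 0 := by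
  have e1 : TQ q d = Fintype.piFinset (fun i => (univ : Finset (ZMod d)).filter (fun g => (q i : ZMod d) * g = 0)) := by
    ext γ
    rw [TQ, mem_filter, Fintype.mem_piFinset]
    simp only [mem_univ, true_and, mem_filter]
  have e2 : ∀ γ : Fin N → ZMod d, chi (a₁ - a₂) γ = ∏ i, Bloch.e ((a₁ i - a₂ i) * γ i) := by
    intro γ
    rw [Bloch.chi, Bloch.e_sum]
    rfl
  have h1' : ∀ i, (a₁ i).val < q i := by
    rw [AQ, mem_filter] at h1
    exact h1.2
  have h2' : ∀ i, (a₂ i).val < q i := by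
    rw [AQ, mem_filter] at h2
    exact h2.2
  rw [e1, sum_congr rfl fun γ _ => e2 γ,
    ← Finset.prod_univ_sum (fun i => (univ : Finset (ZMod d)).filter (fun g => (q i : ZMod d) * g = 0))
      (fun i (g : ZMod d) => Bloch.e ((a₁ i - a₂ i) * g)),
    prod_congr rfl fun i _ => aa3_one (hq i) (h1' i) (h2' i)]
  split_ifs with h
  · exact prod_congr rfl fun i _ => if_pos (congrFun h i)
  · obtain ⟨i, hi⟩ := Function.ne_iff.1 h
    exact prod_eq_zero (mem_univ i) (if_neg hi)

/-- CHUNK AA3. PROOF. The same with `aa3_two`. -/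
theorem sum_chi_AQ {q : Fin N → ℕ} (hq : ∀ i, q i ∣ d) {γ : Fin N → ZMod d} (hγ : γ ∈ TQ q d) :
    ∑ a ∈ AQ q d, chi a γ = if γ = 0 then ∏ i, (q i : ℂ) else 0 := by
  have e1 : AQ q d = Fintype.piFinset (fun i => (univ : Finset (ZMod d)).filter (fun a => a.val < q i)) := by
    ext a
    rw [AQ, mem_filter, Fintype.mem_piFinset]
    simp only [mem_univ, true_and, mem_filter]
  have e2 : ∀ a : Fin N → ZMod d, chi a γ = ∏ i, Bloch.e (a i * γ i) := by
    intro a
    rw [Bloch.chi, Bloch.e_sum]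
  have h1' : ∀ i, (q i : ZMod d) * γ i = 0 := by
    rw [TQ, mem_filter] at hγ
    exact hγ.2
  rw [e1, sum_congr rfl fun a _ => e2 a,
    ← Finset.prod_univ_sum (fun i => (univ : Finset (ZMod d)).filter (fun a => a.val < q i))
      (fun i (a : ZMod d) => Bloch.e (a * γ i)),
    prod_congr rfl fun i _ => aa3_two (hq i) (h1' i)]
  split_ifs with h
  · exact prod_congr rfl fun i _ => if_pos (congrFun h i)
  · obtain ⟨i, hi⟩ := Function.ne_iff.1 h
    exact prod_eq_zero (mem_univ i) (if_neg hi)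

end Pool.Agent.H10S
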