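import Mathlib
import Pool.Agent.Lib.H10S.Core

/-!
CHUNK AA4 (M). The forms of a given character.
-/

open MvPolynomial Finset

namespace Pool.Agent.H10S

variable {N r d : ℕ} [NeZero d]

/-- the weight of the factor `i` -/
def aa4_w (i : Fin N) : Fin N × Bool → ℕ := fun p => if p.1 = i then 1 else 0

theorem aa4_X (i : Fin N) (l : Fin N) (β : Bool) :
    IsWeightedHomogeneous (aa4_w i) (X (l, β) : MvPolynomial (Fin N × Bool) ℂ) (if l = i then 1 else 0) :=
  isWeightedHomogeneous_X ℂ (aa4_w i) (l, β)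

theorem aa4_sum {ι : Type} (w : Fin N × Bool → ℕ) (S : Finset ι) (f : ι → MvPolynomial (Fin N × Bool) ℂ) (n : ℕ)
    (h : ∀ s ∈ S, IsWeightedHomogeneous w (f s) n) : IsWeightedHomogeneous w (∑ s ∈ S, f s) n := by
  rw [← mem_weightedHomogeneousSubmodule]
  exact Submodule.sum_mem _ fun s hs => (mem_weightedHomogeneousSubmodule ℂ w n _).2 (h s hs)

/-- the polynomials `U` -/
noncomputable def aa4_U (q : Fin N → ℕ) (lam : ℂ) (l : Fin N) (β : Bool) : MvPolynomial (Fin N × Bool) ℂ :=
  if q l = 1 then (if β then X (l, true) else X (l, false) + C lam * X (l, true)) else X (l, β) ^ q l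

theorem aa4_UH (q : Fin N → ℕ) (lam : ℂ) (l i : Fin N) (β : Bool) :
    IsWeightedHomogeneous (aa4_w i) (aa4_U q lam l β) (if l = i then q l else 0) := by
  unfold aa4_U
  by_cases h1 : q l = 1
  · rw [if_pos h1, h1]
    cases β
    · rw [if_neg (by simp)]
      refine IsWeightedHomogeneous.add (aa4_X i l false) ?_
      have h2 := (isWeightedHomogeneous_C (aa4_w i) lam).mul (aa4_X i l true)
      rw [zero_add] at h2
      exact h2
    · rw [if_pos rfl]
      exact aa4_X i l true
  · rw [if_neg h1]
    have h2 := (aa4_X i l β).pow (q l)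
    have h3 : (q l) • (if l = i then 1 else 0) = if l = i then q l else 0 := by
      split_ifs <;> simp
    rw [h3] at h2
    exact h2

theorem aa4_Uv (q : Fin N → ℕ) (lam : ℂ) (l : Fin N) (β : Bool) (x : Fin N × Bool → ℂ) :
    eval x (aa4_U q lam l β) = ww q lam x (l, β) := by
  unfold aa4_U ww
  by_cases h1 : q l = 1
  · rw [if_pos h1, if_pos h1]
    cases β
    · simp
    · simp
  · rw [if_neg h1, if_neg h1]
    simp

/-- the factors of the monomial -/
noncomputable def aa4_M (q : Fin N → ℕ) (a : Fin N → ZMod d) (l : Fin N) : MvPolynomial (Fin N × Bool) ℂ :=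
  if q l = 1 then 1 else if a l = 0 then X (l, false) ^ (q l - 1) * X (l, true) ^ (q l - 1)
    else X (l, false) ^ (q l - 1 - (a l).val) * X (l, true) ^ ((a l).val - 1)

/-- its degree -/
def aa4_dm (q : Fin N → ℕ) (a : Fin N → ZMod d) (l : Fin N) : ℕ :=
  if q l = 1 then 0 else if a l = 0 then (q l - 1) + (q l - 1) else (q l - 1 - (a l).val) + ((a l).val - 1)

theorem aa4_XX (i l : Fin N) (n m : ℕ) : IsWeightedHomogeneous (aa4_w i)
    (X (l, false) ^ n * X (l, true) ^ m : MvPolynomial (Fin N × Bool) ℂ) (if l = i then n + m else 0) := by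
  have h1 := ((aa4_X i l false).pow n).mul ((aa4_X i l true).pow m)
  have h2 : n • (if l = i then 1 else 0) + m • (if l = i then 1 else 0) = if l = i then n + m else 0 := by
    split_ifs <;> simp
  rw [h2] at h1
  exact h1

theorem aa4_MH (q : Fin N → ℕ) (a : Fin N → ZMod d) (l i : Fin N) :
    IsWeightedHomogeneous (aa4_w i) (aa4_M q a l) (if l = i then aa4_dm q a l else 0) := by
  unfold aa4_M aa4_dm
  by_cases h1 : q l = 1
  · rw [if_pos h1, if_pos h1, ite_self]
    exact isWeightedHomogeneous_one ℂ _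
  · rw [if_neg h1, if_neg h1]
    by_cases h2 : a l = 0
    · rw [if_pos h2, if_pos h2]
      exact aa4_XX i l _ _
    · rw [if_neg h2, if_neg h2]
      exact aa4_XX i l _ _

theorem aa4_Mv (q : Fin N → ℕ) (a : Fin N → ZMod d) (x : Fin N × Bool → ℂ) :
    eval x (∏ l, aa4_M q a l) = mua q a x := by
  rw [map_prod]
  unfold mua
  refine Finset.prod_congr rfl fun l _ => ?_
  unfold aa4_M
  split_ifs <;> simp

theorem aa4_prod (i : Fin N) (f : Fin N → MvPolynomial (Fin N × Bool) ℂ) (n : Fin N → ℕ)
    (h : ∀ l, IsWeightedHomogeneous (aa4_w i) (f l) (if l = i then n l else 0)) :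
    IsWeightedHomogeneous (aa4_w i) (∏ l, f l) (n i) := by
  have h1 := IsWeightedHomogeneous.prod (w := aa4_w i) (s := (univ : Finset (Fin N))) (φ := f)
    (n := fun l => if l = i then n l else 0) fun l _ => h l
  have h2 : ∑ l, (if l = i then n l else 0) = n i := by
    rw [Finset.sum_ite_eq' univ i n, if_pos (mem_univ i)]
  rw [h2] at h1
  exact h1

/-- PROOF. For every `i` the polynomials `U i false`, `U i true` (`X (i, β) ^ q i`, or `X (i, false) + C lam * X (i, true)` and
`X (i, true)` if `q i = 1`) are homogeneous of degree `q i` in the factor `i` and of degree `0` in the others, and the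
factor `i` of `mua` is homogeneous of degree `0`, `2 (q i - 1)`, `q i - 2` (cases `q i = 1`; `a i = 0`; `a i ≠ 0`) in the factor `i`.
`P = (∏ i, M i) * ∑ b ∈ wordsL L, C (p b) * ∏ i, U i false ^ (L i - 1 - b i) * U i true ^ b i`, of degree
`deg M i + q i * (L i - 1)` in the factor `i` (`b i ≤ L i - 1` for `b ∈ wordsL L`). With `∑ k, D k i = q i * E i`,
`E i ≥ 1`: if `a i = 0` then `L i = E i - 1 ≥ 1`, and the degree is `2 (q i - 1) + q i * (E i - 2) = q i * E i - 2` (also for
`q i = 1`); if `a i ≠ 0` then `q i ≥ 2` (`(a i).val < q i`, `(a i).val ≠ 0`), `L i = E i` and the degree is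
`(q i - 2) + q i * (E i - 1) = q i * E i - 2`. Values: clear (`ww`, `mua`, `PEL`). -/
theorem exists_formL {F : Fin r → MvPolynomial (Fin N × Bool) ℂ} {D : Fin r → Fin N → ℕ}
    {c q : Fin N → ℕ} (H : Hyp c q d F D) {a : Fin N → ZMod d} (ha : a ∈ AQ q d)
    (hL : ∀ i, 1 ≤ LL q D a i) (lam : ℂ) (p : (Fin N → ℕ) → ℂ) :
    ∃ (m : Fin N → ℕ) (P : MvPolynomial (Fin N × Bool) ℂ), MultiHom P m ∧
      (∀ i, m i + 2 = ∑ k, D k i) ∧ ∀ x : Fin N × Bool → ℂ,
        eval x P = mua q a x * PEL (LL q D a) p (ww q lam x) := by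
  set L := LL q D a with hLd
  refine ⟨fun i => aa4_dm q a i + q i * (L i - 1),
    (∏ l, aa4_M q a l) * ∑ b ∈ wordsL L, C (p b) * ∏ l, (aa4_U q lam l false ^ (L l - 1 - b l) * aa4_U q lam l true ^ b l), ?_, ?_, ?_⟩
  · intro i
    refine IsWeightedHomogeneous.mul (aa4_prod i _ _ fun l => aa4_MH q a l i) ?_
    refine aa4_sum _ _ _ _ fun b hb => ?_
    have hb' : ∀ l, b l < L l := fun l => mem_range.1 (Fintype.mem_piFinset.1 hb l)
    have h1 := aa4_prod i (fun l => aa4_U q lam l false ^ (L l - 1 - b l) * aa4_U q lam l true ^ b l)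
      (fun l => q l * (L l - 1)) fun l => by
        have h2 := ((aa4_UH q lam l i false).pow (L l - 1 - b l)).mul ((aa4_UH q lam l i true).pow (b l))
        have h3 : (L l - 1 - b l) • (if l = i then q l else 0) + b l • (if l = i then q l else 0) =
            if l = i then q l * (L l - 1) else 0 := by
          split_ifs
          · rw [smul_eq_mul, smul_eq_mul, ← add_mul, mul_comm]
            congr 1
            have := hb' l
            omega
          · simp
        rw [h3] at h2
        exact h2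
    have h2 := (isWeightedHomogeneous_C (aa4_w i) (p b)).mul h1
    rw [zero_add] at h2
    exact h2
  · intro i
    have hai : (a i).val < q i := by
      have h1 := (Finset.mem_filter.1 ha).2
      exact h1 i
    have hd : q i ∣ ∑ k, D k i := Finset.dvd_sum fun k _ => H.qD k i
    obtain ⟨E, hE⟩ := hd
    have hq : 0 < q i := by omega
    have hdiv : (∑ k, D k i) / q i = E := by
      rw [hE]
      exact Nat.mul_div_cancel_left E hq
    have hLi := hL i
    have hLe : L i = if a i = 0 then E - 1 else E := by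
      rw [hLd]
      unfold LL
      rw [hdiv]
    rw [hLe] at hLi
    show aa4_dm q a i + q i * (L i - 1) + 2 = ∑ k, D k i
    rw [hLe, hE]
    unfold aa4_dm
    by_cases h2 : a i = 0
    · rw [if_pos h2] at hLi
      rw [if_pos h2, if_pos h2]
      obtain ⟨E', rfl⟩ : ∃ E', E = E' + 2 := ⟨E - 2, by omega⟩
      have e1 : E' + 2 - 1 - 1 = E' := by omega
      rw [e1]
      by_cases h1 : q i = 1
      · rw [if_pos h1, h1]
        ring
      · rw [if_neg h1]
        obtain ⟨q', hq'⟩ : ∃ q', q i = q' + 1 := ⟨q i - 1, by omega⟩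
        rw [hq']
        have e2 : q' + 1 - 1 = q' := by omega
        rw [e2]
        ring
    · rw [if_neg h2] at hLi
      rw [if_neg h2, if_neg h2]
      have hv : (a i).val ≠ 0 := fun h => h2 ((ZMod.val_eq_zero _).1 h)
      rw [if_neg (by omega)]
      obtain ⟨E', rfl⟩ : ∃ E', E = E' + 1 := ⟨E - 1, by omega⟩
      have e1 : E' + 1 - 1 = E' := by omega
      have e2 : q i - 1 - (a i).val + ((a i).val - 1) + 2 = q i := by omega
      rw [e1, mul_add, mul_one]
      omega
  · intro x
    rw [map_mul, aa4_Mv, map_sum]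
    congr 1
    unfold PEL
    refine Finset.sum_congr rfl fun b _ => ?_
    rw [map_mul, eval_C, map_prod]
    congr 1
    refine Finset.prod_congr rfl fun l _ => ?_
    rw [map_mul, map_pow, map_pow, aa4_Uv, aa4_Uv]

end Pool.Agent.H10S
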