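import Mathlib
import Pool.Agent.Lib.H10S.Core

/-!
CHUNK GA1 (S/M). Scaling of the coordinates of the factors; the Segre embedding.
-/

open MvPolynomial Finset

namespace Pool.Agent.H10S

variable {N r d : ℕ} [NeZero d]

theorem ga1_deg {F : MvPolynomial (Fin N × Bool) ℂ} {D : Fin N → ℕ} (hF : MultiHom F D)
    {m : Fin N × Bool →₀ ℕ} (hm : coeff m F ≠ 0) (i : Fin N) : m (i, false) + m (i, true) = D i := by
  have h1 := hF i hm
  rw [← h1, Finsupp.weight_apply, Finsupp.sum_fintype _ _ (fun p => by simp)]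
  rw [Fintype.sum_prod_type, Finset.sum_eq_single i]
  · simp [add_comm]
  · intro j _ hj
    simp [hj]
  · intro h
    exact absurd (Finset.mem_univ i) h

/-- PROOF. `F = ∑ m ∈ F.support, monomial m (coeff m F)`, and for `m` in the support the weighted degree for
the weight of the factor `i` is `m (i, false) + m (i, true) = D i` (`Finsupp.weight` as a sum over
`Fin N × Bool`; only the two terms `(i, β)` are not zero). So
`∏ p, (ρ p.1 * x p) ^ m p = (∏ i, ρ i ^ (m (i, false) + m (i, true))) * ∏ p, x p ^ m p` (product over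
`Fin N × Bool` = iterated product, `Fintype.prod_prod_type`). Use `MvPolynomial.aeval_def`, `eval₂_eq'`. -/
theorem mh_scale {F : MvPolynomial (Fin N × Bool) ℂ} {D : Fin N → ℕ} (hF : MultiHom F D)
    {R : Type*} [CommRing R] [Algebra ℂ R] (ρ : Fin N → R) (x : Fin N × Bool → R) :
    aeval (fun p : Fin N × Bool => ρ p.1 * x p) F = (∏ i, ρ i ^ D i) * aeval x F := by
  rw [aeval_def, aeval_def, eval₂_eq', eval₂_eq', Finset.mul_sum]
  refine Finset.sum_congr rfl fun m hm => ?_
  have hd := ga1_deg hF (mem_support_iff.1 hm)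
  have h1 : ∏ p, (ρ p.1 * x p) ^ m p = (∏ i, ρ i ^ D i) * ∏ p, x p ^ m p := by
    rw [Finset.prod_congr rfl fun p _ => mul_pow _ _ _, Finset.prod_mul_distrib]
    congr 1
    rw [Fintype.prod_prod_type]
    refine Finset.prod_congr rfl fun i _ => ?_
    rw [Fintype.prod_bool, ← hd i, pow_add, mul_comm]
  rw [h1]
  ring

/-- PROOF. `Finset.prod_mul_distrib`. -/
theorem seg_scale {R : Type*} [CommRing R] (ρ : Fin N → R) (x : Fin N × Bool → R)
    (B : Fin N → Bool) : seg (fun p : Fin N × Bool => ρ p.1 * x p) B = (∏ i, ρ i) * seg x B := by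
  unfold seg
  rw [Finset.prod_mul_distrib]

/-- PROOF. Choose for every `i` a `β i` with `x (i, β i) ≠ 0`; conversely a product which is not zero has no
zero factor. -/
theorem seg_ne_zero {K : Type*} [Field K] {x : Fin N × Bool → K} : seg x ≠ 0 ↔ IsPoint x := by
  constructor
  · intro h i
    by_contra hcon
    push Not at hcon
    apply h
    funext B
    exact Finset.prod_eq_zero (Finset.mem_univ i) (hcon (B i))
  · intro h h0
    choose B hB using h
    have h1 := congrFun h0 B
    exact (Finset.prod_ne_zero_iff.2 fun i _ => hB i) h1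

/-- PROOF. `∏ l, x (l, update B₀ i β l)`: split off the factor `l = i` (`Finset.mul_prod_erase`). -/
theorem unseg_seg {R : Type*} [CommRing R] (x : Fin N × Bool → R) (B₀ : Fin N → Bool)
    (p : Fin N × Bool) :
    unseg B₀ (seg x) p = (∏ l ∈ univ.erase p.1, x (l, B₀ l)) * x p := by
  unfold unseg seg
  rw [← Finset.mul_prod_erase univ _ (Finset.mem_univ p.1), mul_comm]
  congr 1
  · refine Finset.prod_congr rfl fun l hl => ?_
    rw [Function.update_of_ne (Finset.ne_of_mem_erase hl)]
  · rw [Function.update_self]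

/-- PROOF. At `B`: `∏ i, (if B i then e (φ.1 i) else 1) * x (φ.2.symm i, B i)`; the first factors give
`e (∑ i, if B i then φ.1 i else 0)` (`Bloch.e_sum`), in the second ones substitute `i = φ.2 l`
(`Equiv.prod_comp`): `∏ l, x (l, B (φ.2 l)) = seg x (B ∘ φ.2)`, and
`(segAct φ).2.symm B = B ∘ φ.2` (`Equiv.arrowCongr`). -/
theorem seg_mact (φ : (Fin N → ZMod d) × Equiv.Perm (Fin N)) (x : Fin N × Bool → ℂ) :
    seg (mact φ x) = Bloch.act (segAct φ) (seg x) := by
  funext B
  show ∏ i, ((if B i then ZMod.stdAddChar (φ.1 i) else 1) * x (φ.2.symm i, B i)) =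
    ZMod.stdAddChar (∑ i, if B i then φ.1 i else 0) * ∏ i, x (i, (B ∘ φ.2) i)
  rw [Finset.prod_mul_distrib]
  congr 1
  · have h1 := Bloch.e_sum (univ : Finset (Fin N)) fun i => if B i then φ.1 i else 0
    refine Eq.trans ?_ h1.symm
    refine Finset.prod_congr rfl fun i _ => ?_
    by_cases h : B i = true
    · rw [if_pos h, if_pos h]
    · rw [if_neg h, if_neg h, Bloch.e_zero]
  · rw [← Equiv.prod_comp φ.2 fun i => x (φ.2.symm i, B i)]
    refine Finset.prod_congr rfl fun i _ => ?_
    rw [Equiv.symm_apply_apply]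
    rfl

/-- CHUNK GA1. PROOF. All lemmas of this file. `IsPoint` of the scaled point: clear. -/
theorem isPoint_scale {K : Type*} [Field K] {ρ : Fin N → K} (hρ : ∀ i, ρ i ≠ 0)
    {x : Fin N × Bool → K} (hx : IsPoint x) : IsPoint fun p : Fin N × Bool => ρ p.1 * x p := by
  intro i
  obtain ⟨β, hβ⟩ := hx i
  exact ⟨β, mul_ne_zero (hρ i) hβ⟩

end Pool.Agent.H10S
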