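import Mathlib
import Pool.Agent.Lib.H10S.GA1

/-!
CHUNK GA2 (M). The cone over the Segre image of `X` is closed.
-/

open MvPolynomial Finset

namespace Pool.Agent.H10S

variable {N r : ℕ} {F : Fin r → MvPolynomial (Fin N × Bool) ℂ} {D : Fin r → Fin N → ℕ}

theorem ga2_eval_scale (h : MD F D) (k : Fin r) (ρ : Fin N → ℂ) (x : Fin N × Bool → ℂ) :
    eval (fun p : Fin N × Bool => ρ p.1 * x p) (F k) = (∏ i, ρ i ^ D k i) * eval x (F k) := by
  exact mh_scale (h.hom k) ρ x

/-- PROOF. Apply `mh_scale` with `R = ℂ` (`aeval` over `ℂ` is `eval`: `MvPolynomial.coe_aeval_eq_eval` or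
`aeval_def`, `Algebra.algebraMap_self`), `isPoint_scale`. -/
theorem scale_XP (h : MD F D) {ρ : Fin N → ℂ} (hρ : ∀ i, ρ i ≠ 0) {x : Fin N × Bool → ℂ}
    (hx : x ∈ XP F) : (fun p : Fin N × Bool => ρ p.1 * x p) ∈ XP F := by
  refine ⟨isPoint_scale hρ hx.1, fun k => ?_⟩
  rw [ga2_eval_scale h, hx.2 k, mul_zero]

/-- PROOF. `seg` of the point of which the factor `0` is multiplied by `t` (`seg_scale`, `scale_XP` with
`ρ = Function.update 1 0 t`; `1 ≤ N`), product `t`. -/
theorem smul_SC (hN : 1 ≤ N) (h : MD F D) {t : ℂ} (ht : t ≠ 0) {y : (Fin N → Bool) → ℂ}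
    (hy : y ∈ SC F) : t • y ∈ SC F := by
  obtain ⟨x, hx, rfl⟩ := hy
  let i₀ : Fin N := ⟨0, hN⟩
  refine ⟨fun p : Fin N × Bool => (Function.update (fun _ => (1 : ℂ)) i₀ t) p.1 * x p,
    scale_XP h (fun i => ?_) hx, ?_⟩
  · by_cases hi : i = i₀
    · rw [hi, Function.update_self]
      exact ht
    · rw [Function.update_of_ne hi]
      exact one_ne_zero
  · funext B
    rw [seg_scale (Function.update (fun _ => (1 : ℂ)) i₀ t) x B, Pi.smul_apply, smul_eq_mul]
    congr 1
    rw [Finset.prod_eq_single i₀]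
    · rw [Function.update_self]
    · intro j _ hj
      rw [Function.update_of_ne hj]
    · intro hh
      exact absurd (Finset.mem_univ _) hh

theorem ga2_exch {R : Type*} [CommRing R] (x : Fin N → R) :
    ∏ i, ∏ l ∈ univ.erase i, x l = (∏ l, x l) ^ (N - 1) := by
  have h1 : ∀ i : Fin N, ∏ l ∈ univ.erase i, x l = ∏ l, if l = i then 1 else x l := by
    intro i
    rw [← Finset.mul_prod_erase univ _ (Finset.mem_univ i), if_pos rfl, one_mul]
    exact Finset.prod_congr rfl fun l hl => (if_neg (Finset.ne_of_mem_erase hl)).symm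
  rw [Finset.prod_congr rfl fun i _ => h1 i, Finset.prod_comm, ← Finset.prod_pow]
  refine Finset.prod_congr rfl fun l _ => ?_
  rw [← Finset.mul_prod_erase univ _ (Finset.mem_univ l), if_pos rfl, one_mul]
  rw [Finset.prod_congr rfl fun i hi => if_neg (Finset.ne_of_mem_erase hi).symm,
    Finset.prod_const, Finset.card_erase_of_mem (Finset.mem_univ _), Finset.card_univ,
    Fintype.card_fin]

theorem ga2_segre {R : Type*} [CommRing R] (x : Fin N × Bool → R) (B B₀ : Fin N → Bool) :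
    ∏ i, seg x (Function.update B₀ i (B i)) = seg x B * seg x B₀ ^ (N - 1) := by
  have h1 : ∀ i, seg x (Function.update B₀ i (B i)) =
      (∏ l ∈ univ.erase i, x (l, B₀ l)) * x (i, B i) := fun i => unseg_seg x B₀ (i, B i)
  rw [Finset.prod_congr rfl fun i _ => h1 i, Finset.prod_mul_distrib,
    ga2_exch (fun l => x (l, B₀ l)), mul_comm]
  rfl

theorem ga2_unseg_zero {R : Type*} [Zero R] (B₀ : Fin N → Bool) :
    unseg B₀ (0 : (Fin N → Bool) → R) = 0 := rfl

theorem ga2_eval_zero (hN : 1 ≤ N) (h : MD F D) (k : Fin r) : eval (0 : Fin N × Bool → ℂ) (F k) = 0 := by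
  have h1 := ga2_eval_scale h k (fun _ => 0) 0
  have h2 : (fun p : Fin N × Bool => (fun _ : Fin N => (0 : ℂ)) p.1 * (0 : Fin N × Bool → ℂ) p) = 0 := by
    funext p
    simp
  rw [h2] at h1
  rw [h1, Finset.prod_eq_zero (Finset.mem_univ (⟨0, hN⟩ : Fin N)), zero_mul]
  exact zero_pow (by have := h.pos k ⟨0, hN⟩; omega)

/-- PROOF. `→`. `y = 0`: both sides of the first equation are zero (`1 ≤ N`: the product over `i` has a factor),
and `unseg B₀ 0 = 0`, `eval 0 (F k) = 0` since `F k` has positive degree in the factor `0` (`mh_scale` with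
`ρ = 0`). `y = seg x`: `∏ i, y (update B₀ i (B i))`: by `unseg_seg`
`y (update B₀ i (B i)) = (∏ l ∈ univ.erase i, x (l, B₀ l)) * x (i, B i)`; the product over `i` of the second
factors is `y B`, and of the first factors `∏ i, ∏ l ∈ univ.erase i, x (l, B₀ l) = (∏ l, x (l, B₀ l)) ^ (N - 1)`
(exchange the products: every `l` occurs for the `N - 1` indices `i ≠ l`). And
`unseg B₀ y = fun p => ρ p.1 * x p` with `ρ i = ∏ l ∈ univ.erase i, x (l, B₀ l)`, so
`eval (unseg B₀ y) (F k) = (∏ ρ i ^ D k i) * 0` (`mh_scale`).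
`←`. Let `y ≠ 0`, `y B₀ ≠ 0`, `x = unseg B₀ y`. `x (i, B₀ i) = y B₀ ≠ 0` (`Function.update_eq_self`), so `x` is in
`XP F`, and `seg x B = ∏ i, y (update B₀ i (B i)) = y B * y B₀ ^ (N - 1)`: `y = (y B₀ ^ (N - 1))⁻¹ • seg x`, use
`smul_SC`. -/
theorem mem_insert_SC (hN : 1 ≤ N) (h : MD F D) {y : (Fin N → Bool) → ℂ} :
    y ∈ insert 0 (SC F) ↔
      (∀ B B₀ : Fin N → Bool, ∏ i, y (Function.update B₀ i (B i)) = y B * y B₀ ^ (N - 1)) ∧
        ∀ (B₀ : Fin N → Bool) (k : Fin r), eval (unseg B₀ y) (F k) = 0 := by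
  constructor
  · intro hy
    rcases hy with rfl | ⟨x, hx, rfl⟩
    · refine ⟨fun B B₀ => ?_, fun B₀ k => ?_⟩
      · rw [Finset.prod_eq_zero (Finset.mem_univ (⟨0, hN⟩ : Fin N)) rfl]
        simp
      · rw [ga2_unseg_zero]
        exact ga2_eval_zero hN h k
    · refine ⟨fun B B₀ => ga2_segre x B B₀, fun B₀ k => ?_⟩
      have h1 : unseg B₀ (seg x) =
          fun p : Fin N × Bool => (fun i => ∏ l ∈ univ.erase i, x (l, B₀ l)) p.1 * x p :=
        funext fun p => unseg_seg x B₀ p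
      rw [h1, ga2_eval_scale h k (fun i => ∏ l ∈ univ.erase i, x (l, B₀ l)) x, hx.2 k, mul_zero]
  · rintro ⟨h1, h2⟩
    by_cases hy : y = 0
    · exact Or.inl hy
    right
    obtain ⟨B₀, hB₀⟩ := Function.ne_iff.1 hy
    have hB₀' : y B₀ ≠ 0 := hB₀
    have h3 : seg (unseg B₀ y) = y B₀ ^ (N - 1) • y := by
      funext B
      show ∏ i, y (Function.update B₀ i (B i)) = _
      rw [h1 B B₀, Pi.smul_apply, smul_eq_mul, mul_comm]
    have h4 : unseg B₀ y ∈ XP F := by
      refine ⟨fun i => ⟨B₀ i, ?_⟩, fun k => h2 B₀ k⟩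
      show y (Function.update B₀ i (B₀ i)) ≠ 0
      rw [Function.update_eq_self]
      exact hB₀'
    have h5 : y = (y B₀ ^ (N - 1))⁻¹ • seg (unseg B₀ y) := by
      rw [h3, smul_smul, inv_mul_cancel₀ (pow_ne_zero _ hB₀'), one_smul]
    rw [h5]
    exact smul_SC hN h (inv_ne_zero (pow_ne_zero _ hB₀')) ⟨_, h4, rfl⟩

/-- CHUNK GA2. PROOF. By `mem_insert_SC` the set is an intersection of the zero sets of continuous functions
(`MvPolynomial.continuous_eval` composed with the continuous map `unseg B₀`; `isClosed_eq`,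
`isClosed_iInter`, `Set.setOf_and`, `Set.setOf_forall`). -/
theorem isClosed_SC (hN : 1 ≤ N) (h : MD F D) : IsClosed (insert 0 (SC F)) := by
  have h1 : insert 0 (SC F) = {y : (Fin N → Bool) → ℂ |
      (∀ B B₀ : Fin N → Bool, ∏ i, y (Function.update B₀ i (B i)) = y B * y B₀ ^ (N - 1)) ∧
        ∀ (B₀ : Fin N → Bool) (k : Fin r), eval (unseg B₀ y) (F k) = 0} := by
    ext y
    exact mem_insert_SC hN h
  rw [h1, Set.ofPred_and, Set.ofPred_forall, Set.ofPred_forall]
  refine IsClosed.inter (isClosed_iInter fun B => ?_) (isClosed_iInter fun B₀ => ?_)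
  · rw [Set.ofPred_forall]
    refine isClosed_iInter fun B₀ => isClosed_eq ?_ ?_
    · exact continuous_finsetProd _ fun i _ => continuous_apply _
    · exact (continuous_apply _).mul ((continuous_apply _).pow _)
  · rw [Set.ofPred_forall]
    refine isClosed_iInter fun k => isClosed_eq ?_ continuous_const
    have h2 : Continuous fun y : (Fin N → Bool) → ℂ => unseg B₀ y :=
      continuous_pi fun p => continuous_apply _
    exact (MvPolynomial.continuous_eval (F k)).comp h2

end Pool.Agent.H10S
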