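import Mathlib
import Pool.Agent.Lib.H10S.GA2

/-!
CHUNK GA3 (S/M). Class functions and scalars; transport to the Segre cone.
-/

open MvPolynomial Finset

namespace Pool.Agent.H10S

open Pool.Agent.Bloch (RespectsG lin fibre ProdForm)

variable {N r : ℕ} {F : Fin r → MvPolynomial (Fin N × Bool) ℂ} {D : Fin r → Fin N → ℕ}
  {φ : (Fin N × Bool → ℂ) → ℂ}

/-- PROOF. Apply `h` (a `RespectsG`) to `κ = Unit` (or `Fin 1`) and the constant family
`MvPolynomial.map Polynomial.C (lin (seg x))` (`Bloch.fibre_C`): its fibre `lin (seg x)` is a `ProdForm` of `x`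
(constant `1`) and of `y` (`lin (seg y) = C t * lin (seg x)`, `Bloch.lin_smul`; constant `t⁻¹`). See
`Bloch.Respects.smul`, `Bloch.Respects.const` in Lib/Bloch/Basic.lean. -/
theorem cls_scale (h : Cls F φ) {x y : Fin N × Bool → ℂ} (hx : x ∈ XP F) (hy : y ∈ XP F) {t : ℂ}
    (ht : t ≠ 0) (hs : ∀ B, seg y B = t * seg x B) : φ y = φ x := by
  have h1 : seg y = t • seg x := funext hs
  have hxx : ProdForm (lin (seg x)) (fun _ : Unit => seg x) :=
    ⟨1, one_ne_zero, by rw [Fintype.prod_unique, C_1, one_mul]⟩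
  have hyy : ProdForm (lin (seg x)) (fun _ : Unit => seg y) := by
    refine ⟨t⁻¹, inv_ne_zero ht, ?_⟩
    rw [Fintype.prod_unique, h1, Bloch.lin_smul, ← mul_assoc, ← C_mul, inv_mul_cancel₀ ht, C_1,
      one_mul]
  have h2 := h Unit (MvPolynomial.map Polynomial.C (lin (seg x)))
    (fun t => ⟨fun _ => x, fun _ => hx, by rw [Bloch.fibre_C]; exact hxx⟩) 0 0
    (fun _ => y) (fun _ => x) (fun _ => hy) (by rw [Bloch.fibre_C]; exact hyy)
    (fun _ => hx) (by rw [Bloch.fibre_C]; exact hxx)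
  simpa using h2

/-- PROOF. `scale_XP`, `seg_scale`, `cls_scale` (`∏ ρ i ≠ 0`). -/
theorem cls_rho (hF : MD F D) (h : Cls F φ) {x : Fin N × Bool → ℂ} (hx : x ∈ XP F)
    {ρ : Fin N → ℂ} (hρ : ∀ i, ρ i ≠ 0) : φ (fun p : Fin N × Bool => ρ p.1 * x p) = φ x := by
  refine cls_scale h hx (scale_XP hF hρ hx) (t := ∏ i, ρ i)
    (Finset.prod_ne_zero_iff.2 fun i _ => hρ i) fun B => ?_
  unfold seg
  rw [← Finset.prod_mul_distrib]

/-- CHUNK GA3. PROOF. `sec y` is a chosen `x ∈ XP F` with `seg x = y` for `y ∈ SC F` (classical choice, `0`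
elsewhere). `RespectsG.pull` with `Φ = sec`, `τ' = seg`, the identity matrix
`T k l = if k = l then 1 else 0` gives that `fun y => φ (sec y)` respects. -/
theorem cls_sec (h : Cls F φ) : ∃ sec : ((Fin N → Bool) → ℂ) → (Fin N × Bool → ℂ),
    (∀ y ∈ SC F, sec y ∈ XP F ∧ seg (sec y) = y) ∧
      RespectsG (SC F) (fun y : (Fin N → Bool) → ℂ => y) fun y => φ (sec y) := by
  classical
  let sec : ((Fin N → Bool) → ℂ) → (Fin N × Bool → ℂ) := fun y =>
    if hy : y ∈ SC F then hy.choose else 0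
  have hsec : ∀ y ∈ SC F, sec y ∈ XP F ∧ seg (sec y) = y := by
    intro y hy
    have h1 : sec y = hy.choose := dif_pos hy
    rw [h1]
    exact ⟨hy.choose_spec.1, hy.choose_spec.2.symm⟩
  refine ⟨sec, hsec, ?_⟩
  refine Bloch.RespectsG.pull (S := SC F) (τ := fun y : (Fin N → Bool) → ℂ => y) h sec
    (fun k l => if k = l then 1 else 0) (fun y hy => (hsec y hy).1) fun y hy => ?_
  show seg (sec y) = _
  rw [(hsec y hy).2]
  funext l
  simp

end Pool.Agent.H10S
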