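import Mathlib
import Pool.Agent.Lib.H10S.GA3

/-!
CHUNK ML1 (S/M). The group acting on the points and on the class functions.
-/

open MvPolynomial Finset

namespace Pool.Agent.H10S

open Pool.Agent.Bloch (RespectsG chi)
open Pool.Agent.H7CX (gmul)

variable {N r d : ℕ} [NeZero d] {c q : Fin N → ℕ} {F : Fin r → MvPolynomial (Fin N × Bool) ℂ}
  {D : Fin r → Fin N → ℕ} {φ : (Fin N × Bool → ℂ) → ℂ}

/-- PROOF. `AddChar.map_add_eq_mul`; cases on `p.2`. -/
theorem mact_gmul (φ ψ : (Fin N → ZMod d) × Equiv.Perm (Fin N)) (x : Fin N × Bool → ℂ) :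
    mact (gmul φ ψ) x = mact φ (mact ψ x) := by
  funext p
  obtain ⟨i, β⟩ := p
  cases β
  · show (1 : ℂ) * x ((gmul φ ψ).2.symm i, false) = 1 * (1 * x (ψ.2.symm (φ.2.symm i), false))
    rw [one_mul, one_mul, one_mul]
    rfl
  · show ZMod.stdAddChar ((gmul φ ψ).1 i) * x ((gmul φ ψ).2.symm i, true) =
      ZMod.stdAddChar (φ.1 i) * (ZMod.stdAddChar (ψ.1 (φ.2.symm i)) *
        x (ψ.2.symm (φ.2.symm i), true))
    rw [← mul_assoc, ← AddChar.map_add_eq_mul]
    rfl

theorem mact_one (x : Fin N × Bool → ℂ) :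
    mact ((0 : Fin N → ZMod d), (1 : Equiv.Perm (Fin N))) x = x := by
  funext p
  show (if p.2 then ZMod.stdAddChar (0 : ZMod d) else 1) * x (p.1, p.2) = x p
  rw [AddChar.map_zero_eq_one, ite_self, one_mul]

/-- PROOF. `IsInvariant`; the image is a point (use the factor `ψ.2.symm i`, `Bloch.e_ne_zero`). -/
theorem mact_XPc (hinv : IsInvariant c q d F) {ψ : (Fin N → ZMod d) × Equiv.Perm (Fin N)}
    (hψ : InGroup c q ψ) {x : Fin N × Bool → ℂ} (hx : x ∈ XP F) : mact ψ x ∈ XP F := by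
  refine ⟨fun i => ?_, fun k => ?_⟩
  · obtain ⟨β, hβ⟩ := hx.1 (ψ.2.symm i)
    refine ⟨β, ?_⟩
    show (if β then ZMod.stdAddChar (ψ.1 i) else 1) * x (ψ.2.symm i, β) ≠ 0
    refine mul_ne_zero ?_ hβ
    split_ifs
    · exact Bloch.e_ne_zero _
    · exact one_ne_zero
  · rw [hinv k ψ hψ x]
    exact hx.2 k

/-- CHUNK ML1. PROOF. `RespectsG.pull` with `Φ = mact ψ`, and the matrix
`T B B' = if (segAct ψ).2.symm B' = B then e ((segAct ψ).1 B') else 0` (`seg_mact`; as `H7CX.respects_act` in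
Lib/H7CX/AL8.lean). -/
theorem cls_mact (hinv : IsInvariant c q d F) (h : Cls F φ)
    {ψ : (Fin N → ZMod d) × Equiv.Perm (Fin N)} (hψ : InGroup c q ψ) :
    Cls F fun x => φ (mact ψ x) := by
  classical
  refine Bloch.RespectsG.pull (S := XP F) (τ := fun x : Fin N × Bool → ℂ => seg x) h (mact ψ)
    (fun k l => if (segAct ψ).2.symm l = k then Bloch.e ((segAct ψ).1 l) else 0)
    (fun x hx => mact_XPc hinv hψ hx) fun x _ => ?_
  show seg (mact ψ x) = fun l => ∑ k, seg x k *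
    (if (segAct ψ).2.symm l = k then Bloch.e ((segAct ψ).1 l) else 0)
  rw [seg_mact]
  funext l
  rw [Finset.sum_eq_single ((segAct ψ).2.symm l)]
  · rw [if_pos rfl, mul_comm]
    rfl
  · intro k _ hk
    rw [if_neg (fun h => hk h.symm), mul_zero]
  · intro h
    exact absurd (mem_univ _) h

end Pool.Agent.H10S
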