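import Mathlib
import Pool.Agent.Lib.H10S.AA3
import Pool.Agent.Lib.H10S.AA4
import Pool.Agent.Lib.H10S.ML1

/-!
CHUNK AA5 (M/L). The hypothesis on the top forms, for the forms of a given character.
-/

open MvPolynomial Finset

namespace Pool.Agent.H10S

open Pool.Agent.Bloch (chi)
open Pool.Agent.H7SH (young Killed alg_sg)
open Pool.Agent.H7CX (ca ca_eq)

variable {N r d : ℕ} [NeZero d] {c q : Fin N → ℕ} {F : Fin r → MvPolynomial (Fin N × Bool) ℂ}
  {D : Fin r → Fin N → ℕ}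

theorem aa5_chi (a γ : Fin N → ZMod d) : chi a γ = ∏ i, Bloch.e (a i * γ i) := by
  rw [Bloch.chi, Bloch.e_sum]

theorem aa5_TQ {γ : Fin N → ZMod d} : γ ∈ TQ q d ↔ ∀ i, (q i : ZMod d) * γ i = 0 := by
  simp [TQ]

theorem aa5_AQ {a : Fin N → ZMod d} : a ∈ AQ q d ↔ ∀ i, (a i).val < q i := by
  simp [AQ]

theorem aa5_f (η : Fin N → ZMod d) (σ : Equiv.Perm (Fin N)) (z : Fin N × Bool → ℂ) (i : Fin N) :
    mact (η, σ) z (i, false) = z (σ.symm i, false) := by
  show (if false = true then ZMod.stdAddChar (η i) else 1) * z (σ.symm i, false) = _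
  simp

theorem aa5_t (η : Fin N → ZMod d) (σ : Equiv.Perm (Fin N)) (z : Fin N × Bool → ℂ) (i : Fin N) :
    mact (η, σ) z (i, true) = Bloch.e (η i) * z (σ.symm i, true) := by
  show (if true = true then ZMod.stdAddChar (η i) else 1) * z (σ.symm i, true) = _
  rw [if_pos rfl]

theorem aa5_0 (σ : Equiv.Perm (Fin N)) (z : Fin N × Bool → ℂ) (i : Fin N) (β : Bool) :
    mact ((0 : Fin N → ZMod d), σ) z (i, β) = z (σ.symm i, β) := by
  cases β
  · rw [aa5_f]
  · rw [aa5_t, Pi.zero_apply, Bloch.e_zero, one_mul]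

/-- PROOF. `mact (η, σ) z = mact (η, 1) (mact (0, σ) z)`. `ww`: for `q i ≠ 1` the coordinate `(i, true)` is multiplied by
`e (η i) ^ q i = 1`, for `q i = 1` `η i = 0`. `mua`: the factor `i` is multiplied by `e (η i) ^ (q i - 1) = e (- η i)` if
`a i = 0`, by `e (η i) ^ ((a i).val - 1)` if `a i ≠ 0`, and `η i = 0`, if `q i = 1` (then also `a i = 0`): always by
`e ((a i - 1) * η i)`. -/
theorem aa5_eval {a : Fin N → ZMod d} (ha : a ∈ AQ q d) {η : Fin N → ZMod d} (hη : η ∈ TQ q d)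
    (L : Fin N → ℕ) (lam : ℂ) (p : (Fin N → ℕ) → ℂ) (σ : Equiv.Perm (Fin N))
    (z : Fin N × Bool → ℂ) :
    mua q a (mact (η, σ) z) * PEL L p (ww q lam (mact (η, σ) z)) =
      chi (fun i => a i - 1) η * (mua q a (mact ((0 : Fin N → ZMod d), σ) z) *
        PEL L p (ww q lam (mact ((0 : Fin N → ZMod d), σ) z))) := by
  rw [aa5_TQ] at hη
  rw [aa5_AQ] at ha
  have hη1 : ∀ i, q i = 1 → η i = 0 := by
    intro i hi
    have := hη i
    rwa [hi, Nat.cast_one, one_mul] at this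
  have h1 : ww q lam (mact (η, σ) z) = ww q lam (mact ((0 : Fin N → ZMod d), σ) z) := by
    funext p
    obtain ⟨i, β⟩ := p
    unfold ww
    by_cases hi : q i = 1
    · simp only [hi, if_true, aa5_f, aa5_t, hη1 i hi, Pi.zero_apply]
    · simp only [hi, if_false]
      cases β
      · rw [aa5_f, aa5_f]
      · rw [aa5_t, aa5_t, mul_pow, mul_pow, ← Bloch.e_nsmul, nsmul_eq_mul, hη i, ← Bloch.e_nsmul, Pi.zero_apply, smul_zero]
  have h2 : mua q a (mact (η, σ) z) = chi (fun i => a i - 1) η * mua q a (mact ((0 : Fin N → ZMod d), σ) z) := by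
    rw [aa5_chi]
    unfold mua
    rw [← Finset.prod_mul_distrib]
    refine Finset.prod_congr rfl fun i _ => ?_
    rw [aa5_f, aa5_f, aa5_t, aa5_t, Pi.zero_apply, Bloch.e_zero, one_mul]
    by_cases hi : q i = 1
    · rw [if_pos hi, if_pos hi, hη1 i hi, mul_zero, Bloch.e_zero, one_mul]
    · rw [if_neg hi, if_neg hi]
      by_cases h3 : a i = 0
      · rw [if_pos h3, if_pos h3, mul_pow, ← Bloch.e_nsmul, nsmul_eq_mul, Nat.cast_sub (by have := ha i; omega), sub_mul, hη i, h3,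
          Nat.cast_one, one_mul]
        have h4 : (0 : ZMod d) - η i = (0 - 1) * η i := by ring
        rw [h4]
        ring
      · rw [if_neg h3, if_neg h3, mul_pow, ← Bloch.e_nsmul, nsmul_eq_mul]
        have h5 : (a i).val ≠ 0 := fun h => h3 ((ZMod.val_eq_zero _).1 h)
        rw [Nat.cast_sub (by omega), ZMod.natCast_zmod_val, Nat.cast_one]
        ring
  rw [h1, h2]
  ring

theorem aa5_mua {a : Fin N → ZMod d} (hq : ∀ i j, c i = c j → q i = q j) {s : Equiv.Perm (Fin N)} (hs : s ∈ young (ca c a))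
    (x : Fin N × Bool → ℂ) : mua q a (mact ((0 : Fin N → ZMod d), s) x) = mua q a x := by
  have h2 : ∀ i, ca c a (s i) = ca c a i := H7SH.alg_mem.1 hs
  unfold mua
  rw [← Equiv.prod_comp s]
  refine Finset.prod_congr rfl fun i _ => ?_
  rw [aa5_0, aa5_0, Equiv.symm_apply_apply, (ca_eq.1 (h2 i)).2, hq _ _ (ca_eq.1 (h2 i)).1]

theorem aa5_young {σ : Equiv.Perm (Fin N)} (hσ : σ ∈ young c) (hq : ∀ i j, c i = c j → q i = q j) (i : Fin N) :
    q (σ i) = q i := hq _ _ (H7SH.alg_mem.1 hσ i)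

theorem aa5_tw (a : Fin N → ZMod d) (γ : Fin N → ZMod d) :
    (∏ i, Bloch.e (γ i)) * chi (fun i => a i - 1) γ = chi a γ := by
  rw [aa5_chi, aa5_chi, ← Finset.prod_mul_distrib]
  refine Finset.prod_congr rfl fun i _ => ?_
  rw [← Bloch.e_add]
  congr 1
  ring

theorem aa5_chi_sub (a a' γ : Fin N → ZMod d) :
    chi (fun i => a i - 1) γ * chi (fun i => a' i - 1) (-γ) = chi (a - a') γ := by
  rw [aa5_chi, aa5_chi, aa5_chi, ← Finset.prod_mul_distrib]
  refine Finset.prod_congr rfl fun i _ => ?_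
  rw [← Bloch.e_add]
  congr 1
  rw [Pi.neg_apply, Pi.sub_apply]
  ring

/-- CHUNK AA5. PROOF. If some `LL q D a i = 0` then `wordsL` is empty and `PEL = 0`. Otherwise let `P` be the form of
`exists_formL`. As `H7CX.forms_point` (Lib/H7CX/AL5.lean; adapt its proof, `TF` replaced by `TQ q d`, `sum_chi_TF` by
`sum_chi_TQ`). For `(γ, σ)` in the group `Bloch.detAct (γ, σ) * eval (mact (γ, σ) y) P = sign σ * (∏ i, e (γ i)) *
chi (a - 1) γ * eval (mact (0, σ) y) P` (`aa5_eval`) `= sign σ * chi a γ * eval (mact (0, σ) y) P`. Let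
`x₁ = mact (0, σ₀⁻¹) x`, in `XP F`, and for `γ' ∈ TQ q d` let `y = mact (γ', 1) x₁`, in `XP F` (`mact_XPc`). `mact (γ, σ) y =
mact (γ + γ' ∘ σ⁻¹, σ) x₁` (`mact_gmul`), so the hypothesis `hZ` at `y` is
`∑ σ ∈ young c, zhat a σ * sign σ * chi (a - 1) (γ' ∘ σ⁻¹) * eval (mact (0, σ) x₁) P = 0`, where
`chi (a - 1) (γ' ∘ σ⁻¹) = chi ((a - 1) ∘ σ) γ'` (`Bloch.chi_comp`). Multiply by `chi ((a - 1) ∘ σ₀) (-γ')`, sum over
`γ' ∈ TQ q d`: `sum_chi_TQ` for `a ∘ σ` and `a ∘ σ₀` (in `AQ q d` since `q` is constant on the classes): only the `σ` with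
`a ∘ σ = a ∘ σ₀` remain, `σ = s * σ₀` with `s ∈ young (ca c a)`. `mact (0, s * σ₀) x₁ = mact (0, s) x`,
`mua q a (mact (0, s) x) = mua q a x` (`s` preserves `a` and `q`; reindex the product). Divide by `sign σ₀ * ∏ i, q i`. -/
theorem forms_pt (H : Hyp c q d F D)
    {Z : (Fin N → ZMod d) × Equiv.Perm (Fin N) → ℚ} (hZc : ∀ φ, Z φ ≠ 0 → InGroup c q φ)
    (hZ : KillsTopForms F D Z) {a : Fin N → ZMod d} (ha : a ∈ AQ q d) (lam : ℂ)
    (p : (Fin N → ℕ) → ℂ) {σ₀ : Equiv.Perm (Fin N)} (hσ₀ : σ₀ ∈ young c)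
    {x : Fin N × Bool → ℂ} (hx : x ∈ XP F) :
    mua q a x * ∑ s ∈ young (ca c a), Bloch.zhat (fun φ => (Z φ : ℂ)) a (s * σ₀) * alg_sg s *
      PEL (LL q D a) p (ww q lam (mact ((0 : Fin N → ZMod d), s) x)) = 0 := by
  by_cases hL : ∀ i, 1 ≤ LL q D a i
  swap
  · push Not at hL
    obtain ⟨i, hi⟩ := hL
    have h0 : wordsL (LL q D a) = ∅ := by
      rw [Finset.eq_empty_iff_forall_notMem]
      intro b hb
      have h1 := mem_range.1 (Fintype.mem_piFinset.1 hb i)
      omega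
    have h1 : ∀ w, PEL (LL q D a) p w = 0 := by
      intro w
      unfold PEL
      rw [h0, Finset.sum_empty]
    rw [Finset.sum_eq_zero fun s _ => by rw [h1, mul_zero], mul_zero]
  obtain ⟨m, P, hPh, hm, hP⟩ := exists_formL H ha hL lam p
  have hZP : ∀ y ∈ XP F, ∑ φ, (Z φ : ℂ) * Bloch.detAct φ * eval (mact φ y) P = 0 :=
    fun y hy => hZ m P hPh hm y hy.1 hy.2
  have haQ := aa5_AQ.1 ha
  have hyoung₀ : ∀ i, c (σ₀ i) = c i := H7SH.alg_mem.1 hσ₀
  -- the point `x₁`
  have hinv₀ : InGroup c q ((0 : Fin N → ZMod d), σ₀⁻¹) := by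
    refine ⟨fun i => mul_zero _, fun i => ?_⟩
    show c (σ₀.symm i) = c i
    have h := hyoung₀ (σ₀.symm i)
    rw [Equiv.apply_symm_apply] at h
    exact h.symm
  set x₁ : Fin N × Bool → ℂ := mact ((0 : Fin N → ZMod d), σ₀⁻¹) x with hx₁
  have hx₁c : x₁ ∈ XP F := mact_XPc H.inv hinv₀ hx
  set E : Equiv.Perm (Fin N) → ℂ := fun σ => eval (mact ((0 : Fin N → ZMod d), σ) x₁) P with hE
  set G : Equiv.Perm (Fin N) → ℂ := fun σ =>
    Bloch.zhat (fun φ => (Z φ : ℂ)) a σ * alg_sg σ * E σ with hG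
  -- the identity at the translates of `x₁`
  have hkey : ∀ γ' ∈ TQ q d, ∑ σ ∈ young c, G σ * chi (fun i => a (σ i) - 1) γ' = 0 := by
    intro γ' hγ'
    have hG' : InGroup c q (γ', (1 : Equiv.Perm (Fin N))) :=
      ⟨aa5_TQ.1 hγ', fun i => rfl⟩
    have h1 := hZP _ (mact_XPc H.inv hG' hx₁c)
    rw [Fintype.sum_prod_type_right] at h1
    rw [← h1, ← Finset.sum_subset (Finset.subset_univ (young c))]
    · refine Finset.sum_congr rfl fun σ hσ => ?_
      have hσ' : ∀ i, c (σ i) = c i := H7SH.alg_mem.1 hσ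
      rw [hG]
      show Bloch.zhat (fun φ => (Z φ : ℂ)) a σ * alg_sg σ * E σ * _ = _
      unfold Bloch.zhat
      rw [Finset.sum_mul, Finset.sum_mul, Finset.sum_mul]
      refine Finset.sum_congr rfl fun γ _ => ?_
      by_cases hZ0 : Z (γ, σ) = 0
      · simp [hZ0]
      · have hin := hZc _ hZ0
        have hγ : γ ∈ TQ q d := aa5_TQ.2 hin.1
        have h2 : mact (γ, σ) (mact (γ', (1 : Equiv.Perm (Fin N))) x₁) =
            mact (γ + fun i => γ' (σ.symm i), σ) x₁ := by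
          rw [← mact_gmul]
          congr 1
        have h3 : (γ + fun i => γ' (σ.symm i)) ∈ TQ q d := by
          rw [aa5_TQ] at hγ hγ' ⊢
          intro i
          rw [Pi.add_apply, mul_add, hγ i, zero_add]
          have h4 := hγ' (σ.symm i)
          have h5 := aa5_young hσ H.qcls (σ.symm i)
          rw [Equiv.apply_symm_apply] at h5
          rw [h5]
          exact h4
        have h5 : chi (fun i => a i - 1) (fun i => γ' (σ.symm i)) =
            chi (fun i => a (σ i) - 1) γ' := by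
          rw [← Bloch.chi_comp (fun i => a i - 1) (fun i => γ' (σ.symm i)) σ]
          congr 1
          funext i
          show γ' (σ.symm (σ i)) = γ' i
          rw [Equiv.symm_apply_apply]
        have h6 : Bloch.detAct (γ, σ) = alg_sg σ * ∏ i, Bloch.e (γ i) := rfl
        have h7 : eval (mact (γ + fun i => γ' (σ.symm i), σ) x₁) P =
            chi (fun i => a i - 1) (γ + fun i => γ' (σ.symm i)) * eval (mact ((0 : Fin N → ZMod d), σ) x₁) P := by
          rw [hP, hP]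
          exact aa5_eval ha h3 _ lam p σ x₁
        rw [h2, h7, Bloch.chi_add, h5, h6, ← aa5_tw a γ]
        ring
    · intro σ _ hσ
      refine Finset.sum_eq_zero fun γ _ => ?_
      have hZ0 : Z (γ, σ) = 0 := by
        by_contra hne
        exact hσ (H7SH.alg_mem.2 (hZc _ hne).2)
      simp [hZ0]
  -- orthogonality
  have hAQ : ∀ σ ∈ young c, (fun i => a (σ i)) ∈ AQ q d := by
    intro σ hσ
    rw [aa5_AQ]
    intro i
    have h1 := haQ (σ i)
    rwa [aa5_young hσ H.qcls] at h1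
  have hsum : ∑ σ ∈ young c, G σ * (if (fun i => a (σ i)) = (fun i => a (σ₀ i)) then ∏ i, (q i : ℂ) else 0) = 0 := by
    have h1 : ∑ γ' ∈ TQ q d, (∑ σ ∈ young c, G σ * chi (fun i => a (σ i) - 1) γ') *
        chi (fun i => a (σ₀ i) - 1) (-γ') = 0 :=
      Finset.sum_eq_zero fun γ' hγ' => by rw [hkey γ' hγ', zero_mul]
    refine Eq.trans ?_ h1
    simp only [Finset.sum_mul]
    rw [Finset.sum_comm]
    refine Finset.sum_congr rfl fun σ hσ => ?_
    have h2 : ∀ γ' : Fin N → ZMod d, G σ * chi (fun i => a (σ i) - 1) γ' *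
        chi (fun i => a (σ₀ i) - 1) (-γ') =
        G σ * chi ((fun i => a (σ i)) - fun i => a (σ₀ i)) γ' := by
      intro γ'
      rw [mul_assoc, aa5_chi_sub (fun i => a (σ i)) (fun i => a (σ₀ i))]
    rw [Finset.sum_congr rfl fun γ' _ => h2 γ', ← Finset.mul_sum, sum_chi_TQ H.dvd (hAQ σ hσ) (hAQ σ₀ hσ₀)]
  -- reindexing
  have hd : ∏ i, (q i : ℂ) ≠ 0 := by
    refine Finset.prod_ne_zero_iff.2 fun i _ => ?_
    have h1 := haQ i
    have h2 : q i ≠ 0 := by omega
    exact_mod_cast h2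
  have hsum2 : ∑ s ∈ young (ca c a), G (s * σ₀) = 0 := by
    have h1 : ∑ σ ∈ young c, G σ * (if (fun i => a (σ i)) = (fun i => a (σ₀ i)) then ∏ i, (q i : ℂ) else 0) =
        (∑ s ∈ young (ca c a), G (s * σ₀)) * ∏ i, (q i : ℂ) := by
      rw [Finset.sum_mul]
      simp only [mul_ite, mul_zero]
      rw [← Finset.sum_filter]
      refine (Finset.sum_nbij' (fun s => s * σ₀) (fun σ => σ * σ₀⁻¹) ?_ ?_ ?_ ?_ ?_).symm
      · intro s hs1
        have h2 : ∀ i, ca c a (s i) = ca c a i := H7SH.alg_mem.1 hs1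
        rw [Finset.mem_filter]
        refine ⟨H7SH.alg_mem.2 fun i => ?_, funext fun i => ?_⟩
        · rw [Equiv.Perm.mul_apply, (ca_eq.1 (h2 (σ₀ i))).1, hyoung₀]
        · rw [Equiv.Perm.mul_apply, (ca_eq.1 (h2 (σ₀ i))).2]
      · intro σ hσ
        rw [Finset.mem_filter] at hσ
        have h2 : ∀ i, c (σ i) = c i := H7SH.alg_mem.1 hσ.1
        have h3 : ∀ i, a (σ i) = a (σ₀ i) := fun i => congrFun hσ.2 i
        refine H7SH.alg_mem.2 fun i => ca_eq.2 ⟨?_, ?_⟩
        · rw [Equiv.Perm.mul_apply, h2]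
          have h := hyoung₀ (σ₀.symm i)
          rw [Equiv.apply_symm_apply] at h
          exact h.symm
        · rw [Equiv.Perm.mul_apply, h3]
          exact congrArg a (σ₀.apply_symm_apply i)
      · intro s _
        show s * σ₀ * σ₀⁻¹ = s
        rw [mul_assoc, mul_inv_cancel, mul_one]
      · intro σ _
        show σ * σ₀⁻¹ * σ₀ = σ
        rw [mul_assoc, inv_mul_cancel, mul_one]
      · intro s _
        rfl
    rw [h1] at hsum
    exact (mul_eq_zero.1 hsum).resolve_right hd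
  -- the values
  have hval : ∀ s ∈ young (ca c a), G (s * σ₀) = alg_sg σ₀ *
      (mua q a x * (Bloch.zhat (fun φ => (Z φ : ℂ)) a (s * σ₀) * alg_sg s *
        PEL (LL q D a) p (ww q lam (mact ((0 : Fin N → ZMod d), s) x)))) := by
    intro s hs1
    have h3 : mact ((0 : Fin N → ZMod d), s * σ₀) x₁ = mact ((0 : Fin N → ZMod d), s) x := by
      rw [hx₁, ← mact_gmul]
      congr 1
      refine Prod.ext ?_ ?_
      · funext i
        show (0 : ZMod d) + 0 = 0
        rw [add_zero]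
      · show s * σ₀ * σ₀⁻¹ = s
        rw [mul_assoc, mul_inv_cancel, mul_one]
    show Bloch.zhat (fun φ => (Z φ : ℂ)) a (s * σ₀) * alg_sg (s * σ₀) *
      eval (mact ((0 : Fin N → ZMod d), s * σ₀) x₁) P = _
    rw [h3, hP, aa5_mua H.qcls hs1, H7SH.alg_sg_mul]
    ring
  rw [Finset.sum_congr rfl hval, ← Finset.mul_sum, ← Finset.mul_sum] at hsum2
  exact (mul_eq_zero.1 hsum2).resolve_left (H7SH.alg_sg_ne σ₀)

end Pool.Agent.H10S
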