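import Mathlib
import Pool.Agent.Lib.H10S.AA2
import Pool.Agent.Lib.H10S.ML1

/-!
CHUNK AA6 (M). Values of the forms with given coefficients.
-/

open Finset

namespace Pool.Agent.H10S

open Pool.Agent.H7SH (young Killed alg_sg)
open Pool.Agent.H7CX (ZT WD rk)

variable {N d : ℕ} [NeZero d]

theorem aa6_ww {c q : Fin N → ℕ} (hq : ∀ i j, c i = c j → q i = q j) (lam : ℂ)
    {s : Equiv.Perm (Fin N)} (hs : s ∈ young c) (x : Fin N × Bool → ℂ) (i : Fin N) (β : Bool) :
    ww q lam (mact ((0 : Fin N → ZMod d), s) x) (i, β) = ww q lam x (s.symm i, β) := by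
  have h1 : c (s.symm i) = c i := by
    have h2 := H7SH.alg_mem.1 hs (s.symm i)
    rw [Equiv.apply_symm_apply] at h2
    exact h2.symm
  have h3 := hq _ _ h1
  have h4 : ∀ β, mact ((0 : Fin N → ZMod d), s) x (i, β) = x (s.symm i, β) := by
    intro β
    unfold mact
    show (if β = true then ZMod.stdAddChar ((0 : Fin N → ZMod d) i) else 1) * x (s.symm i, β) = _
    rw [Pi.zero_apply, AddChar.map_zero_eq_one, ite_self, one_mul]
  unfold ww
  simp only [h4, h3]

theorem aa6_words {c L : Fin N → ℕ} (hL : ∀ i j, c i = c j → L i = L j)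
    {s : Equiv.Perm (Fin N)} (hs : s ∈ young c) {b : Fin N → ℕ} (hb : b ∈ wordsL L) : b ∘ s ∈ wordsL L := by
  unfold wordsL at hb ⊢
  rw [Fintype.mem_piFinset] at hb ⊢
  intro i
  have h1 := mem_range.1 (hb (s i))
  rw [hL _ _ (H7SH.alg_mem.1 hs i)] at h1
  exact mem_range.2 h1

/-- PROOF. `ww q lam (mact (0, s) x) (i, β) = ww q lam x (s.symm i, β)` since `q` is constant on the classes (`q (s.symm i) = q i`);
substitute `b ↦ b ∘ s.symm`, `wordsL L` is stable (`L` constant on the classes): the term of `b` is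
`p b * ∏ i, w (s⁻¹ i, false) ^ (L i - 1 - b i) * w (s⁻¹ i, true) ^ b i = p b * ∏ l, w (l, false) ^ (L l - 1 - b (s l)) *
w (l, true) ^ b (s l)`, the term of `b' = b ∘ s` on the right: `p (b' ∘ s.symm) = p b`. See `H7CX.PE_act`
(Lib/H7CX/AL6.lean). -/
theorem PEL_act {c q L : Fin N → ℕ} (hq : ∀ i j, c i = c j → q i = q j)
    (hL : ∀ i j, c i = c j → L i = L j) (lam : ℂ) (p : (Fin N → ℕ) → ℂ)
    {s : Equiv.Perm (Fin N)} (hs : s ∈ young c) (x : Fin N × Bool → ℂ) :
    PEL L p (ww q lam (mact ((0 : Fin N → ZMod d), s) x)) =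
      PEL L (fun b => p (b ∘ s.symm)) (ww q lam x) := by
  unfold PEL
  have hs' : s.symm ∈ young c := H7SH.alg_inv hs
  refine Finset.sum_bij' (fun b _ => b ∘ s) (fun b _ => b ∘ s.symm) ?_ ?_ ?_ ?_ ?_
  · intro b hb
    exact aa6_words hL hs hb
  · intro b hb
    exact aa6_words hL hs' hb
  · intro b _
    funext i
    simp
  · intro b _
    funext i
    simp
  · intro b _
    have h3 : (b ∘ s) ∘ s.symm = b := by
      funext i
      simp
    show p b * _ = p ((b ∘ s) ∘ s.symm) * _
    rw [h3]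
    congr 1
    rw [← Equiv.prod_comp s (fun i => ww q lam (mact ((0 : Fin N → ZMod d), s) x) (i, false) ^ (L i - 1 - b i) *
      ww q lam (mact ((0 : Fin N → ZMod d), s) x) (i, true) ^ b i)]
    refine Finset.prod_congr rfl fun i _ => ?_
    rw [aa6_ww hq lam hs, aa6_ww hq lam hs, Equiv.symm_apply_apply, hL _ _ (H7SH.alg_mem.1 hs i)]
    rfl

/-- CHUNK AA6. PROOF. As `H7CX.alt_eval_ne` (Lib/H7CX/AL2.lean). If `A b ≠ 0` the letters of `b` are distinct on the classes of
`c'` and have the least possible sum, so `b = rk c' ∘ h`, `h ∈ young c'` (`H7CX.al1_swap_mem`, `al1_swap_comp`, `al1_sg_swap`;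
`H7CX.weighted_eq`, `class_eq` with `e = fun _ => 1`, `exists_rearrangement`), and `A b = sign h * A (rk c')`. As `A ≠ 0`,
`A (rk c') ≠ 0`, and by `hAL` all the ranks satisfy `rk c' i < L i`. So `PEL L A w = A (rk c') * ∑ h ∈ young c', sign h *
∏ i, w (i, false) ^ (L i - 1 - rk c' (h i)) * w (i, true) ^ rk c' (h i)` (`rk c' ∘ h ∈ wordsL L`; they are pairwise different), and with
`u i = w (i, true) / w (i, false)` this is `A (rk c') * (∏ i, w (i, false) ^ (L i - 1)) * ∑ h, sign h * ∏ i, u i ^ rk c' (h i)`,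
not zero by `H7CX.vander_ne`. -/
theorem alt_evalL {c' L : Fin N → ℕ} (hL : ∀ i i', c' i = c' i' → L i = L i')
    {A : (Fin N → ℕ) → ℂ} (hA0 : A ≠ 0) (hAL : IsLet L A)
    (hanti : ∀ h ∈ young c', ∀ b, A (b ∘ h) = alg_sg h * A b)
    (hj : WD (fun _ => 1) (∑ i, rk c' i) A) {w : Fin N × Bool → ℂ} (hw : ∀ i, w (i, false) ≠ 0)
    (hu : ∀ i i', c' i = c' i' → i ≠ i' → w (i, true) / w (i, false) ≠ w (i', true) / w (i', false)) :
    PEL L A w ≠ 0 := by
  classical
  have hform : ∀ b, A b ≠ 0 → ∃ h ∈ young c', b = rk c' ∘ h := by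
    intro b hb
    have h1 : ∀ i i', c' i = c' i' → b i = b i' → i = i' := by
      intro i i' hc hbi
      by_contra hne
      have h2 := hanti _ (H7CX.al1_swap_mem hc) b
      rw [H7CX.al1_swap_comp hbi, H7CX.al1_sg_swap hne] at h2
      apply hb
      have h3 : A b = -A b := by
        rw [neg_one_mul] at h2
        exact h2
      exact self_eq_neg.1 h3
    have h4 := hj b hb
    refine H7CX.exists_rearrangement h1 (H7CX.class_eq (e := fun _ => 1) h1 (fun _ _ _ => rfl) (fun _ => le_rfl) ?_)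
    simpa using h4
  obtain ⟨b₀, hb₀⟩ := Function.ne_iff.1 hA0
  have hrk : A (rk c') ≠ 0 := by
    obtain ⟨h, hh, rfl⟩ := hform b₀ hb₀
    intro h0
    apply hb₀
    rw [hanti h hh, h0, mul_zero]
    rfl
  have hlt := hAL _ hrk
  have hinj : Set.InjOn (fun h : Equiv.Perm (Fin N) => rk c' ∘ h) (young c') := by
    intro h hh h' hh' heq
    apply Equiv.ext
    intro i
    apply H7CX.al1_rk_inj (c' := c')
    · rw [H7SH.alg_mem.1 hh i, H7SH.alg_mem.1 hh' i]
    · exact congrFun heq i
  have hPE : PEL L A w =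
      A (rk c') * ((∏ i, w (i, false) ^ (L i - 1)) * ∑ h ∈ young c', alg_sg h * ∏ i, (w (i, true) / w (i, false)) ^ rk c' (h i)) := by
    unfold PEL
    rw [← Finset.sum_subset (s₁ := (young c').image fun h : Equiv.Perm (Fin N) => rk c' ∘ h), Finset.sum_image hinj,
      Finset.mul_sum, Finset.mul_sum]
    · refine Finset.sum_congr rfl fun h hh => ?_
      rw [hanti h hh]
      have h1 : ∏ i, (w (i, false) ^ (L i - 1 - (rk c' ∘ h) i) * w (i, true) ^ (rk c' ∘ h) i) =
          (∏ i, w (i, false) ^ (L i - 1)) * ∏ i, (w (i, true) / w (i, false)) ^ rk c' (h i) := by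
        rw [← Finset.prod_mul_distrib]
        refine Finset.prod_congr rfl fun i _ => ?_
        rw [Function.comp_apply]
        have h2 := hlt (h i)
        rw [hL _ _ (H7SH.alg_mem.1 hh i)] at h2
        obtain ⟨t, ht⟩ : ∃ t, L i - 1 = t + rk c' (h i) := ⟨L i - 1 - rk c' (h i), by omega⟩
        have h3 : L i - 1 - rk c' (h i) = t := by omega
        have h4 := hw i
        rw [h3, ht, pow_add, div_pow]
        field_simp
      rw [h1]
      ring
    · intro b hb
      obtain ⟨h, hh, rfl⟩ := mem_image.1 hb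
      unfold wordsL
      rw [Fintype.mem_piFinset]
      intro i
      have h2 := hlt (h i)
      rw [hL _ _ (H7SH.alg_mem.1 hh i)] at h2
      exact mem_range.2 h2
    · intro b _ hb
      have h1 : A b = 0 := by
        by_contra h2
        obtain ⟨h, hh, rfl⟩ := hform b h2
        exact hb (mem_image_of_mem _ hh)
      rw [h1, zero_mul]
  rw [hPE]
  exact mul_ne_zero hrk (mul_ne_zero (Finset.prod_ne_zero_iff.2 fun i _ => pow_ne_zero _ (hw i)) (H7CX.vander_ne hu))

end Pool.Agent.H10S
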