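import Mathlib

/-!
CHUNK SP1 (M). Implicit functions: a polynomial whose differential is not a combination of those of the
equations does not vanish identically near a smooth point (pure Mathlib).
-/

open MvPolynomial Finset

namespace Pool.Agent.H10S

/-- PROOF. Linear algebra: if every vector `v` with `∑ p, df k p * v p = 0` for all `k` satisfies `∑ p, dh p * v p = 0`, then
`dh` is in the span of the `df k` (`mem_span_of_iInf_ker_le_ker`, or
`LinearMap.range_dualMap`...; the linear forms `v ↦ ∑ p, w p * v p`, `w : ι → ℂ`, are all the linear forms: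
`LinearMap.toMatrix'`, `Matrix.dotProduct`). -/
theorem sp1_linear {ι : Type} [Fintype ι] {r : ℕ} (df : Fin r → ι → ℂ) (dh : ι → ℂ)
    (h : dh ∉ Submodule.span ℂ (Set.range df)) :
    ∃ v : ι → ℂ, (∀ k, ∑ p, df k p * v p = 0) ∧ ∑ p, dh p * v p ≠ 0 := by
  classical
  by_contra hcon
  push Not at hcon
  apply h
  let Φ : (ι → ℂ) →ₗ[ℂ] Module.Dual ℂ (ι → ℂ) :=
    { toFun := fun w =>
        { toFun := fun v => ∑ p, w p * v p
          map_add' := fun a b => by
            rw [← Finset.sum_add_distrib]
            exact Finset.sum_congr rfl fun p _ => by rw [Pi.add_apply, mul_add]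
          map_smul' := fun t a => by
            rw [RingHom.id_apply, smul_eq_mul, Finset.mul_sum]
            exact Finset.sum_congr rfl fun p _ => by rw [Pi.smul_apply, smul_eq_mul]; ring }
      map_add' := fun a b => by
        ext v
        simp [add_mul, Finset.sum_add_distrib]
      map_smul' := fun t a => by
        ext v
        simp [Finset.mul_sum, mul_assoc] }
  have hΦ : ∀ w v, Φ w v = ∑ p, w p * v p := fun w v => rfl
  have hinj : Function.Injective Φ := by
    intro a b hab
    funext p
    have h1 := LinearMap.congr_fun hab (Pi.single p 1)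
    rw [hΦ, hΦ] at h1
    simpa [Pi.single_apply] using h1
  have h1 : Φ dh ∈ Submodule.span ℂ (Set.range fun k => Φ (df k)) := by
    apply mem_span_of_iInf_ker_le_ker
    intro v hv
    rw [Submodule.mem_iInf] at hv
    rw [LinearMap.mem_ker, hΦ]
    apply hcon
    intro k
    have := hv k
    rwa [LinearMap.mem_ker, hΦ] at this
  have h2 : (Set.range fun k => Φ (df k)) = Φ '' Set.range df := by
    rw [← Set.range_comp]
    rfl
  rw [h2, ← Submodule.map_span, Submodule.mem_map] at h1
  obtain ⟨w, hw, hw2⟩ := h1
  rwa [← hinj hw2]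

/-- PROOF. A polynomial function is strictly differentiable, with differential
`v ↦ ∑ p, eval x (pderiv p P) * v p` (induction on the polynomial: `HasStrictFDerivAt.add`, `.mul`,
`hasStrictFDerivAt_apply`; `pderiv_C`, `pderiv_mul`, `pderiv_X`). -/
theorem sp1_deriv {ι : Type} [Fintype ι] [DecidableEq ι] (P : MvPolynomial ι ℂ) (x : ι → ℂ) :
    ∃ f' : (ι → ℂ) →L[ℂ] ℂ, HasStrictFDerivAt (fun y : ι → ℂ => eval y P) f' x ∧
      ∀ v, f' v = ∑ p, eval x (pderiv p P) * v p := by
  induction P using MvPolynomial.induction_on with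
  | C a =>
    refine ⟨0, ?_, fun v => by simp⟩
    simp only [eval_C]
    exact hasStrictFDerivAt_const a x
  | add P Q hP hQ =>
    obtain ⟨f, hf, hf2⟩ := hP
    obtain ⟨g, hg, hg2⟩ := hQ
    refine ⟨f + g, ?_, fun v => ?_⟩
    · simp only [map_add]
      exact hf.add hg
    · rw [ContinuousLinearMap.add_apply, hf2, hg2, ← Finset.sum_add_distrib]
      exact Finset.sum_congr rfl fun p _ => by rw [map_add, map_add, add_mul]
  | mul_X P i hP =>
    obtain ⟨f, hf, hf2⟩ := hP
    have h1 : HasStrictFDerivAt (fun y : ι → ℂ => y i)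
      (ContinuousLinearMap.proj (R := ℂ) (φ := fun _ : ι => ℂ) i) x := hasStrictFDerivAt_apply i x
    have h2 := hf.mul h1
    refine ⟨eval x P • (ContinuousLinearMap.proj (R := ℂ) (φ := fun _ : ι => ℂ) i) + x i • f,
      ?_, fun v => ?_⟩
    · simp only [map_mul, eval_X]
      exact h2
    · have h3 : (eval x P • (ContinuousLinearMap.proj (R := ℂ) (φ := fun _ : ι => ℂ) i) +
          x i • f) v = eval x P * v i + x i * f v := rfl
      rw [h3, hf2]
      simp only [Derivation.leibniz, pderiv_X, smul_eq_mul, map_add, map_mul, eval_X, add_mul,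
        Finset.sum_add_distrib, Finset.mul_sum]
      congr 1
      · rw [Finset.sum_eq_single i]
        · simp
        · intro p _ hp
          rw [Pi.single_eq_of_ne' hp]
          simp
        · intro h
          exact absurd (Finset.mem_univ i) h
      · exact Finset.sum_congr rfl fun p _ => by ring

/-- CHUNK SP1. PROOF. `sp1_linear` gives `v` in the kernel of all the `dF k (x)` with `dh (x) v ≠ 0`. The map
`f y = (eval y (F k))_k : (ι → ℂ) → (Fin r → ℂ)` is strictly differentiable at `x` (`hasStrictFDerivAt_pi`, `sp1_deriv`), its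
differential is surjective since the gradients are linearly independent (the transposed matrix is injective:
`LinearMap.range_eq_top`, rank; or: the range of `f'` is contained in no hyperplane). Let `g` be the implicit
function `HasStrictFDerivAt.implicitFunction f f' hf hsurj (f x) : ker f' → (ι → ℂ)`: `g 0 = x`
(`implicitFunction_apply_image` or `..._zero`), `f (g z) = f x = 0` for `z` near `0` (`map_implicitFunction_eq`), and `g` is strictly
differentiable at `0` with differential the inclusion of `ker f'` (`HasStrictFDerivAt.to_implicitFunction`).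
`z ↦ eval (g z) P` has at `0` the differential `dh (x)` restricted to `ker f'`, not zero at `v`; so it is not
identically zero near `0` (otherwise its differential would be zero: `HasFDerivAt.unique` with the eventually equal zero
function), so in every neighbourhood of `0` there is `z` with `eval (g z) P ≠ 0`; `g` is continuous at `0`. -/
theorem local_ne {ι : Type} [Fintype ι] [DecidableEq ι] {r : ℕ} (F : Fin r → MvPolynomial ι ℂ)
    (P : MvPolynomial ι ℂ) {x : ι → ℂ} (hx : ∀ k, eval x (F k) = 0)
    (hlin : LinearIndependent ℂ fun k : Fin r => fun p : ι => eval x (pderiv p (F k)))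
    (hP : (fun p : ι => eval x (pderiv p P)) ∉
      Submodule.span ℂ (Set.range fun k : Fin r => fun p : ι => eval x (pderiv p (F k))))
    {U : Set (ι → ℂ)} (hU : U ∈ nhds x) :
    ∃ y ∈ U, (∀ k, eval y (F k) = 0) ∧ eval y P ≠ 0 := by
  classical
  obtain ⟨v, hv1, hv2⟩ := sp1_linear _ _ hP
  choose f' hf1 hf2 using fun k => sp1_deriv (F k) x
  obtain ⟨h', hh1, hh2⟩ := sp1_deriv P x
  let f : (ι → ℂ) → (Fin r → ℂ) := fun y k => eval y (F k)
  let fd : (ι → ℂ) →L[ℂ] (Fin r → ℂ) := ContinuousLinearMap.pi f'
  have hf : HasStrictFDerivAt f fd x := hasStrictFDerivAt_pi.2 hf1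
  have hsurj : fd.range = ⊤ := by
    by_contra hne
    obtain ⟨φ, hφ0, hφ⟩ := Submodule.exists_le_ker_of_lt_top _ (lt_top_iff_ne_top.2 hne)
    have h1 : ∀ c : Fin r → ℂ, φ c = ∑ k, c k * φ (Pi.single k 1) := by
      intro c
      conv_lhs => rw [← Finset.univ_sum_single c]
      rw [map_sum]
      refine Finset.sum_congr rfl fun k _ => ?_
      have h2 : (Pi.single k (c k) : Fin r → ℂ) = c k • Pi.single k 1 := by
        rw [← Pi.single_smul, smul_eq_mul, mul_one]
      rw [h2, map_smul, smul_eq_mul]
    have h3 : ∀ w : ι → ℂ, ∑ k, f' k w * φ (Pi.single k 1) = 0 := by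
      intro w
      rw [← h1 (fun k => f' k w)]
      exact LinearMap.mem_ker.1 (hφ ⟨w, rfl⟩)
    have h4 : ∀ k, φ (Pi.single k 1) = 0 := by
      have h5 := Fintype.linearIndependent_iff.1 hlin (fun k => φ (Pi.single k 1))
      apply h5
      funext p
      have h6 := h3 (Pi.single p 1)
      simp only [hf2] at h6
      rw [Pi.zero_apply, ← h6, Finset.sum_apply]
      refine Finset.sum_congr rfl fun k _ => ?_
      have h7 : ∑ q, eval x (pderiv q (F k)) * (Pi.single p 1 : ι → ℂ) q =
          eval x (pderiv p (F k)) := by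
        rw [Finset.sum_eq_single p]
        · rw [Pi.single_eq_same, mul_one]
        · intro q _ hq
          rw [Pi.single_eq_of_ne hq, mul_zero]
        · intro h
          exact absurd (Finset.mem_univ p) h
      rw [h7, Pi.smul_apply, smul_eq_mul, mul_comm]
    apply hφ0
    refine LinearMap.ext fun c => ?_
    show φ c = (0 : ℂ)
    rw [h1 c]
    exact Finset.sum_eq_zero fun k _ => by rw [h4 k, mul_zero]
  let g := hf.implicitFunction f fd hsurj (f x)
  have hg0 : g 0 = x := hf.implicitFunction_apply_image hsurj
  have hgd : HasStrictFDerivAt g fd.ker.subtypeL 0 := hf.to_implicitFunction hsurj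
  have hgf : ∀ᶠ z in nhds (0 : fd.ker), f (g z) = f x := by
    have h1 := hf.map_implicitFunction_eq hsurj
    have h2 : Filter.Tendsto (fun z : fd.ker => (f x, z)) (nhds 0) (nhds (f x, 0)) :=
      tendsto_const_nhds.prodMk_nhds Filter.tendsto_id
    exact h2.eventually h1
  have hfx : f x = 0 := funext hx
  have hv : v ∈ fd.ker := by
    rw [LinearMap.mem_ker]
    funext k
    show f' k v = 0
    rw [hf2]
    exact hv1 k
  have hgc : Filter.Tendsto g (nhds 0) (nhds x) := by
    have := hgd.continuousAt.tendsto
    rwa [hg0] at this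
  by_contra hcon
  push Not at hcon
  have hz : (fun z => eval (g z) P) =ᶠ[nhds 0] fun _ => 0 := by
    filter_upwards [hgf, hgc hU] with z hz1 hz2
    refine hcon _ hz2 fun k => ?_
    have := congrFun hz1 k
    rw [hfx] at this
    exact this
  have hh1' : HasStrictFDerivAt (fun y : ι → ℂ => eval y P) h' (g 0) := by rw [hg0]; exact hh1
  have hd := hh1'.comp 0 hgd
  have hd0 : HasFDerivAt (fun z => eval (g z) P) (0 : fd.ker →L[ℂ] ℂ) 0 :=
    (hasFDerivAt_const (0 : ℂ) (0 : fd.ker)).congr_of_eventuallyEq hz
  have h5 := hd.hasFDerivAt.unique hd0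
  have h6 := DFunLike.congr_fun h5 (⟨v, hv⟩ : fd.ker)
  apply hv2
  rw [← hh2]
  exact h6

end Pool.Agent.H10S
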