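import Mathlib
import Pool.Agent.Lib.H10S.Core

/-!
CHUNK FF3 (S/M). The product of the values of a linear form.
-/

open Finset

namespace Pool.Agent.H10S

variable {N : ℕ}

/-- CHUNK FF3. PROOF. `Finset.prod_add` (the product of sums is the sum over `J ∈ B.powerset` of
`(∏ i ∈ J, f i) * ∏ i ∈ B \ J, g i`, with `f` the terms with `β` and `g` the terms with `α`; use `add_comm`
first), `∏ i ∈ J, β * t = β ^ J.card * ∏ t`, and the sum over `B.powerset` is the sum over
`m ∈ range (B.card + 1)` of the sums over `B.powersetCard m` (`Finset.sum_powerset`), `Fin.sum_univ_eq_sum_range`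
or `Finset.sum_range`. -/
theorem linprod {R : Type*} [CommRing R] (B : Finset (Fin N)) (q : ℕ) (x : Fin N × Bool → R)
    (α β : R) : ∏ l ∈ B, (α * x (l, false) ^ q + β * x (l, true) ^ q) =
      ∑ m : Fin (B.card + 1), α ^ (B.card - m) * β ^ (m : ℕ) * cf B q x m := by
  classical
  have h0 : ∏ l ∈ B, (α * x (l, false) ^ q + β * x (l, true) ^ q) =
      ∏ l ∈ B, (β * x (l, true) ^ q + α * x (l, false) ^ q) :=
    Finset.prod_congr rfl fun l _ => add_comm _ _
  rw [h0, Finset.prod_add, Finset.sum_powerset,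
    Finset.sum_range (fun j => ∑ t ∈ powersetCard j B,
      (∏ i ∈ t, β * x (i, true) ^ q) * ∏ i ∈ B \ t, α * x (i, false) ^ q)]
  refine Finset.sum_congr rfl fun m _ => ?_
  unfold cf
  rw [Finset.mul_sum]
  refine Finset.sum_congr rfl fun J hJ => ?_
  obtain ⟨hJ1, hJ2⟩ := Finset.mem_powersetCard.1 hJ
  rw [Finset.prod_mul_distrib, Finset.prod_mul_distrib, Finset.prod_const, Finset.prod_const,
    Finset.card_sdiff_of_subset hJ1, hJ2]
  ring

/-- PROOF. `cf` commutes with ring homomorphisms: `map_sum`, `map_mul`, `map_prod`, `map_pow`. -/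
theorem map_cf {R S : Type*} [CommRing R] [CommRing S] (f : R →+* S) (B : Finset (Fin N)) (q : ℕ)
    (x : Fin N × Bool → R) (m : Fin (B.card + 1)) :
    f (cf B q x m) = cf B q (fun p => f (x p)) m := by
  unfold cf
  rw [map_sum]
  refine Finset.sum_congr rfl fun J _ => ?_
  rw [map_mul, map_prod, map_prod]
  simp only [map_pow]

/-- PROOF. Every term of `cf` is multiplied by `∏ i ∈ B, ρ i ^ q` (`Finset.prod_mul_distrib`,
`Finset.prod_sdiff`). -/
theorem cf_scale {R : Type*} [CommRing R] (B : Finset (Fin N)) (q : ℕ) (ρ : Fin N → R)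
    (x : Fin N × Bool → R) (m : Fin (B.card + 1)) :
    cf B q (fun p => ρ p.1 * x p) m = (∏ i ∈ B, ρ i ^ q) * cf B q x m := by
  classical
  unfold cf
  rw [Finset.mul_sum]
  refine Finset.sum_congr rfl fun J hJ => ?_
  obtain ⟨hJ1, hJ2⟩ := Finset.mem_powersetCard.1 hJ
  simp only [mul_pow]
  rw [Finset.prod_mul_distrib, Finset.prod_mul_distrib, ← Finset.prod_sdiff hJ1]
  ring

/-- PROOF. `B.powersetCard 0 = {∅}`. -/
theorem cf_zero {R : Type*} [CommRing R] (B : Finset (Fin N)) (q : ℕ) (x : Fin N × Bool → R) :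
    cf B q x 0 = ∏ i ∈ B, x (i, false) ^ q := by
  unfold cf
  simp

/-- PROOF. `B.powersetCard B.card = {B}` (`Finset.powersetCard_self`). -/
theorem cf_last {R : Type*} [CommRing R] (B : Finset (Fin N)) (q : ℕ) (x : Fin N × Bool → R) :
    cf B q x (Fin.last B.card) = ∏ i ∈ B, x (i, true) ^ q := by
  unfold cf
  simp

/-- PROOF. `cf` only depends on the coordinates in `B`. -/
theorem cf_congr {R : Type*} [CommRing R] {B : Finset (Fin N)} {q : ℕ} {x y : Fin N × Bool → R}
    (h : ∀ i ∈ B, ∀ β, x (i, β) = y (i, β)) (m : Fin (B.card + 1)) : cf B q x m = cf B q y m := by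
  unfold cf
  refine Finset.sum_congr rfl fun J hJ => ?_
  obtain ⟨hJ1, hJ2⟩ := Finset.mem_powersetCard.1 hJ
  congr 1
  · exact Finset.prod_congr rfl fun i hi => by rw [h i (hJ1 hi)]
  · exact Finset.prod_congr rfl fun i hi => by rw [h i (Finset.mem_sdiff.1 hi).1]

end Pool.Agent.H10S
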