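import Mathlib
import Pool.Agent.Lib.H10S.Core

/-!
CHUNK LF2 (M). Unique factorisation of products of binary linear forms.
-/

open Finset

namespace Pool.Agent.H10S

variable {N : ℕ}

/-- PROOF. Induction on `n`. Step: `B'` has `n + 1` elements, let `l' ∈ B'` and evaluate at
`(Y, Z) = (v' l', - u' l')`: the left product is zero, so `u l * v' l' - v l * u' l' = 0` for some `l ∈ B` (`t ≠ 0`). As
both vectors are not zero there is `c ≠ 0` with `u' l' = c * u l`, `v' l' = c * v l`. For all `Y, Z` with
`u l * Y + v l * Z ≠ 0` cancel it: the identity for `B'.erase l'`, `B.erase l` and `t / c`. For the other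
`(Y, Z)`: consider the two sides as polynomials in `Y` (if `u l ≠ 0`) or `Z` (if `v l ≠ 0`): they are equal for
all but one value, `K` is infinite, so they are equal (`Polynomial.funext`-like; or work from the start in
`MvPolynomial Bool K`, where the factor can be cancelled: `MvPolynomial.funext`). Induction hypothesis: a bijection
`f` from `B'.erase l'` to `B.erase l`; put `f l' = l`. -/
theorem lf2_bij {K : Type*} [Field K] [Infinite K] (u v u' v' : Fin N → K) (n : ℕ) :
    ∀ (B B' : Finset (Fin N)), B.card = n → B'.card = n →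
      (∀ l ∈ B, u l ≠ 0 ∨ v l ≠ 0) → (∀ l ∈ B', u' l ≠ 0 ∨ v' l ≠ 0) → ∀ t : K, t ≠ 0 →
      (∀ Y Z : K, ∏ l ∈ B', (u' l * Y + v' l * Z) = t * ∏ l ∈ B, (u l * Y + v l * Z)) →
      ∃ f : Fin N → Fin N, Set.BijOn f B' B ∧ ∀ l ∈ B', u' l * v (f l) = v' l * u (f l) := by
  induction n with
  | zero =>
    intro B B' hB hB' _ _ t _ _
    rw [Finset.card_eq_zero] at hB hB'
    subst hB hB'
    exact ⟨id, by simp, by simp⟩
  | succ n ih =>
    intro B B' hB hB' huv huv' t ht heq
    obtain ⟨l', hl'⟩ := Finset.card_pos.1 (by omega : 0 < B'.card)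
    have h1 : ∃ l ∈ B, u l * v' l' + v l * (- u' l') = 0 := by
      have h2 := heq (v' l') (- u' l')
      rw [Finset.prod_eq_zero hl' (by ring)] at h2
      have h3 : ∏ l ∈ B, (u l * v' l' + v l * (- u' l')) = 0 := by
        rcases mul_eq_zero.1 h2.symm with h | h
        · exact absurd h ht
        · exact h
      exact Finset.prod_eq_zero_iff.1 h3
    obtain ⟨l, hl, hlz⟩ := h1
    have hc : ∃ c : K, c ≠ 0 ∧ u' l' = c * u l ∧ v' l' = c * v l := by
      by_cases hu : u l = 0
      · have hv : v l ≠ 0 := (huv l hl).resolve_left (by simpa using hu)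
        have hu' : u' l' = 0 := by
          rw [hu, zero_mul, zero_add, mul_neg, neg_eq_zero] at hlz
          exact (mul_eq_zero.1 hlz).resolve_left hv
        have hv' : v' l' ≠ 0 := (huv' l' hl').resolve_left (by simpa using hu')
        refine ⟨v' l' / v l, div_ne_zero hv' hv, ?_, ?_⟩
        · rw [hu, hu', mul_zero]
        · field_simp
      · have hu' : u' l' ≠ 0 := by
          intro hu'
          rw [hu', neg_zero, mul_zero, add_zero] at hlz
          have hv' := (mul_eq_zero.1 hlz).resolve_left hu
          rcases huv' l' hl' with h | h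
          · exact h hu'
          · exact h hv'
        refine ⟨u' l' / u l, div_ne_zero hu' hu, ?_, ?_⟩
        · field_simp
        · field_simp
          linear_combination hlz
    obtain ⟨c, hc0, hcu, hcv⟩ := hc
    have hmul : ∀ Y Z : K, (u l * Y + v l * Z) *
        ∏ m ∈ B'.erase l', (u' m * Y + v' m * Z) =
        (u l * Y + v l * Z) * (t / c * ∏ m ∈ B.erase l, (u m * Y + v m * Z)) := by
      intro Y Z
      have h2 := heq Y Z
      rw [← Finset.mul_prod_erase B' _ hl', ← Finset.mul_prod_erase B _ hl, hcu, hcv] at h2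
      have h3 : c * ((u l * Y + v l * Z) * ∏ m ∈ B'.erase l', (u' m * Y + v' m * Z)) =
          c * ((u l * Y + v l * Z) * (t / c * ∏ m ∈ B.erase l, (u m * Y + v m * Z))) := by
        calc c * ((u l * Y + v l * Z) * ∏ m ∈ B'.erase l', (u' m * Y + v' m * Z))
            = (c * u l * Y + c * v l * Z) * ∏ m ∈ B'.erase l', (u' m * Y + v' m * Z) := by ring
          _ = t * ((u l * Y + v l * Z) * ∏ m ∈ B.erase l, (u m * Y + v m * Z)) := h2
          _ = (c * (t / c)) * ((u l * Y + v l * Z) *
              ∏ m ∈ B.erase l, (u m * Y + v m * Z)) := by rw [mul_div_cancel₀ _ hc0]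
          _ = _ := by ring
      exact mul_left_cancel₀ hc0 h3
    have hnew : ∀ Y Z : K, ∏ m ∈ B'.erase l', (u' m * Y + v' m * Z) =
        t / c * ∏ m ∈ B.erase l, (u m * Y + v m * Z) := by
      intro Y Z
      by_cases hz : u l * Y + v l * Z = 0
      · obtain ⟨a, b, hab⟩ : ∃ a b : K, u l * a + v l * b ≠ 0 := by
          rcases huv l hl with h | h
          · exact ⟨1, 0, by simpa using h⟩
          · exact ⟨0, 1, by simpa using h⟩
        have hpoly : (∏ m ∈ B'.erase l', (Polynomial.C (u' m) *
            (Polynomial.C Y + Polynomial.X * Polynomial.C a) + Polynomial.C (v' m) *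
            (Polynomial.C Z + Polynomial.X * Polynomial.C b))) =
            Polynomial.C (t / c) * ∏ m ∈ B.erase l, (Polynomial.C (u m) *
            (Polynomial.C Y + Polynomial.X * Polynomial.C a) + Polynomial.C (v m) *
            (Polynomial.C Z + Polynomial.X * Polynomial.C b)) := by
          apply Polynomial.eq_of_infinite_eval_eq
          refine (Set.Finite.infinite_compl (Set.finite_singleton (0 : K))).mono ?_
          intro T hT
          have hT0 : T ≠ 0 := hT
          show Polynomial.eval T _ = Polynomial.eval T _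
          rw [Polynomial.eval_prod, Polynomial.eval_mul, Polynomial.eval_C, Polynomial.eval_prod]
          simp only [Polynomial.eval_add, Polynomial.eval_mul, Polynomial.eval_C,
            Polynomial.eval_X]
          refine mul_left_cancel₀ ?_ (hmul (Y + T * a) (Z + T * b))
          have h4 : u l * (Y + T * a) + v l * (Z + T * b) = T * (u l * a + v l * b) := by
            linear_combination hz
          rw [h4]
          exact mul_ne_zero hT0 hab
        have h5 := congrArg (Polynomial.eval 0) hpoly
        rw [Polynomial.eval_prod, Polynomial.eval_mul, Polynomial.eval_C,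
          Polynomial.eval_prod] at h5
        simpa using h5
      · exact mul_left_cancel₀ hz (hmul Y Z)
    obtain ⟨f, hf, hfl⟩ := ih (B.erase l) (B'.erase l')
      (by rw [Finset.card_erase_of_mem hl, hB]; rfl)
      (by rw [Finset.card_erase_of_mem hl', hB']; rfl)
      (fun m hm => huv m (Finset.mem_of_mem_erase hm))
      (fun m hm => huv' m (Finset.mem_of_mem_erase hm)) (t / c) (div_ne_zero ht hc0) hnew
    refine ⟨Function.update f l' l, ?_, ?_⟩
    · have hfl' : ∀ m ∈ B'.erase l', Function.update f l' l m = f m := fun m hm =>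
        Function.update_of_ne (Finset.ne_of_mem_erase hm) _ _
      refine ⟨?_, ?_, ?_⟩
      · intro m hm
        by_cases hml : m = l'
        · rw [hml, Function.update_self]
          exact hl
        · have hm' : m ∈ B'.erase l' := Finset.mem_erase.2 ⟨hml, hm⟩
          rw [hfl' m hm']
          exact Finset.mem_of_mem_erase (hf.mapsTo hm')
      · intro m hm m' hm' hmm
        by_cases hml : m = l'
        · by_cases hml' : m' = l'
          · rw [hml, hml']
          · exfalso
            have hm'' : m' ∈ B'.erase l' := Finset.mem_erase.2 ⟨hml', hm'⟩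
            rw [hml, Function.update_self, hfl' m' hm''] at hmm
            have h6 : f m' ∈ B.erase l := hf.mapsTo hm''
            rw [← hmm] at h6
            exact Finset.notMem_erase _ _ h6
        · have hm2 : m ∈ B'.erase l' := Finset.mem_erase.2 ⟨hml, hm⟩
          by_cases hml' : m' = l'
          · exfalso
            rw [hml', Function.update_self, hfl' m hm2] at hmm
            have h6 : f m ∈ B.erase l := hf.mapsTo hm2
            rw [hmm] at h6
            exact Finset.notMem_erase _ _ h6
          · have hm'' : m' ∈ B'.erase l' := Finset.mem_erase.2 ⟨hml', hm'⟩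
            rw [hfl' m hm2, hfl' m' hm''] at hmm
            exact hf.injOn hm2 hm'' hmm
      · intro m hm
        by_cases hml : m = l
        · exact ⟨l', hl', by rw [Function.update_self, hml]⟩
        · obtain ⟨m', hm', hmm⟩ := hf.surjOn (Finset.mem_coe.2 (Finset.mem_erase.2 ⟨hml, hm⟩))
          exact ⟨m', Finset.mem_of_mem_erase hm', by rw [hfl' m' hm', hmm]⟩
    · intro m hm
      by_cases hml : m = l'
      · rw [hml, Function.update_self, hcu, hcv]
        ring
      · rw [Function.update_of_ne hml]
        exact hfl m (Finset.mem_erase.2 ⟨hml, hm⟩)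

/-- CHUNK LF2. PROOF. `lf2_bij` for `B' = B`; `f` on `B` and the identity off `B` is a bijection; let `σ` be its
inverse: `f (σ l) = l` for `l ∈ B`. -/
theorem exists_match {K : Type*} [Field K] [Infinite K] {B : Finset (Fin N)}
    {u v u' v' : Fin N → K} (h : ∀ l ∈ B, u l ≠ 0 ∨ v l ≠ 0) (h' : ∀ l ∈ B, u' l ≠ 0 ∨ v' l ≠ 0)
    {t : K} (ht : t ≠ 0)
    (heq : ∀ Y Z : K, ∏ l ∈ B, (u' l * Y + v' l * Z) = t * ∏ l ∈ B, (u l * Y + v l * Z)) :
    ∃ σ ∈ permB B, ∀ l ∈ B, u' (σ l) * v l = v' (σ l) * u l := by
  classical
  obtain ⟨f, hf, hfl⟩ := lf2_bij u v u' v' B.card B B rfl rfl h h' t ht heq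
  let g : Fin N → Fin N := fun i => if i ∈ B then f i else i
  have hg1 : ∀ i ∈ B, g i = f i := fun i hi => if_pos hi
  have hg2 : ∀ i, i ∉ B → g i = i := fun i hi => if_neg hi
  have hg3 : ∀ i ∈ B, g i ∈ B := fun i hi => by
    rw [hg1 i hi]
    exact hf.mapsTo hi
  have hinj : Function.Injective g := by
    intro i j hij
    by_cases hi : i ∈ B
    · by_cases hj : j ∈ B
      · rw [hg1 i hi, hg1 j hj] at hij
        exact hf.injOn hi hj hij
      · exfalso
        have h1 := hg3 i hi
        rw [hij, hg2 j hj] at h1
        exact hj h1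
    · by_cases hj : j ∈ B
      · exfalso
        have h1 := hg3 j hj
        rw [← hij, hg2 i hi] at h1
        exact hi h1
      · rw [hg2 i hi, hg2 j hj] at hij
        exact hij
  let e : Equiv.Perm (Fin N) := Equiv.ofBijective g (Finite.injective_iff_bijective.1 hinj)
  have he : ∀ i, e i = g i := fun i => rfl
  have hσ1 : ∀ i, i ∉ B → e.symm i = i := by
    intro i hi
    rw [Equiv.symm_apply_eq, he, hg2 i hi]
  refine ⟨e.symm, Finset.mem_filter.2 ⟨Finset.mem_univ _, hσ1⟩, fun l hl => ?_⟩
  have h2 : e.symm l ∈ B := by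
    by_contra hcon
    have h3 := hg2 _ hcon
    rw [← he, Equiv.apply_symm_apply] at h3
    rw [← h3] at hcon
    exact hcon hl
  have h3 := hfl _ h2
  rw [← hg1 _ h2, ← he, Equiv.apply_symm_apply] at h3
  exact h3

end Pool.Agent.H10S
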