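import Mathlib
import Pool.Agent.Lib.H10S.FF3
import Pool.Agent.Lib.H10S.LF2

/-!
CHUNK LF3 (M). The fibres of the coefficients are the orbits.
-/

open Finset

namespace Pool.Agent.H10S

variable {N d : ℕ} [NeZero d]

/-- PROOF. `(q ∣ d)` so `w ^ d = 1`, `w = e g` for some `g : ZMod d` (`e 1` is a primitive `d`-th root:
`Bloch.isPrimitiveRoot_e_one`, `IsPrimitiveRoot.eq_pow_of_pow_eq_one`, `Bloch.e_nsmul`), and `e (q * g) = w ^ q = 1` gives
`q * g = 0` (`Bloch.e_injective`). -/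
theorem lf3_root {q : ℕ} (hq : q ∣ d) {w : ℂ} (hw : w ^ q = 1) :
    ∃ g : ZMod d, (q : ZMod d) * g = 0 ∧ Bloch.e g = w := by
  obtain ⟨m, hm⟩ := hq
  have h1 : w ^ d = 1 := by rw [hm, pow_mul, hw, one_pow]
  obtain ⟨i, -, hi⟩ := (Bloch.isPrimitiveRoot_e_one (d := d)).eq_pow_of_pow_eq_one h1
  have h2 : Bloch.e (i : ZMod d) = w := by
    rw [← hi, ← Bloch.e_nsmul, nsmul_one]
  refine ⟨(i : ZMod d), ?_, h2⟩
  apply Bloch.e_injective (d := d)
  rw [← nsmul_eq_mul, Bloch.e_nsmul, h2, hw, Bloch.e_zero]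

/-- PROOF. Let `(s, t)`, `(s', t')` be the two vectors. If `s = 0`: `t ≠ 0`, `s' ^ q * t ^ q = 0`, so `s' = 0`, `t' ≠ 0`;
`g = 0`, `ρ = t' / t`. If `s ≠ 0`: `s' ≠ 0` (otherwise `t' ^ q * s ^ q = 0`, `t' = 0`). If `t = 0` then `t' = 0`, `g = 0`,
`ρ = s' / s`. Otherwise `w = (t' / s') / (t / s)` has `w ^ q = 1`; `lf3_root`; `ρ = s' / s`. (`1 ≤ q` since
`q ∣ d`, `d ≠ 0`.) -/
theorem lf3_pair {q : ℕ} (hq : q ∣ d) {s t s' t' : ℂ} (h : s ≠ 0 ∨ t ≠ 0) (h' : s' ≠ 0 ∨ t' ≠ 0)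
    (heq : s' ^ q * t ^ q = t' ^ q * s ^ q) :
    ∃ (g : ZMod d) (ρ : ℂ), (q : ZMod d) * g = 0 ∧ ρ ≠ 0 ∧ s' = ρ * s ∧ t' = ρ * (Bloch.e g * t) := by
  have hq0 : q ≠ 0 := by
    rintro rfl
    exact NeZero.ne d (zero_dvd_iff.1 hq)
  by_cases hs : s = 0
  · have ht : t ≠ 0 := h.resolve_left (by simpa using hs)
    have hs' : s' = 0 := by
      rw [hs, zero_pow hq0, mul_zero] at heq
      rcases mul_eq_zero.1 heq with h1 | h1
      · exact (pow_eq_zero_iff hq0).1 h1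
      · exact absurd ((pow_eq_zero_iff hq0).1 h1) ht
    have ht' : t' ≠ 0 := h'.resolve_left (by simpa using hs')
    refine ⟨0, t' / t, by rw [mul_zero], div_ne_zero ht' ht, ?_, ?_⟩
    · rw [hs, hs', mul_zero]
    · rw [Bloch.e_zero, one_mul, div_mul_cancel₀ _ ht]
  · have hs' : s' ≠ 0 := by
      intro hs'
      rw [hs', zero_pow hq0, zero_mul] at heq
      have ht' : t' ≠ 0 := h'.resolve_left (by simpa using hs')
      rcases mul_eq_zero.1 heq.symm with h1 | h1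
      · exact ht' ((pow_eq_zero_iff hq0).1 h1)
      · exact hs ((pow_eq_zero_iff hq0).1 h1)
    by_cases ht : t = 0
    · have ht' : t' = 0 := by
        rw [ht, zero_pow hq0, mul_zero] at heq
        rcases mul_eq_zero.1 heq.symm with h1 | h1
        · exact (pow_eq_zero_iff hq0).1 h1
        · exact absurd ((pow_eq_zero_iff hq0).1 h1) hs
      refine ⟨0, s' / s, by rw [mul_zero], div_ne_zero hs' hs, ?_, ?_⟩
      · rw [div_mul_cancel₀ _ hs]
      · rw [ht, ht', mul_zero, mul_zero]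
    · have hw : (t' * s / (s' * t)) ^ q = 1 := by
        rw [div_pow, mul_pow, mul_pow, ← heq, div_self]
        exact mul_ne_zero (pow_ne_zero _ hs') (pow_ne_zero _ ht)
      obtain ⟨g, hg, he⟩ := lf3_root (d := d) hq hw
      refine ⟨g, s' / s, hg, div_ne_zero hs' hs, ?_, ?_⟩
      · rw [div_mul_cancel₀ _ hs]
      · rw [he]
        field_simp

/-- CHUNK LF3. PROOF. `linprod` (for `α = Y`, `β = Z`) turns the hypothesis into the identity of `exists_match` for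
`u l = x (l, false) ^ q`, `v l = x (l, true) ^ q`, `u' = x' (l, false) ^ q`, ...: this gives `σ ∈ permB B` with
`x' (σ l, false) ^ q * x (l, true) ^ q = x' (σ l, true) ^ q * x (l, false) ^ q` for `l ∈ B`. `lf3_pair` gives `g l`, `ρ l` with
`x' (σ l, false) = ρ l * x (l, false)`, `x' (σ l, true) = ρ l * (e (g l) * x (l, true))`. Let
`ψ = (fun i => if i ∈ B then g (σ.symm i) else 0, σ)`: `InB B q ψ`, and for `i ∈ B`, `l = σ.symm i ∈ B`:
`x' (i, β) = ρ l * mact ψ x (i, β)`. -/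
theorem fib {B : Finset (Fin N)} {q : ℕ} (hq : q ∣ d) {x x' : Fin N × Bool → ℂ}
    (hx : ∀ i ∈ B, ∃ β, x (i, β) ≠ 0) (hx' : ∀ i ∈ B, ∃ β, x' (i, β) ≠ 0) {t : ℂ} (ht : t ≠ 0)
    (h : ∀ m, cf B q x' m = t * cf B q x m) :
    ∃ ψ : (Fin N → ZMod d) × Equiv.Perm (Fin N), InB B q ψ ∧
      ∀ i ∈ B, ∃ ρ : ℂ, ρ ≠ 0 ∧ ∀ β, x' (i, β) = ρ * mact ψ x (i, β) := by
  classical
  have hq0 : q ≠ 0 := by
    rintro rfl
    exact NeZero.ne d (zero_dvd_iff.1 hq)
  have hpt : ∀ y : Fin N × Bool → ℂ, (∀ i ∈ B, ∃ β, y (i, β) ≠ 0) →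
      ∀ l ∈ B, y (l, false) ^ q ≠ 0 ∨ y (l, true) ^ q ≠ 0 := by
    intro y hy l hl
    obtain ⟨β, hβ⟩ := hy l hl
    cases β
    · exact Or.inl (pow_ne_zero _ hβ)
    · exact Or.inr (pow_ne_zero _ hβ)
  have heq : ∀ Y Z : ℂ, ∏ l ∈ B, (x' (l, false) ^ q * Y + x' (l, true) ^ q * Z) =
      t * ∏ l ∈ B, (x (l, false) ^ q * Y + x (l, true) ^ q * Z) := by
    intro Y Z
    have h1 := linprod B q x Y Z
    have h2 := linprod B q x' Y Z
    have h3 : ∀ y : Fin N × Bool → ℂ, ∏ l ∈ B, (y (l, false) ^ q * Y + y (l, true) ^ q * Z) =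
        ∏ l ∈ B, (Y * y (l, false) ^ q + Z * y (l, true) ^ q) := fun y =>
      Finset.prod_congr rfl fun l _ => by ring
    rw [h3, h3, h1, h2, Finset.mul_sum]
    refine Finset.sum_congr rfl fun m _ => ?_
    rw [h m]
    ring
  obtain ⟨σ, hσ, hm⟩ := exists_match (hpt x hx) (hpt x' hx') ht heq
  have hσ' : ∀ i, i ∉ B → σ i = i := (Finset.mem_filter.1 hσ).2
  have hσB : ∀ l ∈ B, σ l ∈ B := by
    intro l hl
    by_contra hcon
    have h1 := hσ' _ hcon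
    have h2 := σ.injective h1
    rw [h2] at hcon
    exact hcon hl
  have hσB' : ∀ l ∈ B, σ.symm l ∈ B := by
    intro l hl
    by_contra hcon
    have h1 := hσ' _ hcon
    rw [Equiv.apply_symm_apply] at h1
    rw [← h1] at hcon
    exact hcon hl
  have hpair : ∀ l : Fin N, ∃ (g : ZMod d) (ρ : ℂ), l ∈ B → ((q : ZMod d) * g = 0 ∧ ρ ≠ 0 ∧
      x' (σ l, false) = ρ * x (l, false) ∧ x' (σ l, true) = ρ * (Bloch.e g * x (l, true))) := by
    intro l
    by_cases hl : l ∈ B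
    · have h1 : x (l, false) ≠ 0 ∨ x (l, true) ≠ 0 := by
        obtain ⟨β, hβ⟩ := hx l hl
        cases β
        · exact Or.inl hβ
        · exact Or.inr hβ
      have h2 : x' (σ l, false) ≠ 0 ∨ x' (σ l, true) ≠ 0 := by
        obtain ⟨β, hβ⟩ := hx' (σ l) (hσB l hl)
        cases β
        · exact Or.inl hβ
        · exact Or.inr hβ
      obtain ⟨g, ρ, h3⟩ := lf3_pair (d := d) hq h1 h2 (hm l hl)
      exact ⟨g, ρ, fun _ => h3⟩
    · exact ⟨0, 0, fun h => absurd h hl⟩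
  choose g ρ hgρ using hpair
  refine ⟨(fun i => if i ∈ B then g (σ.symm i) else 0, σ), ⟨fun i => ?_, fun i hi => ⟨?_, ?_⟩⟩,
    fun i hi => ?_⟩
  · show (q : ZMod d) * (if i ∈ B then g (σ.symm i) else 0) = 0
    by_cases hi : i ∈ B
    · rw [if_pos hi]
      exact (hgρ _ (hσB' i hi)).1
    · rw [if_neg hi, mul_zero]
  · exact if_neg hi
  · exact hσ' i hi
  · obtain ⟨-, h1, h2, h3⟩ := hgρ _ (hσB' i hi)
    rw [Equiv.apply_symm_apply] at h2 h3
    refine ⟨ρ (σ.symm i), h1, fun β => ?_⟩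
    cases β
    · show x' (i, false) = ρ (σ.symm i) * ((if false = true then
        ZMod.stdAddChar (if i ∈ B then g (σ.symm i) else 0) else 1) * x (σ.symm i, false))
      rw [if_neg Bool.false_ne_true, one_mul]
      exact h2
    · show x' (i, true) = ρ (σ.symm i) * ((if true = true then
        ZMod.stdAddChar (if i ∈ B then g (σ.symm i) else 0) else 1) * x (σ.symm i, true))
      rw [if_pos rfl, if_pos hi]
      exact h3

end Pool.Agent.H10S
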