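import Mathlib
import Pool.Agent.Lib.H10S.GA2
import Pool.Agent.Lib.H10S.LF3

/-!
CHUNK SP2 (M/L). The equations of the reflection divisors are transversal to `X`.
-/

open MvPolynomial Finset

namespace Pool.Agent.H10S

variable {N r d : ℕ} [NeZero d] {c q : Fin N → ℕ} {F : Fin r → MvPolynomial (Fin N × Bool) ℂ}
  {D : Fin r → Fin N → ℕ}

/-- the substitution -/
noncomputable def sp2_G {ι : Type} (κ : ι → ℂ) (τ : Equiv.Perm ι) :
    MvPolynomial ι ℂ →ₐ[ℂ] MvPolynomial ι ℂ := aeval fun p => C (κ p) * X (τ p)

theorem sp2_eval {ι : Type} (κ : ι → ℂ) (τ : Equiv.Perm ι) (Q : MvPolynomial ι ℂ) (y : ι → ℂ) :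
    eval y (sp2_G κ τ Q) = eval (fun p => κ p * y (τ p)) Q := by
  unfold sp2_G
  induction Q using MvPolynomial.induction_on with
  | C a => simp
  | add P Q hP hQ => rw [map_add, map_add, map_add, hP, hQ]
  | mul_X P i hP =>
    rw [map_mul, map_mul, map_mul, hP, aeval_X, eval_X, map_mul, eval_C, eval_X]

theorem sp2_deriv {ι : Type} [Fintype ι] [DecidableEq ι] (κ : ι → ℂ) (τ : Equiv.Perm ι)
    (Q : MvPolynomial ι ℂ) (p : ι) :
    pderiv (τ p) (sp2_G κ τ Q) = C (κ p) * sp2_G κ τ (pderiv p Q) := by
  induction Q using MvPolynomial.induction_on with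
  | C a =>
    have h1 : sp2_G κ τ (C a) = C a := by
      unfold sp2_G
      rw [← MvPolynomial.algebraMap_eq, AlgHom.commutes]
    rw [h1, pderiv_C, pderiv_C, map_zero, mul_zero]
  | add P Q hP hQ => rw [map_add, map_add, map_add, map_add, hP, hQ, mul_add]
  | mul_X P i hP =>
    have h1 : sp2_G κ τ (X i) = C (κ i) * X (τ i) := by
      unfold sp2_G
      rw [aeval_X]
    rw [map_mul, Derivation.leibniz, Derivation.leibniz, hP, h1, Derivation.leibniz, pderiv_C,
      map_add]
    simp only [smul_eq_mul, mul_zero, add_zero, map_mul, h1]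
    by_cases hi : i = p
    · subst hi
      rw [pderiv_X_self, pderiv_X_self, map_one]
      ring
    · rw [pderiv_X_of_ne (fun h => hi (τ.injective h)), pderiv_X_of_ne hi, map_zero]
      ring

/-- The linear substitution `x p ↦ κ p * x (τ p)`, `τ` a permutation of the variables: if it preserves the `F k` and
the point `x`, and multiplies `P` by `w ≠ 1`, and the gradient of `P` at `x` is a combination of those of the `F k`,
then the gradient of `P` at `x` is zero.
PROOF. Let `g y p = κ p * y (τ p)`. The polynomial `bind₁ (fun p => C (κ p) * X (τ p)) Q` has the values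
`eval (g y) Q`, and its partial derivative with respect to `X (τ p)` at `x` is `κ p * (∂Q/∂X p) (g x)` (chain rule for the
substitution, by induction on `Q`, or by `sp1_deriv`-like differentials). As `g x = x`, `Q ∘ g = Q` for `Q = F k`:
`∂_(τ p) F k (x) = κ p * ∂_p F k (x)`, and `P ∘ g = w P`: `w * ∂_(τ p) P (x) = κ p * ∂_p P (x)`. If
`∂_p P (x) = ∑ c_k ∂_p F k (x)` for all `p` then `w * ∂_(τ p) P (x) = κ p * ∑ c_k ∂_p F k (x) = ∑ c_k ∂_(τ p) F k (x) =
∂_(τ p) P (x)`, so `∂_(τ p) P (x) = 0` for all `p`. -/
theorem sp2_reflect {ι : Type} [Fintype ι] [DecidableEq ι] {F : Fin r → MvPolynomial ι ℂ}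
    {P : MvPolynomial ι ℂ} {x : ι → ℂ} (κ : ι → ℂ) (τ : Equiv.Perm ι) {w : ℂ} (hw : w ≠ 1)
    (hgx : ∀ p, κ p * x (τ p) = x p)
    (hF : ∀ (k : Fin r) (y : ι → ℂ), eval (fun p => κ p * y (τ p)) (F k) = eval y (F k))
    (hP : ∀ y : ι → ℂ, eval (fun p => κ p * y (τ p)) P = w * eval y P)
    (hspan : (fun p : ι => eval x (pderiv p P)) ∈
      Submodule.span ℂ (Set.range fun k : Fin r => fun p : ι => eval x (pderiv p (F k)))) :
    (fun p : ι => eval x (pderiv p P)) = 0 := by
  have hev : ∀ (Q : MvPolynomial ι ℂ) (y : ι → ℂ), eval y (sp2_G κ τ Q) =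
      eval (fun p => κ p * y (τ p)) Q := sp2_eval κ τ
  have hFG : ∀ k, sp2_G κ τ (F k) = F k := by
    intro k
    apply MvPolynomial.funext
    intro y
    rw [hev, hF]
  have hPG : sp2_G κ τ P = C w * P := by
    apply MvPolynomial.funext
    intro y
    rw [hev, hP, map_mul, eval_C]
  have hgx' : (fun p => κ p * x (τ p)) = x := funext hgx
  have hFd : ∀ k p, eval x (pderiv (τ p) (F k)) = κ p * eval x (pderiv p (F k)) := by
    intro k p
    have h1 := congrArg (eval x) (sp2_deriv κ τ (F k) p)
    rw [hFG, map_mul, eval_C, hev, hgx'] at h1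
    exact h1
  have hPd : ∀ p, w * eval x (pderiv (τ p) P) = κ p * eval x (pderiv p P) := by
    intro p
    have h1 := congrArg (eval x) (sp2_deriv κ τ P p)
    rw [hPG, Derivation.leibniz, pderiv_C, smul_zero, add_zero, smul_eq_mul, map_mul, map_mul, eval_C,
      eval_C, hev, hgx'] at h1
    exact h1
  obtain ⟨cc, hcc⟩ := (Submodule.mem_span_range_iff_exists_fun ℂ).1 hspan
  have hcc' : ∀ p, eval x (pderiv p P) = ∑ k, cc k * eval x (pderiv p (F k)) := by
    intro p
    have h1 := congrFun hcc p
    rw [Finset.sum_apply] at h1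
    exact h1.symm
  have key : ∀ p, eval x (pderiv (τ p) P) = 0 := by
    intro p
    have h1 := hPd p
    rw [hcc' p, Finset.mul_sum] at h1
    have h2 : ∑ k, κ p * (cc k * eval x (pderiv p (F k))) = eval x (pderiv (τ p) P) := by
      rw [hcc' (τ p)]
      refine Finset.sum_congr rfl fun k _ => ?_
      rw [hFd]
      ring
    rw [h2] at h1
    have h3 : (w - 1) * eval x (pderiv (τ p) P) = 0 := by
      rw [sub_mul, one_mul, h1, sub_self]
    exact (mul_eq_zero.1 h3).resolve_left (sub_ne_zero.2 hw)
  funext p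
  have := key (τ.symm p)
  rwa [Equiv.apply_symm_apply] at this

theorem sp2_mh (H : Hyp c q d F D) (k : Fin r) (ρ : Fin N → ℂ) (x : Fin N × Bool → ℂ) :
    eval (fun p : Fin N × Bool => ρ p.1 * x p) (F k) = (∏ i, ρ i ^ D k i) * eval x (F k) :=
  mh_scale (H.md.hom k) ρ x

/-- The coordinate hyperplanes (`2 ≤ q i`). PROOF. `sp2_reflect` with `P = X (i, β)`, `τ = 1`, `κ (i, β) = w := e (d / q i)` (of order
`q i ≥ 2`, so `w ≠ 1`), `κ = 1` elsewhere; `κ p * x p = x p` since `x (i, β) = 0`. `F k` is invariant: for `β = true` this is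
`mact (Pi.single i (d / q i), 1)`, in the group. For `β = false`: the substitution is the multiplication of the factor `i`
by `w` (`mh_scale`: multiplies `F k` by `w ^ D k i = 1`, `q i ∣ D k i`) composed with `mact (Pi.single i (- (d / q i)), 1)`. The
gradient of `X (i, β)` is not zero. -/
theorem refl_coord (H : Hyp c q d F D) {x : Fin N × Bool → ℂ} {i : Fin N}
    {β : Bool} (hq : 2 ≤ q i) (h0 : x (i, β) = 0) :
    (fun p : Fin N × Bool => eval x (pderiv p (X (i, β) : MvPolynomial (Fin N × Bool) ℂ))) ∉
      Submodule.span ℂ (Set.range fun k : Fin r => fun p => eval x (pderiv p (F k))) := by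
  have hd : 0 < d := Nat.pos_of_ne_zero (NeZero.ne d)
  obtain ⟨m, hm⟩ := H.dvd i
  have hm0 : 0 < m := by
    rcases Nat.eq_zero_or_pos m with h | h
    · rw [h, mul_zero] at hm
      omega
    · exact h
  have hqg : (q i : ZMod d) * (m : ZMod d) = 0 := by
    rw [← Nat.cast_mul, ← hm, ZMod.natCast_self]
  have hw1 : Bloch.e (m : ZMod d) ≠ 1 := by
    intro h
    rw [← Bloch.e_zero (d := d)] at h
    have h1 := Bloch.e_injective h
    rw [ZMod.natCast_eq_zero_iff] at h1
    have h2 := Nat.le_of_dvd hm0 h1
    have h3 : 2 * m ≤ q i * m := Nat.mul_le_mul_right m hq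
    omega
  have hwq : Bloch.e (m : ZMod d) ^ q i = 1 := by
    rw [← Bloch.e_nsmul, nsmul_eq_mul, hqg, Bloch.e_zero]
  have hgrad : (fun p : Fin N × Bool =>
      eval x (pderiv p (X (i, β) : MvPolynomial (Fin N × Bool) ℂ))) ≠ 0 := by
    intro h
    have h1 := congrFun h (i, β)
    rw [pderiv_X_self, map_one, Pi.zero_apply] at h1
    exact one_ne_zero h1
  intro hspan
  apply hgrad
  refine sp2_reflect (fun p => if p = (i, β) then Bloch.e (m : ZMod d) else 1) 1 hw1 ?_ ?_ ?_ hspan
  · intro p
    rw [Equiv.Perm.one_apply]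
    by_cases hp : p = (i, β)
    · rw [hp, h0, mul_zero]
    · rw [if_neg hp, one_mul]
  · intro k y
    simp only [Equiv.Perm.one_apply]
    cases β with
    | true =>
      have hg : InGroup c q ((Pi.single i (m : ZMod d), 1) : (Fin N → ZMod d) × Equiv.Perm (Fin N)) := by
        refine ⟨fun j => ?_, fun j => rfl⟩
        show (q j : ZMod d) * (Pi.single i (m : ZMod d) : Fin N → ZMod d) j = 0
        by_cases hj : j = i
        · subst hj
          rw [Pi.single_eq_same, hqg]
        · rw [Pi.single_eq_of_ne hj, mul_zero]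
      have h1 := H.inv k _ hg y
      rw [← h1]
      congr 1
      congr 1
      funext p
      obtain ⟨j, b⟩ := p
      show _ = (if b then ZMod.stdAddChar ((Pi.single i (m : ZMod d) : Fin N → ZMod d) j) else 1) * y (j, b)
      congr 1
      cases b with
      | false => simp
      | true =>
        rw [if_pos rfl]
        by_cases hj : j = i
        · subst hj
          rw [Pi.single_eq_same, if_pos rfl]
        · rw [Pi.single_eq_of_ne hj, AddChar.map_zero_eq_one, if_neg (by
            intro h
            exact hj (congrArg Prod.fst h))]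
    | false =>
      have hg : InGroup c q ((Pi.single i (-(m : ZMod d)), 1) :
          (Fin N → ZMod d) × Equiv.Perm (Fin N)) := by
        refine ⟨fun j => ?_, fun j => rfl⟩
        show (q j : ZMod d) * (Pi.single i (-(m : ZMod d)) : Fin N → ZMod d) j = 0
        by_cases hj : j = i
        · subst hj
          rw [Pi.single_eq_same, mul_neg, hqg, neg_zero]
        · rw [Pi.single_eq_of_ne hj, mul_zero]
      have h1 := H.inv k _ hg y
      have h2 := sp2_mh H k (Function.update (fun _ => 1) i (Bloch.e (m : ZMod d)))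
        (mact ((Pi.single i (-(m : ZMod d)), 1) : (Fin N → ZMod d) × Equiv.Perm (Fin N)) y)
      have h3 : ∏ j, (Function.update (fun _ => (1 : ℂ)) i (Bloch.e (m : ZMod d))) j ^ D k j = 1 := by
        refine Finset.prod_eq_one fun j _ => ?_
        by_cases hj : j = i
        · subst hj
          rw [Function.update_self]
          obtain ⟨l, hl⟩ := H.qD k j
          rw [hl, pow_mul, hwq, one_pow]
        · rw [Function.update_of_ne hj, one_pow]
      rw [h3, one_mul, h1] at h2
      rw [← h2]
      congr 1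
      congr 1
      funext p
      obtain ⟨j, b⟩ := p
      show _ = (Function.update (fun _ => (1 : ℂ)) i (Bloch.e (m : ZMod d))) j *
        ((if b then ZMod.stdAddChar ((Pi.single i (-(m : ZMod d)) : Fin N → ZMod d) j) else 1) *
          y (j, b))
      rw [← mul_assoc]
      congr 1
      by_cases hj : j = i
      · subst hj
        rw [Function.update_self, Pi.single_eq_same]
        cases b with
        | false => simp
        | true =>
          rw [if_neg (by
            intro h
            exact absurd (congrArg Prod.snd h) (by simp)), if_pos rfl]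
          exact (Bloch.e_mul_neg _).symm
      · rw [Function.update_of_ne hj, Pi.single_eq_of_ne hj, AddChar.map_zero_eq_one, if_neg (by
          intro h
          exact hj (congrArg Prod.fst h))]
        simp
  · intro y
    rw [eval_X, eval_X, if_pos rfl, Equiv.Perm.one_apply]

/-- CHUNK SP2. The divisors `x_i = x_j` up to the diagonal action. PROOF. `h = X (i, false) * C w * X (j, true) -
X (i, true) * X (j, false)`, `w = e g`, `q i * g = 0`. `x (i, .)`, `x (j, .)` are not zero and `h (x) = 0` so there is `κ ≠ 0` with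
`x (i, false) = κ * x (j, false)`, `x (i, true) = κ * w * x (j, true)`. Take in `sp2_reflect` `τ = swap of i and j in the first
component`, the substitution `y ↦ g y`: `(g y) (i, false) = κ y (j, false)`, `(g y) (i, true) = κ w y (j, true)`,
`(g y) (j, false) = κ⁻¹ y (i, false)`, `(g y) (j, true) = κ⁻¹ w⁻¹ y (i, true)`, the other coordinates unchanged. `g x = x`. `F k` is
invariant: `g` is the composition of the scaling by `κ` and `κ⁻¹` of the factors `i`, `j` (`mh_scale`: factor
`κ ^ D k i * κ⁻¹ ^ D k j = 1`, `Dcls`) and of `mact (γ, swap i j)` with `γ i = g`, `γ j = -g`, in the group. `h ∘ g = - h`: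
`κ y (j, false) w κ⁻¹ w⁻¹ y (i, true) - κ w y (j, true) κ⁻¹ y (i, false) = y (j, false) y (i, true) - w y (j, true) y (i, false)`. The
gradient of `h` at `x` is not zero: its entries at `(j, true)`, `(j, false)` are `w x (i, false)`, `- x (i, true)`. -/
theorem refl_pair (H : Hyp c q d F D) {x : Fin N × Bool → ℂ} (hx : IsPoint x) {i j : Fin N}
    (hij : i ≠ j) (hc : c i = c j) {g : ZMod d} (hg : (q i : ZMod d) * g = 0)
    (h0 : x (i, false) * (Bloch.e g * x (j, true)) = x (i, true) * x (j, false)) :
    (fun p : Fin N × Bool => eval x (pderiv p (X (i, false) * (C (Bloch.e g) * X (j, true)) -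
      X (i, true) * X (j, false) : MvPolynomial (Fin N × Bool) ℂ))) ∉
      Submodule.span ℂ (Set.range fun k : Fin r => fun p => eval x (pderiv p (F k))) := by
  obtain ⟨w, hw⟩ : ∃ w, w = Bloch.e g := ⟨_, rfl⟩
  have hw0 : w ≠ 0 := by rw [hw]; exact Bloch.e_ne_zero g
  rw [← hw] at h0 ⊢
  -- the gradient
  have hgrad : (fun p : Fin N × Bool => eval x (pderiv p (X (i, false) * (C w * X (j, true)) -
      X (i, true) * X (j, false) : MvPolynomial (Fin N × Bool) ℂ))) ≠ 0 := by
    intro h
    have hne : ∀ b b' : Bool, (i, b) ≠ (j, b') := fun b b' hh => hij (congrArg Prod.fst hh)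
    have h1 := congrFun h (j, true)
    have h2 := congrFun h (j, false)
    simp only [map_sub, Derivation.leibniz, smul_eq_mul, pderiv_C, pderiv_X_self,
      pderiv_X_of_ne (hne _ _), Pi.zero_apply, mul_zero, mul_one, add_zero] at h1 h2
    rw [pderiv_X_of_ne (show ((j, false) : Fin N × Bool) ≠ (j, true) by simp)] at h1
    rw [pderiv_X_of_ne (show ((j, true) : Fin N × Bool) ≠ (j, false) by simp)] at h2
    simp only [mul_zero, map_zero, sub_zero, zero_sub, map_mul, eval_X, eval_C, neg_eq_zero,
      mul_eq_zero, hw0, or_false] at h1 h2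
    obtain ⟨b, hb⟩ := hx i
    cases b with
    | true => exact hb h2
    | false => exact hb h1
  -- the scalar
  obtain ⟨κ, hκ, hκ1, hκ2⟩ : ∃ κ : ℂ, κ ≠ 0 ∧ κ * x (j, false) = x (i, false) ∧
      κ * (w * x (j, true)) = x (i, true) := by
    by_cases hjf : x (j, false) = 0
    · have hjt : x (j, true) ≠ 0 := by
        obtain ⟨b, hb⟩ := hx j
        cases b with
        | true => exact hb
        | false => exact absurd hjf hb
      rw [hjf, mul_zero] at h0
      have hif : x (i, false) = 0 := (mul_eq_zero.1 h0).resolve_right (mul_ne_zero hw0 hjt)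
      have hit : x (i, true) ≠ 0 := by
        obtain ⟨b, hb⟩ := hx i
        cases b with
        | true => exact hb
        | false => exact absurd hif hb
      refine ⟨x (i, true) / (w * x (j, true)), div_ne_zero hit (mul_ne_zero hw0 hjt), ?_, ?_⟩
      · rw [hjf, hif, mul_zero]
      · exact div_mul_cancel₀ _ (mul_ne_zero hw0 hjt)
    · have hif : x (i, false) ≠ 0 := by
        intro hif
        rw [hif, zero_mul] at h0
        have hit := (mul_eq_zero.1 h0.symm).resolve_right hjf
        obtain ⟨b, hb⟩ := hx i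
        cases b with
        | true => exact hb hit
        | false => exact hb hif
      refine ⟨x (i, false) / x (j, false), div_ne_zero hif hjf, div_mul_cancel₀ _ hjf, ?_⟩
      rw [div_mul_eq_mul_div, div_eq_iff hjf, h0]
  intro hspan
  apply hgrad
  have hji : j ≠ i := hij.symm
  obtain ⟨γ, hγ⟩ : ∃ γ : Fin N → ZMod d, γ = fun l => if l = i then g else if l = j then -g else 0 :=
    ⟨_, rfl⟩
  obtain ⟨ρ, hρ⟩ : ∃ ρ : Fin N → ℂ, ρ = fun l => if l = i then κ else if l = j then κ⁻¹ else 1 :=
    ⟨_, rfl⟩
  have hg' : InGroup c q ((γ, Equiv.swap i j) : (Fin N → ZMod d) × Equiv.Perm (Fin N)) := by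
    refine ⟨fun l => ?_, fun l => ?_⟩
    · show (q l : ZMod d) * γ l = 0
      rw [hγ]
      simp only
      split_ifs with h1 h2
      · rw [h1, hg]
      · rw [h2, H.qcls j i hc.symm, mul_neg, hg, neg_zero]
      · rw [mul_zero]
    · show c (Equiv.swap i j l) = c l
      by_cases h1 : l = i
      · rw [h1, Equiv.swap_apply_left, hc]
      · by_cases h2 : l = j
        · rw [h2, Equiv.swap_apply_right, hc]
        · rw [Equiv.swap_apply_of_ne_of_ne h1 h2]
  have hact : ∀ y : Fin N × Bool → ℂ, (fun p : Fin N × Bool =>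
      (ρ p.1 * if p.2 then Bloch.e (γ p.1) else 1) *
        y (((Equiv.swap i j).prodCongr (Equiv.refl Bool)) p)) =
      fun p => ρ p.1 * mact ((γ, Equiv.swap i j) : (Fin N → ZMod d) × Equiv.Perm (Fin N)) y p := by
    intro y
    funext p
    rw [mul_assoc]
    rfl
  have hρD : ∀ k, ∏ l, ρ l ^ D k l = 1 := by
    intro k
    rw [← Finset.mul_prod_erase univ _ (Finset.mem_univ i),
      ← Finset.mul_prod_erase (univ.erase i) _ (Finset.mem_erase.2 ⟨hji, Finset.mem_univ j⟩)]
    have h1 : ∏ l ∈ (univ.erase i).erase j, ρ l ^ D k l = 1 := by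
      refine Finset.prod_eq_one fun l hl => ?_
      obtain ⟨h2, h3⟩ := Finset.mem_erase.1 hl
      rw [hρ]
      simp only
      rw [if_neg (Finset.ne_of_mem_erase h3), if_neg h2, one_pow]
    have e1 : ρ i = κ := by rw [hρ]; simp
    have e2 : ρ j = κ⁻¹ := by rw [hρ]; simp [hji]
    rw [h1, mul_one, e1, e2, H.Dcls k i j hc, ← mul_pow, mul_inv_cancel₀ hκ, one_pow]
  refine sp2_reflect (w := -1) (fun p => ρ p.1 * if p.2 then Bloch.e (γ p.1) else 1)
    ((Equiv.swap i j).prodCongr (Equiv.refl Bool)) (by norm_num) ?_ ?_ ?_ hspan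
  · rintro ⟨l, b⟩
    show (ρ l * if b then Bloch.e (γ l) else 1) * x (Equiv.swap i j l, b) = x (l, b)
    rw [hρ, hγ]
    simp only
    by_cases h1 : l = i
    · subst h1
      rw [if_pos rfl, if_pos rfl, Equiv.swap_apply_left]
      cases b with
      | false => simpa using hκ1
      | true =>
        rw [if_pos rfl, ← hw, mul_assoc]
        exact hκ2
    · rw [if_neg h1, if_neg h1]
      by_cases h2 : l = j
      · subst h2
        rw [if_pos rfl, if_pos rfl, Equiv.swap_apply_right]
        cases b with
        | false =>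
          rw [← hκ1]
          simp [hκ]
        | true =>
          rw [if_pos rfl, ← hκ2]
          have h3 : Bloch.e (-g) * w = 1 := by rw [hw]; exact Bloch.e_neg_mul g
          calc κ⁻¹ * Bloch.e (-g) * (κ * (w * x (l, true))) =
              (κ⁻¹ * κ) * (Bloch.e (-g) * w) * x (l, true) := by ring
            _ = x (l, true) := by rw [h3, inv_mul_cancel₀ hκ, one_mul, one_mul]
      · rw [if_neg h2, if_neg h2, Equiv.swap_apply_of_ne_of_ne h1 h2, Bloch.e_zero]
        simp
  · intro k y
    rw [hact, sp2_mh H, hρD, one_mul]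
    exact H.inv k _ hg' y
  · intro y
    simp only [map_sub, map_mul, eval_X, eval_C]
    show (ρ i * if false then Bloch.e (γ i) else 1) * y (Equiv.swap i j i, false) *
        (w * ((ρ j * if true then Bloch.e (γ j) else 1) * y (Equiv.swap i j j, true))) -
      (ρ i * if true then Bloch.e (γ i) else 1) * y (Equiv.swap i j i, true) *
        ((ρ j * if false then Bloch.e (γ j) else 1) * y (Equiv.swap i j j, false)) = _
    have e1 : ρ i = κ := by rw [hρ]; simp
    have e2 : ρ j = κ⁻¹ := by rw [hρ]; simp [hji]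
    have e3 : γ i = g := by rw [hγ]; simp
    have e4 : γ j = -g := by rw [hγ]; simp [hji]
    rw [e1, e2, e3, e4, Equiv.swap_apply_left, Equiv.swap_apply_right, if_pos rfl, if_pos rfl, ← hw]
    have h3 : w * Bloch.e (-g) = 1 := by rw [hw]; exact Bloch.e_mul_neg g
    have h4 : κ * κ⁻¹ = 1 := mul_inv_cancel₀ hκ
    simp only [Bool.false_eq_true, if_false, mul_one]
    linear_combination (y (j, false) * y (i, true)) * (κ * κ⁻¹) * h3 +
      (y (j, false) * y (i, true)) * h4 - (w * y (j, true) * y (i, false)) * h4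

end Pool.Agent.H10S
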