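import Mathlib
import Pool.Agent.Lib.H10S.SP1
import Pool.Agent.Lib.H10S.SP2

/-!
CHUNK SP3 (M). The special point.
-/

open MvPolynomial Finset

namespace Pool.Agent.H10S

variable {N r d : ℕ} [NeZero d] {c q : Fin N → ℕ} {F : Fin r → MvPolynomial (Fin N × Bool) ℂ}
  {D : Fin r → Fin N → ℕ}

theorem sp3_open : IsOpen {y : Fin N × Bool → ℂ | IsPoint y} := by
  have h1 : {y : Fin N × Bool → ℂ | IsPoint y} = ⋂ i, ⋃ β, {y | y (i, β) ≠ 0} := by
    ext y
    simp only [Set.mem_iInter, Set.mem_iUnion]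
    rfl
  rw [h1]
  exact isOpen_iInter_of_finite fun i => isOpen_iUnion fun β =>
    isOpen_ne_fun (continuous_apply _) continuous_const

theorem sp3_avoid (hsm : IsSmooth F) (S : Finset (MvPolynomial (Fin N × Bool) ℂ)) :
    (∀ P ∈ S, ∀ x ∈ XP F, eval x P = 0 → (fun p : Fin N × Bool => eval x (pderiv p P)) ∉
      Submodule.span ℂ (Set.range fun k : Fin r => fun p => eval x (pderiv p (F k)))) →
    ∀ x ∈ XP F, ∀ U : Set (Fin N × Bool → ℂ), IsOpen U → x ∈ U →
      ∃ y ∈ XP F, y ∈ U ∧ ∀ P ∈ S, eval y P ≠ 0 := by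
  classical
  induction S using Finset.induction_on with
  | empty => exact fun _ x hx U _ hxU => ⟨x, hx, hxU, fun P hP => absurd hP (Finset.notMem_empty P)⟩
  | insert P S hPS ih =>
    intro hS x hx U hU hxU
    obtain ⟨y, hy, hyU, hyS⟩ := ih (fun Q hQ => hS Q (Finset.mem_insert_of_mem hQ)) x hx U hU hxU
    by_cases hyP : eval y P = 0
    · have hO : IsOpen (U ∩ ({y' | ∀ Q ∈ S, eval y' Q ≠ 0} ∩ {y' | IsPoint y'})) := by
        refine hU.inter (IsOpen.inter ?_ sp3_open)
        have h1 : {y' : Fin N × Bool → ℂ | ∀ Q ∈ S, eval y' Q ≠ 0} =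
            ⋂ Q ∈ S, {y' | eval y' Q ≠ 0} := by
          ext y'
          simp only [Set.mem_iInter]
          rfl
        rw [h1]
        exact isOpen_biInter_finset fun Q _ =>
          isOpen_ne_fun (MvPolynomial.continuous_eval Q) continuous_const
      have hmem : U ∩ ({y' | ∀ Q ∈ S, eval y' Q ≠ 0} ∩ {y' | IsPoint y'}) ∈ nhds y :=
        hO.mem_nhds ⟨hyU, hyS, hy.1⟩
      obtain ⟨z, hz, hz1, hz2⟩ := local_ne F P hy.2 (hsm y hy.1 hy.2)
        (hS P (Finset.mem_insert_self P S) y hy hyP) hmem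
      refine ⟨z, ⟨hz.2.2, hz1⟩, hz.1, fun Q hQ => ?_⟩
      rcases Finset.mem_insert.1 hQ with h | h
      · rw [h]
        exact hz2
      · exact hz.2.1 Q h
    · refine ⟨y, hy, hyU, fun Q hQ => ?_⟩
      rcases Finset.mem_insert.1 hQ with h | h
      · rw [h]
        exact hyP
      · exact hyS Q h

/-- Finitely many transversal equations are avoided.
PROOF. Induction on the finset `S` of polynomials, with the stronger conclusion that for every `x ∈ XP F` and every
neighbourhood `U` of `x` there is `y ∈ XP F ∩ U` with `eval y P ≠ 0` for all `P ∈ S`. Step `insert P S`: by the induction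
hypothesis there is `y ∈ XP F ∩ U` for `S`; if `eval y P ≠ 0` we are done; otherwise `local_ne` at `y` (`hsm`, `hS`) for the
neighbourhood of `y` which is the intersection of (a neighbourhood in) `U` (take `U` open from the start), of the open set
`{y' | ∀ Q ∈ S, eval y' Q ≠ 0}` and of the open set of the `y'` with `IsPoint y'`. -/
theorem avoid (hsm : IsSmooth F) (S : Finset (MvPolynomial (Fin N × Bool) ℂ))
    (hS : ∀ P ∈ S, ∀ x ∈ XP F, eval x P = 0 → (fun p : Fin N × Bool => eval x (pderiv p P)) ∉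
      Submodule.span ℂ (Set.range fun k : Fin r => fun p => eval x (pderiv p (F k))))
    {x : Fin N × Bool → ℂ} (hx : x ∈ XP F) : ∃ y ∈ XP F, ∀ P ∈ S, eval y P ≠ 0 := by
  obtain ⟨y, hy, -, hyS⟩ := sp3_avoid hsm S hS x hx Set.univ isOpen_univ (Set.mem_univ x)
  exact ⟨y, hy, hyS⟩

/-- CHUNK SP3. PROOF. `avoid` for the finite set of the polynomials `X (i, β)`, `2 ≤ q i`, and
`X (i, false) * (C (e g) * X (j, true)) - X (i, true) * X (j, false)`, `i ≠ j`, `c i = c j`, `q i * g = 0` (`refl_coord`, `refl_pair`).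
For the last assertion: if `x (i, false) ^ q i * x (j, true) ^ q i = x (i, true) ^ q i * x (j, false) ^ q i` then, by `lf3_pair` for
`(s, t) = x (j, .)`, `(s', t') = x (i, .)`, there are `g`, `ρ` with `x (i, false) = ρ x (j, false)`,
`x (i, true) = ρ e g x (j, true)`, so the polynomial for `g` vanishes. -/
theorem exists_special (H : Hyp c q d F D) (hsm : IsSmooth F) {x : Fin N × Bool → ℂ}
    (hx : x ∈ XP F) :
    ∃ y ∈ XP F, (∀ i β, 2 ≤ q i → y (i, β) ≠ 0) ∧ ∀ i j, c i = c j → i ≠ j →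
      y (i, false) ^ q i * y (j, true) ^ q i ≠ y (i, true) ^ q i * y (j, false) ^ q i := by
  classical
  let S1 : Finset (MvPolynomial (Fin N × Bool) ℂ) :=
    (univ.filter fun p : Fin N × Bool => 2 ≤ q p.1).image fun p => X p
  let S2 : Finset (MvPolynomial (Fin N × Bool) ℂ) :=
    (univ.filter fun t : Fin N × Fin N × ZMod d =>
      t.1 ≠ t.2.1 ∧ c t.1 = c t.2.1 ∧ (q t.1 : ZMod d) * t.2.2 = 0).image fun t =>
        X (t.1, false) * (C (Bloch.e t.2.2) * X (t.2.1, true)) - X (t.1, true) * X (t.2.1, false)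
  obtain ⟨y, hy, hyS⟩ := avoid hsm (S1 ∪ S2) (by
    intro P hP z hz hz0
    rcases Finset.mem_union.1 hP with h | h
    · obtain ⟨p, hp, rfl⟩ := Finset.mem_image.1 h
      rw [Finset.mem_filter] at hp
      rw [eval_X] at hz0
      obtain ⟨i, β⟩ := p
      exact refl_coord H hp.2 hz0
    · obtain ⟨t, ht, rfl⟩ := Finset.mem_image.1 h
      rw [Finset.mem_filter] at ht
      obtain ⟨-, h1, h2, h3⟩ := ht
      refine refl_pair H hz.1 h1 h2 h3 ?_
      simp only [map_sub, map_mul, eval_X, eval_C] at hz0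
      exact sub_eq_zero.1 hz0) hx
  refine ⟨y, hy, fun i β hq => ?_, fun i j hc hij heq => ?_⟩
  · have h1 := hyS (X (i, β)) (Finset.mem_union_left _ (Finset.mem_image.2
      ⟨(i, β), Finset.mem_filter.2 ⟨Finset.mem_univ _, hq⟩, rfl⟩))
    rwa [eval_X] at h1
  · have hor : ∀ l, y (l, false) ≠ 0 ∨ y (l, true) ≠ 0 := by
      intro l
      obtain ⟨b, hb⟩ := hy.1 l
      cases b with
      | true => exact Or.inr hb
      | false => exact Or.inl hb
    obtain ⟨g, ρ, hg, hρ, h1, h2⟩ := lf3_pair (H.dvd i) (hor j) (hor i) heq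
    refine hyS (X (i, false) * (C (Bloch.e g) * X (j, true)) - X (i, true) * X (j, false))
      (Finset.mem_union_right _ (Finset.mem_image.2
        ⟨(i, j, g), Finset.mem_filter.2 ⟨Finset.mem_univ _, hij, hc, hg⟩, rfl⟩)) ?_
    simp only [map_sub, map_mul, eval_X, eval_C]
    rw [h1, h2]
    ring

end Pool.Agent.H10S
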