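import Mathlib
import Pool.Agent.Lib.H10S.AA5
import Pool.Agent.Lib.H10S.AA6
import Pool.Agent.Lib.H10S.SP3

/-!
CHUNK AA7 (M/L). The correspondence kills the killed functions with bounded letters.
-/

open MvPolynomial Finset

namespace Pool.Agent.H10S

open Pool.Agent.Bloch (chi)
open Pool.Agent.H7SH (young Killed alg_sg)
open Pool.Agent.H7CX (ca ca_eq ZT WD rk)

variable {N r d : ℕ} [NeZero d] {c q : Fin N → ℕ} {F : Fin r → MvPolynomial (Fin N × Bool) ℂ}
  {D : Fin r → Fin N → ℕ}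

/-- PROOF. `exists_special` gives `x`; the finite set of the `lam` with `x (i, false) + lam * x (i, true) = 0` for some `i`
(for each `i` at most one, or none: `x (i, .) ≠ 0`) is not everything. `w = ww q lam x`: `w (i, false) ≠ 0`. For `c i = c j`,
`i ≠ j`: `w (i, true) * w (j, false) = w (i, false) * w (j, true)` is, if `q i ≥ 2`, excluded by `exists_special`, and if
`q i = 1` (`= q j`) it reduces to `x (i, true) * x (j, false) = x (i, false) * x (j, true)`. (`q i ≥ 1` since `q i ∣ d`.) -/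
theorem exists_good (H : Hyp c q d F D) (hsm : IsSmooth F) (hne : (XP F).Nonempty) :
    ∃ x ∈ XP F, ∃ lam : ℂ, (∀ i, ww q lam x (i, false) ≠ 0) ∧ (∀ i β, 2 ≤ q i → x (i, β) ≠ 0) ∧
      ∀ i j, c i = c j → i ≠ j → ww q lam x (i, true) / ww q lam x (i, false) ≠
        ww q lam x (j, true) / ww q lam x (j, false) := by
  classical
  obtain ⟨x0, hx0⟩ := hne
  obtain ⟨x, hx, h1, h2⟩ := exists_special H hsm hx0
  have hq0 : ∀ i, q i ≠ 0 := by
    intro i h0
    have h3 := H.dvd i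
    rw [h0, zero_dvd_iff] at h3
    exact NeZero.ne d h3
  obtain ⟨lam, hlam⟩ := Infinite.exists_notMem_finset (univ.image fun i : Fin N => -x (i, false) / x (i, true))
  have hw : ∀ i, ww q lam x (i, false) ≠ 0 := by
    intro i
    unfold ww
    by_cases hi : q i = 1
    · simp only [hi, if_true]
      rw [if_neg (by simp)]
      intro h0
      by_cases ht : x (i, true) = 0
      · rw [ht, mul_zero, add_zero] at h0
        obtain ⟨β, hβ⟩ := hx.1 i
        cases β
        · exact hβ h0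
        · exact hβ ht
      · apply hlam
        rw [mem_image]
        refine ⟨i, mem_univ _, ?_⟩
        rw [div_eq_iff ht]
        linear_combination -h0
    · simp only [hi, if_false]
      have := hq0 i
      exact pow_ne_zero _ (h1 i false (by omega))
  refine ⟨x, hx, lam, hw, h1, ?_⟩
  intro i j hij hne heq
  rw [div_eq_div_iff (hw i) (hw j)] at heq
  have hqq := H.qcls i j hij
  apply h2 i j hij hne
  unfold ww at heq
  by_cases hi : q i = 1
  · have hj : q j = 1 := by rw [← hqq]; exact hi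
    simp only [hi, hj, if_true] at heq
    rw [if_neg (by simp), if_neg (by simp)] at heq
    rw [hi, pow_one, pow_one, pow_one, pow_one]
    linear_combination -heq
  · have hj : q j ≠ 1 := by rw [← hqq]; exact hi
    simp only [hi, hj, if_false] at heq
    rw [← hqq] at heq
    linear_combination -heq

theorem aa7_sum {L : Fin N → ℕ} {α : Type*} (S : Finset α) (f : α → ℂ)
    (p : α → (Fin N → ℕ) → ℂ) (w : Fin N × Bool → ℂ) :
    PEL L (fun b => ∑ s ∈ S, f s * p s b) w = ∑ s ∈ S, f s * PEL L (p s) w := by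
  unfold PEL
  simp_rw [Finset.sum_mul, Finset.mul_sum]
  rw [Finset.sum_comm]
  refine Finset.sum_congr rfl fun s _ => Finset.sum_congr rfl fun b _ => ?_
  ring

theorem aa7_LL (H : Hyp c q d F D) (a : Fin N → ZMod d) (i j : Fin N) (h : ca c a i = ca c a j) :
    LL q D a i = LL q D a j := by
  obtain ⟨h1, h2⟩ := ca_eq.1 h
  unfold LL
  rw [h2, H.qcls i j h1, Finset.sum_congr rfl fun k _ => H.Dcls k i j h1]

/-- CHUNK AA7. PROOF. As `H7CX.forms_poly` (Lib/H7CX/AL6.lean). Let `c₁ = ca c a`, `L = LL q D a` (constant on the classes of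
`c₁`), `Z' s = zhat a (s * σ₀)`, `P' = ZT c₁ Z' p`. Suppose `P' ≠ 0`. It is killed, of degree `j`, `IsLet L`
(`H7CX.killed_comp`, `killed_sum`, `al3_WD_ZT`). `H7SH.specht` for `c₁` gives `c'` refining `c₁` with `∑ i, rk c' i = j`
(`npairs`) and `b` with `∑ h ∈ young c', sign h * P' (b ∘ h) ≠ 0`. Let `A b = ∑ h ∈ young c', sign h * P' (b ∘ h)`: `A ≠ 0`,
`A (b ∘ h) = sign h * A b` (`H7SH.alg_left`), `WD`, `IsLet L`. Let `x`, `lam` be as in `exists_good`, `w = ww q lam x`.
`alt_evalL`: `PEL L A w ≠ 0`. But `PEL L A w = ∑ h ∈ young c', sign h * PEL L (P' (. ∘ h)) w` and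
`PEL L (fun b => P' (b ∘ h)) (ww x) = PEL L P' (ww (mact (0, h⁻¹) x))` (`PEL_act`), and with `y = mact (0, h⁻¹) x ∈ XP F`
(`mact_XPc`) `PEL L P' (ww y) = ∑ s ∈ young c₁, Z' s * sign s * PEL L p (ww (mact (0, s) y))` (`PEL_act`, linearity), which is
zero by `forms_pt` at `y`: `mua q a y ≠ 0` since all the coordinates of `y` in the factors with `q i ≥ 2` are not zero.
Contradiction. -/
theorem forms_killed (H : Hyp c q d F D) (hsm : IsSmooth F) (hne : (XP F).Nonempty)
    {Z : (Fin N → ZMod d) × Equiv.Perm (Fin N) → ℚ} (hZc : ∀ φ, Z φ ≠ 0 → InGroup c q φ)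
    (hZ : KillsTopForms F D Z) {a : Fin N → ZMod d} (ha : a ∈ AQ q d) {j : ℕ}
    {p : (Fin N → ℕ) → ℂ} (hK : Killed (ca c a) p) (hp : WD (fun _ => 1) j p)
    (hL : IsLet (LL q D a) p) {σ₀ : Equiv.Perm (Fin N)} (hσ₀ : σ₀ ∈ young c) :
    ZT (ca c a) (fun s => Bloch.zhat (fun φ => (Z φ : ℂ)) a (s * σ₀)) p = 0 := by
  set Z' : Equiv.Perm (Fin N) → ℂ := fun s => Bloch.zhat (fun φ => (Z φ : ℂ)) a (s * σ₀) with hZ'
  by_contra hP0
  set L := LL q D a with hLdef
  have he₁ : ∀ i i', ca c a i = ca c a i' → (fun _ : Fin N => 1) i = (fun _ : Fin N => 1) i' := fun i i' _ => rfl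
  have hLc : ∀ i i', ca c a i = ca c a i' → L i = L i' := aa7_LL H a
  have hqc : ∀ i i', ca c a i = ca c a i' → q i = q i' := fun i i' h => H.qcls i i' (ca_eq.1 h).1
  have hZTf : ZT (ca c a) Z' p = fun b => ∑ g ∈ young (ca c a), (Z' g * alg_sg g) * p (b ∘ g.symm) :=
    rfl
  have hinvm : ∀ {c₀ : Fin N → ℕ} {g : Equiv.Perm (Fin N)}, g ∈ young c₀ → g.symm ∈ young c₀ :=
    fun hg => H7SH.alg_inv hg
  have hlet : ∀ {b : Fin N → ℕ} {g : Equiv.Perm (Fin N)}, g ∈ young (ca c a) → (∀ i, b (g i) < L i) → ∀ i, b i < L i := by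
    intro b g hg hb i
    have h1 := hb (g.symm i)
    rw [Equiv.apply_symm_apply] at h1
    have h2 := H7SH.alg_mem.1 (hinvm hg) i
    rwa [hLc _ _ h2] at h1
  have hK' : Killed (ca c a) (ZT (ca c a) Z' p) := by
    rw [hZTf]
    exact H7CX.killed_sum (young (ca c a)) (fun g => Z' g * alg_sg g) (fun g b => p (b ∘ g.symm))
      (fun g hg => H7CX.killed_comp hK (hinvm hg))
  have hWD' : WD (fun _ => 1) j (ZT (ca c a) Z' p) := H7CX.al3_WD_ZT he₁ Z' hp
  have hIL' : IsLet L (ZT (ca c a) Z' p) := by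
    intro b hb
    rw [hZTf] at hb
    obtain ⟨g, hg, hgb⟩ := Finset.exists_ne_zero_of_sum_ne_zero hb
    exact hlet (hinvm hg) (hL _ (right_ne_zero_of_mul hgb))
  obtain ⟨c', hc', hsum, b₀, hb₀⟩ := H7CX.specht_w he₁ hP0 hK' hWD'
  set P' := ZT (ca c a) Z' p with hP'
  have hy1 : ∀ h ∈ young c', h ∈ young (ca c a) := by
    intro h hh
    rw [H7SH.alg_mem] at hh ⊢
    exact fun i => hc' _ _ (hh i)
  let A : (Fin N → ℕ) → ℂ := fun b => ∑ h ∈ young c', alg_sg h * P' (b ∘ h)
  have hA0 : A ≠ 0 := by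
    intro h0
    exact hb₀ (congrFun h0 b₀)
  have hsq : ∀ h : Equiv.Perm (Fin N), alg_sg h * alg_sg h = 1 := by
    intro h
    have h1 := H7SH.alg_sg_mul h h⁻¹
    rw [mul_inv_cancel, H7SH.alg_sg_inv] at h1
    rw [← h1]
    unfold H7SH.alg_sg
    simp
  have hanti : ∀ h ∈ young c', ∀ b, A (b ∘ h) = alg_sg h * A b := by
    intro h hh b
    show ∑ g ∈ young c', alg_sg g * P' ((b ∘ h) ∘ g) = alg_sg h * ∑ g ∈ young c', alg_sg g * P' (b ∘ g)
    rw [H7SH.alg_left hh (fun g => alg_sg g * P' (b ∘ g)), Finset.mul_sum]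
    refine Finset.sum_congr rfl fun g _ => ?_
    rw [H7SH.alg_sg_mul]
    have h1 : (b ∘ h) ∘ g = b ∘ ⇑(h * g) := by
      funext i
      rfl
    rw [h1]
    have h2 := hsq h
    linear_combination (-alg_sg g * P' (b ∘ ⇑(h * g))) * h2
  have hL' : ∀ i i', c' i = c' i' → L i = L i' := fun i i' h => hLc i i' (hc' i i' h)
  have hWA : WD (fun _ => 1) (∑ i, rk c' i) A := by
    have h0 : ∑ i, rk c' i = j := by
      rw [← hsum]
      simp
    rw [h0]
    intro b hb
    obtain ⟨g, hg, hgb⟩ := Finset.exists_ne_zero_of_sum_ne_zero hb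
    exact H7CX.WD_comp he₁ hWD' (hy1 g hg) b (right_ne_zero_of_mul hgb)
  have hAL : IsLet L A := by
    intro b hb
    obtain ⟨g, hg, hgb⟩ := Finset.exists_ne_zero_of_sum_ne_zero hb
    exact hlet (hy1 g hg) (hIL' _ (right_ne_zero_of_mul hgb))
  obtain ⟨x, hx, lam, hw, hx0, hxu⟩ := exists_good H hsm hne
  have hu : ∀ i i', c' i = c' i' → i ≠ i' → ww q lam x (i, true) / ww q lam x (i, false) ≠
      ww q lam x (i', true) / ww q lam x (i', false) := by
    intro i i' hi hne
    exact hxu i i' (ca_eq.1 (hc' i i' hi)).1 hne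
  have hne := alt_evalL hL' hA0 hAL hanti hWA hw hu
  apply hne
  have hPA : PEL L A (ww q lam x) =
      ∑ h ∈ young c', alg_sg h * PEL L (fun b => P' (b ∘ h)) (ww q lam x) :=
    aa7_sum (young c') alg_sg (fun h b => P' (b ∘ h)) (ww q lam x)
  rw [hPA]
  refine Finset.sum_eq_zero fun h hh => ?_
  have hhc : h ∈ young (ca c a) := hy1 h hh
  have h1 := PEL_act (d := d) hqc hLc lam P' (hinvm hhc) x
  rw [Equiv.symm_symm] at h1
  rw [← h1]
  set y : Fin N × Bool → ℂ := mact ((0 : Fin N → ZMod d), h.symm) x with hy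
  have hyC : y ∈ XP F := by
    refine mact_XPc H.inv ⟨fun i => mul_zero _, fun i => ?_⟩ hx
    exact (ca_eq.1 (H7SH.alg_mem.1 (hinvm hhc) i)).1
  have h2 : PEL L P' (ww q lam y) = ∑ s ∈ young (ca c a), (Z' s * alg_sg s) *
      PEL L p (ww q lam (mact ((0 : Fin N → ZMod d), s) y)) := by
    rw [hZTf, aa7_sum (young (ca c a)) (fun s => Z' s * alg_sg s)
      (fun s b => p (b ∘ s.symm)) (ww q lam y)]
    refine Finset.sum_congr rfl fun s hsm => ?_
    rw [PEL_act (d := d) hqc hLc lam p hsm y]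
  rw [h2]
  have h3 := forms_pt H hZc hZ ha lam p hσ₀ hyC
  have h4 : mua q a y ≠ 0 := by
    rw [hy, aa5_mua H.qcls (hinvm hhc)]
    unfold mua
    refine Finset.prod_ne_zero_iff.2 fun i _ => ?_
    by_cases hi : q i = 1
    · rw [if_pos hi]
      exact one_ne_zero
    · rw [if_neg hi]
      have hq0 : q i ≠ 0 := by
        intro h0
        have h3 := H.dvd i
        rw [h0, zero_dvd_iff] at h3
        exact NeZero.ne d h3
      have hx1 := hx0 i false (by omega)
      have hx2 := hx0 i true (by omega)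
      split_ifs
      · exact mul_ne_zero (pow_ne_zero _ hx1) (pow_ne_zero _ hx2)
      · exact mul_ne_zero (pow_ne_zero _ hx1) (pow_ne_zero _ hx2)
  have h7 := (mul_eq_zero.1 h3).resolve_left h4
  rw [h7, mul_zero]

end Pool.Agent.H10S
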