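import Mathlib
import Pool.Agent.Lib.H10S.AA2
import Pool.Agent.Lib.H10S.AA7

/-!
CHUNK AA8 (S/M). The algebraic theorem for one character.
-/

open MvPolynomial Finset

namespace Pool.Agent.H10S

open Pool.Agent.Bloch (chi)
open Pool.Agent.H7SH (young Killed alg_sg)
open Pool.Agent.H7CX (ca ca_eq ZT WD rk)

variable {N r d : ℕ} [NeZero d] {c q : Fin N → ℕ} {F : Fin r → MvPolynomial (Fin N × Bool) ℂ}
  {D : Fin r → Fin N → ℕ}

/-- CHUNK AA8. PROOF. As `H7CX.alg_a` (Lib/H7CX/AL7.lean). For every `σ₀ ∈ young c` apply `alg_sw` to the colouring `ca c a`,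
`L = LL q D a` (constant on its classes: `qcls`, `Dcls`, `ca_eq`), `Z' s = zhat a (s * σ₀)`, `m' s = m (s * σ₀)`: its `hZ` is
`forms_killed`, its `hm` the hypothesis `hm` here. So `∑ s ∈ young (ca c a), zhat a (s * σ₀) * m (s * σ₀) = 0`. Sum over
`σ₀ ∈ young c`: for every `s ∈ young (ca c a) ⊆ young c` the map `σ₀ ↦ s * σ₀` permutes `young c` (`H7SH.alg_left`), so
`card (young (ca c a)) * ∑ σ ∈ young c, zhat a σ * m σ = 0`. -/
theorem alg_aL (H : Hyp c q d F D) (hsm : IsSmooth F) (hne : (XP F).Nonempty)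
    {Z : (Fin N → ZMod d) × Equiv.Perm (Fin N) → ℚ} (hZc : ∀ φ, Z φ ≠ 0 → InGroup c q φ)
    (hZ : KillsTopForms F D Z) {a : Fin N → ZMod d} (ha : a ∈ AQ q d)
    (m : Equiv.Perm (Fin N) → ℂ)
    (hm : ∀ c' : Fin N → ℕ, (∀ i i', c' i = c' i' → ca c a i = ca c a i') →
      (∃ i, LL q D a i < (univ.filter fun i' => c' i' = c' i).card) →
      ∀ σ₀ ∈ young c, ∀ g ∈ young (ca c a), ∀ g' ∈ young (ca c a),
        ∑ h ∈ young c', m (g' * h * g * σ₀) = 0) :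
    ∑ σ ∈ young c, Bloch.zhat (fun φ => (Z φ : ℂ)) a σ * m σ = 0 := by
  classical
  have hca : ∀ s ∈ young (ca c a), s ∈ young c := by
    intro s hsy
    rw [H7SH.alg_mem] at hsy ⊢
    exact fun i => (ca_eq.1 (hsy i)).1
  set f : Equiv.Perm (Fin N) → ℂ := fun σ => Bloch.zhat (fun φ => (Z φ : ℂ)) a σ * m σ with hf
  have hkey : ∀ σ₀ ∈ young c, ∑ s ∈ young (ca c a), f (s * σ₀) = 0 := by
    intro σ₀ hσ₀
    refine alg_sw (c := ca c a) (L := LL q D a) (aa7_LL H a)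
      (fun s => m (s * σ₀)) (fun s => Bloch.zhat (fun φ => (Z φ : ℂ)) a (s * σ₀)) ?_ ?_
    · intro j p hK hp hL
      exact forms_killed H hsm hne hZc hZ ha hK hp hL hσ₀
    · intro c' hc' hbig g hg g' hg'
      exact hm c' hc' hbig σ₀ hσ₀ g hg g' hg'
  have h1 : ∑ σ₀ ∈ young c, ∑ s ∈ young (ca c a), f (s * σ₀) = 0 := Finset.sum_eq_zero hkey
  rw [Finset.sum_comm] at h1
  have h2 : ∀ s ∈ young (ca c a), ∑ σ₀ ∈ young c, f (s * σ₀) = ∑ σ ∈ young c, f σ :=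
    fun s hsy => (H7SH.alg_left (hca s hsy) f).symm
  rw [Finset.sum_congr rfl h2, Finset.sum_const, nsmul_eq_mul] at h1
  refine (mul_eq_zero.1 h1).resolve_left ?_
  exact Nat.cast_ne_zero.2 (Finset.card_ne_zero.2 ⟨1, H7SH.alg_one⟩)

end Pool.Agent.H10S
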