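import Mathlib
import Pool.Agent.Lib.H7CX.QU4
import Pool.Agent.Lib.H10S.Core

/-!
CHUNK EQ1 (M/L). The direction of the curve: counting equations.
-/

open MvPolynomial Finset

namespace Pool.Agent.H10S

variable {N r : ℕ} {F : Fin r → MvPolynomial (Fin N × Bool) ℂ} {B : Finset (Fin N)} {q : ℕ}
  {e : Fin r → ℕ} {G : Fin r → MvPolynomial (Fin (B.card + 1) ⊕ (Fin N × Bool)) ℂ}

/-- Homogeneity. PROOF. Write `G k` as the sum of its monomials; a monomial `m` with nonzero coefficient has
`∑ i, m (Sum.inl i) = e k`. (`H7CX.weighted_smul`, Lib/H7CX, is similar.) -/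
theorem G_smul (hG : GB F B q e G) (k : Fin r) {R : Type*} [CommRing R] [Algebra ℂ R]
    (lam : R) (v : Fin (B.card + 1) → R) (y : Fin N × Bool → R) :
    aeval (Sum.elim (fun m => lam * v m) y) (G k) = lam ^ e k * aeval (Sum.elim v y) (G k) := by
  have h1 := H7CX.weighted_smul (hG.hom k) lam (Sum.elim v y)
  rw [← h1]
  congr 2
  funext i
  rcases i with m | p
  · simp
  · simp

/-- PROOF. Every monomial of `G k` contains `e k` of the first variables, which are replaced by polynomials of
degree `≤ 1`, the others by constants. -/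
theorem G_natDegree (hG : GB F B q e G) (k : Fin r) {S : Type*} [CommRing S] [Algebra ℂ S]
    (e₀ v : Fin (B.card + 1) → S) (y : Fin N × Bool → S) :
    (aeval (Sum.elim (fun m => Polynomial.C (e₀ m) + Polynomial.X * Polynomial.C (v m))
      (fun p => Polynomial.C (y p))) (G k) : Polynomial S).natDegree ≤ e k := by
  have h1 := (H7CX.weighted_top (hG.hom k) 1 (Sum.elim
    (fun m => Polynomial.C (e₀ m) + Polynomial.X * Polynomial.C (v m))
      (fun p => Polynomial.C (y p)) : Fin (B.card + 1) ⊕ (Fin N × Bool) → Polynomial S) ?_).1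
  · rwa [one_mul] at h1
  · intro i
    rcases i with m | p
    · simp only [Sum.elim_inl, mul_one]
      refine (Polynomial.natDegree_add_le _ _).trans (max_le ?_ ?_)
      · rw [Polynomial.natDegree_C]
        exact Nat.zero_le _
      · refine (Polynomial.natDegree_mul_C_le _ _).trans ?_
        exact Polynomial.natDegree_X_le
    · simp

/-- CHUNK EQ1. PROOF. Let `S = MvPolynomial (Fin (B.card + 1)) K` and
`Q k = aeval (Sum.elim (fun m => C (C (e₀ m)) + X * C (X m)) (fun p => C (C (y p)))) (G k) : Polynomial S` (outer `C`, `X` of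
`Polynomial S`). For `j < e k` let `P (k, j) = (Q k).coeff (j + 1) : S`. For `v : Fin (B.card + 1) → K`, applying the
homomorphism `eval v : S → K` to the coefficients of `Q k` gives
`g_v = aeval (Sum.elim (fun m => C (e₀ m) + X * C (v m)) (fun p => C (y p))) (G k) : Polynomial K`
(`aeval` commutes with algebra homomorphisms, `Polynomial.mapRingHom`; `MvPolynomial.map_aeval` or
`aeval_algHom_apply`), so `eval v (P (k, j)) = g_v.coeff (j + 1)`. For `v = 0` this is `0` (`g_0` is constant).
`H7CX.exists_common_zero` (Lib/H7CX/KX3.lean) for the index type `(Σ k, Fin (e k)) ⊕ Fin s`, of cardinal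
`(∑ k, e k) + s < B.card + 1`: there is `v ≠ 0` with `g_v.coeff (j + 1) = 0` for `j < e k`, and
`g_v.natDegree ≤ e k` (`G_natDegree`): `g_v` is constant, so
`aeval (Sum.elim (fun m => e₀ m + τ * v m) y) (G k) = aeval (Sum.elim e₀ y) (G k)` for all `τ : K` (evaluate
`g_v` at `τ` and `0`). For `lam ≠ 0`: `G_smul` with `lam` and `τ / lam`. For `lam = 0`: the polynomial in `lam`
`aeval (Sum.elim (fun m => X * C (e₀ m) + C (τ * v m)) (C ∘ y)) (G k) - X ^ e k * C (...)` has all `lam ≠ 0` as roots
(`K` is infinite), so it is zero (`Polynomial.eq_of_infinite_eval_eq`); evaluate at `0`. -/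
theorem exists_dir {K : Type} [Field K] [IsAlgClosed K] [Algebra ℂ K] (hG : GB F B q e G)
    (e₀ : Fin (B.card + 1) → K) (y : Fin N × Bool → K) {s : ℕ}
    (Lx : Fin s → MvPolynomial (Fin (B.card + 1)) K)
    (hL : ∀ j, eval (0 : Fin (B.card + 1) → K) (Lx j) = 0) (hcount : (∑ k, e k) + s < B.card + 1) :
    ∃ v : Fin (B.card + 1) → K, v ≠ 0 ∧ (∀ j, eval v (Lx j) = 0) ∧
      ∀ (k : Fin r) (lam τ : K), aeval (Sum.elim (fun m => lam * e₀ m + τ * v m) y) (G k) =
        lam ^ e k * aeval (Sum.elim e₀ y) (G k) := by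
  classical
  let ι := Fin (B.card + 1)
  let S := MvPolynomial ι K
  let γ : ι ⊕ (Fin N × Bool) → Polynomial S :=
    Sum.elim (fun m => Polynomial.C (C (e₀ m)) + Polynomial.X * Polynomial.C (X m))
      (fun p => Polynomial.C (C (y p)))
  let P : (Σ k : Fin r, Fin (e k)) ⊕ Fin s → S :=
    Sum.elim (fun a => (aeval γ (G a.1)).coeff ((a.2 : ℕ) + 1)) Lx
  let g : (ι → K) → ι ⊕ (Fin N × Bool) → Polynomial K := fun v =>
    Sum.elim (fun m => Polynomial.C (e₀ m) + Polynomial.X * Polynomial.C (v m))
      (fun p => Polynomial.C (y p))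
  have hmap : ∀ (v : ι → K) (k : Fin r),
      Polynomial.mapAlgHom ((aeval v : S →ₐ[K] K).restrictScalars ℂ) (aeval γ (G k)) =
        aeval (g v) (G k) := by
    intro v k
    have h1 := MvPolynomial.comp_aeval_apply (f := γ)
      (Polynomial.mapAlgHom ((aeval v : S →ₐ[K] K).restrictScalars ℂ)) (G k)
    refine h1.trans ?_
    congr 2
    funext i
    rcases i with m | p
    · simp [γ, g]
    · simp [γ, g]
  have hcoeff : ∀ (v : ι → K) (k : Fin r) (n : ℕ), eval v ((aeval γ (G k)).coeff n) =
      (aeval (g v) (G k) : Polynomial K).coeff n := by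
    intro v k n
    rw [← hmap v]
    show eval v ((aeval γ (G k)).coeff n) =
      ((aeval γ (G k)).map (((aeval v : S →ₐ[K] K).restrictScalars ℂ) : S →+* K)).coeff _
    rw [Polynomial.coeff_map]
    rfl
  have hP0 : ∀ a, eval (0 : ι → K) (P a) = 0 := by
    intro a
    rcases a with a | j
    · show eval (0 : ι → K) ((aeval γ (G a.1)).coeff ((a.2 : ℕ) + 1)) = 0
      rw [hcoeff]
      have h1 : g 0 = fun i => Polynomial.C (Sum.elim e₀ y i) := by
        funext i
        rcases i with m | p
        · simp [g]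
        · simp [g]
      rw [h1, H7CX.kx3_aeval_C, Polynomial.coeff_C_succ]
    · exact hL j
  have hcard : Fintype.card ((Σ k : Fin r, Fin (e k)) ⊕ Fin s) < Fintype.card ι := by
    rw [Fintype.card_sum, Fintype.card_sigma]
    simpa only [Fintype.card_fin, ι] using hcount
  obtain ⟨v, hv0, hv⟩ := H7CX.exists_common_zero P hP0 hcard
  refine ⟨v, hv0, fun j => hv (Sum.inr j), ?_⟩
  -- the polynomial is constant
  have hconst : ∀ k, (aeval (g v) (G k) : Polynomial K) =
      Polynomial.C (aeval (Sum.elim e₀ y) (G k)) := by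
    intro k
    have hdeg := G_natDegree hG k e₀ v y
    ext n
    rcases Nat.eq_zero_or_pos n with h0 | h0
    · subst h0
      rw [Polynomial.coeff_C_zero, Polynomial.coeff_zero_eq_eval_zero]
      have h1 := MvPolynomial.comp_aeval_apply (f := g v)
        ((Polynomial.aeval (0 : K) : Polynomial K →ₐ[K] K).restrictScalars ℂ) (G k)
      rw [AlgHom.restrictScalars_apply, Polynomial.coe_aeval_eq_eval] at h1
      rw [h1]
      congr 2
      funext i
      rcases i with m | p
      · simp [g]
      · simp [g]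
    · rw [Polynomial.coeff_C_of_ne_zero h0.ne']
      by_cases hn : n ≤ e k
      · have h1 := hv (Sum.inl ⟨k, ⟨n - 1, by omega⟩⟩)
        have h2 : (n - 1) + 1 = n := by omega
        have h3 : eval v ((aeval γ (G k)).coeff ((n - 1) + 1)) = 0 := h1
        rw [hcoeff, h2] at h3
        exact h3
      · exact Polynomial.coeff_eq_zero_of_natDegree_lt (lt_of_le_of_lt hdeg (not_le.1 hn))
  have hline : ∀ (k : Fin r) (τ : K), aeval (Sum.elim (fun m => e₀ m + τ * v m) y) (G k) =
      aeval (Sum.elim e₀ y) (G k) := by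
    intro k τ
    have h1 := MvPolynomial.comp_aeval_apply (f := g v)
      ((Polynomial.aeval τ : Polynomial K →ₐ[K] K).restrictScalars ℂ) (G k)
    rw [hconst k, AlgHom.restrictScalars_apply, Polynomial.coe_aeval_eq_eval,
      Polynomial.eval_C] at h1
    rw [h1]
    congr 2
    funext i
    rcases i with m | p
    · simp [g]
      exact mul_comm _ _
    · simp [g]
  have hne : ∀ (k : Fin r) (lam τ : K), lam ≠ 0 →
      aeval (Sum.elim (fun m => lam * e₀ m + τ * v m) y) (G k) =
        lam ^ e k * aeval (Sum.elim e₀ y) (G k) := by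
    intro k lam τ hlam
    rw [← hline k (τ / lam), ← G_smul hG]
    congr 2
    funext i
    rcases i with m | p
    · simp only [Sum.elim_inl]
      field_simp
    · simp
  intro k lam τ
  by_cases hlam : lam = 0
  · subst hlam
    let A : Polynomial K := aeval (Sum.elim
      (fun m => Polynomial.X * Polynomial.C (e₀ m) + Polynomial.C (τ * v m))
      (fun p => Polynomial.C (y p)) : ι ⊕ (Fin N × Bool) → Polynomial K) (G k)
    let A' : Polynomial K := Polynomial.X ^ e k * Polynomial.C (aeval (Sum.elim e₀ y) (G k))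
    have hA : ∀ z : K, A.eval z = aeval (Sum.elim (fun m => z * e₀ m + τ * v m) y) (G k) := by
      intro z
      have h1 := MvPolynomial.comp_aeval_apply (f := (Sum.elim
        (fun m => Polynomial.X * Polynomial.C (e₀ m) + Polynomial.C (τ * v m))
        (fun p => Polynomial.C (y p)) : ι ⊕ (Fin N × Bool) → Polynomial K))
        ((Polynomial.aeval z : Polynomial K →ₐ[K] K).restrictScalars ℂ) (G k)
      rw [AlgHom.restrictScalars_apply, Polynomial.coe_aeval_eq_eval] at h1
      refine h1.trans ?_
      congr 2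
      funext i
      rcases i with m | p
      · simp
        exact mul_comm _ _
      · simp
    have hAA : A = A' := by
      apply Polynomial.eq_of_infinite_eval_eq
      refine Set.Infinite.mono ?_ (Set.finite_singleton (0 : K)).infinite_compl
      intro z hz
      have hz0 : z ≠ 0 := hz
      show A.eval z = A'.eval z
      rw [hA, hne k z τ hz0]
      rw [Polynomial.eval_mul, Polynomial.eval_pow, Polynomial.eval_X, Polynomial.eval_C]
    have h2 := congrArg (Polynomial.eval 0) hAA
    rw [hA] at h2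
    rw [h2, Polynomial.eval_mul, Polynomial.eval_pow, Polynomial.eval_X, Polynomial.eval_C]
  · exact hne k lam τ hlam

/-- A complex line in the quotient gives a line over every field (or ring).
PROOF. The polynomial `Q = aeval (Sum.elim (fun m => X 0 * C (e₀ m) + X 1 * C (v m)) (fun p => C (y p))) (G k)` in
`MvPolynomial (Fin 2) ℂ` vanishes at all points (`MvPolynomial.funext`), so it is zero; apply the homomorphism
`X 0 ↦ lam`, `X 1 ↦ τ`. -/
theorem line_lift {k : Fin r} {e₀ v : Fin (B.card + 1) → ℂ} {y : Fin N × Bool → ℂ}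
    (h : ∀ lam τ : ℂ, aeval (Sum.elim (fun m => lam * e₀ m + τ * v m) y) (G k) = 0)
    {R : Type*} [CommRing R] [Algebra ℂ R] (lam τ : R) :
    aeval (Sum.elim (fun m => lam * algebraMap ℂ R (e₀ m) + τ * algebraMap ℂ R (v m))
      (fun p => algebraMap ℂ R (y p))) (G k) = 0 := by
  let Q : MvPolynomial (Fin 2) ℂ := aeval (Sum.elim (fun m => X 0 * C (e₀ m) + X 1 * C (v m))
    (fun p => C (y p)) : Fin (B.card + 1) ⊕ (Fin N × Bool) → MvPolynomial (Fin 2) ℂ) (G k)
  have hQ : Q = 0 := by
    apply MvPolynomial.funext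
    intro z
    have h1 := MvPolynomial.comp_aeval_apply (f := (Sum.elim
      (fun m => X 0 * C (e₀ m) + X 1 * C (v m)) (fun p => C (y p)) :
        Fin (B.card + 1) ⊕ (Fin N × Bool) → MvPolynomial (Fin 2) ℂ))
      (aeval z : MvPolynomial (Fin 2) ℂ →ₐ[ℂ] ℂ) (G k)
    rw [map_zero, ← h (z 0) (z 1)]
    refine h1.trans ?_
    congr 2
    funext i
    rcases i with m | p
    · simp
    · simp
  have h1 := MvPolynomial.comp_aeval_apply (f := (Sum.elim
    (fun m => X 0 * C (e₀ m) + X 1 * C (v m)) (fun p => C (y p)) :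
      Fin (B.card + 1) ⊕ (Fin N × Bool) → MvPolynomial (Fin 2) ℂ))
    (aeval (fun j : Fin 2 => if j = 0 then lam else τ) : MvPolynomial (Fin 2) ℂ →ₐ[ℂ] R) (G k)
  have h2 : (aeval (Sum.elim (fun m => X 0 * C (e₀ m) + X 1 * C (v m))
    (fun p => C (y p)) : Fin (B.card + 1) ⊕ (Fin N × Bool) → MvPolynomial (Fin 2) ℂ)) (G k) = 0 := hQ
  rw [h2, map_zero] at h1
  rw [h1]
  congr 2
  funext i
  rcases i with m | p
  · simp [aeval_C]
  · simp [aeval_C]

end Pool.Agent.H10S
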