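import Mathlib
import Pool.Agent.Lib.H10S.Core

/-!
CHUNK FF1 (M). Ryser's formula for the permanent (pure combinatorics).
-/

open Finset

namespace Pool.Agent.H10S

variable {N : ℕ}

/-- PROOF. `Finset.prod_univ_sum`: the right product is the product over all `l : Fin N` of the sums over
`i ∈ if l ∈ B then J else {l}` of `if l ∈ B then W i l else 1`. -/
theorem ff1_expand {R : Type*} [CommRing R] (B J : Finset (Fin N)) (W : Fin N → Fin N → R) :
    ∏ l ∈ B, ∑ i ∈ J, W i l =
      ∑ f ∈ Fintype.piFinset (fun l => if l ∈ B then J else {l}), ∏ l ∈ B, W (f l) l := by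
  classical
  have h := Finset.prod_univ_sum (fun l : Fin N => if l ∈ B then J else {l})
    (fun l i => if l ∈ B then W i l else (1 : R))
  have h1 : ∀ l : Fin N, (∑ i ∈ (if l ∈ B then J else {l}), if l ∈ B then W i l else (1 : R)) =
      if l ∈ B then ∑ i ∈ J, W i l else 1 := by
    intro l
    by_cases hl : l ∈ B
    · simp only [if_pos hl]
    · simp only [if_neg hl, sum_singleton]
  simp only [h1, prod_ite_mem, univ_inter] at h
  exact h

/-- PROOF. `J` runs over the sets with `I ⊆ J ⊆ B`: write `J = I ∪ J'`, `J' ⊆ B \ I`, the sum is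
`∑ J' ∈ (B \ I).powerset, (-1) ^ ((B \ I).card - J'.card)`, which is `1` if `B \ I = ∅` and `0` otherwise
(`Finset.sum_powerset_neg_one_pow_card_of_nonempty` or `Finset.sum_powerset_neg_one_pow_card`,
`(-1) ^ (n - j) = (-1) ^ n * (-1) ^ j`). -/
theorem ff1_alt {R : Type*} [CommRing R] (B I : Finset (Fin N)) (hI : I ⊆ B) :
    ∑ J ∈ B.powerset.filter (fun J => I ⊆ J), (-1 : R) ^ (B.card - J.card) =
      if I = B then 1 else 0 := by
  classical
  have h1 : ∑ J ∈ B.powerset.filter (fun J => I ⊆ J), (-1 : R) ^ (B.card - J.card) =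
      ∑ T ∈ (B \ I).powerset, (-1 : R) ^ T.card := by
    refine Finset.sum_nbij' (fun J => B \ J) (fun T => B \ T) ?_ ?_ ?_ ?_ ?_
    · intro J hJ
      rw [mem_filter, mem_powerset] at hJ
      rw [mem_powerset]
      exact sdiff_subset_sdiff subset_rfl hJ.2
    · intro T hT
      rw [mem_powerset] at hT
      rw [mem_filter, mem_powerset]
      refine ⟨sdiff_subset, fun i hi => ?_⟩
      rw [mem_sdiff]
      refine ⟨hI hi, fun h2 => ?_⟩
      exact (mem_sdiff.1 (hT h2)).2 hi
    · intro J hJ
      rw [mem_filter, mem_powerset] at hJ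
      exact Finset.sdiff_sdiff_eq_self hJ.1
    · intro T hT
      rw [mem_powerset] at hT
      exact Finset.sdiff_sdiff_eq_self (hT.trans sdiff_subset)
    · intro J hJ
      rw [mem_filter, mem_powerset] at hJ
      rw [card_sdiff_of_subset hJ.1]
  have h2 : ∑ T ∈ (B \ I).powerset, (-1 : R) ^ T.card = ((∑ T ∈ (B \ I).powerset, (-1 : ℤ) ^ T.card : ℤ) : R) := by
    push_cast
    rfl
  rw [h1, h2, Finset.sum_powerset_neg_one_pow_card]
  by_cases h3 : I = B
  · rw [if_pos h3, if_pos (by rw [h3]; exact sdiff_self), Int.cast_one]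
  · rw [if_neg h3, if_neg, Int.cast_zero]
    intro h4
    exact h3 (subset_antisymm hI (sdiff_eq_empty_iff_subset.1 h4))

/-- CHUNK FF1. PROOF. Insert `ff1_expand` for every `J ⊆ B` and exchange the sums: let `𝓕` be the finset of all
the functions `f : Fin N → Fin N` with `f l ∈ B` for `l ∈ B` and `f l = l` for `l ∉ B`; `f` belongs to the set of
`ff1_expand` for `J` iff `f ∈ 𝓕` and `B.image f ⊆ J`. So the right side is
`∑ f ∈ 𝓕, (∑ J ⊆ B, B.image f ⊆ J, (-1) ^ (B.card - J.card)) * ∏ l ∈ B, W (f l) l`, and by `ff1_alt` only the `f`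
with `B.image f = B` remain. They are injective on `B` (`Finset.card_image_iff`), so they are bijections of
`Fin N`, and they correspond to the elements of `permB B` (`g ↦ g` as a function; a permutation `g` with
`g i = i` off `B` maps `B` to `B`; `Finset.sum_bij` or `Finset.sum_nbij`). -/
theorem ryser {R : Type*} [CommRing R] (B : Finset (Fin N)) (W : Fin N → Fin N → R) :
    ∑ g ∈ permB B, ∏ l ∈ B, W (g l) l =
      ∑ J ∈ B.powerset, (-1) ^ (B.card - J.card) * ∏ l ∈ B, ∑ i ∈ J, W i l := by
  classical
  set T : Finset (Fin N) → Fin N → Finset (Fin N) := fun J l => if l ∈ B then J else {l} with hT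
  have hmem : ∀ (J : Finset (Fin N)) (f : Fin N → Fin N), f ∈ Fintype.piFinset (T J) ↔
      (∀ l, l ∉ B → f l = l) ∧ B.image f ⊆ J := by
    intro J f
    rw [Fintype.mem_piFinset]
    constructor
    · intro h
      refine ⟨fun l hl => ?_, fun i hi => ?_⟩
      · have := h l
        simp only [hT, if_neg hl, mem_singleton] at this
        exact this
      · obtain ⟨l, hl, rfl⟩ := mem_image.1 hi
        have := h l
        simp only [hT, if_pos hl] at this
        exact this
    · rintro ⟨h1, h2⟩ l
      by_cases hl : l ∈ B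
      · simp only [hT, if_pos hl]
        exact h2 (mem_image_of_mem _ hl)
      · simp only [hT, if_neg hl, mem_singleton]
        exact h1 l hl
  have h1 : ∀ J ∈ B.powerset, (-1 : R) ^ (B.card - J.card) * ∏ l ∈ B, ∑ i ∈ J, W i l =
      ∑ f ∈ Fintype.piFinset (T B), if B.image f ⊆ J then (-1 : R) ^ (B.card - J.card) * ∏ l ∈ B, W (f l) l else 0 := by
    intro J hJ
    rw [mem_powerset] at hJ
    rw [ff1_expand, mul_sum, ← sum_filter]
    refine sum_congr ?_ fun _ _ => rfl
    ext f
    rw [mem_filter, hmem B f]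
    have := hmem J f
    rw [this]
    constructor
    · rintro ⟨h2, h3⟩
      exact ⟨⟨h2, h3.trans hJ⟩, h3⟩
    · rintro ⟨⟨h2, _⟩, h3⟩
      exact ⟨h2, h3⟩
  rw [sum_congr rfl h1, sum_comm]
  have h2 : ∀ f ∈ Fintype.piFinset (T B), ∑ J ∈ B.powerset,
      (if B.image f ⊆ J then (-1 : R) ^ (B.card - J.card) * ∏ l ∈ B, W (f l) l else 0) =
      if B.image f = B then ∏ l ∈ B, W (f l) l else 0 := by
    intro f hf
    rw [← sum_filter, ← sum_mul, ff1_alt B (B.image f) ((hmem B f).1 hf).2]
    split_ifs
    · rw [one_mul]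
    · rw [zero_mul]
  rw [sum_congr rfl h2, ← sum_filter]
  refine Finset.sum_bij (fun (g : Equiv.Perm (Fin N)) _ => (g : Fin N → Fin N)) ?_ ?_ ?_ ?_
  · intro g hg
    have hg' : ∀ i, i ∉ B → g i = i := by
      have := hg
      rw [permB, mem_filter] at this
      exact this.2
    have him : B.image g = B := by
      refine eq_of_subset_of_card_le ?_ (card_image_of_injective B g.injective).ge
      intro i hi
      obtain ⟨l, hl, rfl⟩ := mem_image.1 hi
      by_contra h3
      have h4 := g.injective (hg' _ h3)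
      rw [h4] at h3
      exact h3 hl
    rw [mem_filter, hmem]
    exact ⟨⟨hg', him.le⟩, him⟩
  · intro g _ g' _ h
    exact DFunLike.coe_injective h
  · intro f hf
    rw [mem_filter, hmem] at hf
    obtain ⟨⟨h3, _⟩, h4⟩ := hf
    have hinj : Set.InjOn f B := card_image_iff.1 (by rw [h4])
    have hmap : ∀ l ∈ B, f l ∈ B := by
      intro l hl
      have : f l ∈ B.image f := mem_image_of_mem _ hl
      rwa [h4] at this
    have hfi : Function.Injective f := by
      intro l l' h5
      by_cases hl : l ∈ B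
      · by_cases hl' : l' ∈ B
        · exact hinj hl hl' h5
        · exfalso
          rw [h3 l' hl'] at h5
          exact hl' (h5 ▸ hmap l hl)
      · by_cases hl' : l' ∈ B
        · exfalso
          rw [h3 l hl] at h5
          exact hl (h5.symm ▸ hmap l' hl')
        · rw [h3 l hl, h3 l' hl'] at h5
          exact h5
    refine ⟨Equiv.ofBijective f (Finite.injective_iff_bijective.1 hfi), ?_, rfl⟩
    rw [permB, mem_filter]
    exact ⟨mem_univ _, h3⟩
  · intro g _
    rfl

end Pool.Agent.H10S
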