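import Mathlib

/-!
CHUNK FF2 (S/M). Binary forms over `ℂ` are products of linear forms.
-/

open Finset

namespace Pool.Agent.H10S

/-- CHUNK FF2. PROOF. Induction on `e`, for all `p`. `e = 0`: `p` is constant, `κ = p.coeff 0`. Step `e + 1`. If
`p.natDegree ≤ e`: the coefficient `e + 1` is zero, so the sum is `u` times the sum for `e`
(`u ^ (e + 1 - b) = u * u ^ (e - b)` for `b ≤ e`): add the factor `α = 1`, `β = 0` (`Fin.snoc`, `Fin.prod_univ_castSucc`
or `Fin.cons`, `Fin.prod_univ_succ`). If `p.natDegree = e + 1`: `p` has a root `c` (`IsAlgClosed.exists_root`),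
`p = (X - C c) * p'` with `p'.natDegree ≤ e`, `p.coeff b = p'.coeff (b - 1) - c * p'.coeff b` (with
`p.coeff 0 = - c * p'.coeff 0`), so the sum for `p` is `(v - c u)` times the sum for `p'` and `e`: in
`∑ b ≤ e + 1, p.coeff b u^(e + 1 - b) v^b` shift the index in the first part (`Finset.sum_range_succ'`); in the
second part the term `b = e + 1` vanishes. Add the factor `α = -c`, `β = 1`. -/
theorem binary_forms (e : ℕ) (p : Polynomial ℂ) (hp : p.natDegree ≤ e) :
    ∃ (κ : ℂ) (α β : Fin e → ℂ), ∀ (R : Type) [CommRing R] [Algebra ℂ R] (u v : R),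
      ∑ b ∈ range (e + 1), algebraMap ℂ R (p.coeff b) * (u ^ (e - b) * v ^ b) =
        algebraMap ℂ R κ * ∏ j, (algebraMap ℂ R (α j) * u + algebraMap ℂ R (β j) * v) := by
  induction e generalizing p with
  | zero =>
    refine ⟨p.coeff 0, Fin.elim0, Fin.elim0, fun R _ _ u v => ?_⟩
    simp
  | succ e ih =>
    rcases Nat.lt_or_ge p.natDegree (e + 1) with h | h
    · obtain ⟨κ, α, β, H⟩ := ih p (by omega)
      refine ⟨κ, Fin.cons 1 α, Fin.cons 0 β, fun R _ _ u v => ?_⟩
      rw [sum_range_succ, Polynomial.coeff_eq_zero_of_natDegree_lt h, Fin.prod_univ_succ]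
      simp only [Fin.cons_zero, Fin.cons_succ, map_one, map_zero, zero_mul, add_zero, one_mul]
      have e1 : ∑ b ∈ range (e + 1), algebraMap ℂ R (p.coeff b) * (u ^ (e + 1 - b) * v ^ b) =
          u * ∑ b ∈ range (e + 1), algebraMap ℂ R (p.coeff b) * (u ^ (e - b) * v ^ b) := by
        rw [mul_sum]
        refine sum_congr rfl fun b hb => ?_
        have hb' : b < e + 1 := mem_range.1 hb
        have e2 : e + 1 - b = (e - b) + 1 := by omega
        rw [e2, pow_succ]
        ring
      rw [e1, H R u v]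
      ring
    · have hd : p.natDegree = e + 1 := le_antisymm hp h
      have hp0 : p ≠ 0 := by
        rintro rfl
        simp at hd
      obtain ⟨c, hc⟩ := IsAlgClosed.exists_root p (by
        rw [Polynomial.degree_eq_natDegree hp0, hd]
        exact_mod_cast Nat.succ_ne_zero e)
      obtain ⟨p', hp'⟩ := Polynomial.dvd_iff_isRoot.2 hc
      have hp'0 : p' ≠ 0 := by
        rintro rfl
        rw [mul_zero] at hp'
        exact hp0 hp'
      have hd' : p'.natDegree = e := by
        have := hd
        rw [hp', Polynomial.natDegree_mul (Polynomial.X_sub_C_ne_zero c) hp'0, Polynomial.natDegree_X_sub_C] at this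
        omega
      obtain ⟨κ, α, β, H⟩ := ih p' hd'.le
      refine ⟨κ, Fin.cons (-c) α, Fin.cons 1 β, fun R _ _ u v => ?_⟩
      rw [Fin.prod_univ_succ]
      simp only [Fin.cons_zero, Fin.cons_succ, map_one, map_neg, one_mul]
      have c0 : p.coeff 0 = -(c * p'.coeff 0) := by
        rw [hp', sub_mul, Polynomial.coeff_sub, Polynomial.coeff_X_mul_zero, Polynomial.coeff_C_mul, zero_sub]
      have cs : ∀ b, p.coeff (b + 1) = p'.coeff b - c * p'.coeff (b + 1) := by
        intro b
        rw [hp', sub_mul, Polynomial.coeff_sub, Polynomial.coeff_X_mul, Polynomial.coeff_C_mul]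
      have c1 : p'.coeff (e + 1) = 0 := Polynomial.coeff_eq_zero_of_natDegree_lt (by omega)
      have e1 : ∑ b ∈ range (e + 1 + 1), algebraMap ℂ R (p.coeff b) * (u ^ (e + 1 - b) * v ^ b) =
          v * ∑ b ∈ range (e + 1), algebraMap ℂ R (p'.coeff b) * (u ^ (e - b) * v ^ b) -
            algebraMap ℂ R c * ∑ b ∈ range (e + 1 + 1), algebraMap ℂ R (p'.coeff b) * (u ^ (e + 1 - b) * v ^ b) := by
        rw [sum_range_succ' _ (e + 1), sum_range_succ' _ (e + 1), c0, mul_add, mul_sum, mul_sum]
        have : ∀ b ∈ range (e + 1), algebraMap ℂ R (p.coeff (b + 1)) * (u ^ (e + 1 - (b + 1)) * v ^ (b + 1)) =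
            v * (algebraMap ℂ R (p'.coeff b) * (u ^ (e - b) * v ^ b)) -
              algebraMap ℂ R c * (algebraMap ℂ R (p'.coeff (b + 1)) * (u ^ (e + 1 - (b + 1)) * v ^ (b + 1))) := by
          intro b hb
          rw [cs, map_sub, map_mul, show e + 1 - (b + 1) = e - b by omega]
          ring
        rw [sum_congr rfl this, sum_sub_distrib, map_neg, map_mul]
        ring
      have e2 : ∑ b ∈ range (e + 1 + 1), algebraMap ℂ R (p'.coeff b) * (u ^ (e + 1 - b) * v ^ b) =
          u * ∑ b ∈ range (e + 1), algebraMap ℂ R (p'.coeff b) * (u ^ (e - b) * v ^ b) := by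
        rw [sum_range_succ, c1, map_zero, zero_mul, add_zero, mul_sum]
        refine sum_congr rfl fun b hb => ?_
        have hb' : b < e + 1 := mem_range.1 hb
        have e2 : e + 1 - b = (e - b) + 1 := by omega
        rw [e2, pow_succ]
        ring
      rw [e1, e2, H R u v]
      ring

end Pool.Agent.H10S
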