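import Mathlib
import Pool.Agent.Lib.H10S.FF1
import Pool.Agent.Lib.H10S.FF2
import Pool.Agent.Lib.H10S.FF3

/-!
CHUNK FF4 (M). Symmetrised monomials are polynomials in the `cf`.
-/

open MvPolynomial Finset

namespace Pool.Agent.H10S

variable {N : ℕ}

/-- PROOF. Let `p = ∑ i ∈ J, X ^ b i : Polynomial ℂ` (`natDegree ≤ e` as `b i ≤ e` for `i ∈ J ⊆ B`);
`∑ i ∈ J, u ^ (e - b i) * v ^ b i = ∑ b' ∈ range (e + 1), p.coeff b' * (u ^ (e - b') * v ^ b')`
(`Polynomial.coeff_X_pow`, exchange the sums, `Finset.sum_ite_eq`). `binary_forms` gives `κ`, `α`, `β`; put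
`G = C (κ ^ B.card) * ∏ j : Fin e, ∑ m, C (α j ^ (B.card - m) * β j ^ m) * X m`, homogeneous of degree `e`
(`IsHomogeneous.prod`, `IsHomogeneous.sum`, `isHomogeneous_C_mul_X`). Then
`∏ l ∈ B, κ * ∏ j, (α j * x (l, false) ^ q + β j * x (l, true) ^ q)
  = κ ^ B.card * ∏ j, ∏ l ∈ B, (...)` (`Finset.prod_comm`) and `linprod`. -/
theorem ff4_one (B J : Finset (Fin N)) (q e : ℕ) (b : Fin N → ℕ) (hb : ∀ i ∈ J, b i ≤ e) :
    ∃ G : MvPolynomial (Fin (B.card + 1)) ℂ, G.IsHomogeneous e ∧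
      ∀ (R : Type) [CommRing R] [Algebra ℂ R] (x : Fin N × Bool → R),
        aeval (cf B q x) G = ∏ l ∈ B, ∑ i ∈ J,
          (x (l, false) ^ q) ^ (e - b i) * (x (l, true) ^ q) ^ b i := by
  obtain ⟨p, hp⟩ : ∃ p : Polynomial ℂ, p = ∑ i ∈ J, Polynomial.X ^ b i := ⟨_, rfl⟩
  have hdeg : p.natDegree ≤ e := by
    rw [hp]
    refine Polynomial.natDegree_sum_le_of_forall_le _ _ fun i hi => ?_
    rw [Polynomial.natDegree_X_pow]
    exact hb i hi
  obtain ⟨κ, α, β, h⟩ := binary_forms e p hdeg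
  have hsum : ∀ (R : Type) [CommRing R] [Algebra ℂ R] (u v : R),
      ∑ i ∈ J, u ^ (e - b i) * v ^ b i =
        algebraMap ℂ R κ * ∏ j, (algebraMap ℂ R (α j) * u + algebraMap ℂ R (β j) * v) := by
    intro R _ _ u v
    rw [← h R u v]
    have h1 : ∀ b' ∈ range (e + 1), algebraMap ℂ R (p.coeff b') * (u ^ (e - b') * v ^ b') =
        ∑ i ∈ J, if b' = b i then u ^ (e - b') * v ^ b' else 0 := by
      intro b' _
      rw [hp, Polynomial.finset_sum_coeff, map_sum, Finset.sum_mul]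
      refine Finset.sum_congr rfl fun i _ => ?_
      rw [Polynomial.coeff_X_pow]
      split_ifs
      · rw [map_one, one_mul]
      · rw [map_zero, zero_mul]
    rw [Finset.sum_congr rfl h1, Finset.sum_comm]
    refine Finset.sum_congr rfl fun i hi => ?_
    rw [Finset.sum_ite_eq' (range (e + 1)) (b i) (fun b' => u ^ (e - b') * v ^ b'),
      if_pos (Finset.mem_range.2 (Nat.lt_succ_of_le (hb i hi)))]
  refine ⟨C (κ ^ B.card) * ∏ j : Fin e, ∑ m : Fin (B.card + 1),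
    C (α j ^ (B.card - m) * β j ^ (m : ℕ)) * X m, ?_, ?_⟩
  · have h1 : (∏ j : Fin e, ∑ m : Fin (B.card + 1),
        C (α j ^ (B.card - m) * β j ^ (m : ℕ)) * X m : MvPolynomial (Fin (B.card + 1)) ℂ).IsHomogeneous
          (∑ _j : Fin e, 1) := by
      refine IsHomogeneous.prod _ _ _ fun j _ => ?_
      refine IsHomogeneous.sum _ _ _ fun m _ => ?_
      exact isHomogeneous_C_mul_X _ _
    have h2 := (isHomogeneous_C (Fin (B.card + 1)) (κ ^ B.card)).mul h1
    simpa using h2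
  · intro R _ _ x
    rw [map_mul, map_prod]
    have h1 : ∀ j : Fin e, aeval (cf B q x) (∑ m : Fin (B.card + 1),
        C (α j ^ (B.card - m) * β j ^ (m : ℕ)) * X m : MvPolynomial (Fin (B.card + 1)) ℂ) =
        ∏ l ∈ B, (algebraMap ℂ R (α j) * x (l, false) ^ q + algebraMap ℂ R (β j) * x (l, true) ^ q) := by
      intro j
      rw [linprod, map_sum]
      refine Finset.sum_congr rfl fun m _ => ?_
      rw [map_mul, aeval_C, aeval_X, map_mul, map_pow, map_pow]
    rw [Finset.prod_congr rfl (fun j _ => h1 j), Finset.prod_comm, aeval_C, map_pow,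
      ← Finset.prod_const, ← Finset.prod_mul_distrib]
    refine Finset.prod_congr rfl fun l _ => ?_
    rw [hsum R]

/-- CHUNK FF4. PROOF. `ryser` for `W i l = (x (l, false) ^ q) ^ (e - b i) * (x (l, true) ^ q) ^ b i`, and
`G = ∑ J ∈ B.powerset, C ((-1) ^ (B.card - J.card)) * G_J` with `G_J` from `ff4_one` (`choose` for `J ∈ B.powerset`,
e.g. with `Finset.sum_attach`, or choose for all `J` with a dummy value if not `J ⊆ B`). -/
theorem symmon (B : Finset (Fin N)) (q e : ℕ) (b : Fin N → ℕ) (hb : ∀ i ∈ B, b i ≤ e) :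
    ∃ G : MvPolynomial (Fin (B.card + 1)) ℂ, G.IsHomogeneous e ∧
      ∀ (R : Type) [CommRing R] [Algebra ℂ R] (x : Fin N × Bool → R),
        aeval (cf B q x) G = ∑ g ∈ permB B, ∏ l ∈ B,
          (x (l, false) ^ q) ^ (e - b (g l)) * (x (l, true) ^ q) ^ b (g l) := by
  have hex : ∀ J : Finset (Fin N), ∃ G : MvPolynomial (Fin (B.card + 1)) ℂ, J ⊆ B → G.IsHomogeneous e ∧
      ∀ (R : Type) [CommRing R] [Algebra ℂ R] (x : Fin N × Bool → R),
        aeval (cf B q x) G = ∏ l ∈ B, ∑ i ∈ J,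
          (x (l, false) ^ q) ^ (e - b i) * (x (l, true) ^ q) ^ b i := by
    intro J
    by_cases hJ : J ⊆ B
    · obtain ⟨G, h1, h2⟩ := ff4_one B J q e b (fun i hi => hb i (hJ hi))
      exact ⟨G, fun _ => ⟨h1, h2⟩⟩
    · exact ⟨0, fun h => absurd h hJ⟩
  choose G hG using hex
  refine ⟨∑ J ∈ B.powerset, C ((-1) ^ (B.card - J.card)) * G J, ?_, ?_⟩
  · refine IsHomogeneous.sum _ _ _ fun J hJ => ?_
    have h1 := (isHomogeneous_C (Fin (B.card + 1)) ((-1 : ℂ) ^ (B.card - J.card))).mul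
      (hG J (Finset.mem_powerset.1 hJ)).1
    rwa [zero_add] at h1
  · intro R _ _ x
    rw [map_sum, ryser B (fun i l => (x (l, false) ^ q) ^ (e - b i) * (x (l, true) ^ q) ^ b i)]
    refine Finset.sum_congr rfl fun J hJ => ?_
    rw [map_mul, aeval_C, (hG J (Finset.mem_powerset.1 hJ)).2 R x, map_pow, map_neg, map_one]

end Pool.Agent.H10S
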