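import Mathlib
import Pool.Agent.Lib.H10S.Core

/-!
CHUNK FF5 (M). The monomials of the forms `F k`.
-/

open MvPolynomial Finset

namespace Pool.Agent.H10S

variable {N r d : ℕ} [NeZero d] {F : Fin r → MvPolynomial (Fin N × Bool) ℂ}
  {D : Fin r → Fin N → ℕ} {B : Finset (Fin N)} {q : ℕ} {e : Fin r → ℕ}

/-- PROOF. `MultiHom` at the monomial `m` (`coeff m F ≠ 0`) for the factor `i`: the weighted degree of `m` is
`m (i, false) + m (i, true)`. -/
theorem mh_exps {F : MvPolynomial (Fin N × Bool) ℂ} {D : Fin N → ℕ} (hF : MultiHom F D)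
    {m : Fin N × Bool →₀ ℕ} (hm : coeff m F ≠ 0) (i : Fin N) : m (i, false) + m (i, true) = D i := by
  have h1 := hF i hm
  rw [← h1, Finsupp.weight_apply, Finsupp.sum_fintype _ _ (fun p => by simp)]
  rw [Fintype.sum_prod_type, Finset.sum_eq_single i]
  · simp [add_comm]
  · intro j _ hj
    simp [hj]
  · intro h
    exact absurd (Finset.mem_univ i) h

theorem ff5_bind (F : MvPolynomial (Fin N × Bool) ℂ) (c : Fin N × Bool → ℂ)
    (m : Fin N × Bool →₀ ℕ) :
    coeff m (bind₁ (fun p => C (c p) * X p) F) = (∏ p, c p ^ m p) * coeff m F := by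
  induction F using MvPolynomial.induction_on' with
  | monomial s a =>
    have h1 : bind₁ (fun p => C (c p) * X p) (monomial s a) =
        monomial s (a * ∏ p, c p ^ s p) := by
      rw [bind₁_monomial, monomial_eq, C_mul, mul_assoc]
      congr 1
      rw [Finsupp.prod_fintype _ _ (fun p => by simp), map_prod, ← Finset.prod_mul_distrib]
      rw [Finset.prod_subset (Finset.subset_univ s.support)]
      · exact Finset.prod_congr rfl fun p _ => by rw [mul_pow, C_pow]
      · intro p _ hp
        rw [Finsupp.notMem_support_iff.1 hp, pow_zero]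
    rw [h1, coeff_monomial, coeff_monomial]
    split_ifs with h
    · rw [h, mul_comm]
    · rw [mul_zero]
  | add p q hp hq => rw [map_add, coeff_add, hp, hq, coeff_add, mul_add]

/-- PROOF. The polynomial `bind₁ (fun p => C (c p) * X p) F` has the same values as `F` (`MvPolynomial.funext`), so it
is `F`; its coefficient at `m` is `(∏ p, c p ^ m p) * coeff m F` (write `F` as the sum of its monomials). -/
theorem ff5_coeff {F : MvPolynomial (Fin N × Bool) ℂ} {c : Fin N × Bool → ℂ}
    (h : ∀ x : Fin N × Bool → ℂ, eval (fun p => c p * x p) F = eval x F)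
    {m : Fin N × Bool →₀ ℕ} (hm : coeff m F ≠ 0) : ∏ p, c p ^ m p = 1 := by
  have h1 : bind₁ (fun p => C (c p) * X p) F = F := by
    apply MvPolynomial.funext
    intro x
    rw [← h x, ← MvPolynomial.coe_aeval_eq_eval, ← MvPolynomial.coe_aeval_eq_eval]
    simp only [RingHom.coe_coe]
    rw [MvPolynomial.aeval_bind₁]
    congr 1
    simp
  have h2 := ff5_bind F c m
  rw [h1] at h2
  have h3 : (∏ p, c p ^ m p) * coeff m F = 1 * coeff m F := by rw [one_mul]; exact h2.symm
  exact mul_right_cancel₀ hm h3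

/-- PROOF. The `D k i` are positive and `B` is not empty. -/
theorem blk_e_pos (hB : Blk F D d B q e) (k : Fin r) : 1 ≤ e k := by
  obtain ⟨i, hi⟩ := hB.ne
  have h1 := hB.md.pos k i
  rw [hB.deg k i hi] at h1
  rcases Nat.eq_zero_or_pos (e k) with h | h
  · rw [h, mul_zero] at h1
    omega
  · exact h

/-- PROOF. `q ∣ d`, `d ≠ 0`. -/
theorem blk_q_pos (hB : Blk F D d B q e) : 1 ≤ q := by
  rcases Nat.eq_zero_or_pos q with h | h
  · have h1 := hB.dvd
    rw [h, zero_dvd_iff] at h1
    exact absurd h1 (NeZero.ne d)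
  · exact h

/-- CHUNK FF5. PROOF. `mh_exps`: `m (i, false) + m (i, true) = D k i = q * e k`. Let `ψ = (Pi.single i (d / q), 1)`,
in `InB B q` (`q * (d / q) = d = 0` in `ZMod d`). `Blk.inv` and `ff5_coeff` with `c (i', β) = 1` except
`c (i, true) = ZMod.stdAddChar (d / q : ZMod d)` give `stdAddChar (d / q) ^ m (i, true) = 1`, so
`m (i, true) * (d / q) = 0` in `ZMod d` (`Bloch.e_nsmul`, `Bloch.e_injective`), so `d ∣ m (i, true) * (d / q)` and
`q ∣ m (i, true)` (`d = q * (d / q)`, `d / q > 0`). -/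
theorem blk_exps (hB : Blk F D d B q e) (k : Fin r) {m : Fin N × Bool →₀ ℕ}
    (hm : coeff m (F k) ≠ 0) {i : Fin N} (hi : i ∈ B) :
    ∃ b, b ≤ e k ∧ m (i, true) = q * b ∧ m (i, false) = q * (e k - b) := by
  have h1 := mh_exps (hB.md.hom k) hm i
  rw [hB.deg k i hi] at h1
  obtain ⟨d', hd'⟩ := hB.dvd
  have hq := blk_q_pos hB
  have hd0 : d ≠ 0 := NeZero.ne d
  have hd'0 : d' ≠ 0 := by
    rintro rfl
    rw [mul_zero] at hd'
    exact hd0 hd'
  have h2 : q ∣ m (i, true) := by
    have h3 : InB B q ((Pi.single i (d' : ZMod d), 1) :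
        (Fin N → ZMod d) × Equiv.Perm (Fin N)) := by
      constructor
      · intro l
        rcases eq_or_ne l i with h | h
        · subst h
          show (q : ZMod d) * (Pi.single l (d' : ZMod d) : Fin N → ZMod d) l = 0
          rw [Pi.single_eq_same, ← Nat.cast_mul, ← hd']
          exact ZMod.natCast_self d
        · show (q : ZMod d) * (Pi.single i (d' : ZMod d) : Fin N → ZMod d) l = 0
          rw [Pi.single_eq_of_ne h, mul_zero]
      · intro l hl
        refine ⟨?_, rfl⟩
        have h : l ≠ i := fun h => hl (h ▸ hi)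
        show (Pi.single i (d' : ZMod d) : Fin N → ZMod d) l = 0
        rw [Pi.single_eq_of_ne h]
    have h4 := ff5_coeff (F := F k) (c := fun p : Fin N × Bool =>
      if p.2 then ZMod.stdAddChar ((Pi.single i (d' : ZMod d) : Fin N → ZMod d) p.1) else 1)
      (fun x => hB.inv k _ h3 x) hm
    rw [Fintype.prod_prod_type, Finset.prod_eq_single i] at h4
    · rw [Fintype.prod_bool] at h4
      simp only [if_true, Pi.single_eq_same, Bool.false_eq_true, if_false, one_pow, mul_one] at h4
      have h5 : Bloch.e ((m (i, true)) • (d' : ZMod d)) = Bloch.e (0 : ZMod d) := by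
        rw [Bloch.e_nsmul, Bloch.e_zero]
        exact h4
      have h6 := Bloch.e_injective h5
      rw [nsmul_eq_mul, ← Nat.cast_mul, ZMod.natCast_eq_zero_iff, hd'] at h6
      exact Nat.dvd_of_mul_dvd_mul_right (Nat.pos_of_ne_zero hd'0) h6
    · intro l _ hl
      refine Finset.prod_eq_one fun β _ => ?_
      cases β
      · simp
      · simp [Pi.single_eq_of_ne hl]
    · intro h
      exact absurd (Finset.mem_univ i) h
  obtain ⟨b, hb⟩ := h2
  have hbe : b ≤ e k := by
    have : q * b ≤ q * e k := by rw [← hb, ← h1]; exact Nat.le_add_left _ _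
    exact Nat.le_of_mul_le_mul_left this hq
  refine ⟨b, hbe, hb, ?_⟩
  rw [Nat.mul_sub, ← hb, ← h1, Nat.add_sub_cancel]

/-- PROOF. `Blk.inv` for `ψ = (0, g⁻¹)`, in `InB B q`: the polynomial `rename (fun p => (g p.1, p.2)) (F k)` has the same
values as `F k` (`eval_rename`; `mact (0, g⁻¹) x p = x (g p.1, p.2)`). `MvPolynomial.funext`. -/
theorem blk_rename (hB : Blk F D d B q e) (k : Fin r) {g : Equiv.Perm (Fin N)} (hg : g ∈ permB B) :
    rename (fun p : Fin N × Bool => (g p.1, p.2)) (F k) = F k := by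
  apply MvPolynomial.funext
  intro x
  have h3 : InB B q ((0, g⁻¹) : (Fin N → ZMod d) × Equiv.Perm (Fin N)) := by
    refine ⟨fun l => by simp, fun l hl => ⟨rfl, ?_⟩⟩
    have h4 : g l = l := (Finset.mem_filter.1 hg).2 l hl
    show g⁻¹ l = l
    rw [Equiv.Perm.inv_eq_iff_eq]
    exact h4.symm
  rw [eval_rename, ← hB.inv k _ h3 x]
  congr 2
  funext p
  show x (g p.1, p.2) = (if p.2 then ZMod.stdAddChar (0 : ZMod d) else 1) * x (g⁻¹.symm p.1, p.2)
  rw [AddChar.map_zero_eq_one, ite_self, one_mul]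
  rfl

end Pool.Agent.H10S
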