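import Mathlib
import Pool.Agent.Lib.H10S.FF4
import Pool.Agent.Lib.H10S.FF5

/-!
CHUNK FF6 (M/L). The forms `F k` are polynomials in the `cf` and in the coordinates off `B`.
-/

open MvPolynomial Finset

namespace Pool.Agent.H10S

variable {N r d : ℕ} [NeZero d] {F : Fin r → MvPolynomial (Fin N × Bool) ℂ}
  {D : Fin r → Fin N → ℕ} {B : Finset (Fin N)} {q : ℕ} {e : Fin r → ℕ}

omit [NeZero d] in
theorem ff6_mem_inv {g : Equiv.Perm (Fin N)} (hg : g ∈ permB B) : g⁻¹ ∈ permB B := by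
  unfold permB at hg ⊢
  rw [Finset.mem_filter] at hg ⊢
  refine ⟨Finset.mem_univ _, fun i hi => ?_⟩
  rw [Equiv.Perm.inv_eq_iff_eq]
  exact (hg.2 i hi).symm

omit [NeZero d] in
theorem ff6_mem_iff {g : Equiv.Perm (Fin N)} (hg : g ∈ permB B) (i : Fin N) : i ∈ B ↔ g i ∈ B := by
  unfold permB at hg
  rw [Finset.mem_filter] at hg
  constructor
  · intro hi
    by_contra h
    have h1 := hg.2 (g i) h
    rw [g.injective h1] at h
    exact h hi
  · intro hi
    by_contra h
    rw [hg.2 i h] at hi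
    exact h hi

omit [NeZero d] in
theorem ff6_rename {σ τ : Type} {f : σ → τ} {G : MvPolynomial σ ℂ} {w : τ → ℕ} (hw : ∀ i, w (f i) = 1) {n : ℕ}
    (hG : G.IsHomogeneous n) : IsWeightedHomogeneous w (rename f G) n := by
  intro d hd
  obtain ⟨u, hu, hc⟩ := coeff_rename_ne_zero _ _ _ hd
  rw [← hu, ← hG hc, Finsupp.weight_apply, Finsupp.weight_apply, Finsupp.sum_mapDomain_index]
  · refine Finsupp.sum_congr fun i _ => ?_
    rw [hw i]
    rfl
  · intro i
    exact zero_smul _ _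
  · intro i a b
    exact add_smul _ _ _

/-- One monomial `m`, averaged over the permutations of `B`.
PROOF. Let `b i` be the number of `blk_exps` for `i ∈ B` (`0` for `i ∉ B`). `symmon` gives `G₀`; put
`G = rename Sum.inl G₀ * ∏ i ∈ Bᶜ, ∏ β, X (Sum.inr (i, β)) ^ m (i, β)`. Its weighted degree is `e k` (`G₀` homogeneous:
`rename` along `Sum.inl` keeps the weighted degree, the other variables have weight `0`;
`IsWeightedHomogeneous.mul`, `.prod`, `.pow`, `isWeightedHomogeneous_X`). Values: for `g ∈ permB B`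
`∏ p, x (g p.1, p.2) ^ m p = (∏ i ∈ Bᶜ, ∏ β, x (i, β) ^ m (i, β)) * ∏ i ∈ B, x (g i, false) ^ (q * (e k - b i)) *
x (g i, true) ^ (q * b i)` (`Fintype.prod_prod_type`, `Finset.prod_mul_prod_compl`), and the product over `i ∈ B`
is, with `l = g i` (`g` permutes `B`), `∏ l ∈ B, (x (l, false) ^ q) ^ (e k - b (g⁻¹ l)) * ...`. The sum over
`g` is the sum over `g⁻¹` (`permB B` is stable under the inverse). Off `B` `y = x`. -/
theorem ff6_one (hB : Blk F D d B q e) (k : Fin r) {m : Fin N × Bool →₀ ℕ}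
    (hm : coeff m (F k) ≠ 0) :
    ∃ G : MvPolynomial (Fin (B.card + 1) ⊕ (Fin N × Bool)) ℂ,
      IsWeightedHomogeneous
        (Sum.elim (fun _ => 1) (fun _ => 0) : Fin (B.card + 1) ⊕ (Fin N × Bool) → ℕ) G (e k) ∧
      ∀ (R : Type) [CommRing R] [Algebra ℂ R] (x y : Fin N × Bool → R),
        (∀ i, i ∉ B → ∀ β, y (i, β) = x (i, β)) →
          aeval (Sum.elim (cf B q x) y) G = ∑ g ∈ permB B, ∏ p, x (g p.1, p.2) ^ m p := by
  classical
  have hex : ∀ i : Fin N, ∃ b, i ∈ B → b ≤ e k ∧ m (i, true) = q * b ∧ m (i, false) = q * (e k - b) := by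
    intro i
    by_cases hi : i ∈ B
    · obtain ⟨b, h⟩ := blk_exps hB k hm hi
      exact ⟨b, fun _ => h⟩
    · exact ⟨0, fun h => absurd h hi⟩
  choose b hb using hex
  obtain ⟨G₀, hG1, hG2⟩ := symmon B q (e k) b (fun i hi => (hb i hi).1)
  refine ⟨rename Sum.inl G₀ * ∏ i ∈ Bᶜ, ∏ β : Bool, X (Sum.inr (i, β)) ^ m (i, β), ?_, ?_⟩
  · have h1 : IsWeightedHomogeneous
        (Sum.elim (fun _ => 1) (fun _ => 0) : Fin (B.card + 1) ⊕ (Fin N × Bool) → ℕ)
        (rename Sum.inl G₀ : MvPolynomial (Fin (B.card + 1) ⊕ (Fin N × Bool)) ℂ) (e k) :=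
      ff6_rename (f := Sum.inl) (w := (Sum.elim (fun _ => 1) (fun _ => 0) : Fin (B.card + 1) ⊕ (Fin N × Bool) → ℕ))
        (fun _ => rfl) hG1
    have h2 : IsWeightedHomogeneous
        (Sum.elim (fun _ => 1) (fun _ => 0) : Fin (B.card + 1) ⊕ (Fin N × Bool) → ℕ)
        (∏ i ∈ Bᶜ, ∏ β : Bool, X (Sum.inr (i, β)) ^ m (i, β) :
          MvPolynomial (Fin (B.card + 1) ⊕ (Fin N × Bool)) ℂ) (∑ _i ∈ Bᶜ, ∑ _β : Bool, 0) := by
      refine IsWeightedHomogeneous.prod _ _ _ fun i _ => ?_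
      refine IsWeightedHomogeneous.prod _ _ _ fun β _ => ?_
      have h3 := (isWeightedHomogeneous_X ℂ
        (Sum.elim (fun _ => 1) (fun _ => 0) : Fin (B.card + 1) ⊕ (Fin N × Bool) → ℕ) (Sum.inr (i, β))).pow (m (i, β))
      simpa using h3
    have h3 := h1.mul h2
    simpa using h3
  · intro R _ _ x y hxy
    rw [map_mul, aeval_rename]
    have e1 : (Sum.elim (cf B q x) y) ∘ (Sum.inl : Fin (B.card + 1) → Fin (B.card + 1) ⊕ (Fin N × Bool)) = cf B q x := rfl
    rw [e1, hG2]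
    have e2 : aeval (Sum.elim (cf B q x) y) (∏ i ∈ Bᶜ, ∏ β : Bool, X (Sum.inr (i, β)) ^ m (i, β) :
          MvPolynomial (Fin (B.card + 1) ⊕ (Fin N × Bool)) ℂ) = ∏ i ∈ Bᶜ, ∏ β : Bool, x (i, β) ^ m (i, β) := by
      rw [map_prod]
      refine Finset.prod_congr rfl fun i hi => ?_
      rw [map_prod]
      refine Finset.prod_congr rfl fun β _ => ?_
      rw [map_pow, aeval_X, Sum.elim_inr, hxy i (Finset.mem_compl.1 hi)]
    rw [e2, Finset.sum_mul]
    symm
    refine Finset.sum_nbij' (fun g => g⁻¹) (fun g => g⁻¹) (fun g hg => ff6_mem_inv hg) (fun g hg => ff6_mem_inv hg)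
      (fun g _ => inv_inv g) (fun g _ => inv_inv g) ?_
    intro g hg
    have hg' := hg
    unfold permB at hg'
    rw [Finset.mem_filter] at hg'
    rw [Fintype.prod_prod_type, ← Finset.prod_mul_prod_compl B]
    congr 1
    · refine Finset.prod_equiv g (fun i => ff6_mem_iff hg i) ?_
      intro i hi
      obtain ⟨-, h1, h2⟩ := hb i hi
      have h3 : g⁻¹ (g i) = i := g.symm_apply_apply i
      rw [Fintype.prod_bool, h1, h2, h3, pow_mul, pow_mul, mul_comm]
    · refine Finset.prod_congr rfl fun i hi => ?_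
      refine Finset.prod_congr rfl fun β _ => ?_
      rw [hg'.2 i (Finset.mem_compl.1 hi)]

/-- CHUNK FF6. PROOF. Choose `G_m` by `ff6_one` for `m` in the support of `F k`, and put
`G k = C ((permB B).card)⁻¹ * ∑ m ∈ (F k).support, C (coeff m (F k)) * G_m` (`1 ∈ permB B`, so the cardinal is not
zero in `ℂ`). By `blk_rename`, for every `x` with values in `R`:
`aeval x (F k) = aeval (fun p => x (g p.1, p.2)) (F k)` for `g ∈ permB B` (`aeval_rename`), so
`(permB B).card * aeval x (F k) = ∑ g ∈ permB B, ∑ m, coeff m * ∏ p, x (g p.1, p.2) ^ m p`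
(`MvPolynomial.aeval_def`, `eval₂_eq'`). -/
theorem exists_GB (hB : Blk F D d B q e) :
    ∃ G : Fin r → MvPolynomial (Fin (B.card + 1) ⊕ (Fin N × Bool)) ℂ, GB F B q e G := by
  classical
  have hex : ∀ (k : Fin r) (m : Fin N × Bool →₀ ℕ), ∃ G : MvPolynomial (Fin (B.card + 1) ⊕ (Fin N × Bool)) ℂ,
      coeff m (F k) ≠ 0 → IsWeightedHomogeneous
        (Sum.elim (fun _ => 1) (fun _ => 0) : Fin (B.card + 1) ⊕ (Fin N × Bool) → ℕ) G (e k) ∧
      ∀ (R : Type) [CommRing R] [Algebra ℂ R] (x y : Fin N × Bool → R),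
        (∀ i, i ∉ B → ∀ β, y (i, β) = x (i, β)) →
          aeval (Sum.elim (cf B q x) y) G = ∑ g ∈ permB B, ∏ p, x (g p.1, p.2) ^ m p := by
    intro k m
    by_cases hm : coeff m (F k) ≠ 0
    · obtain ⟨G, h1, h2⟩ := ff6_one hB k hm
      exact ⟨G, fun _ => ⟨h1, h2⟩⟩
    · exact ⟨0, fun h => absurd h hm⟩
  choose G hG using hex
  refine ⟨fun k => C ((permB B).card : ℂ)⁻¹ * ∑ m ∈ (F k).support, C (coeff m (F k)) * G k m, ?_, ?_⟩
  · intro k
    have h1 : IsWeightedHomogeneous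
        (Sum.elim (fun _ => 1) (fun _ => 0) : Fin (B.card + 1) ⊕ (Fin N × Bool) → ℕ)
        (∑ m ∈ (F k).support, C (coeff m (F k)) * G k m) (e k) := by
      refine IsWeightedHomogeneous.sum _ _ _ fun m hm => ?_
      have h2 := (isWeightedHomogeneous_C
        (Sum.elim (fun _ => 1) (fun _ => 0) : Fin (B.card + 1) ⊕ (Fin N × Bool) → ℕ) (coeff m (F k))).mul
          (hG k m (mem_support_iff.1 hm)).1
      rwa [zero_add] at h2
    have h2 := (isWeightedHomogeneous_C
      (Sum.elim (fun _ => 1) (fun _ => 0) : Fin (B.card + 1) ⊕ (Fin N × Bool) → ℕ) (((permB B).card : ℂ)⁻¹)).mul h1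
    rwa [zero_add] at h2
  · intro R _ _ x y hxy k
    have h1 : ∀ g ∈ permB B, aeval x (F k) = ∑ m ∈ (F k).support,
        algebraMap ℂ R (coeff m (F k)) * ∏ p, x (g p.1, p.2) ^ m p := by
      intro g hg
      have h2 := congrArg (aeval x) (blk_rename hB k hg)
      rw [aeval_rename] at h2
      rw [← h2, aeval_def, eval₂_eq']
      rfl
    have h2 : ((permB B).card : R) * aeval x (F k) = ∑ m ∈ (F k).support,
        algebraMap ℂ R (coeff m (F k)) * ∑ g ∈ permB B, ∏ p, x (g p.1, p.2) ^ m p := by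
      rw [← nsmul_eq_mul, ← Finset.sum_const, Finset.sum_congr rfl h1, Finset.sum_comm]
      refine Finset.sum_congr rfl fun m _ => ?_
      rw [Finset.mul_sum]
    have h3 : aeval (Sum.elim (cf B q x) y) (∑ m ∈ (F k).support, C (coeff m (F k)) * G k m) =
        ((permB B).card : R) * aeval x (F k) := by
      rw [h2, map_sum]
      refine Finset.sum_congr rfl fun m hm => ?_
      rw [map_mul, aeval_C, (hG k m (mem_support_iff.1 hm)).2 R x y hxy]
    rw [map_mul, h3, aeval_C, ← mul_assoc, ← map_natCast (algebraMap ℂ R), ← map_mul]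
    have hc : ((permB B).card : ℂ) ≠ 0 := by
      rw [Nat.cast_ne_zero, Finset.card_ne_zero]
      refine ⟨1, ?_⟩
      unfold permB
      rw [Finset.mem_filter]
      exact ⟨Finset.mem_univ _, fun _ _ => rfl⟩
    rw [inv_mul_cancel₀ hc, map_one, one_mul]

end Pool.Agent.H10S
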