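import Pool.Agent.Lib.H10S.Sep3
import Pool.Agent.Lib.H10S.F6
import Pool.Agent.Lib.H10S.F8a
import Pool.Agent.Lib.H10S.F8b

/-!
# H10S, file G8: two crosses without mutual crossings

`x u` crosses `y v`, `p B` crosses `q A`, no edge of one cross meets an edge of the other one, `x, y ∉ {p, q}`.
The small triangles of the two crosses at `x, y` and at `p, q` are closed curves which cross an even number of times:
`xy` crosses `pq` iff an odd number of the following is true: `x` is in the triangle of `p, q`, `y` is in the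
triangle of `p, q`, `p` is in the triangle of `x, y`, `q` is in the triangle of `x, y` (`g8`).
-/

set_option autoImplicit false

namespace H10S

open H53P H30P Finset

variable {V : Type*} [DecidableEq V] {T : Table V}

theorem nd5 {a b c d e : V} (h1 : a ≠ b) (h2 : a ≠ c) (h3 : a ≠ d) (h4 : a ≠ e) (h5 : b ≠ c) (h6 : b ≠ d)
    (h7 : b ≠ e) (h8 : c ≠ d) (h9 : c ≠ e) (h10 : d ≠ e) : [a, b, c, d, e].Nodup := by
  simp [h1, h2, h3, h4, h5, h6, h7, h8, h9, h10]

theorem z2_of {b : Bool} (h : b = true → False) : z2 b = 0 := by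
  cases b
  · rfl
  · exact (h rfl).elim

theorem z2_crT (T : Table V) (x y z a b : V) : z2 (T.crT x y z a b) = tt T x y z a b := by
  unfold Table.crT crTX tt
  rw [z2_xor, z2_xor]
  change x4 T a b x y + x4 T a b y z + x4 T a b z x = _
  rw [x4_4 T a b x y, x4_4 T a b y z, x4_4 T a b z x]

/-- a corner of a cross is in no small triangle -/
theorem inn_w {w u z v : V} (h : T.X w u z v = true) : inn T w u z v w = false := by
  have h1 : T.X w v u z = false := T.one w u v z (by rw [T.xs2]; exact h)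
  have h2 : T.crT w z u w v = false := by
    unfold Table.crT crTX
    have e1 : T.X w v w z = false := by
      cases e : T.X w v w z with
      | false => rfl
      | true => exact absurd rfl (T.ne _ _ _ _ e).2.2.1
    have e2 : T.X w v u w = false := by
      cases e : T.X w v u w with
      | false => rfl
      | true => exact absurd rfl (T.ne _ _ _ _ e).2.2.2.1
    rw [e1, e2, T.xs2 w v z u, h1]
    rfl
  unfold inn
  rw [h2, Bool.and_false]

theorem inn_z {w u z v : V} (h : T.X w u z v = true) : inn T w u z v z = false := by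
  rw [← inn_swap]
  exact inn_w (by rw [T.xs4]; exact h)

/-- a vertex in a small triangle is not a corner -/
theorem inn_ne {w u z v a : V} (h : T.X w u z v = true) (ha : inn T w u z v a = true) :
    a ≠ w ∧ a ≠ u ∧ a ≠ z ∧ a ≠ v := by
  refine ⟨?_, ?_, ?_, ?_⟩ <;> intro e <;> subst e
  · rw [inn_w h] at ha; exact Bool.false_ne_true ha
  · rw [inn_u] at ha; exact Bool.false_ne_true ha
  · rw [inn_z h] at ha; exact Bool.false_ne_true ha
  · rw [inn_v] at ha; exact Bool.false_ne_true ha

/-- opposite small triangles are disjoint -/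
theorem ex_opp {w u z v a : V} (h : T.X w u z v = true) (h1 : inn T w u z v a = true)
    (h2 : inn T u w v z a = true) : False := by
  obtain ⟨wu, zv, wz, wv, uz, uv⟩ := T.ne _ _ _ _ h
  obtain ⟨aw, au, az, av⟩ := inn_ne h h1
  exact g8_ex (T := T) (nd5 wu wz wv aw.symm uz uv au.symm zv az.symm av.symm) h h1 h2

/-- adjacent small triangles are disjoint -/
theorem ex_adj {w u z v a : V} (h : T.X w u z v = true) (h1 : inn T w u z v a = true)
    (h2 : inn T z v u w a = true) : False := by
  obtain ⟨wu, zv, wz, wv, uz, uv⟩ := T.ne _ _ _ _ h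
  obtain ⟨aw, au, az, av⟩ := inn_ne h h1
  exact g8_ey (T := T) (nd5 wu wz wv aw.symm uz uv au.symm zv az.symm av.symm) h h1 h2

/-- a triangle of the cross consists of two small triangles -/
theorem kf {x u y v a : V} (hX : T.X x u y v = true) (ax : a ≠ x) (ay : a ≠ y) (au : a ≠ u) :
    tt T x y u a v = z2 (inn T x u y v a) + z2 (inn T y v u x a) := by
  obtain ⟨xu, yv, xy, xv, uy, uv⟩ := T.ne _ _ _ _ hX
  by_cases av : a = v
  · subst av
    rw [tt_self, inn_v, inn_u]
    rfl
  · have h := z2_of (g8_kf (T := T) (nd5 xu xy xv ax.symm uy uv au.symm yv ay.symm (Ne.symm av)) hX)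
    rw [z2_xor, z2_xor, z2_crT] at h
    change tt T x y u a v + z2 (inn T x u y v a) + z2 (inn T y v u x a) = 0 at h
    linear_combination (norm := (ring_nf; reduce_mod_char)) h

/-- two crosses -/
structure Crs (T : Table V) (x u y v p B q A : V) : Prop where
  c1 : T.X x u y v = true
  c2 : T.X p B q A = true
  e1 : T.X x u p B = false
  e2 : T.X x u q A = false
  e3 : T.X y v p B = false
  e4 : T.X y v q A = false
  xp : x ≠ p
  xq : x ≠ q
  yp : y ≠ p
  yq : y ≠ q

/-- the defect -/
def dd (T : Table V) (x u y v p B q A : V) : ZMod 2 :=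
  x4 T x y p q + (z2 (inn T p B q A x) + z2 (inn T p B q A y)) +
    (z2 (inn T x u y v p) + z2 (inn T x u y v q))

theorem dd_dual (T : Table V) (x u y v p B q A : V) : dd T x u y v p B q A = dd T p B q A x u y v := by
  unfold dd
  rw [x4_4]
  ring

theorem dd_s1 (T : Table V) (x u y v p B q A : V) : dd T y v x u p B q A = dd T x u y v p B q A := by
  unfold dd
  rw [x4_1, inn_swap T x u y v p, inn_swap T x u y v q]
  ring

theorem dd_s2 (T : Table V) (x u y v p B q A : V) : dd T x u y v q A p B = dd T x u y v p B q A := by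
  unfold dd
  rw [x4_2, inn_swap T p B q A x, inn_swap T p B q A y]
  ring

namespace Crs

variable {x u y v p B q A : V} (h : Crs T x u y v p B q A)

include h

theorem dual : Crs T p B q A x u y v :=
  ⟨h.c2, h.c1, by rw [T.xs4]; exact h.e1, by rw [T.xs4]; exact h.e3, by rw [T.xs4]; exact h.e2,
    by rw [T.xs4]; exact h.e4, h.xp.symm, h.yp.symm, h.xq.symm, h.yq.symm⟩

theorem s1 : Crs T y v x u p B q A :=
  ⟨by rw [T.xs4]; exact h.c1, h.c2, h.e3, h.e4, h.e1, h.e2, h.yp, h.yq, h.xp, h.xq⟩

theorem s2 : Crs T x u y v q A p B :=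
  ⟨h.c1, by rw [T.xs4]; exact h.c2, h.e2, h.e1, h.e4, h.e3, h.xq, h.xp, h.yq, h.yp⟩

/-- rotation of the second cross -/
theorem rot (xB : x ≠ B) (yB : y ≠ B) : Crs T x u y v q A B p :=
  ⟨h.c1, by rw [T.xs4, T.xs1]; exact h.c2, h.e2, by rw [T.xs2]; exact h.e1, h.e4,
    by rw [T.xs2]; exact h.e3, h.xq, xB, h.yq, yB⟩

/-- the defect does not change -/
theorem dd_rot (xB : x ≠ B) (yB : y ≠ B) : dd T x u y v q A B p = dd T x u y v p B q A := by
  obtain ⟨pB, qA, pq, pA, Bq, BA⟩ := T.ne _ _ _ _ h.c2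
  have k1 := kf (T := T) h.c2 h.xp h.xq xB
  have k2 := kf (T := T) h.c2 h.yp h.yq yB
  have t1 := tt_tri (T := T) pq Bq.symm pB.symm h.xp h.xq xB pA.symm qA.symm BA.symm h.yp h.yq yB
  have t2 := tt_symm T p q B A y
  have s := sm_edge (T := T) h.c1 pB h.xp.symm h.yp.symm xB.symm yB.symm h.e1 h.e3
  unfold dd
  unfold tt at t1 t2 k1 k2
  simp only [x4_1, x4_2, x4_4] at k1 k2 t1 t2 s ⊢
  linear_combination (norm := (ring_nf; reduce_mod_char)) k1 + k2 + t1 + t2 + s

theorem X_pq (hx : inn T p B q A x = false) (hu : inn T p B q A u = false) : T.X x u p q = false := by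
  obtain ⟨pB, qA, pq, pA, Bq, BA⟩ := T.ne _ _ _ _ h.c2
  obtain ⟨xu, yv, xy, xv, uy, uv⟩ := T.ne _ _ _ _ h.c1
  cases e : T.X x u p q with
  | false => rfl
  | true =>
    obtain ⟨_, _, _, _, up, uq⟩ := T.ne _ _ _ _ e
    have s := sm_edge (T := T) h.c2 xu h.xp h.xq up uq (by rw [T.xs4]; exact h.e1)
      (by rw [T.xs4]; exact h.e2)
    rw [hx, hu, z2_false, x4_4, x4_true e] at s
    exact absurd s (by decide)

/-- a side which is missed by the first cross -/
theorem dd_miss (hx : inn T p B q A x = false) (hu : inn T p B q A u = false)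
    (hy : inn T p B q A y = false) (hv : inn T p B q A v = false) : dd T x u y v p B q A = 0 := by
  obtain ⟨pB, qA, pq, pA, Bq, BA⟩ := T.ne _ _ _ _ h.c2
  have h1 := h.X_pq hx hu
  have h2 := h.s1.X_pq hy hv
  have s := sm_edge (T := T) h.c1 pq h.xp.symm h.yp.symm h.xq.symm h.yq.symm h1 h2
  unfold dd
  rw [hx, hy, z2_false, s]
  linear_combination (norm := (ring_nf; reduce_mod_char)) (0 : ZMod 2) = 0

end Crs

theorem zne {a : ZMod 2} (h : a ≠ 0) : a = 1 := by
  revert h
  revert a
  decide

/-- eight points: two adjacent sides -/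
theorem cA {x u y v p B q A : V} (h : Crs T x u y v p B q A) (hx : inn T p B q A x = true)
    (hu : inn T A q p B u = true) (hy : inn T B p A q y = true) (hv : inn T q A B p v = true) :
    False := by
  obtain ⟨pB, qA, pq, pA, Bq, BA⟩ := T.ne _ _ _ _ h.c2
  obtain ⟨xu, yv, xy, xv, uy, uv⟩ := T.ne _ _ _ _ h.c1
  have c3 : T.X A q p B = true := by rw [T.xs6]; exact h.c2
  have c4 : T.X B p A q = true := by rw [T.xs3]; exact h.c2
  have c5 : T.X q A B p = true := by rw [T.xs4, T.xs1]; exact h.c2
  obtain ⟨z1, z2', z3, z4⟩ := inn_ne h.c2 hx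
  obtain ⟨u4, u3, u1, u2⟩ := inn_ne c3 hu
  obtain ⟨y2, y1, y4, y3⟩ := inn_ne c4 hy
  obtain ⟨v3, v4, v2, v1⟩ := inn_ne c5 hv
  exact g8_A2 (T := T) (p := p) (B := B) (q := q) (A := A) (x := x) (u := u) (y := y) (v := v)
    (by simp [pB, qA, pq, pA, Bq, BA, xu, yv, xy, xv, uy, uv, Ne.symm z1, Ne.symm z2', Ne.symm z3,
      Ne.symm z4, Ne.symm u1, Ne.symm u2, Ne.symm u3, Ne.symm u4, Ne.symm y1, Ne.symm y2, Ne.symm y3,
      Ne.symm y4, Ne.symm v1, Ne.symm v2, Ne.symm v3, Ne.symm v4])
    h.c2 h.c1 h.e1 h.e2 h.e3 h.e4 hx hu hy hv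

/-- eight points: two opposite sides -/
theorem cB {x u y v p B q A : V} (h : Crs T x u y v p B q A) (hx : inn T p B q A x = true)
    (hu : inn T B p A q u = true) (hy : inn T A q p B y = true) (hv : inn T q A B p v = true) :
    dd T x u y v p B q A = 0 := by
  obtain ⟨pB, qA, pq, pA, Bq, BA⟩ := T.ne _ _ _ _ h.c2
  obtain ⟨xu, yv, xy, xv, uy, uv⟩ := T.ne _ _ _ _ h.c1
  have c3 : T.X A q p B = true := by rw [T.xs6]; exact h.c2
  have c4 : T.X B p A q = true := by rw [T.xs3]; exact h.c2
  have c5 : T.X q A B p = true := by rw [T.xs4, T.xs1]; exact h.c2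
  obtain ⟨z1, z2', z3, z4⟩ := inn_ne h.c2 hx
  obtain ⟨u2, u1, u4, u3⟩ := inn_ne c4 hu
  obtain ⟨y4, y3, y1, y2⟩ := inn_ne c3 hy
  obtain ⟨v3, v4, v2, v1⟩ := inn_ne c5 hv
  have k := g8_B2 (T := T) (p := p) (B := B) (q := q) (A := A) (x := x) (u := u) (y := y) (v := v)
    (by simp [pB, qA, pq, pA, Bq, BA, xu, yv, xy, xv, uy, uv, Ne.symm z1, Ne.symm z2', Ne.symm z3,
      Ne.symm z4, Ne.symm u1, Ne.symm u2, Ne.symm u3, Ne.symm u4, Ne.symm y1, Ne.symm y2, Ne.symm y3,
      Ne.symm y4, Ne.symm v1, Ne.symm v2, Ne.symm v3, Ne.symm v4])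
    h.c2 h.c1 h.e1 h.e2 h.e3 h.e4 hx hu hy hv
  have hy0 : inn T p B q A y = false := by
    cases e : inn T p B q A y with
    | false => rfl
    | true => exact (ex_adj (T := T) (w := A) (u := q) (z := p) (v := B) c3 hy e).elim
  cases e : ((T.X x y p q ^^ inn T x u y v p) ^^ inn T x u y v q) with
  | false => exact (k e).elim
  | true =>
    have e1 := congrArg z2 e
    rw [z2_xor, z2_xor, z2_true] at e1
    change x4 T x y p q + z2 (inn T x u y v p) + z2 (inn T x u y v q) = 1 at e1
    unfold dd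
    rw [hx, hy0, z2_true, z2_false]
    linear_combination (norm := (ring_nf; reduce_mod_char)) e1

section

variable {x u y v p B q A : V}

/-- `x` is in the small triangle at `p, q` -/
theorem n3_core (h : Crs T x u y v p B q A) (xB : x ≠ B) (yB : y ≠ B) (xA : x ≠ A) (yA : y ≠ A)
    (hx : inn T p B q A x = true) : dd T x u y v p B q A = 0 := by
  by_contra hd
  have c3 : T.X A q p B = true := by rw [T.xs6]; exact h.c2
  have c4 : T.X B p A q = true := by rw [T.xs3]; exact h.c2
  have c5 : T.X q A B p = true := by rw [T.xs4, T.xs1]; exact h.c2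
  have r1 := h.rot xB yB
  have r2 := r1.rot xA yA
  have r3 := r2.rot h.xp h.yp
  have d1 := h.dd_rot xB yB
  have d2 := r1.dd_rot xA yA
  have d3 := r2.dd_rot h.xp h.yp
  have x01 : ∀ a, inn T p B q A a = true → inn T q A B p a = true → False := fun a => ex_adj h.c2
  have x12 : ∀ a, inn T q A B p a = true → inn T B p A q a = true → False := fun a => ex_adj c5
  have x23 : ∀ a, inn T B p A q a = true → inn T A q p B a = true → False := fun a => ex_adj c4
  have x30 : ∀ a, inn T A q p B a = true → inn T p B q A a = true → False := fun a => ex_adj c3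
  have x02 : ∀ a, inn T p B q A a = true → inn T B p A q a = true → False := fun a => ex_opp h.c2
  have x13 : ∀ a, inn T q A B p a = true → inn T A q p B a = true → False := fun a => ex_opp c5
  have m1 : inn T q A B p u = true ∨ inn T q A B p y = true ∨ inn T q A B p v = true := by
    by_contra hc
    rw [not_or, not_or, Bool.not_eq_true, Bool.not_eq_true, Bool.not_eq_true] at hc
    have hx1 : inn T q A B p x = false := by
      rw [← Bool.not_eq_true]
      exact x01 x hx
    exact hd (d1 ▸ r1.dd_miss hx1 hc.1 hc.2.1 hc.2.2)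
  have m2 : inn T B p A q u = true ∨ inn T B p A q y = true ∨ inn T B p A q v = true := by
    by_contra hc
    rw [not_or, not_or, Bool.not_eq_true, Bool.not_eq_true, Bool.not_eq_true] at hc
    have hx1 : inn T B p A q x = false := by
      rw [← Bool.not_eq_true]
      exact x02 x hx
    exact hd (d1 ▸ d2 ▸ r2.dd_miss hx1 hc.1 hc.2.1 hc.2.2)
  have m3 : inn T A q p B u = true ∨ inn T A q p B y = true ∨ inn T A q p B v = true := by
    by_contra hc
    rw [not_or, not_or, Bool.not_eq_true, Bool.not_eq_true, Bool.not_eq_true] at hc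
    have hx1 : inn T A q p B x = false := by
      rw [← Bool.not_eq_true]
      exact fun h3 => x30 x h3 hx
    exact hd (d1 ▸ d2 ▸ d3 ▸ r3.dd_miss hx1 hc.1 hc.2.1 hc.2.2)
  -- exchanging `y` and `v`
  have hyv : Crs T x u y v p B q A → v ≠ p → v ≠ q → Crs T x u v y p B q A := fun h v1 v2 =>
    ⟨by rw [T.xs2]; exact h.c1, h.c2, h.e1, h.e2, by rw [T.xs1]; exact h.e3,
      by rw [T.xs1]; exact h.e4, h.xp, h.xq, v1, v2⟩
  have sw : ∀ a b d e f : V, inn T a b d e f = true → inn T d e a b f = true := fun a b d e f hh => by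
    rw [inn_swap]; exact hh
  rcases m1 with a | a | a <;> rcases m2 with b | b | b <;> rcases m3 with c | c | c
  · exact x12 _ a b
  · exact x12 _ a b
  · exact x12 _ a b
  · exact x13 _ a c
  · exact x23 _ b c
  · -- u : 1, y : 2, v : 3
    exact cA h.s2 (sw _ _ _ _ _ hx) (sw _ _ _ _ _ a) (sw _ _ _ _ _ b) (sw _ _ _ _ _ c)
  · exact x13 _ a c
  · -- u : 1, v : 2, y : 3
    obtain ⟨v2, v1, v4, v3⟩ := inn_ne c4 b
    exact cA (hyv h v1 v3).s2 (sw _ _ _ _ _ hx) (sw _ _ _ _ _ a) (sw _ _ _ _ _ b) (sw _ _ _ _ _ c)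
  · exact x23 _ b c
  · exact x23 _ b c
  · exact x13 _ a c
  · -- y : 1, u : 2, v : 3
    exact hd (dd_s2 T x u y v p B q A ▸ cB h.s2 (sw _ _ _ _ _ hx) (sw _ _ _ _ _ b)
      (sw _ _ _ _ _ a) (sw _ _ _ _ _ c))
  · exact x12 _ a b
  · exact x12 _ a b
  · exact x12 _ a b
  · -- y : 1, v : 2, u : 3
    obtain ⟨v2, v1, v4, v3⟩ := inn_ne c4 b
    exact cA (hyv h v1 v3) hx c b a
  · exact x13 _ a c
  · exact x23 _ b c
  · exact x23 _ b c
  · -- v : 1, u : 2, y : 3
    exact hd (cB h hx b c a)
  · exact x13 _ a c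
  · -- v : 1, y : 2, u : 3
    exact cA h hx c b a
  · exact x23 _ b c
  · exact x13 _ a c
  · exact x12 _ a b
  · exact x12 _ a b
  · exact x12 _ a b

/-- `x, y` are not corners of the second cross -/
theorem n3 (h : Crs T x u y v p B q A) (xB : x ≠ B) (yB : y ≠ B) (xA : x ≠ A) (yA : y ≠ A) :
    dd T x u y v p B q A = 0 := by
  have c3 : T.X A q p B = true := by rw [T.xs6]; exact h.c2
  have c4 : T.X B p A q = true := by rw [T.xs3]; exact h.c2
  have c5 : T.X q A B p = true := by rw [T.xs4, T.xs1]; exact h.c2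
  have r1 := h.rot xB yB
  have r2 := r1.rot xA yA
  have r3 := r2.rot h.xp h.yp
  have d1 := h.dd_rot xB yB
  have d2 := r1.dd_rot xA yA
  have d3 := r2.dd_rot h.xp h.yp
  have x01 : ∀ a, inn T p B q A a = true → inn T q A B p a = true → False := fun a => ex_adj h.c2
  have x12 : ∀ a, inn T q A B p a = true → inn T B p A q a = true → False := fun a => ex_adj c5
  have x23 : ∀ a, inn T B p A q a = true → inn T A q p B a = true → False := fun a => ex_adj c4
  have x30 : ∀ a, inn T A q p B a = true → inn T p B q A a = true → False := fun a => ex_adj c3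
  have x02 : ∀ a, inn T p B q A a = true → inn T B p A q a = true → False := fun a => ex_opp h.c2
  have x13 : ∀ a, inn T q A B p a = true → inn T A q p B a = true → False := fun a => ex_opp c5
  by_cases h0 : inn T p B q A x = true
  · exact n3_core h xB yB xA yA h0
  by_cases h1 : inn T q A B p x = true
  · rw [← d1]
    exact n3_core r1 xA yA h.xp h.yp h1
  by_cases h2 : inn T B p A q x = true
  · rw [← d1, ← d2]
    exact n3_core r2 h.xp h.yp h.xq h.yq h2
  by_cases h3 : inn T A q p B x = true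
  · rw [← d1, ← d2, ← d3]
    exact n3_core r3 h.xq h.yq xB yB h3
  rw [Bool.not_eq_true] at h0 h1 h2 h3
  by_contra hd
  have m0 : inn T p B q A u = true ∨ inn T p B q A y = true ∨ inn T p B q A v = true := by
    by_contra hc
    rw [not_or, not_or, Bool.not_eq_true, Bool.not_eq_true, Bool.not_eq_true] at hc
    exact hd (h.dd_miss h0 hc.1 hc.2.1 hc.2.2)
  have m1 : inn T q A B p u = true ∨ inn T q A B p y = true ∨ inn T q A B p v = true := by
    by_contra hc
    rw [not_or, not_or, Bool.not_eq_true, Bool.not_eq_true, Bool.not_eq_true] at hc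
    exact hd (d1 ▸ r1.dd_miss h1 hc.1 hc.2.1 hc.2.2)
  have m2 : inn T B p A q u = true ∨ inn T B p A q y = true ∨ inn T B p A q v = true := by
    by_contra hc
    rw [not_or, not_or, Bool.not_eq_true, Bool.not_eq_true, Bool.not_eq_true] at hc
    exact hd (d1 ▸ d2 ▸ r2.dd_miss h2 hc.1 hc.2.1 hc.2.2)
  have m3 : inn T A q p B u = true ∨ inn T A q p B y = true ∨ inn T A q p B v = true := by
    by_contra hc
    rw [not_or, not_or, Bool.not_eq_true, Bool.not_eq_true, Bool.not_eq_true] at hc
    exact hd (d1 ▸ d2 ▸ d3 ▸ r3.dd_miss h3 hc.1 hc.2.1 hc.2.2)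
  rcases m0 with a | a | a <;> rcases m1 with b | b | b <;> rcases m2 with c | c | c <;>
    rcases m3 with d | d | d <;>
    first
    | exact x01 _ a b
    | exact x12 _ b c
    | exact x23 _ c d
    | exact x30 _ d a
    | exact x02 _ a c
    | exact x13 _ b d

/-- `x = A` and one of `p, q` is `u` or `v` -/
theorem deg (h : Crs T x u y v p B q A) (xA : x = A) (hc : u = p ∨ u = q ∨ v = p ∨ v = q) :
    dd T x u y v p B q A = 0 := by
  subst xA
  obtain ⟨pB, qA, pq, pA, Bq, BA⟩ := T.ne _ _ _ _ h.c2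
  obtain ⟨xu, yv, xy, xv, uy, uv⟩ := T.ne _ _ _ _ h.c1
  have uq : u ≠ q := by
    rintro rfl
    have := h.e4
    rw [T.xs5, h.c1] at this
    exact Bool.noConfusion this
  have one : T.X x p B q = false := by
    rw [T.xs4, T.xs2]
    exact T.one B p q x (by rw [T.xs1]; exact h.c2)
  have hW : z2 (inn T p B q x x) = 0 := by rw [inn_v]; rfl
  by_cases up : u = p
  · subst up
    have hU : z2 (inn T x u y v u) = 0 := by rw [inn_u]; rfl
    by_cases yB : y = B
    · subst yB
      have vq : v ≠ q := by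
        rintro rfl
        rw [h.c1] at one
        exact Bool.noConfusion one
      have hB : z2 (inn T u y q x y) = 0 := by rw [inn_u]; rfl
      have k := z2_of (g8_a3 (T := T) (nd5 pB pq pA uv Bq BA yv qA (Ne.symm vq) xv) h.c2 h.c1 h.e4)
      rw [z2_xor] at k
      change x4 T x y u q + z2 (inn T x u y v q) = 0 at k
      unfold dd
      rw [hW, hU, hB]
      linear_combination k
    by_cases vq : v = q
    · subst vq
      have hV : z2 (inn T x u y v v) = 0 := by rw [inn_v]; rfl
      have k := z2_of (g8_a1 (T := T) (nd5 pB pq pA h.yp.symm Bq BA (Ne.symm yB) qA h.yq.symm xy) h.c2 h.c1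
        h.e3)
      rw [z2_xor] at k
      change x4 T x y u v + z2 (inn T u B v x y) = 0 at k
      unfold dd
      rw [hW, hU, hV]
      linear_combination k
    by_cases vB : v = B
    · subst vB
      have k := z2_of (g8_a2 (T := T) (nd5 pB pq pA h.yp.symm Bq BA (Ne.symm yB) qA h.yq.symm xy) h.c2 h.c1
        h.e4)
      rw [z2_xor, z2_xor] at k
      change x4 T x y u q + z2 (inn T u v q x y) + z2 (inn T x u y v q) = 0 at k
      unfold dd
      rw [hW, hU]
      linear_combination k
    · have k := z2_of (g8_a0 (T := T) (p := u) (B := B) (q := q) (A := x) (y := y) (v := v)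
        (by simp [pB, qA, pq, pA, Bq, BA, Ne.symm h.yp, Ne.symm h.yq, Ne.symm yB, xy, yv, xv, uv,
          Ne.symm vq, Ne.symm vB]) h.c2 h.c1 h.e3 h.e4)
      rw [z2_xor, z2_xor] at k
      change x4 T x y u q + z2 (inn T u B q x y) + z2 (inn T x u y v q) = 0 at k
      unfold dd
      rw [hW, hU]
      linear_combination k
  by_cases vp : v = p
  · subst vp
    have hV : z2 (inn T x u y v v) = 0 := by rw [inn_v]; rfl
    have yB : y ≠ B := by
      rintro rfl
      have h2 := h.e1
      rw [T.xs2, h.c1] at h2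
      exact Bool.noConfusion h2
    by_cases uB : u = B
    · subst uB
      have k := z2_of (g8_b1 (T := T) (nd5 pB pq pA h.yp.symm Bq BA (Ne.symm yB) qA h.yq.symm xy) h.c2 h.c1
        h.e4)
      rw [z2_xor, z2_xor] at k
      change x4 T x y v q + z2 (inn T v u q x y) + z2 (inn T x u y v q) = 0 at k
      unfold dd
      rw [hW, hV]
      linear_combination k
    · have k := z2_of (g8_b0 (T := T) (p := v) (B := B) (q := q) (A := x) (u := u) (y := y)
        (by simp [pB, qA, pq, pA, Bq, BA, Ne.symm h.yp, Ne.symm h.yq, Ne.symm yB, xy, yv, xv, uv,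
          Ne.symm uB, Ne.symm uq, Ne.symm up, xu, uy]) h.c2 h.c1 h.e1 h.e4)
      rw [z2_xor, z2_xor] at k
      change x4 T x y v q + z2 (inn T v B q x y) + z2 (inn T x u y v q) = 0 at k
      unfold dd
      rw [hW, hV]
      linear_combination k
  have vq : v = q := by
    rcases hc with hc | hc | hc | hc
    · exact absurd hc up
    · exact absurd hc uq
    · exact absurd hc vp
    · exact hc
  subst vq
  have hV : z2 (inn T x u y v v) = 0 := by rw [inn_v]; rfl
  by_cases yB : y = B
  · subst yB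
    have hB : z2 (inn T p y v x y) = 0 := by rw [inn_u]; rfl
    have k := z2_of (g8_c2 (T := T) (nd5 pB pq pA (Ne.symm up) Bq BA (Ne.symm uy) qA (Ne.symm uv) xu) h.c2
      h.c1 h.e1)
    rw [z2_xor] at k
    change x4 T x y p v + z2 (inn T x u y v p) = 0 at k
    unfold dd
    rw [hW, hV, hB]
    linear_combination k
  by_cases uB : u = B
  · subst uB
    have k := z2_of (g8_c1 (T := T) (nd5 pB pq pA h.yp.symm Bq BA uy qA h.yq.symm xy) h.c2 h.c1
      h.e3)
    rw [z2_xor, z2_xor] at k
    change x4 T x y p v + z2 (inn T p u v x y) + z2 (inn T x u y v p) = 0 at k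
    unfold dd
    rw [hW, hV]
    linear_combination k
  · have k := z2_of (g8_c0 (T := T) (p := p) (B := B) (q := v) (A := x) (u := u) (y := y)
      (by simp [pB, qA, pq, pA, Bq, BA, Ne.symm h.yp, Ne.symm h.yq, Ne.symm yB, xy, yv, xv, uv,
        Ne.symm uB, Ne.symm uq, Ne.symm up, xu, uy]) h.c2 h.c1 h.e1 h.e3)
    rw [z2_xor, z2_xor] at k
    change x4 T x y p v + z2 (inn T p B v x y) + z2 (inn T x u y v p) = 0 at k
    unfold dd
    rw [hW, hV]
    linear_combination k

/-- (G8) the small triangles of two crosses without mutual crossings cross an even number of times -/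
theorem g8 (h : Crs T x u y v p B q A) : dd T x u y v p B q A = 0 := by
  by_cases hx : x = A ∨ x = B ∨ y = A ∨ y = B
  · by_cases hu : u = p ∨ u = q ∨ v = p ∨ v = q
    · rcases hx with hx | hx | hx | hx
      · exact deg h hx hu
      · rw [← dd_s2]
        exact deg h.s2 hx (by tauto)
      · rw [← dd_s1]
        exact deg h.s1 hx (by tauto)
      · rw [← dd_s1, ← dd_s2]
        exact deg h.s1.s2 hx (by tauto)
    · simp only [not_or] at hu
      rw [dd_dual]
      exact n3 h.dual (Ne.symm hu.1) (Ne.symm hu.2.1) (Ne.symm hu.2.2.1) (Ne.symm hu.2.2.2)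
  · simp only [not_or] at hx
    exact n3 h hx.2.1 hx.2.2.2 hx.1 hx.2.2.1

/-- (G8) in expanded form -/
theorem g8_eq (h : Crs T x u y v p B q A) : x4 T x y p q + (z2 (inn T x u y v p) + z2 (inn T x u y v q)) =
    z2 (inn T p B q A x) + z2 (inn T p B q A y) := by
  have h1 := g8 h
  unfold dd at h1
  linear_combination (norm := (ring_nf; reduce_mod_char)) h1

end

end H10S
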