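import Mathlib
import Pool.Agent.Lib.H10S.GA2

/-!
CHUNK GA4 (M). Reductions at a place.
-/

open MvPolynomial Finset

namespace Pool.Agent.H10S

open Pool.Agent.H7CX (Place)

variable {N r : ℕ} {F : Fin r → MvPolynomial (Fin N × Bool) ℂ} {D : Fin r → Fin N → ℕ}
  {K : Type*} [Field K] [Algebra ℂ K] {P : Place K}

/-- PROOF. `H7CX.exists_red` (Lib/H7CX/PL2.lean) with the weights `fun _ => 1`, `pow_one`. -/
theorem exists_redV [IsAlgClosed K] {ι : Type*} [Fintype ι] {X : ι → K} (hX : X ≠ 0) :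
    ∃ q : ι → ℂ, RedV P X q := by
  obtain ⟨q, hq, κ, hκ, h⟩ := H7CX.exists_red P (w := fun _ : ι => 1) (fun _ => le_rfl) hX
  refine ⟨q, hq, κ, hκ, fun i => ?_⟩
  have := h i
  rwa [pow_one] at this

/-- PROOF. `H7CX.red_unique` with the weights `1`. -/
theorem redV_unique {ι : Type*} [Fintype ι] {X : ι → K} {q q' : ι → ℂ} (h : RedV P X q)
    (h' : RedV P X q') : ∃ t : ℂ, t ≠ 0 ∧ ∀ i, q' i = t * q i := by
  obtain ⟨hq, κ, hκ, hv⟩ := h
  obtain ⟨hq', κ', hκ', hv'⟩ := h'
  obtain ⟨t, ht, h1⟩ := H7CX.red_unique P (w := fun _ : ι => 1) (fun _ => le_rfl)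
    (X := X) (q := q) (q' := q') ⟨hq, κ, hκ, fun i => by rw [pow_one]; exact hv i⟩
    ⟨hq', κ', hκ', fun i => by rw [pow_one]; exact hv' i⟩
  exact ⟨t, ht, fun i => by rw [h1 i, pow_one]⟩

/-- PROOF. Multiply the scalar. -/
theorem redV_smul {ι : Type*} {X : ι → K} {q : ι → ℂ} {κ : K} (hκ : κ ≠ 0)
    (h : RedV P (fun i => κ * X i) q) : RedV P X q := by
  obtain ⟨hq, κ', hκ', hv⟩ := h
  refine ⟨hq, κ' * κ, mul_ne_zero hκ' hκ, fun i => ?_⟩
  rw [mul_assoc]
  exact hv i

/-- PROOF. For every `i` the vector `β ↦ X (i, β)` is not zero; `exists_redV` (`ι = Bool`), `choose`. -/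
theorem exists_redM [IsAlgClosed K] {X : Fin N × Bool → K} (hX : IsPoint X) :
    ∃ x : Fin N × Bool → ℂ, RedM P X x := by
  have h1 : ∀ i, ∃ q : Bool → ℂ, RedV P (fun β => X (i, β)) q := by
    intro i
    apply exists_redV
    obtain ⟨β, hβ⟩ := hX i
    intro h0
    exact hβ (congrFun h0 β)
  choose q hq using h1
  refine ⟨fun p => q p.1 p.2, fun i => ?_, fun i => (hq i).2⟩
  by_contra hcon
  push Not at hcon
  exact (hq i).1 (funext hcon)

theorem ga4_val_prod {α : Type*} (s : Finset α) {z : α → K} {y : α → ℂ}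
    (h : ∀ a ∈ s, P.Val (z a) (y a)) : P.Val (∏ a ∈ s, z a) (∏ a ∈ s, y a) := by
  classical
  induction s using Finset.induction_on with
  | empty =>
    rw [Finset.prod_empty, Finset.prod_empty]
    exact P.val_one
  | insert a s ha ih =>
    rw [Finset.prod_insert ha, Finset.prod_insert ha]
    exact Place.Val.mul P (h a (Finset.mem_insert_self a s))
      (ih fun b hb => h b (Finset.mem_insert_of_mem hb))

/-- PROOF. With the scalar `∏ i, κ i`: `(∏ i, κ i) * seg X B = ∏ i, κ i * X (i, B i)` has the value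
`∏ i, x (i, B i)` (`Place.Val.mul`, induction on the finset, a product version of `Place.Val.sum`);
`seg_ne_zero`. -/
theorem redM_seg {X : Fin N × Bool → K} {x : Fin N × Bool → ℂ} (h : RedM P X x) :
    RedV P (seg X) (seg x) := by
  obtain ⟨hx, hv⟩ := h
  choose κ hκ hv using hv
  refine ⟨seg_ne_zero.2 hx, ∏ i, κ i, Finset.prod_ne_zero_iff.2 fun i _ => hκ i, fun B => ?_⟩
  have h1 : (∏ i, κ i) * seg X B = ∏ i, κ i * X (i, B i) := by
    unfold seg
    rw [Finset.prod_mul_distrib]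
  rw [h1]
  exact ga4_val_prod _ fun i _ => hv i (B i)

/-- PROOF. `aeval (fun p => κ p.1 * X p) (F k) = (∏ κ i ^ D k i) * aeval X (F k) = 0` (`mh_scale`) has the value
`eval x (F k)` (`H7CX.pl2_val_aeval`); `Place.Val.unique` with `Place.val_zero`. -/
theorem redM_XP (h : MD F D) {X : Fin N × Bool → K} (hX : KP F X) {x : Fin N × Bool → ℂ}
    (hr : RedM P X x) : x ∈ XP F := by
  obtain ⟨hx, hv⟩ := hr
  choose κ hκ hv using hv
  refine ⟨hx, fun k => ?_⟩
  have h1 := H7CX.pl2_val_aeval P (x := fun p : Fin N × Bool => κ p.1 * X p) (q := x)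
    (fun p => hv p.1 p.2) (F k)
  rw [mh_scale (h.hom k), hX.2 k, mul_zero] at h1
  exact Place.Val.unique P h1 P.val_zero

/-- CHUNK GA4. PROOF. Let `X` be a `K`-point with a coordinate factor `i` which is the combination
`(1 - s) a + s b` of complex vectors, `s` of value `z`; the reduction of this factor is proportional to
`(1 - z) a + z b` if this is not zero: apply `redV_unique` to the factor `i` with the scalar `1`
(`Place.Val.add`, `mul`, `val_alg`). -/
theorem redM_factor {X : Fin N × Bool → K} {x : Fin N × Bool → ℂ} (hr : RedM P X x) {i : Fin N}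
    {a b : Bool → ℂ} {s : K} {z : ℂ} (hs : P.Val s z)
    (hX : ∀ β, X (i, β) = (1 - s) * algebraMap ℂ K (a β) + s * algebraMap ℂ K (b β))
    (hne : (fun β => (1 - z) * a β + z * b β) ≠ 0) :
    ∃ t : ℂ, t ≠ 0 ∧ ∀ β, x (i, β) = t * ((1 - z) * a β + z * b β) := by
  have h1 : RedV P (fun β => X (i, β)) fun β => x (i, β) := by
    refine ⟨?_, hr.2 i⟩
    obtain ⟨β, hβ⟩ := hr.1 i
    intro h0
    exact hβ (congrFun h0 β)
  have h2 : RedV P (fun β => X (i, β)) fun β => (1 - z) * a β + z * b β := by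
    refine ⟨hne, 1, one_ne_zero, fun β => ?_⟩
    rw [one_mul]
    show P.Val (X (i, β)) ((1 - z) * a β + z * b β)
    rw [hX β]
    exact Place.Val.add P (Place.Val.mul P (Place.Val.sub P P.val_one hs) (P.val_alg _))
      (Place.Val.mul P hs (P.val_alg _))
  exact redV_unique h2 h1

end Pool.Agent.H10S
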