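import Mathlib
import Pool.Agent.Lib.H10S.GA3
import Pool.Agent.Lib.H10S.GA4

/-!
CHUNK GA5 (M). The specialisation principle.
-/

open MvPolynomial Finset

namespace Pool.Agent.H10S

open Pool.Agent.Bloch (RespectsG)
open Pool.Agent.H7CX (Place KK SS)

variable {N r : ℕ} {F : Fin r → MvPolynomial (Fin N × Bool) ℂ} {D : Fin r → Fin N → ℕ}
  {φ : (Fin N × Bool → ℂ) → ℂ}

theorem ga5_exch {R : Type*} [CommRing R] (x : Fin N → R) :
    ∏ i, ∏ l ∈ univ.erase i, x l = (∏ l, x l) ^ (N - 1) := by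
  have h1 : ∀ i : Fin N, ∏ l ∈ univ.erase i, x l = ∏ l, if l = i then 1 else x l := by
    intro i
    rw [← Finset.mul_prod_erase univ _ (Finset.mem_univ i), if_pos rfl, one_mul]
    exact Finset.prod_congr rfl fun l hl => (if_neg (Finset.ne_of_mem_erase hl)).symm
  rw [Finset.prod_congr rfl fun i _ => h1 i, Finset.prod_comm, ← Finset.prod_pow]
  refine Finset.prod_congr rfl fun l _ => ?_
  rw [← Finset.mul_prod_erase univ _ (Finset.mem_univ l), if_pos rfl, one_mul]
  rw [Finset.prod_congr rfl fun i hi => if_neg (Finset.ne_of_mem_erase hi).symm,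
    Finset.prod_const, Finset.card_erase_of_mem (Finset.mem_univ _), Finset.card_univ,
    Fintype.card_fin]

theorem ga5_segre {R : Type*} [CommRing R] (x : Fin N × Bool → R) (B B₀ : Fin N → Bool) :
    ∏ i, seg x (Function.update B₀ i (B i)) = seg x B * seg x B₀ ^ (N - 1) := by
  have h1 : ∀ i, seg x (Function.update B₀ i (B i)) =
      (∏ l ∈ univ.erase i, x (l, B₀ l)) * x (i, B i) := fun i => unseg_seg x B₀ (i, B i)
  rw [Finset.prod_congr rfl fun i _ => h1 i, Finset.prod_mul_distrib,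
    ga5_exch (fun l => x (l, B₀ l)), mul_comm]
  rfl

/-- PROOF. `b = f * seg X` satisfies the Segre equations:
`∏ i, f * seg X (update B₀ i (B i)) = f ^ N * (seg X B * seg X B₀ ^ (N - 1))` (same computation as in
`mem_insert_SC`: `unseg_seg`), and `unseg B₀ (f * seg X) p = ρ p.1 * X p` with
`ρ i = f * ∏ l ∈ univ.erase i, X (l, B₀ l)`, so `aeval (unseg B₀ b') (F k) = 0` (`mh_scale`), where
`b' = fun B => j (b B)`. As `j` is injective, the same equations hold for `b` in `E`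
(`aeval` commutes with `j`: `MvPolynomial.aeval_algHom_apply` or `comp_aeval_apply`), and then for `θ b`.
`mem_insert_SC`. -/
theorem ga5_mem (hN : 1 ≤ N) (h : MD F D) {X : Fin N × Bool → KK} (hX : KP F X) {E : Type}
    [CommRing E] [Algebra ℂ E] (j : E →ₐ[ℂ] KK) (hj : Function.Injective j)
    (b : (Fin N → Bool) → E) (f : KK) (hb : ∀ B, j (b B) = f * seg X B) (θ : E →ₐ[ℂ] ℂ) :
    (fun B => θ (b B)) ∈ insert 0 (SC F) := by
  rw [mem_insert_SC hN h]
  constructor
  · intro B B₀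
    have h1 : ∏ i, b (Function.update B₀ i (B i)) = b B * b B₀ ^ (N - 1) := by
      apply hj
      rw [map_prod, map_mul, map_pow, hb, hb, Finset.prod_congr rfl fun i _ => hb _,
        Finset.prod_mul_distrib, ga5_segre, Finset.prod_const, Finset.card_univ, Fintype.card_fin,
        mul_pow]
      obtain ⟨n, rfl⟩ : ∃ n, N = n + 1 := ⟨N - 1, by omega⟩
      rw [Nat.add_sub_cancel, pow_succ]
      ring
    have h2 := congrArg θ h1
    rw [map_prod, map_mul, map_pow] at h2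
    exact h2
  · intro B₀ k
    have h1 : aeval (unseg B₀ b) (F k) = 0 := by
      apply hj
      rw [map_zero, comp_aeval_apply]
      have h2 : (fun p => j (unseg B₀ b p)) = fun p : Fin N × Bool =>
          (fun i => f * ∏ l ∈ univ.erase i, X (l, B₀ l)) p.1 * X p := by
        funext p
        show j (b (Function.update B₀ p.1 p.2)) = _
        rw [hb]
        have h3 := unseg_seg X B₀ p
        unfold unseg at h3
        rw [h3, mul_assoc]
      rw [h2, mh_scale (h.hom k) (fun i => f * ∏ l ∈ univ.erase i, X (l, B₀ l)) X, hX.2 k,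
        mul_zero]
    have h4 := congrArg θ h1
    rw [map_zero, comp_aeval_apply] at h4
    exact h4

/-- CHUNK GA5 (specialisation principle). PROOF. `seg X ≠ 0` (`seg_ne_zero`). `H7CX.exists_coords (seg X)` gives
`E`, `s`, `j`, `b`, `f`. `cls_sec` gives `sec`; `H84PD.gpl` for `K = SC F` (`isClosed_SC`, `0 ∉ SC F` by
`seg_ne_zero`, `smul_SC`), `fun y => φ (sec y)`, `s`, `b`, `ga5_mem` gives `n > 0`, `Θ` with `Θ t j s = t` and
`∑ j, φ (sec (Θ 0 j b)) = ∑ j, φ (sec (Θ 1 j b))` (no point over `0` or `1` is mapped to `0` by the last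
property of `exists_coords`). Claim: for `z = 0, 1`, `θ = Θ z j`, `y = (θ (b B))_B`: `φ (sec y) = A z`. Indeed
`y ≠ 0`, so `y ∈ SC F`. `H7CX.exists_place` gives a place `P` with `P.Val (j z') (θ z')` for all `z' : E`; so
`P.Val SS z` (`j s = SS`), and `P.Val (f * seg X B) (y B)`, `RedV P (seg X) y`. `exists_redM`: a reduction `x` of
`X`, `φ x = A z` by `hA`, `x ∈ XP F` (`redM_XP`), `RedV P (seg X) (seg x)` (`redM_seg`). `redV_unique`:
`y = t • seg x`, `seg (sec y) = y`: `φ (sec y) = φ x` (`cls_scale`). Hence `n * A 0 = n * A 1`. Compare the end of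
`H7CX.const0` (Lib/H7CX/C0.lean). -/
theorem spec (hN : 1 ≤ N) (h : MD F D) (hφ : Cls F φ) {X : Fin N × Bool → KK} (hX : KP F X)
    (A : ℂ → ℂ) (hA : ∀ z : ℂ, z = 0 ∨ z = 1 → ∀ P : Place KK, P.Val SS z →
      ∀ x : Fin N × Bool → ℂ, RedM P X x → φ x = A z) : A 0 = A 1 := by
  obtain ⟨E, iR, iD, iA, s, j, b, f, hf, hfin, hinj, hjinj, hjs, hjb, hθ⟩ :=
    H7CX.exists_coords (seg X) (seg_ne_zero.2 hX.1)
  obtain ⟨sec, hsec, hresp⟩ := cls_sec hφ
  have hne : ∀ θ : E →ₐ[ℂ] ℂ, (θ s = 0 ∨ θ s = 1) → (fun i => θ (b i)) ≠ 0 := by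
    intro θ h0 h1
    obtain ⟨i, hi⟩ := hθ θ h0
    exact hi (congrFun h1 i)
  have h00 : (0 : (Fin N → Bool) → ℂ) ∉ SC F := by
    rintro ⟨x, hx, h0⟩
    exact seg_ne_zero.2 hx.1 h0.symm
  have hK : ∀ c' : ℂ, c' ≠ 0 → ∀ v ∈ SC F, c' • v ∈ SC F := fun c' hc v hv =>
    smul_SC hN h hc hv
  obtain ⟨n, Θ, hn, hΘ, -, hsum⟩ := H84PD.gpl (SC F) (isClosed_SC hN h) h00 hK hresp s hfin
    hinj b (fun θ => ga5_mem hN h hX j hjinj b f hjb θ)
  have claim : ∀ (z : ℂ), (z = 0 ∨ z = 1) → ∀ θ : E →ₐ[ℂ] ℂ, θ s = z →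
      φ (sec fun i => θ (b i)) = A z := by
    intro z hz θ hθz
    obtain ⟨P, hP⟩ := H7CX.exists_place j hjinj s hjs θ
    have hzs : θ s = 0 ∨ θ s = 1 := by rw [hθz]; exact hz
    have hSS : P.Val SS z := by
      rw [← hjs, ← hθz]
      exact hP s
    have hy : (fun i => θ (b i)) ∈ SC F := by
      rcases ga5_mem hN h hX j hjinj b f hjb θ with h0 | h1
      · exact absurd h0 (hne θ hzs)
      · exact h1
    have hred : RedV P (seg X) fun i => θ (b i) := by
      refine ⟨hne θ hzs, f, hf, fun B => ?_⟩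
      rw [← hjb B]
      exact hP _
    obtain ⟨x, hx⟩ := exists_redM (P := P) hX.1
    have hxX := redM_XP h hX hx
    obtain ⟨t, ht, htx⟩ := redV_unique (redM_seg hx) hred
    rw [← hA z hz P hSS x hx]
    refine cls_scale hφ hxX (hsec _ hy).1 ht fun B => ?_
    rw [(hsec _ hy).2]
    exact htx B
  have h2 := hsum 0 1 (fun θ h => hne θ (Or.inl h)) (fun θ h => hne θ (Or.inr h))
  rw [Finset.sum_congr rfl fun j' _ => claim 0 (Or.inl rfl) _ (hΘ 0 j'),
    Finset.sum_congr rfl fun j' _ => claim 1 (Or.inr rfl) _ (hΘ 1 j'),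
    Finset.sum_const, Finset.sum_const, Finset.card_univ, Fintype.card_fin] at h2
  have hn' : (n : ℂ) ≠ 0 := Nat.cast_ne_zero.2 hn.ne'
  rw [nsmul_eq_mul, nsmul_eq_mul] at h2
  exact mul_left_cancel₀ hn' h2

end Pool.Agent.H10S
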