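import Mathlib
import Pool.Agent.Lib.H10S.Core

/-!
CHUNK GA6 (S). Places over the points of the line.
-/

open Finset

namespace Pool.Agent.H10S

open Pool.Agent.H7CX (Place KK SS)

/-- CHUNK GA6. PROOF. `H7CX.exists_place` (Lib/H7CX/KX1.lean) for `E = Polynomial ℂ`, `j = Polynomial.aeval SS`
(injective: `j p = algebraMap (Polynomial ℂ) KK p`, see `H7CX.kx1_algebraMap_X`, `kx1_algebraMap_C`, the
composition of the injective maps `Polynomial ℂ → RatFunc ℂ → KK`), `s = Polynomial.X` and
`θ = Polynomial.aeval z : Polynomial ℂ →ₐ[ℂ] ℂ`, at the element `Polynomial.X`. -/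
theorem exists_place_over (z : ℂ) : ∃ P : Place KK, P.Val SS z := by
  have hj : Function.Injective ((Polynomial.aeval SS : Polynomial ℂ →ₐ[ℂ] KK)) := by
    have h1 : ∀ p : Polynomial ℂ, Polynomial.aeval SS p = algebraMap (Polynomial ℂ) KK p := by
      intro p
      have h2 : (Polynomial.aeval SS : Polynomial ℂ →ₐ[ℂ] KK) =
          IsScalarTower.toAlgHom ℂ (Polynomial ℂ) KK := by
        apply Polynomial.algHom_ext
        rw [Polynomial.aeval_X, IsScalarTower.coe_toAlgHom']
        exact H7CX.kx1_algebraMap_X.symm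
      rw [h2]
      rfl
    intro p p' h
    rw [h1, h1] at h
    rw [IsScalarTower.algebraMap_apply (Polynomial ℂ) (RatFunc ℂ) KK,
      IsScalarTower.algebraMap_apply (Polynomial ℂ) (RatFunc ℂ) KK] at h
    exact RatFunc.algebraMap_injective ℂ ((algebraMap (RatFunc ℂ) KK).injective h)
  obtain ⟨P, hP⟩ := H7CX.exists_place (Polynomial.aeval SS : Polynomial ℂ →ₐ[ℂ] KK) hj
    Polynomial.X (Polynomial.aeval_X SS) (Polynomial.aeval z : Polynomial ℂ →ₐ[ℂ] ℂ)
  refine ⟨P, ?_⟩
  have h1 := hP Polynomial.X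
  rwa [Polynomial.aeval_X, Polynomial.aeval_X] at h1

/-- PROOF. `Place.val_zero`, `Place.Val.unique`. -/
theorem ne_of_val {K : Type*} [Field K] [Algebra ℂ K] {P : Place K} {w : K} {y : ℂ}
    (h : P.Val w y) (hy : y ≠ 0) : w ≠ 0 := by
  rintro rfl
  exact hy (Place.Val.unique P h P.val_zero)

/-- PROOF. Products. -/
theorem val_prod {K : Type*} [Field K] [Algebra ℂ K] {P : Place K} {α : Type*} (s : Finset α)
    {z : α → K} {y : α → ℂ} (h : ∀ a ∈ s, P.Val (z a) (y a)) : P.Val (∏ a ∈ s, z a) (∏ a ∈ s, y a) := by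
  classical
  induction s using Finset.induction_on with
  | empty =>
    rw [Finset.prod_empty, Finset.prod_empty]
    exact P.val_one
  | insert a s ha ih =>
    rw [Finset.prod_insert ha, Finset.prod_insert ha]
    exact Place.Val.mul P (h a (Finset.mem_insert_self a s))
      (ih fun b hb => h b (Finset.mem_insert_of_mem hb))

end Pool.Agent.H10S
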