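import Mathlib
import Pool.Agent.Lib.H10S.FF3

/-!
CHUNK LF1 (M). Every nonzero vector of coefficients comes from a point.
-/

open Finset

namespace Pool.Agent.H10S

variable {N : ℕ}

/-- A binary form as a product of linear forms.
PROOF. Induction on `M ≥ 1` for all nonzero `p` with `p.natDegree ≤ M`. If `p.natDegree < M`: if `M = 1` then `p = C a`,
`u = a`, `v = 0`; otherwise apply the induction hypothesis to `p` and `M - 1` and add the factor `(1, 0)`. If
`p.natDegree = M ≥ 1` let `c` be a root, `p = (X - C c) * p'`: if `M = 1`, `p' = C a`, take `(-c a, a)`; otherwise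
the induction hypothesis for `p'` and add `(-c, 1)`. -/
theorem lf1_split {K : Type*} [Field K] [IsAlgClosed K] (M : ℕ) (hM : 1 ≤ M) (p : Polynomial K)
    (hp : p ≠ 0) (hd : p.natDegree ≤ M) :
    ∃ u v : Fin M → K, (∀ l, u l ≠ 0 ∨ v l ≠ 0) ∧
      ∏ l, (Polynomial.C (u l) + Polynomial.C (v l) * Polynomial.X) = p := by
  induction M, hM using Nat.le_induction generalizing p with
  | base =>
    obtain ⟨a, b, hab⟩ := Polynomial.exists_eq_X_add_C_of_natDegree_le_one hd
    refine ⟨fun _ => b, fun _ => a, fun _ => ?_, ?_⟩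
    · by_contra hcon
      push Not at hcon
      apply hp
      rw [hab, hcon.1, hcon.2]
      simp
    · rw [Fin.prod_univ_one, hab]
      ring
  | succ M hM ih =>
    by_cases hlt : p.natDegree ≤ M
    · obtain ⟨u, v, huv, hprod⟩ := ih p hp hlt
      refine ⟨Fin.cons 1 u, Fin.cons 0 v, fun l => ?_, ?_⟩
      · refine Fin.cases ?_ (fun l => ?_) l
        · left
          rw [Fin.cons_zero]
          exact one_ne_zero
        · rw [Fin.cons_succ, Fin.cons_succ]
          exact huv l
      · rw [Fin.prod_univ_succ]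
        simp only [Fin.cons_zero, Fin.cons_succ]
        rw [hprod]
        simp
    · have hdeg : p.natDegree = M + 1 := by omega
      have hdeg' : p.degree ≠ 0 := by
        rw [Polynomial.degree_eq_natDegree hp, hdeg]
        exact_mod_cast Nat.succ_ne_zero M
      obtain ⟨c, hc⟩ := IsAlgClosed.exists_root p hdeg'
      obtain ⟨p', hp'⟩ := Polynomial.dvd_iff_isRoot.2 hc
      have hp'0 : p' ≠ 0 := by
        rintro rfl
        rw [mul_zero] at hp'
        exact hp hp'
      have hd' : p'.natDegree ≤ M := by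
        have h1 : p.natDegree = (Polynomial.X - Polynomial.C c).natDegree + p'.natDegree := by
          rw [hp']
          exact Polynomial.natDegree_mul (Polynomial.X_sub_C_ne_zero c) hp'0
        rw [Polynomial.natDegree_X_sub_C, hdeg] at h1
        omega
      obtain ⟨u, v, huv, hprod⟩ := ih p' hp'0 hd'
      refine ⟨Fin.cons (-c) u, Fin.cons 1 v, fun l => ?_, ?_⟩
      · refine Fin.cases ?_ (fun l => ?_) l
        · right
          rw [Fin.cons_zero]
          exact one_ne_zero
        · rw [Fin.cons_succ, Fin.cons_succ]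
          exact huv l
      · rw [Fin.prod_univ_succ]
        simp only [Fin.cons_zero, Fin.cons_succ]
        rw [hprod, hp', Polynomial.C_neg, Polynomial.C_1]
        ring

/-- CHUNK LF1. PROOF. Let `p = ∑ m, C (e m) * X ^ m ≠ 0`, `natDegree ≤ B.card`, `B.card ≥ 1`; `lf1_split` gives `u`, `v` on
`Fin B.card`, transported to `B` by `B.equivFin` (or `B.orderIsoOfFin`). Let `s`, `t` be `q`-th roots of them
(`IsAlgClosed.exists_pow_nat_eq`), `x (i, false) = s`, `x (i, true) = t` for `i ∈ B` and `x = y` off `B`. `linprod` in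
`Polynomial K` for the point with coordinates `C (x p)`, `α = 1`, `β = X`, and `map_cf`:
`p = ∑ m, X ^ m * C (cf B q x m)`; compare the coefficients (`Polynomial.finsetSum_coeff`, `coeff_X_pow`). -/
theorem exists_cf {K : Type*} [Field K] [IsAlgClosed K] {B : Finset (Fin N)} (hB : B.Nonempty)
    {q : ℕ} (hq : 1 ≤ q) {e : Fin (B.card + 1) → K} (he : e ≠ 0) (y : Fin N × Bool → K) :
    ∃ x : Fin N × Bool → K, (∀ i, i ∉ B → ∀ β, x (i, β) = y (i, β)) ∧
      (∀ i ∈ B, ∃ β, x (i, β) ≠ 0) ∧ ∀ m, cf B q x m = e m := by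
  classical
  set p : Polynomial K := ∑ m : Fin (B.card + 1), Polynomial.C (e m) * Polynomial.X ^ (m : ℕ)
    with hpdef
  have hcoeff : ∀ f : Fin (B.card + 1) → K, ∀ m : Fin (B.card + 1),
      (∑ m : Fin (B.card + 1), Polynomial.C (f m) * Polynomial.X ^ (m : ℕ)).coeff m = f m := by
    intro f m
    rw [Polynomial.finsetSum_coeff, Finset.sum_eq_single m]
    · simp
    · intro m' _ hm'
      rw [Polynomial.coeff_C_mul, Polynomial.coeff_X_pow, if_neg, mul_zero]
      exact fun h => hm' (Fin.ext h.symm)
    · intro h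
      exact absurd (Finset.mem_univ m) h
  have hp0 : p ≠ 0 := by
    intro h
    apply he
    funext m
    have h1 := hcoeff e m
    rw [← hpdef, h, Polynomial.coeff_zero] at h1
    exact h1.symm
  have hdeg : p.natDegree ≤ B.card := by
    rw [hpdef]
    refine Polynomial.natDegree_sum_le_of_forall_le _ _ fun m _ => ?_
    refine (Polynomial.natDegree_C_mul_X_pow_le _ _).trans ?_
    have := m.2
    omega
  obtain ⟨u, v, huv, hprod⟩ := lf1_split B.card (Finset.card_pos.2 hB) p hp0 hdeg
  have hroot : ∀ a : K, ∃ s : K, s ^ q = a := fun a =>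
    IsAlgClosed.exists_pow_nat_eq a (by omega)
  choose rt hrt using hroot
  let x : Fin N × Bool → K := fun z =>
    if h : z.1 ∈ B then (if z.2 then rt (v (B.equivFin ⟨z.1, h⟩)) else
      rt (u (B.equivFin ⟨z.1, h⟩))) else y z
  have hxf : ∀ (i : Fin N) (h : i ∈ B), x (i, false) ^ q = u (B.equivFin ⟨i, h⟩) := by
    intro i h
    show (if h : i ∈ B then (if false = true then rt (v (B.equivFin ⟨i, h⟩)) else
      rt (u (B.equivFin ⟨i, h⟩))) else y (i, false)) ^ q = _
    rw [dif_pos h, if_neg Bool.false_ne_true, hrt]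
  have hxt : ∀ (i : Fin N) (h : i ∈ B), x (i, true) ^ q = v (B.equivFin ⟨i, h⟩) := by
    intro i h
    show (if h : i ∈ B then (if true = true then rt (v (B.equivFin ⟨i, h⟩)) else
      rt (u (B.equivFin ⟨i, h⟩))) else y (i, true)) ^ q = _
    rw [dif_pos h, if_pos rfl, hrt]
  refine ⟨x, ?_, ?_, ?_⟩
  · intro i hi β
    exact dif_neg hi
  · intro i hi
    rcases huv (B.equivFin ⟨i, hi⟩) with h | h
    · refine ⟨false, fun h0 => h ?_⟩
      rw [← hxf i hi, h0]
      exact zero_pow (by omega)
    · refine ⟨true, fun h0 => h ?_⟩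
      rw [← hxt i hi, h0]
      exact zero_pow (by omega)
  · have h1 := linprod B q (fun z => Polynomial.C (x z)) (1 : Polynomial K) Polynomial.X
    have h2 : ∏ l ∈ B, ((1 : Polynomial K) * Polynomial.C (x (l, false)) ^ q +
        Polynomial.X * Polynomial.C (x (l, true)) ^ q) = p := by
      rw [← hprod, ← Finset.prod_coe_sort B]
      refine Fintype.prod_equiv B.equivFin _ _ fun l => ?_
      obtain ⟨l, hl⟩ := l
      show (1 : Polynomial K) * Polynomial.C (x (l, false)) ^ q +
        Polynomial.X * Polynomial.C (x (l, true)) ^ q = _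
      rw [← Polynomial.C_pow, ← Polynomial.C_pow, hxf l hl, hxt l hl, one_mul, mul_comm]
    have h3 : p = ∑ m : Fin (B.card + 1), Polynomial.C (cf B q x m) * Polynomial.X ^ (m : ℕ) := by
      rw [← h2, h1]
      refine Finset.sum_congr rfl fun m _ => ?_
      rw [one_pow, one_mul, mul_comm, map_cf Polynomial.C B q x m]
    intro m
    have h4 := hcoeff (cf B q x) m
    rw [← h3, hpdef, hcoeff e m] at h4
    exact h4.symm

end Pool.Agent.H10S
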