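import Mathlib
import Pool.Agent.Lib.H10S.FF3
import Pool.Agent.Lib.H10S.GA4

/-!
CHUNK LF4 (S/M). The coefficients of a reduction.
-/

open Finset MvPolynomial

namespace Pool.Agent.H10S

open Pool.Agent.H7CX (Place)

variable {N : ℕ}

/-- PROOF. If all `cf B q x m = 0` then by `linprod` (`β = 1`) `∏ l ∈ B, (α * x (l, false) ^ q + x (l, true) ^ q) = 0` for all
`α : K`; every factor has at most one zero `α` if `x (l, false) ≠ 0`, and none if `x (l, false) = 0` (then
`x (l, true) ≠ 0`); `K` is infinite: choose `α` outside of the finite set of the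
`- x (l, true) ^ q / x (l, false) ^ q` (`Set.Finite.exists_notMem` or `Infinite.exists_notMem_finset`). -/
theorem cf_ne_zero {K : Type*} [Field K] [Infinite K] {B : Finset (Fin N)} {q : ℕ} (hq : 1 ≤ q)
    {x : Fin N × Bool → K} (hx : ∀ i ∈ B, ∃ β, x (i, β) ≠ 0) : cf B q x ≠ 0 := by
  classical
  intro h0
  obtain ⟨α, hα⟩ := Infinite.exists_notMem_finset
    (B.image fun l => - x (l, true) ^ q / x (l, false) ^ q)
  have h1 := linprod B q x α 1
  rw [h0] at h1
  simp only [Pi.zero_apply, mul_zero, Finset.sum_const_zero] at h1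
  obtain ⟨l, hl, hl0⟩ := Finset.prod_eq_zero_iff.1 h1
  by_cases hs : x (l, false) = 0
  · rw [hs, zero_pow (by omega), mul_zero, zero_add, one_mul] at hl0
    have ht := (pow_eq_zero_iff (by omega)).1 hl0
    obtain ⟨β, hβ⟩ := hx l hl
    cases β
    · exact hβ hs
    · exact hβ ht
  · apply hα
    rw [Finset.mem_image]
    refine ⟨l, hl, ?_⟩
    rw [div_eq_iff (pow_ne_zero _ hs)]
    linear_combination -hl0

theorem lf4_redV_scale {K : Type*} [Field K] [Algebra ℂ K] {P : Place K} {B : Finset (Fin N)}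
    {q : ℕ} {Y : Fin N × Bool → K} {x : Fin N × Bool → ℂ} (hv : ∀ i β, P.Val (Y (i, β)) (x (i, β)))
    (m : Fin (B.card + 1)) : P.Val (cf B q Y m) (cf B q x m) := by
  unfold cf
  refine Place.Val.sum P _ fun J _ => ?_
  exact Place.Val.mul P (ga4_val_prod _ fun i _ => Place.Val.pow P (hv i true) q)
    (ga4_val_prod _ fun i _ => Place.Val.pow P (hv i false) q)

/-- PROOF. `cf B q (fun p => κ p.1 * X p) m` (all coordinates finite) has the value `cf B q x m` (sums, products and
powers: `Place.Val.sum`, `mul`, `pow`; or write `cf` as the value of a polynomial and use `H7CX.pl2_val_aeval`), and it is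
`(∏ i ∈ B, κ i ^ q) * cf B q X m` (`cf_scale`). Not zero: `cf_ne_zero`. -/
theorem redM_cf {K : Type*} [Field K] [Algebra ℂ K] {P : Place K} {B : Finset (Fin N)} {q : ℕ}
    (hq : 1 ≤ q) {X : Fin N × Bool → K} {x : Fin N × Bool → ℂ} (h : RedM P X x) :
    RedV P (cf B q X) (cf B q x) := by
  obtain ⟨hx, hv⟩ := h
  choose κ hκ hv using hv
  refine ⟨cf_ne_zero hq fun i _ => hx i, ∏ i ∈ B, κ i ^ q,
    Finset.prod_ne_zero_iff.2 fun i _ => pow_ne_zero _ (hκ i), fun m => ?_⟩
  rw [← cf_scale]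
  exact lf4_redV_scale (Y := fun p => κ p.1 * X p) (fun i β => hv i β) m

/-- CHUNK LF4. PROOF. `redM_cf` and `redV_unique` with the reduction `v` of `cf B q X` with the scalar `κ`. -/
theorem redM_cf_eq {K : Type*} [Field K] [Algebra ℂ K] {P : Place K} {B : Finset (Fin N)} {q : ℕ}
    (hq : 1 ≤ q) {X : Fin N × Bool → K} {x : Fin N × Bool → ℂ} (h : RedM P X x)
    {v : Fin (B.card + 1) → ℂ} (hv : RedV P (cf B q X) v) :
    ∃ t : ℂ, t ≠ 0 ∧ ∀ m, cf B q x m = t * v m :=
  redV_unique hv (redM_cf hq h)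

end Pool.Agent.H10S
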