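import Mathlib
import Pool.Agent.Lib.H10S.GA3
import Pool.Agent.Lib.H10S.LF3
import Pool.Agent.Lib.H10S.FF5

/-!
CHUNK LF5 (M). Class functions on the quotient by the group of a block.
-/

open Finset MvPolynomial

namespace Pool.Agent.H10S

variable {N r d : ℕ} [NeZero d] {F : Fin r → MvPolynomial (Fin N × Bool) ℂ}
  {D : Fin r → Fin N → ℕ} {B : Finset (Fin N)} {q : ℕ} {e : Fin r → ℕ}
  {φ : (Fin N × Bool → ℂ) → ℂ}

/-- PROOF. `Blk.inv`; the image is a point: at the factor `i` use the factor `ψ.2.symm i` of `x`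
(`Bloch.e_ne_zero`). -/
theorem mact_XP (hB : Blk F D d B q e) {ψ : (Fin N → ZMod d) × Equiv.Perm (Fin N)}
    (hψ : InB B q ψ) {x : Fin N × Bool → ℂ} (hx : x ∈ XP F) : mact ψ x ∈ XP F := by
  refine ⟨fun i => ?_, fun k => ?_⟩
  · obtain ⟨β, hβ⟩ := hx.1 (ψ.2.symm i)
    refine ⟨β, ?_⟩
    show (if β then ZMod.stdAddChar (ψ.1 i) else 1) * x (ψ.2.symm i, β) ≠ 0
    refine mul_ne_zero ?_ hβ
    split_ifs
    · exact Bloch.e_ne_zero _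
    · exact one_ne_zero
  · rw [hB.inv k ψ hψ x]
    exact hx.2 k

/-- PROOF. `fib` gives `ψ` and the scalars on `B`; off `B` `mact ψ x (i, β) = x (i, β)` (`ψ.1 i = 0`,
`ψ.2.symm i = i` for `i ∉ B`), so the scalars `t` of `hoff` do. -/
theorem exists_orbit (hB : Blk F D d B q e) {x x' : Fin N × Bool → ℂ} (hx : x ∈ XP F)
    (hx' : x' ∈ XP F) (hcf : ∃ t : ℂ, t ≠ 0 ∧ ∀ m, cf B q x' m = t * cf B q x m)
    (hoff : ∀ i, i ∉ B → ∃ t : ℂ, t ≠ 0 ∧ ∀ β, x' (i, β) = t * x (i, β)) :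
    ∃ (ψ : (Fin N → ZMod d) × Equiv.Perm (Fin N)) (ρ : Fin N → ℂ), InB B q ψ ∧ (∀ i, ρ i ≠ 0) ∧
      x' = fun p : Fin N × Bool => ρ p.1 * mact ψ x p := by
  classical
  obtain ⟨t, ht, hcf⟩ := hcf
  obtain ⟨ψ, hψ, h1⟩ := fib (d := d) hB.dvd (fun i _ => hx.1 i) (fun i _ => hx'.1 i) ht hcf
  have h2 : ∀ i, ∃ ρ : ℂ, ρ ≠ 0 ∧ ∀ β, x' (i, β) = ρ * mact ψ x (i, β) := by
    intro i
    by_cases hi : i ∈ B
    · exact h1 i hi
    · obtain ⟨s, hs, h3⟩ := hoff i hi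
      obtain ⟨h4, h5⟩ := hψ.2 i hi
      refine ⟨s, hs, fun β => ?_⟩
      rw [h3 β]
      congr 1
      show x (i, β) = (if β then ZMod.stdAddChar (ψ.1 i) else 1) * x (ψ.2.symm i, β)
      have h6 : ψ.2.symm i = i := by rw [Equiv.symm_apply_eq, h5]
      rw [h4, h6, AddChar.map_zero_eq_one, ite_self, one_mul]
  choose ρ hρ h3 using h2
  exact ⟨ψ, ρ, hψ, hρ, funext fun p => h3 p.1 p.2⟩

/-- CHUNK LF5. PROOF. `exists_orbit`, `cls_rho` (for the point `mact ψ x`, `mact_XP`) and the invariance. -/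
theorem cls_same (hB : Blk F D d B q e) (hφ : Cls F φ)
    (hinv : ∀ ψ : (Fin N → ZMod d) × Equiv.Perm (Fin N), InB B q ψ → ∀ x ∈ XP F,
      φ (mact ψ x) = φ x) {x x' : Fin N × Bool → ℂ} (hx : x ∈ XP F)
    (hx' : x' ∈ XP F) (hcf : ∃ t : ℂ, t ≠ 0 ∧ ∀ m, cf B q x' m = t * cf B q x m)
    (hoff : ∀ i, i ∉ B → ∃ t : ℂ, t ≠ 0 ∧ ∀ β, x' (i, β) = t * x (i, β)) : φ x' = φ x := by
  obtain ⟨ψ, ρ, hψ, hρ, rfl⟩ := exists_orbit hB hx hx' hcf hoff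
  rw [cls_rho hB.md hφ (mact_XP hB hψ hx) hρ]
  exact hinv ψ hψ x hx

end Pool.Agent.H10S
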