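import Mathlib
import Pool.Agent.Lib.H10S.GA5
import Pool.Agent.Lib.H10S.LF1
import Pool.Agent.Lib.H10S.LF4
import Pool.Agent.Lib.H10S.LF5
import Pool.Agent.Lib.H10S.EQ1
import Pool.Agent.Lib.H10S.GA6

/-!
CHUNK GL1 (M). Points of the quotient over the field `KK`; lines.
-/

open MvPolynomial Finset

namespace Pool.Agent.H10S

open Pool.Agent.H7CX (Place KK SS)

variable {N r d : ℕ} [NeZero d] {F : Fin r → MvPolynomial (Fin N × Bool) ℂ}
  {D : Fin r → Fin N → ℕ} {B : Finset (Fin N)} {q : ℕ} {e : Fin r → ℕ}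
  {G : Fin r → MvPolynomial (Fin (B.card + 1) ⊕ (Fin N × Bool)) ℂ} {φ : (Fin N × Bool → ℂ) → ℂ}

/-- PROOF. `exists_cf` for `K = KK` (`hB.ne`, `blk_q_pos`), and `GB.eq` (the point agrees with `y` off `B`):
`aeval X (F k) = aeval (Sum.elim (cf B q X) y) (G k) = 0` (`funext` for `cf B q X = u`). -/
theorem exists_KP (hB : Blk F D d B q e) (hG : GB F B q e G) {u : Fin (B.card + 1) → KK}
    (hu : u ≠ 0) {y : Fin N × Bool → KK} (hy : ∀ i, i ∉ B → ∃ β, y (i, β) ≠ 0)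
    (h0 : ∀ k, aeval (Sum.elim u y) (G k) = 0) :
    ∃ X : Fin N × Bool → KK, KP F X ∧ (∀ i, i ∉ B → ∀ β, X (i, β) = y (i, β)) ∧
      ∀ m, cf B q X m = u m := by
  obtain ⟨X, h1, h2, h3⟩ := exists_cf (K := KK) hB.ne (blk_q_pos hB) hu y
  refine ⟨X, ⟨fun i => ?_, fun k => ?_⟩, h1, h3⟩
  · by_cases hi : i ∈ B
    · exact h2 i hi
    · obtain ⟨β, hβ⟩ := hy i hi
      exact ⟨β, by rw [h1 i hi β]; exact hβ⟩
  · have h4 := hG.eq KK X y (fun i hi β => (h1 i hi β).symm) k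
    rw [show cf B q X = u from funext h3, h0 k] at h4
    exact h4.symm

theorem gl1_val {P : Place KK} {z : ℂ} (hP : P.Val SS z) (a b : ℂ) :
    P.Val ((1 - SS) * algebraMap ℂ KK a + SS * algebraMap ℂ KK b) ((1 - z) * a + z * b) :=
  Place.Val.add P (Place.Val.mul P (Place.Val.sub P P.val_one hP) (P.val_alg a))
    (Place.Val.mul P hP (P.val_alg b))

theorem gl1_pt_ne {x₀ : Fin N × Bool → ℂ} (h : IsPoint x₀) (i : Fin N) :
    ∃ β, algebraMap ℂ KK (x₀ (i, β)) ≠ 0 := by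
  obtain ⟨β, hβ⟩ := h i
  exact ⟨β, (map_ne_zero_iff _ (algebraMap ℂ KK).injective).2 hβ⟩

/-- CHUNK GL1. PROOF. Let `u m = (1 - SS) * algebraMap (cf B q x₀ m) + SS * algebraMap (v m) : KK` and
`y p = algebraMap (x₀ p)`. `u ≠ 0`: at a place with `SS ↦ 0` (`exists_place_over`) the value of `u m` is
`cf B q x₀ m`, not zero for some `m` (`cf_ne_zero`, `ne_of_val`). By `line_lift` (with `R = KK`, `hline`) `aeval (Sum.elim u y) (G k) = 0`.
`exists_KP`: a `KK`-point `X` of `X`. `spec` for `X` and `A z = if z = 0 then φ x₀ else φ x` : at a place `P` over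
`z = 0` and a reduction `w` of `X` (`w ∈ XP F`, `redM_XP`): `RedV P (cf B q X) (cf B q x₀)` with the scalar `1`
(`Place.Val.add`, ...), `redM_cf_eq`: `cf B q w` is proportional to `cf B q x₀`; off `B` `redM_factor` with `a = b = x₀ (i, .)`.
`cls_same`: `φ w = φ x₀`. Over `z = 1`: `cf B q w` is proportional to `v`, hence to `cf B q x`, and off `B` `w` is
proportional to `x₀`, hence to `x`: `φ w = φ x`. -/
theorem line_const (hN : 1 ≤ N) (hB : Blk F D d B q e) (hG : GB F B q e G) (hφ : Cls F φ)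
    (hinv : ∀ ψ : (Fin N → ZMod d) × Equiv.Perm (Fin N), InB B q ψ → ∀ x ∈ XP F,
      φ (mact ψ x) = φ x) {x₀ : Fin N × Bool → ℂ} (hx₀ : x₀ ∈ XP F)
    {v : Fin (B.card + 1) → ℂ} (hv : v ≠ 0)
    (hline : ∀ (k : Fin r) (lam τ : ℂ),
      aeval (Sum.elim (fun m => lam * cf B q x₀ m + τ * v m) x₀) (G k) = 0)
    {x : Fin N × Bool → ℂ} (hx : x ∈ XP F) (hxc : ∃ t : ℂ, t ≠ 0 ∧ ∀ m, cf B q x m = t * v m)
    (hxo : ∀ i, i ∉ B → ∃ t : ℂ, t ≠ 0 ∧ ∀ β, x (i, β) = t * x₀ (i, β)) : φ x = φ x₀ := by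
  have hq := blk_q_pos hB
  have hcf0 : cf B q x₀ ≠ 0 := cf_ne_zero hq fun i _ => hx₀.1 i
  obtain ⟨P0, hP0⟩ := exists_place_over 0
  have hu : (fun m => (1 - SS) * algebraMap ℂ KK (cf B q x₀ m) + SS * algebraMap ℂ KK (v m)) ≠ 0 := by
    obtain ⟨m, hm⟩ := Function.ne_iff.1 hcf0
    intro h
    have h1 := gl1_val hP0 (cf B q x₀ m) (v m)
    refine ne_of_val h1 ?_ (congrFun h m)
    rw [sub_zero, one_mul, zero_mul, add_zero]
    exact hm
  have hl : ∀ k, aeval (Sum.elim (fun m => (1 - SS) * algebraMap ℂ KK (cf B q x₀ m) + SS * algebraMap ℂ KK (v m))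
      (fun p => algebraMap ℂ KK (x₀ p))) (G k) = 0 := fun k => line_lift (hline k) (1 - SS) SS
  obtain ⟨X, hX, hXo, hXc⟩ := exists_KP hB hG hu (fun i _ => gl1_pt_ne hx₀.1 i) hl
  have key := spec hN hB.md hφ hX (fun z => if z = 0 then φ x₀ else φ x) ?_
  · simp only [if_true, one_ne_zero, if_false] at key
    exact key.symm
  · intro z hz P hP w hw
    have hwX : w ∈ XP F := redM_XP hB.md hX hw
    have hoff : ∀ i, i ∉ B → ∃ t : ℂ, t ≠ 0 ∧ ∀ β, w (i, β) = t * x₀ (i, β) := by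
      intro i hi
      have e1 : ∀ β, (1 - z) * x₀ (i, β) + z * x₀ (i, β) = x₀ (i, β) := fun β => by ring
      obtain ⟨t, ht, h⟩ := redM_factor hw (a := fun β => x₀ (i, β)) (b := fun β => x₀ (i, β)) hP
        (fun β => by rw [hXo i hi]; ring) (by
          obtain ⟨β, hβ⟩ := hx₀.1 i
          intro h0
          have h1 := congrFun h0 β
          simp only [e1] at h1
          exact hβ h1)
      exact ⟨t, ht, fun β => by rw [h β]; simp only [e1]⟩
    rcases hz with rfl | rfl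
    · have h1 : RedV P (cf B q X) (cf B q x₀) := by
        refine ⟨hcf0, 1, one_ne_zero, fun m => ?_⟩
        rw [one_mul, hXc]
        have h2 := gl1_val hP (cf B q x₀ m) (v m)
        rw [sub_zero, one_mul, zero_mul, add_zero] at h2
        exact h2
      obtain ⟨t, ht, h2⟩ := redM_cf_eq hq hw h1
      show φ w = if (0 : ℂ) = 0 then φ x₀ else φ x
      rw [if_pos rfl]
      exact cls_same hB hφ hinv hx₀ hwX ⟨t, ht, h2⟩ hoff
    · have h1 : RedV P (cf B q X) v := by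
        refine ⟨hv, 1, one_ne_zero, fun m => ?_⟩
        rw [one_mul, hXc]
        have h2 := gl1_val hP (cf B q x₀ m) (v m)
        rw [sub_self, zero_mul, zero_add, one_mul] at h2
        exact h2
      obtain ⟨t, ht, h2⟩ := redM_cf_eq hq hw h1
      obtain ⟨t', ht', h3⟩ := hxc
      show φ w = if (1 : ℂ) = 0 then φ x₀ else φ x
      rw [if_neg one_ne_zero]
      refine cls_same hB hφ hinv hx hwX ⟨t / t', div_ne_zero ht ht', fun m => ?_⟩ fun i hi => ?_
      · rw [h2, h3]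
        field_simp
      · obtain ⟨a, ha, h4⟩ := hoff i hi
        obtain ⟨b, hb, h5⟩ := hxo i hi
        refine ⟨a / b, div_ne_zero ha hb, fun β => ?_⟩
        rw [h4, h5]
        field_simp

end Pool.Agent.H10S
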