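import Mathlib
import Pool.Agent.Lib.H10S.GL1

/-!
CHUNK GL2 (M). Class functions invariant under the group of a large block are constant.
-/

open MvPolynomial Finset

namespace Pool.Agent.H10S

open Pool.Agent.H7CX (Place KK SS)

variable {N r d : ℕ} [NeZero d] {F : Fin r → MvPolynomial (Fin N × Bool) ℂ}
  {D : Fin r → Fin N → ℕ} {B : Finset (Fin N)} {q : ℕ} {e : Fin r → ℕ}
  {G : Fin r → MvPolynomial (Fin (B.card + 1) ⊕ (Fin N × Bool)) ℂ} {φ : (Fin N × Bool → ℂ) → ℂ}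

theorem gl2_ev {σ : Type*} (x : σ → ℂ) (p : MvPolynomial σ ℂ) : aeval x p = eval x p := by
  rw [← MvPolynomial.coe_aeval_eq_eval]
  rfl

/-- The point of the quotient over `KK` and its reductions.
PROOF. Put `u m = (1 - SS) * algebraMap (cf B q x₀ m) + SS * algebraMap (cf B q x₁ m)`,
`y p = (1 - SS) * algebraMap (x₀ p) + SS * algebraMap (x₁ p)`. `exists_dir` with `s = 0` (`∑ k, e k = B.card`), `e₀ = u`,
gives `v ≠ 0`. With `lam = 0`, `τ = 1`: `aeval (Sum.elim v y) (G k) = 0 ^ e k * _ = 0` (`blk_e_pos`; `funext` for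
`0 * u m + 1 * v m = v m`). `y (i, .)` is not zero for all `i`: its value at a place over `0` is `x₀ (i, .)`
(`exists_place_over 0`, `ne_of_val`). `exists_KP` gives `X`. -/
theorem gl2_point (hB : Blk F D d B q e) (hG : GB F B q e G) (hcard : ∑ k, e k = B.card)
    {x₀ x₁ : Fin N × Bool → ℂ} (hx₀ : x₀ ∈ XP F) (hx₁ : x₁ ∈ XP F) :
    ∃ X : Fin N × Bool → KK, KP F X ∧
      (∀ i, i ∉ B → ∀ β, X (i, β) =
        (1 - SS) * algebraMap ℂ KK (x₀ (i, β)) + SS * algebraMap ℂ KK (x₁ (i, β))) ∧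
      ∀ (k : Fin r) (lam τ : KK), aeval (Sum.elim
        (fun m => lam * ((1 - SS) * algebraMap ℂ KK (cf B q x₀ m) +
          SS * algebraMap ℂ KK (cf B q x₁ m)) + τ * cf B q X m)
        (fun p => (1 - SS) * algebraMap ℂ KK (x₀ p) + SS * algebraMap ℂ KK (x₁ p))) (G k) =
        lam ^ e k * aeval (Sum.elim
          (fun m => (1 - SS) * algebraMap ℂ KK (cf B q x₀ m) + SS * algebraMap ℂ KK (cf B q x₁ m))
          (fun p => (1 - SS) * algebraMap ℂ KK (x₀ p) + SS * algebraMap ℂ KK (x₁ p))) (G k) := by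
  obtain ⟨P0, hP0⟩ := exists_place_over 0
  obtain ⟨v, hv0, -, hv⟩ := exists_dir (K := KK) hG
    (fun m => (1 - SS) * algebraMap ℂ KK (cf B q x₀ m) + SS * algebraMap ℂ KK (cf B q x₁ m))
    (fun p => (1 - SS) * algebraMap ℂ KK (x₀ p) + SS * algebraMap ℂ KK (x₁ p)) (s := 0) Fin.elim0
    (fun j => j.elim0) (by omega)
  have h0 : ∀ k, aeval (Sum.elim v
      (fun p => (1 - SS) * algebraMap ℂ KK (x₀ p) + SS * algebraMap ℂ KK (x₁ p))) (G k) = 0 := by
    intro k
    have h1 := hv k 0 1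
    rw [zero_pow (by have := blk_e_pos hB k; omega), zero_mul] at h1
    rw [← h1]
    congr 2
    funext m
    rcases m with m | m
    · simp only [Sum.elim_inl]
      rw [zero_mul, zero_add, one_mul]
    · rfl
  obtain ⟨X, hX, hXo, hXc⟩ := exists_KP hB hG hv0 (fun i _ => by
    obtain ⟨β, hβ⟩ := hx₀.1 i
    refine ⟨β, ne_of_val (gl1_val hP0 (x₀ (i, β)) (x₁ (i, β))) ?_⟩
    rw [sub_zero, one_mul, zero_mul, add_zero]
    exact hβ) h0
  refine ⟨X, hX, hXo, fun k lam τ => ?_⟩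
  rw [← hv k lam τ]
  congr 2
  funext m
  rcases m with m | m
  · simp only [Sum.elim_inl]
    rw [hXc]
  · rfl

/-- PROOF. Let `z = 0` (then `xz = x₀`) or `z = 1` (`xz = x₁`), `P` a place over `z`, `w` a reduction of `X`. `w ∈ XP F`
(`redM_XP`). `w (i, .)` is proportional to `xz (i, .)` off `B` (`redM_factor` with `a = x₀ (i, .)`, `b = x₁ (i, .)`).
By `redM_cf` there is `κ ≠ 0` such that `κ * cf B q X m` has the value `cf B q w m`. In the identity `hl` put
`τ = algebraMap τ' * κ`, `lam = algebraMap lam'`: both sides are values of the polynomial `G k` at finite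
coordinates; at the place `P` (`H7CX.pl2_val_aeval`, `Place.Val.unique`)
`eval (Sum.elim (fun m => lam' * cf B q xz m + τ' * cf B q w m) xz) (G k) = lam' ^ e k * eval (Sum.elim (cf B q xz) xz) (G k)`,
and the right side is `lam' ^ e k * eval xz (F k) = 0` (`GB.eq` for `R = ℂ`). `line_const` for `x₀ := xz`,
`v = cf B q w` (`cf_ne_zero`), `x := w`: `φ w = φ xz`. -/
theorem gl2_red (hN : 1 ≤ N) (hB : Blk F D d B q e) (hG : GB F B q e G) (hφ : Cls F φ)
    (hinv : ∀ ψ : (Fin N → ZMod d) × Equiv.Perm (Fin N), InB B q ψ → ∀ x ∈ XP F,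
      φ (mact ψ x) = φ x) {x₀ x₁ xz : Fin N × Bool → ℂ} (hxz : xz ∈ XP F) {z : ℂ}
    (hz : ∀ p, xz p = (1 - z) * x₀ p + z * x₁ p)
    (hzc : ∀ m, cf B q xz m = (1 - z) * cf B q x₀ m + z * cf B q x₁ m)
    {X : Fin N × Bool → KK} (hX : KP F X)
    (hXo : ∀ i, i ∉ B → ∀ β, X (i, β) =
        (1 - SS) * algebraMap ℂ KK (x₀ (i, β)) + SS * algebraMap ℂ KK (x₁ (i, β)))
    (hl : ∀ (k : Fin r) (lam τ : KK), aeval (Sum.elim
        (fun m => lam * ((1 - SS) * algebraMap ℂ KK (cf B q x₀ m) +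
          SS * algebraMap ℂ KK (cf B q x₁ m)) + τ * cf B q X m)
        (fun p => (1 - SS) * algebraMap ℂ KK (x₀ p) + SS * algebraMap ℂ KK (x₁ p))) (G k) =
        lam ^ e k * aeval (Sum.elim
          (fun m => (1 - SS) * algebraMap ℂ KK (cf B q x₀ m) + SS * algebraMap ℂ KK (cf B q x₁ m))
          (fun p => (1 - SS) * algebraMap ℂ KK (x₀ p) + SS * algebraMap ℂ KK (x₁ p))) (G k))
    {P : Place KK} (hP : P.Val SS z) {w : Fin N × Bool → ℂ} (hw : RedM P X w) : φ w = φ xz := by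
  have hq := blk_q_pos hB
  have hwX : w ∈ XP F := redM_XP hB.md hX hw
  obtain ⟨hcw, κ, hκ, hκv⟩ := redM_cf hq hw
  have hoff : ∀ i, i ∉ B → ∃ t : ℂ, t ≠ 0 ∧ ∀ β, w (i, β) = t * xz (i, β) := by
    intro i hi
    obtain ⟨t, ht, h⟩ := redM_factor hw (a := fun β => x₀ (i, β)) (b := fun β => x₁ (i, β)) hP
      (fun β => hXo i hi β) (by
        obtain ⟨β, hβ⟩ := hxz.1 i
        intro h0
        have h1 := congrFun h0 β
        apply hβ
        rw [hz]
        exact h1)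
    exact ⟨t, ht, fun β => by rw [h β, hz]⟩
  refine line_const hN hB hG hφ hinv hxz hcw ?_ hwX ⟨1, one_ne_zero, fun m => (one_mul _).symm⟩ hoff
  intro k lam' τ'
  have h1 := H7CX.pl2_val_aeval P
    (x := Sum.elim (fun m => algebraMap ℂ KK lam' * ((1 - SS) * algebraMap ℂ KK (cf B q x₀ m) +
          SS * algebraMap ℂ KK (cf B q x₁ m)) + (algebraMap ℂ KK τ' * κ) * cf B q X m)
        (fun p => (1 - SS) * algebraMap ℂ KK (x₀ p) + SS * algebraMap ℂ KK (x₁ p)))
    (q := Sum.elim (fun m => lam' * cf B q xz m + τ' * cf B q w m) xz)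
    (by
      rintro (m | p)
      · simp only [Sum.elim_inl]
        rw [hzc]
        refine Place.Val.add P (Place.Val.mul P (P.val_alg _) (gl1_val hP _ _)) ?_
        rw [mul_assoc]
        exact Place.Val.mul P (P.val_alg _) (hκv m)
      · simp only [Sum.elim_inr]
        rw [hz]
        exact gl1_val hP _ _) (G k)
  have h2 := H7CX.pl2_val_aeval P
    (x := Sum.elim (fun m => (1 - SS) * algebraMap ℂ KK (cf B q x₀ m) +
          SS * algebraMap ℂ KK (cf B q x₁ m))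
        (fun p => (1 - SS) * algebraMap ℂ KK (x₀ p) + SS * algebraMap ℂ KK (x₁ p)))
    (q := Sum.elim (cf B q xz) xz)
    (by
      rintro (m | p)
      · simp only [Sum.elim_inl]
        rw [hzc]
        exact gl1_val hP _ _
      · simp only [Sum.elim_inr]
        rw [hz]
        exact gl1_val hP _ _) (G k)
  have h3 : eval (Sum.elim (cf B q xz) xz) (G k) = 0 := by
    have h4 := hG.eq ℂ xz xz (fun _ _ _ => rfl) k
    rw [gl2_ev, gl2_ev] at h4
    exact h4.trans (hxz.2 k)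
  rw [hl k (algebraMap ℂ KK lam') (algebraMap ℂ KK τ' * κ)] at h1
  have h5 := Place.Val.mul P (Place.Val.pow P (P.val_alg lam') (e k)) h2
  have h6 := Place.Val.unique P h1 h5
  rw [h3, mul_zero] at h6
  rw [gl2_ev]
  exact h6

/-- CHUNK GL2. PROOF. `exists_GB`, `gl2_point`, and `spec` with `A z = if z = 0 then φ x₀ else φ x₁`, the condition is
`gl2_red` for `z = 0`, `xz = x₀` and `z = 1`, `xz = x₁`. -/
theorem g0 (hN : 1 ≤ N) (hB : Blk F D d B q e) (hG : GB F B q e G) (hφ : Cls F φ)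
    (hinv : ∀ ψ : (Fin N → ZMod d) × Equiv.Perm (Fin N), InB B q ψ → ∀ x ∈ XP F,
      φ (mact ψ x) = φ x) (hcard : ∑ k, e k = B.card) :
    ∀ x ∈ XP F, ∀ x' ∈ XP F, φ x = φ x' := by
  intro x₀ hx₀ x₁ hx₁
  obtain ⟨X, hX, hXo, hl⟩ := gl2_point hB hG hcard hx₀ hx₁
  have key := spec hN hB.md hφ hX (fun z => if z = 0 then φ x₀ else φ x₁) ?_
  · simp only [if_true, one_ne_zero, if_false] at key
    exact key
  · intro z hz P hP w hw
    rcases hz with rfl | rfl
    · show φ w = if (0 : ℂ) = 0 then φ x₀ else φ x₁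
      rw [if_pos rfl]
      exact gl2_red hN hB hG hφ hinv hx₀ (z := 0) (x₀ := x₀) (x₁ := x₁) (fun p => by ring) (fun m => by ring)
        hX hXo hl hP hw
    · show φ w = if (1 : ℂ) = 0 then φ x₀ else φ x₁
      rw [if_neg one_ne_zero]
      exact gl2_red hN hB hG hφ hinv hx₁ (z := 1) (x₀ := x₀) (x₁ := x₁) (fun p => by ring) (fun m => by ring)
        hX hXo hl hP hw

end Pool.Agent.H10S
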