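import Mathlib
import Pool.Agent.Lib.H10S.LF5

/-!
CHUNK GL3 (S/M). A relative class function vanishes at the points fixed by a reflection.
-/

open MvPolynomial Finset

namespace Pool.Agent.H10S

variable {N r d : ℕ} [NeZero d] {F : Fin r → MvPolynomial (Fin N × Bool) ℂ}
  {D : Fin r → Fin N → ℕ} {B : Finset (Fin N)} {q : ℕ} {e : Fin r → ℕ}
  {φ : (Fin N × Bool → ℂ) → ℂ}

/-- PROOF. `ψ = (Pi.single i g, 1)` with `g = (d / q : ZMod d)`: `q * g = 0`. `Bloch.e (a * g) ≠ 1`: otherwise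
`a * g = 0`, `d ∣ a.val * (d / q)`, `q ∣ a.val`, but `0 < a.val < q`. `mact ψ x` and `x` differ only at `(i, true)`, where it is
`e g * x (i, true)`. If `x (i, true) = 0` they are equal; if `x (i, false) = 0` then `mact ψ x = fun p => ρ p.1 * x p`
with `ρ = Function.update 1 i (e g)`: in both cases `φ (mact ψ x) = φ x` (`cls_rho`). With the character:
`φ x = e (a * g) * φ x`, so `φ x = 0`. -/
theorem stab_zero (hB : Blk F D d B q e) (hφ : Cls F φ) {a : ZMod d} (ha0 : a ≠ 0)
    (haq : a.val < q)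
    (heq : ∀ ψ : (Fin N → ZMod d) × Equiv.Perm (Fin N), InB B q ψ → ∀ x ∈ XP F,
      φ (mact ψ x) = Bloch.e (a * ∑ i, ψ.1 i) * φ x) {x : Fin N × Bool → ℂ} (hx : x ∈ XP F)
    {i : Fin N} (hi : i ∈ B) {β : Bool} (h0 : x (i, β) = 0) : φ x = 0 := by
  obtain ⟨c, hc⟩ := hB.dvd
  have hd0 : d ≠ 0 := NeZero.ne d
  have hc0 : 0 < c := by
    rcases Nat.eq_zero_or_pos c with h | h
    · exfalso
      rw [h, mul_zero] at hc
      exact hd0 hc
    · exact h
  obtain ⟨g, hg⟩ : ∃ g : ZMod d, g = ((c : ℕ) : ZMod d) := ⟨_, rfl⟩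
  have hqg : (q : ZMod d) * g = 0 := by
    rw [hg, ← Nat.cast_mul, ← hc]
    exact ZMod.natCast_self d
  have hInB : InB B q ((Pi.single i g, 1) : (Fin N → ZMod d) × Equiv.Perm (Fin N)) := by
    refine ⟨fun j => ?_, fun j hj => ⟨?_, rfl⟩⟩
    · by_cases h : j = i
      · subst h
        show (q : ZMod d) * (Pi.single j g : Fin N → ZMod d) j = 0
        rw [Pi.single_eq_same]
        exact hqg
      · show (q : ZMod d) * (Pi.single i g : Fin N → ZMod d) j = 0
        rw [Pi.single_eq_of_ne h, mul_zero]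
    · have h : j ≠ i := fun h => hj (h ▸ hi)
      show (Pi.single i g : Fin N → ZMod d) j = 0
      rw [Pi.single_eq_of_ne h]
  have hsum : ∑ j, (Pi.single i g : Fin N → ZMod d) j = g := by
    rw [Finset.sum_pi_single']
    simp
  have hne : Bloch.e (a * g) ≠ 1 := by
    intro h
    rw [← Bloch.e_zero (d := d)] at h
    have h1 := Bloch.e_injective h
    rw [hg, ← ZMod.natCast_zmod_val a, ← Nat.cast_mul, ZMod.natCast_eq_zero_iff] at h1
    obtain ⟨t, ht⟩ := h1
    have h2 : q ∣ a.val := by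
      refine ⟨t, Nat.eq_of_mul_eq_mul_right hc0 ?_⟩
      calc a.val * c = d * t := ht
        _ = q * c * t := congrArg (fun z => z * t) hc
        _ = q * t * c := by ring
    have h3 : a.val = 0 := Nat.eq_zero_of_dvd_of_lt h2 haq
    exact ha0 ((ZMod.val_eq_zero a).1 h3)
  have hact : ∀ p : Fin N × Bool, mact ((Pi.single i g, 1) : (Fin N → ZMod d) × Equiv.Perm (Fin N)) x p =
      (if p.2 then Bloch.e ((Pi.single i g : Fin N → ZMod d) p.1) else 1) * x p := fun p => rfl
  have hsame : φ (mact ((Pi.single i g, 1) : (Fin N → ZMod d) × Equiv.Perm (Fin N)) x) = φ x := by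
    cases β with
    | true =>
      congr 1
      funext p
      rw [hact]
      obtain ⟨j, b⟩ := p
      by_cases hj : j = i
      · subst hj
        cases b
        · simp
        · rw [h0, mul_zero]
      · rw [Pi.single_eq_of_ne hj, Bloch.e_zero]
        simp
    | false =>
      rw [← cls_rho hB.md hφ hx (ρ := Function.update 1 i (Bloch.e g))]
      · congr 1
        funext p
        rw [hact]
        obtain ⟨j, b⟩ := p
        by_cases hj : j = i
        · subst hj
          cases b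
          · rw [h0, mul_zero, mul_zero]
          · simp
        · rw [Pi.single_eq_of_ne hj, Bloch.e_zero]
          show _ = Function.update (1 : Fin N → ℂ) i (Bloch.e g) j * x (j, b)
          rw [Function.update_of_ne hj]
          simp
      · intro j
        by_cases hj : j = i
        · subst hj
          rw [Function.update_self]
          exact Bloch.e_ne_zero g
        · rw [Function.update_of_ne hj]
          exact one_ne_zero
  have h1 := heq _ hInB x hx
  rw [hsame] at h1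
  have h2 : φ x = Bloch.e (a * g) * φ x := by
    rw [← hsum]
    exact h1
  by_contra hcon
  exact hne (mul_right_cancel₀ hcon (by rw [one_mul]; exact h2.symm))

/-- CHUNK GL3. The points of an orbit with the same relative invariant.
PROOF. `exists_orbit`: `x' = ρ * mact ψ x`, `ψ ∈ InB B q`. `∏ i ∈ B, x' (i, true) = (∏ ρ i) * (∏ i ∈ B, e (ψ.1 i)) *
∏ i ∈ B, x (i, true)` (`ψ.2` permutes `B`), `∏ i ∈ B, x' (i, false) = (∏ ρ i) * ∏ i ∈ B, x (i, false)`. So `hrel` gives
`∏ i ∈ B, e (ψ.1 i) = 1` (all the products are not zero), `= e (∑ i, ψ.1 i)` (`ψ.1 i = 0` off `B`), hence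
`∑ i, ψ.1 i = 0` (`Bloch.e_injective`) and `φ (mact ψ x) = φ x`; `cls_rho`. -/
theorem cls_rel (hB : Blk F D d B q e) (hφ : Cls F φ) {a : ZMod d}
    (heq : ∀ ψ : (Fin N → ZMod d) × Equiv.Perm (Fin N), InB B q ψ → ∀ x ∈ XP F,
      φ (mact ψ x) = Bloch.e (a * ∑ i, ψ.1 i) * φ x) {x x' : Fin N × Bool → ℂ} (hx : x ∈ XP F)
    (hx' : x' ∈ XP F) (hcf : ∃ t : ℂ, t ≠ 0 ∧ ∀ m, cf B q x' m = t * cf B q x m)
    (hoff : ∀ i, i ∉ B → ∃ t : ℂ, t ≠ 0 ∧ ∀ β, x' (i, β) = t * x (i, β))
    (hne : ∀ i ∈ B, ∀ β, x (i, β) ≠ 0)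
    (hrel : (∏ i ∈ B, x' (i, true)) * ∏ i ∈ B, x (i, false) =
      (∏ i ∈ B, x' (i, false)) * ∏ i ∈ B, x (i, true)) : φ x' = φ x := by
  obtain ⟨ψ, ρ, hψ, hρ, hxx⟩ := exists_orbit hB hx hx' hcf hoff
  have hperm : ∀ b : Bool, ∏ i ∈ B, x (ψ.2.symm i, b) = ∏ i ∈ B, x (i, b) := by
    intro b
    refine Finset.prod_equiv ψ.2.symm (fun i => ?_) (fun i _ => rfl)
    constructor
    · intro hi
      by_contra h
      have h1 := (hψ.2 _ h).2
      rw [Equiv.apply_symm_apply] at h1
      rw [← h1] at h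
      exact h hi
    · intro hi
      by_contra h
      have h1 : ψ.2.symm i = i := by
        rw [Equiv.symm_apply_eq]
        exact (hψ.2 i h).2.symm
      rw [h1] at hi
      exact h hi
  have ht : ∏ i ∈ B, x' (i, true) = (∏ i ∈ B, ρ i) * ((∏ i ∈ B, Bloch.e (ψ.1 i)) * ∏ i ∈ B, x (i, true)) := by
    rw [← hperm true, ← Finset.prod_mul_distrib, ← Finset.prod_mul_distrib]
    refine Finset.prod_congr rfl fun i _ => ?_
    rw [hxx]
    rfl
  have hf : ∏ i ∈ B, x' (i, false) = (∏ i ∈ B, ρ i) * ∏ i ∈ B, x (i, false) := by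
    rw [← hperm false, ← Finset.prod_mul_distrib]
    refine Finset.prod_congr rfl fun i _ => ?_
    rw [hxx]
    show ρ i * (1 * x (ψ.2.symm i, false)) = ρ i * x (ψ.2.symm i, false)
    rw [one_mul]
  rw [ht, hf] at hrel
  have n1 : (∏ i ∈ B, ρ i) ≠ 0 := Finset.prod_ne_zero_iff.2 fun i _ => hρ i
  have n2 : (∏ i ∈ B, x (i, true)) ≠ 0 := Finset.prod_ne_zero_iff.2 fun i hi => hne i hi true
  have n3 : (∏ i ∈ B, x (i, false)) ≠ 0 := Finset.prod_ne_zero_iff.2 fun i hi => hne i hi false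
  have h1 : ∏ i ∈ B, Bloch.e (ψ.1 i) = 1 := by
    have h2 : ((∏ i ∈ B, ρ i) * (∏ i ∈ B, x (i, true)) * ∏ i ∈ B, x (i, false)) ≠ 0 := mul_ne_zero (mul_ne_zero n1 n2) n3
    apply mul_right_cancel₀ h2
    linear_combination hrel
  have h2 : ∑ i, ψ.1 i = 0 := by
    have h3 : ∑ i, ψ.1 i = ∑ i ∈ B, ψ.1 i := by
      symm
      refine Finset.sum_subset (Finset.subset_univ _) fun i _ hi => (hψ.2 i hi).1
    have h4 : ∀ S : Finset (Fin N), Bloch.e (∑ i ∈ S, ψ.1 i) = ∏ i ∈ S, Bloch.e (ψ.1 i) := by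
      intro S
      classical
      induction S using Finset.induction_on with
      | empty => rw [Finset.sum_empty, Finset.prod_empty, Bloch.e_zero]
      | insert j S hj ih => rw [Finset.sum_insert hj, Finset.prod_insert hj, Bloch.e_add, ih]
    rw [h3]
    apply Bloch.e_injective
    rw [h4, h1, Bloch.e_zero]
  have h3 := heq ψ hψ x hx
  rw [h2, mul_zero, Bloch.e_zero, one_mul] at h3
  rw [hxx, cls_rho hB.md hφ (mact_XP hB hψ hx) hρ, h3]

end Pool.Agent.H10S
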