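import Mathlib
import Pool.Agent.Lib.H10S.GL1

/-!
CHUNK GL4 (M/L). The path for a nontrivial character.
-/

open MvPolynomial Finset

namespace Pool.Agent.H10S

open Pool.Agent.H7CX (Place KK SS)

variable {N r d : ℕ} [NeZero d] {F : Fin r → MvPolynomial (Fin N × Bool) ℂ}
  {D : Fin r → Fin N → ℕ} {B : Finset (Fin N)} {q : ℕ} {e : Fin r → ℕ}
  {G : Fin r → MvPolynomial (Fin (B.card + 1) ⊕ (Fin N × Bool)) ℂ}

/-- Choosing the root of the relative invariant. `c` is `1 - SS` or `1`.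
PROOF. `(∏ i ∈ B, X (i, true)) * ∏ x₀ (i, false) * (1 - SS)` and `(∏ i ∈ B, X (i, false)) * (∏ x₀ (i, true)) * c'` have the same
`q`-th powers by hypothesis, so the first is `w` times the second, `w ^ q = 1`, `w ≠ 0` (if the second is zero, `w = 1`).
Multiply the coordinate `X (i₀, true)` of one `i₀ ∈ B` by `w⁻¹`: `cf` does not change (it only contains
`X (i₀, true) ^ q`), and so `KP F` is preserved (`GB.eq` with `y = X`). -/
theorem gl4_root (hB : Blk F D d B q e) (hG : GB F B q e G) {X : Fin N × Bool → KK}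
    (hX : KP F X) {c c' : KK}
    (h : ((∏ i ∈ B, X (i, true)) * c) ^ q = ((∏ i ∈ B, X (i, false)) * c') ^ q) :
    ∃ X' : Fin N × Bool → KK, KP F X' ∧ (∀ i, i ∉ B → ∀ β, X' (i, β) = X (i, β)) ∧
      (∀ m, cf B q X' m = cf B q X m) ∧
      (∏ i ∈ B, X' (i, true)) * c = (∏ i ∈ B, X' (i, false)) * c' := by
  classical
  have hq := blk_q_pos hB
  obtain ⟨w, hw1, hw0, hrel⟩ : ∃ w : KK, w ^ q = 1 ∧ w ≠ 0 ∧
      (∏ i ∈ B, X (i, true)) * c = w * ((∏ i ∈ B, X (i, false)) * c') := by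
    by_cases h0 : (∏ i ∈ B, X (i, false)) * c' = 0
    · refine ⟨1, one_pow _, one_ne_zero, ?_⟩
      rw [h0, zero_pow (by omega)] at h
      rw [h0, mul_zero]
      exact pow_eq_zero_iff (by omega) |>.1 h
    · have hne : (∏ i ∈ B, X (i, true)) * c ≠ 0 := by
        intro h1
        rw [h1, zero_pow (by omega)] at h
        exact h0 (pow_eq_zero_iff (by omega) |>.1 h.symm)
      refine ⟨((∏ i ∈ B, X (i, true)) * c) / ((∏ i ∈ B, X (i, false)) * c'), ?_, div_ne_zero hne h0, ?_⟩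
      · rw [div_pow, h, div_self (pow_ne_zero _ h0)]
      · rw [div_mul_cancel₀ _ h0]
  obtain ⟨i₀, hi₀⟩ := hB.ne
  have hwi : w⁻¹ ^ q = 1 := by rw [inv_pow, hw1, inv_one]
  set X' : Fin N × Bool → KK := fun p => if p = (i₀, true) then w⁻¹ * X p else X p with hX'
  have hpow : ∀ p, X' p ^ q = X p ^ q := by
    intro p
    rw [hX']
    dsimp only
    split_ifs
    · rw [mul_pow, hwi, one_mul]
    · rfl
  have hoff : ∀ i, i ∉ B → ∀ β, X' (i, β) = X (i, β) := by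
    intro i hi β
    rw [hX']
    dsimp only
    rw [if_neg]
    intro h1
    rw [Prod.mk.injEq] at h1
    exact hi (h1.1 ▸ hi₀)
  have hcf : ∀ m, cf B q X' m = cf B q X m := by
    intro m
    unfold cf
    simp only [hpow]
  refine ⟨X', ⟨fun i => ?_, fun k => ?_⟩, hoff, hcf, ?_⟩
  · obtain ⟨β, hβ⟩ := hX.1 i
    refine ⟨β, ?_⟩
    rw [hX']
    dsimp only
    split_ifs
    · exact mul_ne_zero (inv_ne_zero hw0) hβ
    · exact hβ
  · have h1 := hG.eq KK X' X (fun i hi β => (hoff i hi β).symm) k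
    rw [show cf B q X' = cf B q X from funext hcf, hG.eq KK X X (fun _ _ _ => rfl) k, hX.2 k] at h1
    exact h1.symm
  · have e1 : ∏ i ∈ B, X' (i, true) = w⁻¹ * ∏ i ∈ B, X (i, true) := by
      have e2 : ∀ i, X' (i, true) = (if i = i₀ then w⁻¹ else 1) * X (i, true) := by
        intro i
        rw [hX']
        dsimp only
        by_cases h1 : i = i₀
        · rw [if_pos h1, if_pos (by rw [h1])]
        · rw [if_neg h1, if_neg (fun h2 => h1 (congrArg Prod.fst h2)), one_mul]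
      rw [prod_congr rfl fun i _ => e2 i, prod_mul_distrib, Finset.prod_ite_eq', if_pos hi₀]
    have e3 : ∏ i ∈ B, X' (i, false) = ∏ i ∈ B, X (i, false) := by
      refine prod_congr rfl fun i _ => ?_
      rw [hX']
      dsimp only
      rw [if_neg]
      intro h2
      exact Bool.false_ne_true (congrArg Prod.snd h2)
    rw [e1, e3, mul_assoc, hrel, ← mul_assoc, inv_mul_cancel₀ hw0, one_mul]

theorem gl4_path (hB : Blk F D d B q e) (hG : GB F B q e G) {x₀ : Fin N × Bool → ℂ}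
    (hx₀ : x₀ ∈ XP F) {v : Fin (B.card + 1) → ℂ} (hv : v ≠ 0)
    (hv0 : v 0 = 0) (hvl : v (Fin.last _) = cf B q x₀ (Fin.last _) ∨ v (Fin.last _) = 0)
    (hline : ∀ (k : Fin r) (lam τ : ℂ),
      aeval (Sum.elim (fun m => lam * cf B q x₀ m + τ * v m) x₀) (G k) = 0) :
    ∃ X : Fin N × Bool → KK, KP F X ∧
      (∀ P : Place KK, P.Val SS 0 → ∀ w : Fin N × Bool → ℂ, RedM P X w →
        (∃ t : ℂ, t ≠ 0 ∧ ∀ m, cf B q w m = t * cf B q x₀ m) ∧
        (∀ i, i ∉ B → ∃ t : ℂ, t ≠ 0 ∧ ∀ β, w (i, β) = t * x₀ (i, β)) ∧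
        (∏ i ∈ B, w (i, true)) * ∏ i ∈ B, x₀ (i, false) =
          (∏ i ∈ B, w (i, false)) * ∏ i ∈ B, x₀ (i, true)) ∧
      ∀ P : Place KK, P.Val SS 1 → ∀ w : Fin N × Bool → ℂ, RedM P X w →
        ∃ i ∈ B, w (i, false) = 0 := by
  classical
  have hq := blk_q_pos hB
  have hcf0 : cf B q x₀ ≠ 0 := cf_ne_zero hq fun i _ => hx₀.1 i
  have hπ0 : ∀ P : Place KK, P.Val SS 0 → P.Val ((1 - SS) ^ q) 1 := by
    intro P hP
    have := Place.Val.pow P (Place.Val.sub P P.val_one hP) q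
    rwa [sub_zero, one_pow] at this
  have hπ1 : ∀ P : Place KK, P.Val SS 1 → P.Val ((1 - SS) ^ q) 0 := by
    intro P hP
    have := Place.Val.pow P (Place.Val.sub P P.val_one hP) q
    rwa [sub_self, zero_pow (by omega)] at this
  have hu0 : ∀ P : Place KK, P.Val SS 0 → ∀ m, P.Val ((1 - SS) ^ q * algebraMap ℂ KK (cf B q x₀ m) +
      (1 - (1 - SS) ^ q) * algebraMap ℂ KK (v m)) (cf B q x₀ m) := by
    intro P hP m
    have := Place.Val.add P (Place.Val.mul P (hπ0 P hP) (P.val_alg (cf B q x₀ m)))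
      (Place.Val.mul P (Place.Val.sub P P.val_one (hπ0 P hP)) (P.val_alg (v m)))
    rwa [one_mul, sub_self, zero_mul, add_zero] at this
  have hu1 : ∀ P : Place KK, P.Val SS 1 → ∀ m, P.Val ((1 - SS) ^ q * algebraMap ℂ KK (cf B q x₀ m) +
      (1 - (1 - SS) ^ q) * algebraMap ℂ KK (v m)) (v m) := by
    intro P hP m
    have := Place.Val.add P (Place.Val.mul P (hπ1 P hP) (P.val_alg (cf B q x₀ m)))
      (Place.Val.mul P (Place.Val.sub P P.val_one (hπ1 P hP)) (P.val_alg (v m)))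
    rwa [zero_mul, sub_zero, one_mul, zero_add] at this
  obtain ⟨P0, hP0⟩ := exists_place_over 0
  have hu : (fun m => (1 - SS) ^ q * algebraMap ℂ KK (cf B q x₀ m) +
      (1 - (1 - SS) ^ q) * algebraMap ℂ KK (v m)) ≠ 0 := by
    obtain ⟨m, hm⟩ := Function.ne_iff.1 hcf0
    intro h
    exact ne_of_val (hu0 P0 hP0 m) hm (congrFun h m)
  have hl : ∀ k, aeval (Sum.elim (fun m => (1 - SS) ^ q * algebraMap ℂ KK (cf B q x₀ m) +
      (1 - (1 - SS) ^ q) * algebraMap ℂ KK (v m))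
      (fun p => algebraMap ℂ KK (x₀ p))) (G k) = 0 := fun k => line_lift (hline k) _ _
  obtain ⟨X₁, hX₁, hXo, hXc⟩ := exists_KP hB hG hu (fun i _ => gl1_pt_ne hx₀.1 i) hl
  have a0 : (∏ i ∈ B, X₁ (i, false)) ^ q = (1 - SS) ^ q * algebraMap ℂ KK ((∏ i ∈ B, x₀ (i, false)) ^ q) := by
    rw [← prod_pow, ← cf_zero, hXc 0, hv0, map_zero, mul_zero, add_zero, ← prod_pow, cf_zero]
  obtain ⟨c, hc0, hrel⟩ : ∃ c : KK, (∀ P : Place KK, P.Val SS 0 → P.Val c (∏ i ∈ B, x₀ (i, false))) ∧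
      ((∏ i ∈ B, X₁ (i, true)) * c) ^ q =
        ((∏ i ∈ B, X₁ (i, false)) * algebraMap ℂ KK (∏ i ∈ B, x₀ (i, true))) ^ q := by
    rcases hvl with hvl | hvl
    · refine ⟨(1 - SS) * algebraMap ℂ KK (∏ i ∈ B, x₀ (i, false)), fun P hP => ?_, ?_⟩
      · have := Place.Val.mul P (Place.Val.sub P P.val_one hP) (P.val_alg (∏ i ∈ B, x₀ (i, false)))
        rwa [sub_zero, one_mul] at this
      · have a1 : (∏ i ∈ B, X₁ (i, true)) ^ q = algebraMap ℂ KK ((∏ i ∈ B, x₀ (i, true)) ^ q) := by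
          rw [← prod_pow, ← cf_last, hXc, hvl, cf_last, prod_pow]
          ring
        rw [mul_pow, mul_pow, mul_pow, a0, a1, map_pow, map_pow]
        ring
    · refine ⟨algebraMap ℂ KK (∏ i ∈ B, x₀ (i, false)), fun P _ => P.val_alg _, ?_⟩
      have a1 : (∏ i ∈ B, X₁ (i, true)) ^ q =
          (1 - SS) ^ q * algebraMap ℂ KK ((∏ i ∈ B, x₀ (i, true)) ^ q) := by
        rw [← prod_pow, ← cf_last, hXc, hvl, cf_last, prod_pow, map_zero, mul_zero, add_zero]
      rw [mul_pow, mul_pow, a0, a1, map_pow, map_pow]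
      ring
  obtain ⟨X, hX, hX1o, hX1c, hXrel⟩ := gl4_root hB hG hX₁ hrel
  have hXy : ∀ i, i ∉ B → ∀ β, X (i, β) = algebraMap ℂ KK (x₀ (i, β)) := fun i hi β => by
    rw [hX1o i hi β, hXo i hi β]
  have hXu : ∀ m, cf B q X m = (1 - SS) ^ q * algebraMap ℂ KK (cf B q x₀ m) +
      (1 - (1 - SS) ^ q) * algebraMap ℂ KK (v m) := fun m => by rw [hX1c, hXc]
  refine ⟨X, hX, fun P hP w hw => ⟨?_, ?_, ?_⟩, fun P hP w hw => ?_⟩
  · refine redM_cf_eq hq hw ⟨hcf0, 1, one_ne_zero, fun m => ?_⟩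
    rw [one_mul, hXu]
    exact hu0 P hP m
  · intro i hi
    have e1 : ∀ β, (1 - (0 : ℂ)) * x₀ (i, β) + 0 * x₀ (i, β) = x₀ (i, β) := fun β => by ring
    obtain ⟨t, ht, h⟩ := redM_factor hw (a := fun β => x₀ (i, β)) (b := fun β => x₀ (i, β)) hP
      (fun β => by rw [hXy i hi]; ring) (by
        obtain ⟨β, hβ⟩ := hx₀.1 i
        intro h0
        have h1 := congrFun h0 β
        simp only [e1] at h1
        exact hβ h1)
    exact ⟨t, ht, fun β => by rw [h β]; simp only [e1]⟩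
  · have hv := hw.2
    choose κ hκ hv using hv
    have h1 : P.Val ((∏ i ∈ B, κ i * X (i, true)) * c) ((∏ i ∈ B, w (i, true)) * ∏ i ∈ B, x₀ (i, false)) :=
      Place.Val.mul P (val_prod B fun i _ => hv i true) (hc0 P hP)
    have h2 : P.Val ((∏ i ∈ B, κ i * X (i, false)) * algebraMap ℂ KK (∏ i ∈ B, x₀ (i, true)))
        ((∏ i ∈ B, w (i, false)) * ∏ i ∈ B, x₀ (i, true)) :=
      Place.Val.mul P (val_prod B fun i _ => hv i false) (P.val_alg _)
    have h3 : (∏ i ∈ B, κ i * X (i, true)) * c =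
        (∏ i ∈ B, κ i * X (i, false)) * algebraMap ℂ KK (∏ i ∈ B, x₀ (i, true)) := by
      rw [prod_mul_distrib, prod_mul_distrib, mul_assoc, hXrel, ← mul_assoc]
    rw [h3] at h1
    exact Place.Val.unique P h1 h2
  · have h1 : RedV P (cf B q X) v := by
      refine ⟨hv, 1, one_ne_zero, fun m => ?_⟩
      rw [one_mul, hXu]
      exact hu1 P hP m
    obtain ⟨t, ht, h2⟩ := redM_cf_eq hq hw h1
    have h3 := h2 0
    rw [hv0, mul_zero, cf_zero, prod_eq_zero_iff] at h3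
    obtain ⟨i, hi, h4⟩ := h3
    exact ⟨i, hi, pow_eq_zero_iff (by omega) |>.1 h4⟩

/-- CHUNK GL4. PROOF. If `v (Fin.last _) ≠ 0` replace `v` by a multiple with `v (Fin.last _) = cf B q x₀ (Fin.last _)` (not zero,
`cf_last`); `hline` still holds. Let `π = (1 - SS) ^ q`, `u m = π * algebraMap (cf B q x₀ m) + (1 - π) * algebraMap (v m)`,
`y = algebraMap ∘ x₀`. `u ≠ 0` (its value at a place over `0` is `cf B q x₀ ≠ 0`). By `line_lift` (`lam = π`,
`τ = 1 - π`) and `exists_KP` there is `X₁`, `KP F X₁`, `X₁ = y` off `B`, `cf B q X₁ = u`. By `cf_zero`, `cf_last` and `v 0 = 0`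
`∏ i ∈ B, X₁ (i, false) ^ q = π * ∏ x₀ (i, false) ^ q`; and `∏ i ∈ B, X₁ (i, true) ^ q = ∏ x₀ (i, true) ^ q` (first case), or
`= π * ∏ x₀ (i, true) ^ q` (case `v (Fin.last _) = 0`). So with `c = (1 - SS) * ∏ x₀ (i, false)` (first case) or
`c = ∏ x₀ (i, false)` (second case) and `c' = ∏ x₀ (i, true)` the hypothesis of `gl4_root` holds (`Finset.prod_pow`); it gives
`X`. (a) A place `P` over `0`, a reduction `w` of `X`: `u m` has the value `cf B q x₀ m`, so `cf B q w` is proportional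
to `cf B q x₀` (`redM_cf_eq`); off `B` `redM_factor` with `a = b`. The relation: multiply
`(∏ X (i, true)) * c = (∏ X (i, false)) * c'` by `∏ i ∈ B, κ i` and take the values (`val_prod`; `1 - SS` has the value
`1`). (b) A place over `1`: `u m` has the value `v m` (`π` has the value `0`; `1 ≤ q`), `v ≠ 0`, so `cf B q w` is proportional
to `v`, and `cf B q w 0 = 0`: `∏ i ∈ B, w (i, false) ^ q = 0` (`cf_zero`), `w (i, false) = 0` for some `i ∈ B`. -/
theorem path_point (hB : Blk F D d B q e) (hG : GB F B q e G) {x₀ : Fin N × Bool → ℂ}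
    (hx₀ : x₀ ∈ XP F) (hne : ∀ i ∈ B, ∀ β, x₀ (i, β) ≠ 0) {v : Fin (B.card + 1) → ℂ} (hv : v ≠ 0)
    (hv0 : v 0 = 0)
    (hline : ∀ (k : Fin r) (lam τ : ℂ),
      aeval (Sum.elim (fun m => lam * cf B q x₀ m + τ * v m) x₀) (G k) = 0) :
    ∃ X : Fin N × Bool → KK, KP F X ∧
      (∀ P : Place KK, P.Val SS 0 → ∀ w : Fin N × Bool → ℂ, RedM P X w →
        (∃ t : ℂ, t ≠ 0 ∧ ∀ m, cf B q w m = t * cf B q x₀ m) ∧
        (∀ i, i ∉ B → ∃ t : ℂ, t ≠ 0 ∧ ∀ β, w (i, β) = t * x₀ (i, β)) ∧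
        (∏ i ∈ B, w (i, true)) * ∏ i ∈ B, x₀ (i, false) =
          (∏ i ∈ B, w (i, false)) * ∏ i ∈ B, x₀ (i, true)) ∧
      ∀ P : Place KK, P.Val SS 1 → ∀ w : Fin N × Bool → ℂ, RedM P X w →
        ∃ i ∈ B, w (i, false) = 0 := by
  by_cases hl : v (Fin.last _) = 0
  · exact gl4_path hB hG hx₀ hv hv0 (Or.inr hl) hline
  · have hc : cf B q x₀ (Fin.last _) ≠ 0 := by
      rw [cf_last]
      exact prod_ne_zero_iff.2 fun i hi => pow_ne_zero _ (hne i hi true)
    have hs : cf B q x₀ (Fin.last _) / v (Fin.last _) ≠ 0 := div_ne_zero hc hl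
    refine gl4_path hB hG hx₀ (v := fun m => cf B q x₀ (Fin.last _) / v (Fin.last _) * v m) ?_ ?_ (Or.inl ?_) ?_
    · obtain ⟨m, hm⟩ := Function.ne_iff.1 hv
      intro h
      exact mul_ne_zero hs hm (congrFun h m)
    · rw [hv0, mul_zero]
    · rw [div_mul_cancel₀ _ hl]
    · intro k lam τ
      rw [← hline k lam (τ * (cf B q x₀ (Fin.last _) / v (Fin.last _)))]
      congr 2
      funext m
      rcases m with m | m
      · simp only [Sum.elim_inl]
        rw [mul_assoc]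
      · rfl

end Pool.Agent.H10S
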