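import Mathlib
import Pool.Agent.Lib.H10S.GL2
import Pool.Agent.Lib.H10S.GL3
import Pool.Agent.Lib.H10S.GL4
import Pool.Agent.Lib.H10S.FF6

/-!
CHUNK GL5 (M). The two geometric theorems and their combination.
-/

open MvPolynomial Finset

namespace Pool.Agent.H10S

open Pool.Agent.Bloch (chi)
open Pool.Agent.H7CX (Place KK SS)

variable {N r d : ℕ} [NeZero d] {F : Fin r → MvPolynomial (Fin N × Bool) ℂ}
  {D : Fin r → Fin N → ℕ} {B : Finset (Fin N)} {q : ℕ} {e : Fin r → ℕ}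
  {G : Fin r → MvPolynomial (Fin (B.card + 1) ⊕ (Fin N × Bool)) ℂ} {φ : (Fin N × Bool → ℂ) → ℂ}

/-- PROOF. `x₀ ∈ XP F`. If `x₀ (i, β) = 0` for some `i ∈ B`: `stab_zero`. Otherwise `exists_dir` for `K = ℂ`, `e₀ = cf B q x₀`,
`y = x₀`, `s = 1`, `Lx 0 = X 0` (`∑ e k + 1 = B.card < B.card + 1`): `v ≠ 0`, `v 0 = 0`, and
`aeval (Sum.elim (lam * cf + τ * v) x₀) (G k) = lam ^ e k * eval x₀ (F k) = 0` (`GB.eq`). `path_point` gives `X`; `spec` with
`A z = if z = 0 then φ x₀ else 0`: over `0` `cls_rel` (`redM_XP`), over `1` `stab_zero`. So `φ x₀ = 0`. -/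
theorem g1 (hN : 1 ≤ N) (hB : Blk F D d B q e) (hG : GB F B q e G) (hφ : Cls F φ) {a : ZMod d}
    (ha0 : a ≠ 0) (haq : a.val < q)
    (heq : ∀ ψ : (Fin N → ZMod d) × Equiv.Perm (Fin N), InB B q ψ → ∀ x ∈ XP F,
      φ (mact ψ x) = Bloch.e (a * ∑ i, ψ.1 i) * φ x) (hcard : (∑ k, e k) + 1 = B.card) :
    ∀ x ∈ XP F, φ x = 0 := by
  intro x₀ hx₀
  by_cases hz : ∃ i ∈ B, ∃ β, x₀ (i, β) = 0
  · obtain ⟨i, hi, β, h0⟩ := hz
    exact stab_zero hB hφ ha0 haq heq hx₀ hi h0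
  · push Not at hz
    obtain ⟨v, hv, hv1, hl⟩ := exists_dir (K := ℂ) hG (cf B q x₀) x₀ (s := 1) (fun _ => X 0)
      (fun _ => by rw [eval_X]; rfl) (by omega)
    have hv0 : v 0 = 0 := by
      have := hv1 0
      rwa [eval_X] at this
    have hline : ∀ (k : Fin r) (lam τ : ℂ),
        aeval (Sum.elim (fun m => lam * cf B q x₀ m + τ * v m) x₀) (G k) = 0 := by
      intro k lam τ
      rw [hl k lam τ, hG.eq ℂ x₀ x₀ (fun _ _ _ => rfl) k, gl2_ev]
      rw [show (eval x₀) (F k) = 0 from hx₀.2 k, mul_zero]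
    obtain ⟨X, hX, h0, h1⟩ := path_point hB hG hx₀ hz hv hv0 hline
    have key := spec hN hB.md hφ hX (fun z => if z = 0 then φ x₀ else 0) ?_
    · simp only [if_true, one_ne_zero, if_false] at key
      exact key
    · intro z hz' P hP w hw
      have hwX : w ∈ XP F := redM_XP hB.md hX hw
      rcases hz' with rfl | rfl
      · show φ w = if (0 : ℂ) = 0 then φ x₀ else 0
        rw [if_pos rfl]
        obtain ⟨h2, h3, h4⟩ := h0 P hP w hw
        exact cls_rel hB hφ heq hx₀ hwX h2 h3 hz h4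
      · show φ w = if (1 : ℂ) = 0 then φ x₀ else 0
        rw [if_neg one_ne_zero]
        obtain ⟨i, hi, h2⟩ := h1 P hP w hw
        exact stab_zero hB hφ ha0 haq heq hwX hi h2

theorem gl5_group {c' qq : Fin N → ℕ} (hq : ∀ i j, c' i = c' j → qq i = qq j) {i₀ : Fin N}
    {B : Finset (Fin N)} (hB : ∀ i ∈ B, c' i = c' i₀) {ψ : (Fin N → ZMod d) × Equiv.Perm (Fin N)}
    (hψ : InB B (qq i₀) ψ) : InGroup c' qq ψ := by
  refine ⟨fun i => ?_, fun i => ?_⟩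
  · by_cases hi : i ∈ B
    · rw [hq i i₀ (hB i hi)]
      exact hψ.1 i
    · rw [(hψ.2 i hi).1, mul_zero]
  · by_cases hi : i ∈ B
    · have h1 : ψ.2 i ∈ B := by
        by_contra h2
        have h3 := ψ.2.injective (hψ.2 _ h2).2
        rw [h3] at h2
        exact h2 hi
      rw [hB i hi, hB _ h1]
    · rw [(hψ.2 i hi).2]

theorem gl5_chi {a : Fin N → ZMod d} {i₀ : Fin N} {B : Finset (Fin N)} (ha : ∀ i ∈ B, a i = a i₀) {q : ℕ}
    {ψ : (Fin N → ZMod d) × Equiv.Perm (Fin N)} (hψ : InB B q ψ) :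
    chi a ψ.1 = Bloch.e (a i₀ * ∑ i, ψ.1 i) := by
  unfold Bloch.chi
  congr 1
  rw [Finset.mul_sum]
  refine Finset.sum_congr rfl fun i _ => ?_
  by_cases hi : i ∈ B
  · rw [ha i hi]
  · rw [(hψ.2 i hi).1, mul_zero, mul_zero]

theorem gl5_blk {c' qq : Fin N → ℕ} (H : Hyp c' qq d F D) {i₀ : Fin N} {B : Finset (Fin N)}
    (hB : ∀ i ∈ B, c' i = c' i₀) (hne : B.Nonempty) :
    Blk F D d B (qq i₀) (fun k => D k i₀ / qq i₀) where
  md := H.md
  ne := hne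
  dvd := H.dvd i₀
  deg := fun k i hi => by
    rw [H.Dcls k i i₀ (hB i hi), Nat.mul_div_cancel' (H.qD k i₀)]
  inv := fun k ψ hψ x => H.inv k ψ (gl5_group H.qcls hB hψ) x

/-- CHUNK GL5. PROOF. Let `q₀ = q i₀`, `e k = D k i₀ / q₀`, `E = ∑ k, e k = (∑ k, D k i₀) / q₀` (`Hyp.qD`,
`Nat.sum_div` or `Nat.mul_left_cancel`), `1 ≤ e k` (`md.pos`, `qD`), `1 ≤ E` (`r1`). The class of `i₀` for `c'` has more than
`LL q D a i₀` elements: at least `E` if `a i₀ = 0`, at least `E + 1` if not. Let `B` be a subset of the class with exactly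
this number of elements (`Finset.exists_subset_card_eq`). `Blk F D d B q₀ e`: for `InB B q₀ ψ` one has
`InGroup c' q ψ` (`q i * ψ.1 i = 0`: for `i ∈ B` `q i = q i₀` by `qcls`, for `i ∉ B` `ψ.1 i = 0`; `c' (ψ.2 i) = c' i`: for `i ∉ B`
`ψ.2 i = i`, for `i ∈ B` `ψ.2 i ∈ B` since `ψ.2` is injective and fixes the complement of `B`). `exists_GB`. If `a i₀ = 0`:
`φ (mact ψ x) = chi a ψ.1 * φ x = φ x` for `InB B q₀ ψ` (`a i * ψ.1 i = 0` for all `i`: `a i = a i₀ = 0` on `B`, `ψ.1 i = 0` off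
`B`), `g0`. If `a i₀ ≠ 0`: `chi a ψ.1 = e (a i₀ * ∑ i, ψ.1 i)`, `g1`, and `0 = 0`. -/
theorem geo (hN : 1 ≤ N) {c' qq : Fin N → ℕ} (H : Hyp c' qq d F D) {a : Fin N → ZMod d}
    (ha : a ∈ AQ qq d) (hac : ∀ i j, c' i = c' j → a i = a j) (h : Equi F c' qq a φ) {i₀ : Fin N}
    (hbig : LL qq D a i₀ < (univ.filter fun i => c' i = c' i₀).card) :
    ∀ x ∈ XP F, ∀ x' ∈ XP F, φ x = φ x' := by
  have hd : 0 < d := Nat.pos_of_ne_zero (NeZero.ne d)
  have hq0 : 0 < qq i₀ := Nat.pos_of_dvd_of_pos (H.dvd i₀) hd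
  have hsum : (∑ k, D k i₀) / qq i₀ = ∑ k, D k i₀ / qq i₀ := by
    have h1 : ∑ k, D k i₀ = qq i₀ * ∑ k, D k i₀ / qq i₀ := by
      rw [Finset.mul_sum]
      exact Finset.sum_congr rfl fun k _ => (Nat.mul_div_cancel' (H.qD k i₀)).symm
    rw [h1, Nat.mul_div_cancel_left _ hq0]
  have hE : 1 ≤ ∑ k, D k i₀ / qq i₀ := by
    have h1 : 1 ≤ D ⟨0, H.r1⟩ i₀ / qq i₀ :=
      (Nat.one_le_div_iff hq0).2 (Nat.le_of_dvd (H.md.pos _ _) (H.qD _ _))
    exact h1.trans (Finset.single_le_sum (f := fun k => D k i₀ / qq i₀) (fun _ _ => Nat.zero_le _)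
      (mem_univ (⟨0, H.r1⟩ : Fin r)))
  have hav : (a i₀).val < qq i₀ := by
    rw [AQ, mem_filter] at ha
    exact ha.2 i₀
  unfold LL at hbig
  by_cases ha0 : a i₀ = 0
  · rw [if_pos ha0, hsum] at hbig
    obtain ⟨B, hBC, hcard⟩ := Finset.exists_subset_card_eq
      (show ∑ k, D k i₀ / qq i₀ ≤ (univ.filter fun i => c' i = c' i₀).card by omega)
    have hB : ∀ i ∈ B, c' i = c' i₀ := fun i hi => (mem_filter.1 (hBC hi)).2
    have hne : B.Nonempty := card_pos.1 (by omega)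
    have hblk := gl5_blk H hB hne
    obtain ⟨G, hG⟩ := exists_GB hblk
    refine g0 hN hblk hG h.resp (fun ψ hψ x hx => ?_) hcard.symm
    rw [h.eqv ψ (gl5_group H.qcls hB hψ) x hx, gl5_chi (fun i hi => hac i i₀ (hB i hi)) hψ, ha0, zero_mul,
      Bloch.e_zero, one_mul]
  · rw [if_neg ha0, hsum] at hbig
    obtain ⟨B, hBC, hcard⟩ := Finset.exists_subset_card_eq
      (show (∑ k, D k i₀ / qq i₀) + 1 ≤ (univ.filter fun i => c' i = c' i₀).card by omega)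
    have hB : ∀ i ∈ B, c' i = c' i₀ := fun i hi => (mem_filter.1 (hBC hi)).2
    have hne : B.Nonempty := card_pos.1 (by omega)
    have hblk := gl5_blk H hB hne
    obtain ⟨G, hG⟩ := exists_GB hblk
    intro x hx x' hx'
    have h0 := g1 hN hblk hG h.resp ha0 hav (fun ψ hψ x hx => by
      rw [h.eqv ψ (gl5_group H.qcls hB hψ) x hx, gl5_chi (fun i hi => hac i i₀ (hB i hi)) hψ]) hcard.symm
    rw [h0 x hx, h0 x' hx']

end Pool.Agent.H10S
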