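import Mathlib
import Pool.Agent.Lib.H10S.AA3
import Pool.Agent.Lib.H10S.ML1

/-!
CHUNK ML2 (M). The components of a class function.
-/

open MvPolynomial Finset

namespace Pool.Agent.H10S

open Pool.Agent.Bloch (RespectsG chi)
open Pool.Agent.H7SH (young Killed alg_sg)
open Pool.Agent.H7CX (ca ca_eq gmul)

variable {N r d : ℕ} [NeZero d] {c q : Fin N → ℕ} {F : Fin r → MvPolynomial (Fin N × Bool) ℂ}
  {D : Fin r → Fin N → ℕ}

/-- The component of the character `a`. -/
noncomputable def fQ (q : Fin N → ℕ) (cl : (Fin N × Bool → ℂ) → ℂ) (a : Fin N → ZMod d)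
    (x : Fin N × Bool → ℂ) : ℂ :=
  ∑ γ ∈ TQ q d, chi a (-γ) * cl (mact (γ, 1) x)

theorem ml2_mem {γ : Fin N → ZMod d} : γ ∈ TQ q d ↔ ∀ i, (q i : ZMod d) * γ i = 0 := by
  rw [TQ, mem_filter]
  exact and_iff_right (mem_univ _)

/-- PROOF. As `H7CX.fT_act` (Lib/H7CX/AL8.lean), with `mact_gmul`. -/
theorem fQ_act (cl : (Fin N × Bool → ℂ) → ℂ) (a : Fin N → ZMod d) {γ : Fin N → ZMod d}
    (hγ : γ ∈ TQ q d) (x : Fin N × Bool → ℂ) : fQ q cl a (mact (γ, 1) x) = chi a γ * fQ q cl a x := by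
  rw [fQ, fQ, Finset.mul_sum]
  refine Finset.sum_nbij' (fun γ' => γ' + γ) (fun γ' => γ' - γ) ?_ ?_ ?_ ?_ ?_
  · intro γ' hγ'
    rw [ml2_mem] at *
    intro i
    rw [Pi.add_apply, mul_add, hγ' i, hγ i, add_zero]
  · intro γ' hγ'
    rw [ml2_mem] at *
    intro i
    rw [Pi.sub_apply, mul_sub, hγ' i, hγ i, sub_zero]
  · intro γ' _
    exact add_sub_cancel_right _ _
  · intro γ' _
    exact sub_add_cancel _ _
  · intro γ' _
    have h : -γ' = γ + -(γ' + γ) := by abel
    have h1 : mact ((γ' + γ : Fin N → ZMod d), (1 : Equiv.Perm (Fin N))) x =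
        mact ((γ' : Fin N → ZMod d), (1 : Equiv.Perm (Fin N))) (mact (γ, 1) x) := by
      rw [← mact_gmul]
      rfl
    rw [h1, ← mul_assoc, ← Bloch.chi_add, ← h]

/-- PROOF. As `H7CX.fT_inversion`, with `sum_chi_AQ` (for `γ - γ'`). -/
theorem fQ_inversion (hq : ∀ i, q i ∣ d) (cl : (Fin N × Bool → ℂ) → ℂ) {γ : Fin N → ZMod d}
    (hγ : γ ∈ TQ q d) (x : Fin N × Bool → ℂ) :
    ∑ a ∈ AQ q d, chi a γ * fQ q cl a x = (∏ i, (q i : ℂ)) * cl (mact (γ, 1) x) := by
  have h1 : ∀ a : Fin N → ZMod d, chi a γ * fQ q cl a x =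
      ∑ γ' ∈ TQ q d, chi a (γ - γ') * cl (mact (γ', 1) x) := by
    intro a
    rw [fQ, Finset.mul_sum]
    refine Finset.sum_congr rfl fun γ' _ => ?_
    rw [← mul_assoc, ← Bloch.chi_add, ← sub_eq_add_neg]
  rw [Finset.sum_congr rfl fun a _ => h1 a, Finset.sum_comm]
  have h2 : ∀ γ' ∈ TQ q d, ∑ a ∈ AQ q d, chi a (γ - γ') * cl (mact (γ', 1) x) =
      if γ' = γ then (∏ i, (q i : ℂ)) * cl (mact (γ', 1) x) else 0 := by
    intro γ' hγ'
    have hmem : γ - γ' ∈ TQ q d := by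
      rw [ml2_mem] at *
      intro i
      rw [Pi.sub_apply, mul_sub, hγ' i, hγ i, sub_zero]
    rw [← Finset.sum_mul, sum_chi_AQ hq hmem]
    by_cases h : γ' = γ
    · subst h
      rw [if_pos rfl, if_pos (sub_self _)]
    · rw [if_neg h, if_neg (fun h3 => h (sub_eq_zero.1 h3).symm), zero_mul]
  rw [Finset.sum_congr rfl h2, Finset.sum_ite_eq' _ _ _, if_pos hγ]

/-- PROOF. As `H7CX.respects_fT`: `RespectsG.sum`, `RespectsG.smul`, `cls_mact`. -/
theorem cls_fQ (hinv : IsInvariant c q d F) {cl : (Fin N × Bool → ℂ) → ℂ} (h : Cls F cl)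
    (a : Fin N → ZMod d) : Cls F (fQ q cl a) := by
  have h1 : RespectsG (XP F) (fun x : Fin N × Bool → ℂ => seg x)
      fun x => ∑ γ ∈ TQ q d, chi a (-γ) • cl (mact (γ, 1) x) := by
    refine Bloch.RespectsG.sum fun γ hγ => Bloch.RespectsG.smul ?_ _
    exact cls_mact hinv h (ψ := (γ, 1)) ⟨fun i => ml2_mem.1 hγ i, fun i => rfl⟩
  exact h1

/-- CHUNK ML2. PROOF. As `H7CX.equi_sum` (Lib/H7CX/AL8.lean; adapt the proof: `act` → `mact`, `TF T d` → `TQ q d`,
`Sep` → `hqc`). -/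
theorem equi_sumQ (hqc : ∀ i j, c i = c j → q i = q j) (hinv : IsInvariant c q d F)
    {cl : (Fin N × Bool → ℂ) → ℂ} (h : Cls F cl) {a : Fin N → ZMod d} {c' : Fin N → ℕ}
    (hc' : ∀ i i', c' i = c' i' → ca c a i = ca c a i') {g' : Equiv.Perm (Fin N)}
    (hg' : g' ∈ young (ca c a)) :
    Equi F c' q a fun z => ∑ h ∈ young c', fQ q cl a (mact ((0 : Fin N → ZMod d), g' * h) z) := by
  have hcc : ∀ h ∈ young c', ∀ i, ca c a ((g' * h) i) = ca c a i := by
    intro h hh i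
    rw [Equiv.Perm.mul_apply, H7SH.alg_mem.1 hg']
    exact hc' _ _ (H7SH.alg_mem.1 hh i)
  have hcs : ∀ h ∈ young c', ∀ i, ca c a ((g' * h).symm i) = ca c a i := by
    intro h hh i
    have h1 := hcc h hh ((g' * h).symm i)
    rw [Equiv.apply_symm_apply] at h1
    exact h1.symm
  have hzero : ∀ h ∈ young c', InGroup c q ((0 : Fin N → ZMod d), g' * h) := by
    intro h hh
    exact ⟨fun i => mul_zero _, fun i => (ca_eq.1 (hcc h hh i)).1⟩
  constructor
  · exact Bloch.RespectsG.sum fun h' hh' => cls_mact hinv (cls_fQ hinv h a) (hzero h' hh')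
  · rintro ⟨γ, g⟩ hψ z hz
    have hγ : γ ∈ TQ q d := ml2_mem.2 hψ.1
    have hg : g ∈ young c' := H7SH.alg_mem.2 hψ.2
    rw [Finset.mul_sum]
    refine Finset.sum_nbij' (fun h => h * g) (fun h => h * g⁻¹) ?_ ?_ ?_ ?_ ?_
    · intro h' hh'
      exact H7SH.alg_mul hh' hg
    · intro h' hh'
      rw [H7SH.alg_mem] at *
      intro i
      rw [Equiv.Perm.mul_apply, hh']
      have h2 := hg (g⁻¹ i)
      have h3 : g (g⁻¹ i) = i := Equiv.apply_symm_apply g i
      rw [h3] at h2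
      exact h2.symm
    · intro h' _
      exact mul_inv_cancel_right _ _
    · intro h' _
      exact inv_mul_cancel_right _ _
    · intro h' hh'
      have h2 : mact ((0 : Fin N → ZMod d), g' * h') (mact (γ, g) z) =
          mact ((γ ∘ (g' * h').symm : Fin N → ZMod d), (1 : Equiv.Perm (Fin N)))
            (mact ((0 : Fin N → ZMod d), g' * (h' * g)) z) := by
        rw [← mact_gmul, ← mact_gmul]
        congr 1
        refine Prod.ext ?_ ?_
        · funext i
          show (0 : ZMod d) + γ ((g' * h').symm i) = γ ((g' * h').symm i) + 0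
          rw [zero_add, add_zero]
        · show g' * h' * g = 1 * (g' * (h' * g))
          rw [one_mul, mul_assoc]
      have h3 : (γ ∘ (g' * h').symm : Fin N → ZMod d) ∈ TQ q d := by
        rw [ml2_mem] at *
        intro i
        have h5 := hqc _ _ (ca_eq.1 (hcs h' hh' i)).1
        have h6 := hγ ((g' * h').symm i)
        rw [h5] at h6
        exact h6
      have h4 : chi a (γ ∘ (g' * h').symm) = chi a γ := by
        have h5 : a ∘ (g' * h').symm = a := by
          funext i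
          exact (ca_eq.1 (hcs h' hh' i)).2
        have h6 := Bloch.chi_comp a γ (g' * h').symm
        rw [h5] at h6
        exact h6
      rw [h2, fQ_act cl a h3, h4]

end Pool.Agent.H10S
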