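import Mathlib
import Pool.Agent.Lib.H10S.AA8
import Pool.Agent.Lib.H10S.ML2
import Pool.Agent.Lib.H10S.GL5

/-!
CHUNK ML3 (M). The values of a class function at the image of the correspondence.
-/

open MvPolynomial Finset

namespace Pool.Agent.H10S

open Pool.Agent.Bloch (RespectsG chi)
open Pool.Agent.H7SH (young Killed alg_sg)
open Pool.Agent.H7CX (ca ca_eq gmul)

variable {N r d : ℕ} [NeZero d] {c q : Fin N → ℕ} {F : Fin r → MvPolynomial (Fin N × Bool) ℂ}
  {D : Fin r → Fin N → ℕ}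

/-- CHUNK ML3. PROOF. As `H7CX.const_scalar` (Lib/H7CX/MN.lean; adapt its proof: `act` → `mact`, `TF T d` → `TQ q d` for `γ` and
`AQ q d` for `a`, `fT` → `fQ`, `(d : ℂ) ^ T.card` → `∏ i, (q i : ℂ)`, not zero since `q i ∣ d`). By `fQ_inversion`
`(∏ q i) * ∑ φ, Z φ * cl (mact φ z) = ∑ a ∈ AQ q d, ∑ σ ∈ young c, zhat a σ * fQ a (mact (0, σ) z)`, so it is enough that for
`a ∈ AQ q d` the sum `∑ σ ∈ young c, zhat a σ * m σ` vanishes for `m σ = fQ a (mact (0, σ) x) - fQ a (mact (0, σ) y)`: `alg_aL`.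
Its `hm` for `c'`, `i`, `σ₀`, `g`, `g'`: by `equi_sumQ` the function `φ' z = ∑ h ∈ young c', fQ a (mact (0, g' * h) z)` is
`Equi F c' q a`, and `geo` for `c'` (`Hyp c' q d F D` follows from `H` as `c'` refines `ca c a`, hence `c`; `a` is constant
on the classes of `c'`) says that it is constant on `XP F`; apply it to `mact (0, g * σ₀) x` and `mact (0, g * σ₀) y`. -/
theorem const_scalarQ (hN : 1 ≤ N) (H : Hyp c q d F D) (hsm : IsSmooth F)
    {Z : (Fin N → ZMod d) × Equiv.Perm (Fin N) → ℚ} (hZc : ∀ φ, Z φ ≠ 0 → InGroup c q φ)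
    (hZ : KillsTopForms F D Z) {cl : (Fin N × Bool → ℂ) → ℂ} (h : Cls F cl) :
    ∀ x ∈ XP F, ∀ y ∈ XP F,
      ∑ φ, (Z φ : ℂ) * cl (mact φ x) = ∑ φ, (Z φ : ℂ) * cl (mact φ y) := by
  classical
  have hmem : ∀ (c : Fin N → ℕ) (g : Equiv.Perm (Fin N)), g ∈ young c ↔ ∀ i, c (g i) = c i := by
    intro c g
    rw [young, mem_filter]
    exact ⟨fun h => h.2, fun h => ⟨mem_univ _, h⟩⟩
  have hG : ∀ g ∈ young c, InGroup c q ((0 : Fin N → ZMod d), g) :=
    fun g hg => ⟨fun _ => mul_zero _, fun i => (hmem c g).1 hg i⟩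
  have hact : ∀ (g g' : Equiv.Perm (Fin N)) (x : Fin N × Bool → ℂ),
      mact ((0 : Fin N → ZMod d), g) (mact ((0 : Fin N → ZMod d), g') x) =
        mact ((0 : Fin N → ZMod d), g * g') x := by
    intro g g' x
    rw [← mact_gmul]
    congr 1
    refine Prod.ext ?_ rfl
    funext i
    show (0 : ZMod d) + 0 = 0
    rw [add_zero]
  have hmul : ∀ x, (∏ i, (q i : ℂ)) * ∑ φ, (Z φ : ℂ) * cl (mact φ x) =
      ∑ a ∈ AQ q d, ∑ σ ∈ young c, Bloch.zhat (fun φ => (Z φ : ℂ)) a σ *
        fQ q cl a (mact ((0 : Fin N → ZMod d), σ) x) := by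
    intro x
    have h1 : ∀ φ : (Fin N → ZMod d) × Equiv.Perm (Fin N),
        (∏ i, (q i : ℂ)) * ((Z φ : ℂ) * cl (mact φ x)) =
        ∑ a ∈ AQ q d, ((Z φ : ℂ) * chi a φ.1) * fQ q cl a (mact ((0 : Fin N → ZMod d), φ.2) x) := by
      intro φ
      by_cases hφ : Z φ = 0
      · rw [hφ]
        simp
      · have h2 := (hZc φ hφ).1
        have h3 : φ.1 ∈ TQ q d := ml2_mem.2 h2
        have h4 := fQ_inversion H.dvd cl h3 (mact ((0 : Fin N → ZMod d), φ.2) x)
        have h5 : mact (φ.1, (1 : Equiv.Perm (Fin N))) (mact ((0 : Fin N → ZMod d), φ.2) x) =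
            mact φ x := by
          rw [← mact_gmul]
          congr 1
          refine Prod.ext ?_ ?_
          · funext i
            show φ.1 i + (0 : ZMod d) = φ.1 i
            rw [add_zero]
          · show 1 * φ.2 = φ.2
            rw [one_mul]
        rw [h5] at h4
        rw [mul_left_comm, ← h4, mul_sum]
        exact sum_congr rfl fun a _ => by ring
    rw [mul_sum, sum_congr rfl fun φ _ => h1 φ, sum_comm]
    refine sum_congr rfl fun a _ => ?_
    rw [Fintype.sum_prod_type, sum_comm]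
    symm
    rw [Finset.sum_subset (Finset.subset_univ (young c))]
    · refine sum_congr rfl fun σ _ => ?_
      rw [Bloch.zhat, sum_mul]
    · intro σ _ hσ
      have h2 : Bloch.zhat (fun φ => (Z φ : ℂ)) a σ = 0 := by
        rw [Bloch.zhat]
        refine sum_eq_zero fun γ _ => ?_
        have h3 : Z (γ, σ) = 0 := by
          by_contra hne
          exact hσ ((hmem c σ).2 (hZc _ hne).2)
        rw [h3]
        simp
      rw [h2, zero_mul]
  intro x hx y hy
  have hdN : (∏ i, (q i : ℂ)) ≠ 0 := by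
    refine Finset.prod_ne_zero_iff.2 fun i _ => Nat.cast_ne_zero.2 ?_
    intro h0
    have h1 := H.dvd i
    rw [h0, zero_dvd_iff] at h1
    exact NeZero.ne d h1
  apply mul_left_cancel₀ hdN
  rw [hmul, hmul, ← sub_eq_zero, ← sum_sub_distrib]
  refine sum_eq_zero fun a ha => ?_
  rw [← sum_sub_distrib]
  have h1 := alg_aL H hsm ⟨x, hx⟩ hZc hZ ha
    (fun σ => fQ q cl a (mact ((0 : Fin N → ZMod d), σ) x) -
      fQ q cl a (mact ((0 : Fin N → ZMod d), σ) y)) (by
      intro c' hc' hcount σ₀ hσ₀ g hg g' hg'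
      have hcc : ∀ i i', c' i = c' i' → c i = c i' := fun i i' h => (ca_eq.1 (hc' i i' h)).1
      have hinv' : IsInvariant c' q d F :=
        fun k ψ hψ x => H.inv k ψ ⟨hψ.1, fun i => hcc _ _ (hψ.2 i)⟩ x
      have H' : Hyp c' q d F D :=
        { md := H.md
          r1 := H.r1
          dvd := H.dvd
          qcls := fun i j hij => H.qcls i j (hcc i j hij)
          qD := H.qD
          Dcls := fun k i j hij => H.Dcls k i j (hcc i j hij)
          inv := hinv' }
      obtain ⟨i₀, hi₀⟩ := hcount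
      have h2 := geo hN H' ha (fun i j hij => (ca_eq.1 (hc' i j hij)).2)
        (equi_sumQ H.qcls H.inv h hc' hg') hi₀
      have hgc : g ∈ young c := (hmem c g).2 fun i => (ca_eq.1 ((hmem _ g).1 hg i)).1
      have hgσ : g * σ₀ ∈ young c := (hmem c _).2 fun i => by
        rw [Equiv.Perm.mul_apply, (hmem c g).1 hgc, (hmem c σ₀).1 hσ₀]
      have h3 := h2 _ (mact_XPc H.inv (hG _ hgσ) hx) _ (mact_XPc H.inv (hG _ hgσ) hy)
      have h4 : ∀ z : Fin N × Bool → ℂ, ∑ h ∈ young c', fQ q cl a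
          (mact ((0 : Fin N → ZMod d), g' * h) (mact ((0 : Fin N → ZMod d), g * σ₀) z)) =
          ∑ h ∈ young c', fQ q cl a (mact ((0 : Fin N → ZMod d), g' * h * g * σ₀) z) := by
        intro z
        refine sum_congr rfl fun h _ => ?_
        rw [hact, ← mul_assoc]
      beta_reduce at h3
      rw [h4, h4] at h3
      rw [sum_sub_distrib, h3, sub_self])
  rw [← h1]
  exact sum_congr rfl fun σ _ => by ring

end Pool.Agent.H10S
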