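import Mathlib
import Pool.Agent.Lib.H10S.GA3

/-!
CHUNK ML4 (M). Classes of points; descent.
-/

open MvPolynomial Finset

namespace Pool.Agent.H10S

open Pool.Agent.Bloch (RespectsG PP relC clP clV toC descent ratEquiv)

variable {N r d : ℕ} [NeZero d] {F : Fin r → MvPolynomial (Fin N × Bool) ℂ}
  {D : Fin r → Fin N → ℕ}

/-- PROOF. The representative of the class of `seg x` is `a • seg x`, `a ≠ 0`, which is in `SC F` (`smul_SC`). -/
theorem mk_mem_locus (hN : 1 ≤ N) (h : MD F D) {x : Fin N × Bool → ℂ} (hx : x ∈ XP F)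
    (h0 : seg x ≠ 0) : Projectivization.mk ℂ (seg x) h0 ∈ locus F := by
  obtain ⟨a, ha⟩ := Projectivization.exists_smul_eq_mk_rep ℂ (seg x) h0
  obtain ⟨y, hy, hy'⟩ := smul_SC hN h (t := (a : ℂ)) a.ne_zero (y := seg x) ⟨x, hx, rfl⟩
  refine ⟨y, hy.1, hy.2, ?_⟩
  rw [← ha, ← hy']
  rfl

theorem ml4_ne {x : Fin N × Bool → ℂ} (hx : x ∈ XP F) : seg x ≠ 0 := seg_ne_zero.2 hx.1

theorem ml4_isMember (hN : 1 ≤ N) (hF : MD F D) {κ : Type} [Fintype κ]
    {G : MvPolynomial (Fin N → Bool) (Polynomial ℂ)} {t : ℂ}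
    {v : κ → Fin N × Bool → ℂ} (hv : ∀ k, v k ∈ XP F)
    (h : Bloch.ProdForm (Bloch.fibre G t) fun k => seg (v k)) :
    Bloch.IsMember (locus F) G t (Bloch.pts (fun k => seg (v k)) fun k => ml4_ne (hv k)) := by
  refine ⟨fun p hp => ?_, Bloch.isChowForm_pts _ h⟩
  obtain ⟨k, -, rfl⟩ := Multiset.mem_map.1 hp
  exact mk_mem_locus hN hF (hv k) _

/-- PROOF. As `H7CX.respects_clV` (Lib/H7CX/CL.lean): for families whose members are sums of points of `SC F`; the members
are members of a family on `locus F` (`mk_mem_locus`, `Bloch.isChowForm_pts`, `Bloch.sum_clV`). -/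
theorem respects_clVL (hN : 1 ≤ N) (h : MD F D) :
    RespectsG (XP F) (fun x : Fin N × Bool → ℂ => seg x) fun x => clV (locus F) (seg x) := by
  intro κ _ P hP s t v w hv hFv hw hFw
  have e1 := Bloch.sum_clV (locus F) (v := fun k => seg (v k)) fun k => ml4_ne (hv k)
  have e2 := Bloch.sum_clV (locus F) (v := fun k => seg (w k)) fun k => ml4_ne (hw k)
  show ∑ k, clV (locus F) (seg (v k)) = ∑ k, clV (locus F) (seg (w k))
  rw [e1, e2, ← sub_eq_zero, ← map_sub]
  rw [Submodule.mkQ_apply, Submodule.Quotient.mk_eq_zero]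
  refine Submodule.subset_span ⟨P, _, _, s, t, ?_, ml4_isMember hN h hv hFv,
    ml4_isMember hN h hw hFw, rfl⟩
  intro t
  obtain ⟨u, hu, hFu⟩ := hP t
  exact ⟨_, ml4_isMember hN h hu hFu⟩

/-- PROOF. As `H7SH.class_pushforward` (Lib/H7SH/Cls.lean) or `Bloch.class_pushforward` (Lib/Bloch/Main.lean). -/
theorem class_pushforwardL (Z : (Fin N → ZMod d) × Equiv.Perm (Fin N) → ℚ)
    (X : Set (PP (Fin N → Bool))) (z : PP (Fin N → Bool) →₀ ℚ) :
    (relC X).mkQ (toC (Fin N → Bool) (pushforward Z z)) =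
      z.sum fun p a => (a : ℂ) • ∑ φ, (Z φ : ℂ) • clV X (Bloch.act (segAct φ) p.rep) := by
  induction z using Finsupp.induction_linear with
  | zero => simp [pushforward]
  | add f g hf hg =>
    rw [Finsupp.sum_add_index', ← hf, ← hg, ← map_add, ← map_add]
    · congr 2
      rw [pushforward, pushforward, pushforward, ← sum_add_distrib]
      exact sum_congr rfl fun φ _ => by rw [Finsupp.mapDomain_add, smul_add]
    · intro p; simp
    · intro p a b
      push_cast
      rw [add_smul]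
  | single p c =>
    rw [Finsupp.sum_single_index (by simp), pushforward, map_sum, map_sum, smul_sum]
    refine sum_congr rfl fun φ _ => ?_
    rw [Finsupp.mapDomain_single, Bloch.clV_eq X (Bloch.act_ne_zero (segAct φ) p.rep_nonzero),
      smul_smul, clP, ← map_smul]
    congr 1
    change toC (Fin N → Bool) (Z φ • Finsupp.single (Bloch.actP (segAct φ) p) c) =
      (((c : ℚ) : ℂ) * ((Z φ : ℚ) : ℂ)) • Finsupp.single (Bloch.actP (segAct φ) p) 1
    rw [Finsupp.smul_single, Finsupp.smul_single, toC, Finsupp.mapRange.linearMap_apply,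
      Finsupp.mapRange_single]
    congr 1
    simp [mul_comm]

/-- CHUNK ML4. PROOF. As `H7CX.descend` (Lib/H7CX/CL.lean), with `class_pushforwardL`, `Bloch.descent`; for `p` in the support
`p.rep = seg x` with `x ∈ XP F` (definition of `locus`), and `Bloch.act (segAct φ) (seg x) = seg (mact φ x)` (`seg_mact`). -/
theorem descendL (Z : (Fin N → ZMod d) × Equiv.Perm (Fin N) → ℚ)
    (hconst : ∀ x ∈ XP F, ∀ y ∈ XP F, ∑ φ, (Z φ : ℂ) • clV (locus F) (seg (mact φ x)) =
      ∑ φ, (Z φ : ℂ) • clV (locus F) (seg (mact φ y)))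
    (z : PP (Fin N → Bool) →₀ ℚ) (hz : ∀ p ∈ z.support, p ∈ locus F)
    (hdeg : (z.sum fun _ a => a) = 0) : pushforward Z z ∈ ratEquiv (locus F) := by
  apply descent
  rw [← Submodule.Quotient.mk_eq_zero, ← Submodule.mkQ_apply, class_pushforwardL]
  by_cases h0 : z = 0
  · rw [h0]; simp
  obtain ⟨p0, hp0⟩ := Finsupp.support_nonempty_iff.2 h0
  have hmem : ∀ p ∈ z.support, ∃ x ∈ XP F, p.rep = seg x := fun p hp => by
    obtain ⟨x, h1, h2, h3⟩ := hz p hp
    exact ⟨x, ⟨h1, h2⟩, h3⟩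
  rw [Finsupp.sum]
  have h1 : ∀ p ∈ z.support, ((z p : ℚ) : ℂ) • ∑ φ, (Z φ : ℂ) •
        clV (locus F) (Bloch.act (segAct φ) p.rep) =
      ((z p : ℚ) : ℂ) • ∑ φ, (Z φ : ℂ) • clV (locus F) (Bloch.act (segAct φ) p0.rep) := by
    intro p hp
    obtain ⟨x, hx, hx'⟩ := hmem p hp
    obtain ⟨y, hy, hy'⟩ := hmem p0 hp0
    rw [hx', hy']
    have h2 := hconst x hx y hy
    simp only [seg_mact] at h2
    exact congrArg _ h2
  rw [sum_congr rfl h1, ← sum_smul]
  have h2 : ∑ p ∈ z.support, ((z p : ℚ) : ℂ) = 0 := by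
    rw [Finsupp.sum] at hdeg
    exact_mod_cast hdeg
  rw [h2, zero_smul]

end Pool.Agent.H10S
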