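import Mathlib
import Pool.Agent.Lib.H10S.ML3
import Pool.Agent.Lib.H10S.ML4

/-!
The final assembly.
-/

open MvPolynomial Finset

namespace Pool.Agent.H10S

open Pool.Agent.Bloch (RespectsG PP relC clP clV toC descent ratEquiv)

variable {N r d : ℕ} [NeZero d] {c q : Fin N → ℕ} {F : Fin r → MvPolynomial (Fin N × Bool) ℂ}
  {D : Fin r → Fin N → ℕ}

theorem main (hN : 1 ≤ N) (H : Hyp c q d F D) (hsm : IsSmooth F)
    {Z : (Fin N → ZMod d) × Equiv.Perm (Fin N) → ℚ} (hZc : ∀ φ, Z φ ≠ 0 → InGroup c q φ)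
    (hZ : KillsTopForms F D Z) (z : PP (Fin N → Bool) →₀ ℚ) (hz : ∀ p ∈ z.support, p ∈ locus F)
    (hdeg : (z.sum fun _ a => a) = 0) : pushforward Z z ∈ ratEquiv (locus F) := by
  refine descendL Z ?_ z hz hdeg
  intro x hx y hy
  rw [← sub_eq_zero, ← Module.forall_dual_apply_eq_zero_iff ℂ]
  intro f
  have h1 : Cls F fun u => f (clV (locus F) (seg u)) := by
    intro κ _ P hP s t v w hv hFv hw hFw
    have h0 := respects_clVL hN H.md κ P hP s t v w hv hFv hw hFw
    simp only at h0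
    rw [← map_sum, ← map_sum, h0]
  have h2 := const_scalarQ hN H hsm hZc hZ h1 x hx y hy
  rw [map_sub, map_sum, map_sum, sub_eq_zero]
  simp only [map_smul, smul_eq_mul]
  exact h2

end Pool.Agent.H10S
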