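import Pool.Agent.Lib.H10S.G8
import Pool.Agent.Lib.H10S.F7

/-!
# H10S, file Nest: nested small triangles

`a B` crosses `b A`, small triangle `D` at `a, b` (`inn T a B b A`); `e F` crosses `h G`, small triangle `D'` at
`e, h`. `trap`: an edge `v a` which starts in `D` and misses `b A` meets no edge outside `D`. `nest`: if the
boundaries of `D` and `D'` do not meet, `e, F, h, G` are not in `D` and `a, b` are in `D'`, then `D` is in `D'`.
-/

set_option autoImplicit false

namespace H10S

open H53P H30P Finset

variable {V : Type*} [DecidableEq V] {T : Table V}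

/-- an edge which starts in a small triangle `a, b` and ends at `a` inside meets no edge outside -/
theorem trap {a B b A v z w : V} (hX : T.X a B b A = true) (hv : inn T a B b A v = true)
    (h3 : T.X v a b A = false) (zb : z ≠ b) (wb : w ≠ b)
    (m1 : T.X z w a B = false) (m2 : T.X z w b A = false) (m3 : T.X z w a b = false)
    (o1 : inn T a B b A z = false) (o2 : inn T a B b A w = false) : T.X v a z w = false := by
  cases e : T.X v a z w with
  | false => rfl
  | true =>
    exfalso
    obtain ⟨aB, bA, ab, aA, Bb, BA⟩ := T.ne _ _ _ _ hX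
    obtain ⟨va', zw, vz, vw, az, aw⟩ := T.ne _ _ _ _ e
    obtain ⟨va, vB, vb, vA⟩ := inn_ne hX hv
    have key : ∀ {z w : V}, z ≠ b → w ≠ b → z ≠ w → v ≠ z → v ≠ w → a ≠ z → a ≠ w →
        w ≠ A → w ≠ B → T.X z w a B = false → T.X z w b A = false → T.X z w a b = false →
        inn T a B b A z = false → inn T a B b A w = false → T.X v a z w = true → False := by
      intro z w zb wb zw vz vw az aw wA wB m1 m2 m3 o1 o2 e
      by_cases zA : z = A
      · subst zA
        exact ne_6A (T := T) (a := a) (B := B) (b := b) (A := z) (v := v) (w := w)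
          (by simp [aB, bA, ab, aA, Bb, BA, Ne.symm va, Ne.symm vB, Ne.symm vb, Ne.symm vA, aw,
            Ne.symm wB, Ne.symm wb, zw, vw]) hX hv h3 m1 m3 o2 e
      by_cases zB : z = B
      · subst zB
        exact ne_6B (T := T) (a := a) (B := z) (b := b) (A := A) (v := v) (w := w)
          (by simp [aB, bA, ab, aA, Bb, BA, Ne.symm va, Ne.symm vB, Ne.symm vb, Ne.symm vA, aw,
            Ne.symm wA, Ne.symm wb, zw, vw]) hX hv h3 m2 m3 o2 e
      · exact ne_7 (T := T) (a := a) (B := B) (b := b) (A := A) (v := v) (z := z) (w := w)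
          (by simp [aB, bA, ab, aA, Bb, BA, Ne.symm va, Ne.symm vB, Ne.symm vb, Ne.symm vA, aw, az,
            Ne.symm zB, Ne.symm zA, Ne.symm wB, Ne.symm wA, Ne.symm zb, Ne.symm wb, zw, vw, vz])
          hX hv h3 m1 m2 m3 o1 o2 e
    by_cases wA : w = A
    · by_cases zB : z = B
      · subst wA zB
        exact ne_5AB (T := T) (a := a) (B := z) (b := b) (A := w) (v := v)
          (nd5 aB ab aA va.symm Bb BA vB.symm bA vb.symm vA.symm) hX hv h3
          (by rw [T.xs1]; exact m3) (by rw [T.xs2]; exact e)
      · exact key wb zb zw.symm vw vz aw az (by rw [wA] at zw; exact zw) zB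
          (by rw [T.xs1]; exact m1) (by rw [T.xs1]; exact m2) (by rw [T.xs1]; exact m3) o2 o1
          (by rw [T.xs2]; exact e)
    by_cases wB : w = B
    · by_cases zA : z = A
      · subst wB zA
        exact ne_5AB (T := T) (a := a) (B := w) (b := b) (A := z) (v := v)
          (nd5 aB ab aA va.symm Bb BA vB.symm bA vb.symm vA.symm) hX hv h3 m3 e
      · exact key wb zb zw.symm vw vz aw az zA (by rw [wB] at zw; exact zw)
          (by rw [T.xs1]; exact m1) (by rw [T.xs1]; exact m2) (by rw [T.xs1]; exact m3) o2 o1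
          (by rw [T.xs2]; exact e)
    exact key zb wb zw vz vw az aw wA wB m1 m2 m3 o1 o2 e

/-- one of the two edges `v a`, `v b` is inside -/
theorem in_or {a B b A v : V} (hX : T.X a B b A = true) (hv : inn T a B b A v = true) :
    T.X v a b A = false ∨ T.X v b a B = false := by
  obtain ⟨aB, bA, ab, aA, Bb, BA⟩ := T.ne _ _ _ _ hX
  obtain ⟨va, vB, vb, vA⟩ := inn_ne hX hv
  cases e1 : T.X v a b A with
  | false => exact Or.inl rfl
  | true =>
    cases e2 : T.X v b a B with
    | false => exact Or.inr rfl
    | true =>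
      exact (ne_5 (T := T) (nd5 aB ab aA va.symm Bb BA vB.symm bA vb.symm vA.symm) hX hv e1 e2).elim

/-- nested small triangles -/
theorem nest {a B b A e F h G v : V} (hP : T.X a B b A = true) (hQ : T.X e F h G = true)
    (m1 : T.X a B e F = false) (m2 : T.X a B h G = false) (m3 : T.X b A e F = false)
    (m4 : T.X b A h G = false) (g1 : T.X a b e F = false) (g2 : T.X a b h G = false)
    (oe : inn T a B b A e = false) (oF : inn T a B b A F = false) (oh : inn T a B b A h = false)
    (oG : inn T a B b A G = false) (ha : inn T e F h G a = true) (hb : inn T e F h G b = true)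
    (k1 : T.X e h a B = false) (k2 : T.X e h b A = false) (hv : inn T a B b A v = true) :
    inn T e F h G v = true := by
  obtain ⟨aB, bA, ab, aA, Bb, BA⟩ := T.ne _ _ _ _ hP
  obtain ⟨eF, hG, eh, eG, Fh, FG⟩ := T.ne _ _ _ _ hQ
  obtain ⟨ae, aF, ah, aG⟩ := inn_ne hQ ha
  obtain ⟨be, bF, bh, bG⟩ := inn_ne hQ hb
  -- `g` misses `g'`
  have gg : T.X a b e h = false := by
    have hC : Crs T a B b A e F h G := ⟨hP, hQ, m1, m2, m3, m4, ae, ah, be, bh⟩
    have h1 := g8_eq hC
    rw [oe, oh, ha, hb, z2_false, add_zero, add_zero, z2_true] at h1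
    cases e1 : T.X a b e h with
    | false => rfl
    | true =>
      rw [x4_true e1] at h1
      exact absurd h1 (by decide)
  have ve : v ≠ e := fun h1 => by rw [h1, oe] at hv; cases hv
  have vh : v ≠ h := fun h1 => by rw [h1, oh] at hv; cases hv
  rcases in_or hP hv with h3 | h3
  · -- `v a` is inside
    have t1 := trap hP hv h3 be.symm bF.symm (by rw [T.xs4]; exact m1) (by rw [T.xs4]; exact m3)
      (by rw [T.xs4]; exact g1) oe oF
    have t2 := trap hP hv h3 bh.symm bG.symm (by rw [T.xs4]; exact m2) (by rw [T.xs4]; exact m4)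
      (by rw [T.xs4]; exact g2) oh oG
    have t3 := trap hP hv h3 be.symm bh.symm k1 k2 (by rw [T.xs4]; exact gg) oe oh
    have s := sm_edge hQ (inn_ne hP hv).1 ve vh ae ah (by rw [T.xs4]; exact t1)
      (by rw [T.xs4]; exact t2)
    rw [ha, x4_4, x4_false t3] at s
    cases e1 : inn T e F h G v with
    | true => rfl
    | false =>
      rw [e1, z2_false, z2_true, zero_add] at s
      exact absurd s (by decide)
  · -- `v b` is inside
    have hP' : T.X b A a B = true := by rw [T.xs4]; exact hP
    have hv' : inn T b A a B v = true := by rw [inn_swap]; exact hv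
    have sw : ∀ {y : V}, inn T a B b A y = false → inn T b A a B y = false := fun hy => by
      rw [inn_swap]; exact hy
    have t1 := trap hP' hv' h3 ae.symm aF.symm (by rw [T.xs4]; exact m3) (by rw [T.xs4]; exact m1)
      (by rw [T.xs5]; exact g1) (sw oe) (sw oF)
    have t2 := trap hP' hv' h3 ah.symm aG.symm (by rw [T.xs4]; exact m4) (by rw [T.xs4]; exact m2)
      (by rw [T.xs5]; exact g2) (sw oh) (sw oG)
    have t3 := trap hP' hv' h3 ae.symm ah.symm k2 k1 (by rw [T.xs5]; exact gg) (sw oe) (sw oh)
    have s := sm_edge hQ (inn_ne hP hv).2.2.1 ve vh be bh (by rw [T.xs4]; exact t1)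
      (by rw [T.xs4]; exact t2)
    rw [hb, x4_4, x4_false t3] at s
    cases e1 : inn T e F h G v with
    | true => rfl
    | false =>
      rw [e1, z2_false, z2_true, zero_add] at s
      exact absurd s (by decide)

end H10S
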