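import Pool.Agent.Lib.H10S.G8
import Pool.Agent.Lib.H8C.Room

/-!
# H10S, file RSep: separation for a cornered curve

`h : Room T w p A B`. The edges `x u`, `y v` cross; both miss the path, `c = (w 0) B` and `d = (w p) A`.

* `rsep_off`: `x`, `y` off the path: they are on the same side (`rs`);
* `rsep_one`: `x` off the path, `y = w i`: the side of `x` is the start side of `w i → v`;
* `rsep_two`, `rsep_adj`, `rsep_all`: `x = w i`, `y = w j`: `w i → u` and `w j → v` start on the same side.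
-/

set_option autoImplicit false

namespace H10S

open H53P H30P Finset

variable {V : Type*} [DecidableEq V] {T : Table V}

/-- the edges off `x` and `y`, with an exceptional edge `s(q, p)` -/
theorem rst_pot' {E : Finset (Sym2 V)} {x u y v p q : V} (hX : T.X x u y v = true)
    (hE : s(q, p) ∈ E) (xp : x ≠ p) (xq : x ≠ q) (yp : y ≠ p) (yq : y ≠ q)
    (hxe : ∀ a b, s(a, b) ∈ E → s(a, b) ≠ s(q, p) → T.X x u a b = false)
    (hye : ∀ a b, s(a, b) ∈ E → s(a, b) ≠ s(q, p) → T.X y v a b = false) (hl : Lpl E) :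
    ∑ e ∈ rst E x y, xe T x y e = ∑ e ∈ rst E x y, ds (pot T x u y v) e +
      (x4 T x y p q + (z2 (inn T x u y v p) + z2 (inn T x u y v q))) := by
  have hg : s(q, p) ∈ rst E x y := by
    unfold rst
    rw [mem_filter, mem_filter, Sym2.mem_iff, Sym2.mem_iff, not_or, not_or]
    exact ⟨⟨hE, xq, xp⟩, yq, yp⟩
  rw [← Finset.add_sum_erase _ _ hg, ← Finset.add_sum_erase (rst E x y) (ds (pot T x u y v)) hg]
  have h1 : ∑ e ∈ (rst E x y).erase s(q, p), xe T x y e =
      ∑ e ∈ (rst E x y).erase s(q, p), ds (pot T x u y v) e := by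
    apply sum_congr rfl
    intro e he
    rw [mem_erase] at he
    obtain ⟨hne, he⟩ := he
    induction e with
    | _ c d =>
    obtain ⟨hE, cx, dx, cy, dy⟩ := rst_mem he
    have cd : c ≠ d := fun h => hl c (by rw [← h] at hE; exact hE)
    rw [xe_mk, ds_mk, pot_of cx cy, pot_of dx dy]
    exact sm_edge hX cd cx cy dx dy (hxe c d hE hne) (hye c d hE hne)
  rw [h1, xe_mk, ds_mk, pot_of xq.symm yq.symm, pot_of xp.symm yp.symm, x4_2 T x y q p]
  linear_combination (norm := (ring_nf; reduce_mod_char)) (0 : ZMod 2) = 0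

theorem sum_off {E : Finset (Sym2 V)} {x y : V} (hx : Off E x) (hy : Off E y) (g : Sym2 V → ZMod 2) :
    ∑ e ∈ E, g e = ∑ e ∈ rst E x y, g e := by
  have h1 : rst E x y = E := by
    unfold rst
    ext e
    rw [mem_filter, mem_filter]
    constructor
    · exact fun h => h.1.1
    · intro h
      refine ⟨⟨h, ?_⟩, ?_⟩
      · rintro ⟨b, rfl⟩
        exact hx b h
      · rintro ⟨b, rfl⟩
        exact hy b h
  rw [h1]

theorem sum_one {E : Finset (Sym2 V)} {x y a b : V} (hx : Off E x) (hy : Nb E y a b)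
    (g : Sym2 V → ZMod 2) :
    ∑ e ∈ E, g e = g s(y, a) + g s(y, b) + ∑ e ∈ rst E x y, g e := by
  have h1 : rst E x y = E.filter (fun e => ¬ y ∈ e) := by
    unfold rst
    ext e
    rw [mem_filter, mem_filter, mem_filter]
    constructor
    · exact fun h => ⟨h.1.1, h.2⟩
    · intro h
      refine ⟨⟨h.1, ?_⟩, h.2⟩
      rintro ⟨b, rfl⟩
      exact hx b h.1
  rw [← Finset.sum_filter_add_sum_filter_not E (fun e => y ∈ e), hy.sum_star, h1]

section

variable {E : Finset (Sym2 V)} {x u y v p B q A : V}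

/-- both vertices off the closed set -/
theorem cr_off (hE : Clo E) (hC : Crs T x u y v p B q A) (hg : s(q, p) ∈ E)
    (hxe : ∀ a b, s(a, b) ∈ E → s(a, b) ≠ s(q, p) → T.X x u a b = false)
    (hye : ∀ a b, s(a, b) ∈ E → s(a, b) ≠ s(q, p) → T.X y v a b = false)
    (hx : Off E x) (hy : Off E y) (hl : Lpl E) :
    pc T E x y = z2 (inn T p B q A x) + z2 (inn T p B q A y) := by
  have h1 := hE (pot T x u y v)
  rw [sum_off hx hy] at h1
  unfold pc
  rw [sum_off hx hy, rst_pot' hC.c1 hg hC.xp hC.xq hC.yp hC.yq hxe hye hl, g8_eq hC]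
  linear_combination h1

/-- `y` on the closed set -/
theorem cr_one (hE : Clo E) (hC : Crs T x u y v p B q A) (hg : s(q, p) ∈ E)
    (hxe : ∀ a b, s(a, b) ∈ E → s(a, b) ≠ s(q, p) → T.X x u a b = false)
    (hye : ∀ a b, s(a, b) ∈ E → s(a, b) ≠ s(q, p) → T.X y v a b = false)
    {a b : V} (hx : Off E x) (hy : Nb E y a b) (hv : s(y, v) ∉ E) (hl : Lpl E) :
    pc T E x y = al T y a b x v + (z2 (inn T p B q A x) + z2 (inn T p B q A y)) := by
  have ney : ∀ c, s(y, c) ∈ E → c ≠ x ∧ c ≠ y ∧ c ≠ v ∧ s(y, c) ≠ s(q, p) := by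
    intro c h
    refine ⟨?_, ?_, ?_, ?_⟩
    · intro h2; subst h2; exact hx y (by rw [Sym2.eq_swap]; exact h)
    · intro h2; subst h2; exact hl c h
    · intro h2; subst h2; exact hv h
    · intro h2
      rw [Sym2.eq_iff] at h2
      rcases h2 with ⟨h3, _⟩ | ⟨h3, _⟩
      · exact hC.yq h3
      · exact hC.yp h3
  have na := ney a hy.m1
  have nb := ney b hy.m2
  have h1 := hE (pot T x u y v)
  rw [sum_one hx hy] at h1
  unfold pc
  rw [sum_one hx hy, rst_pot' hC.c1 hg hC.xp hC.xq hC.yp hC.yq hxe hye hl, g8_eq hC]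
  simp only [xe_mk, ds_mk, pot_y, x4_adj3] at h1 ⊢
  rw [pot_of na.1 na.2.1, pot_of nb.1 nb.2.1] at h1
  rw [sec hC.c1 (hxe y a hy.m1 na.2.2.2) (hxe y b hy.m2 nb.2.2.2) na.2.1 nb.2.1 na.1 nb.1 na.2.2.1
    nb.2.2.1 hy.ne]
  linear_combination (norm := (ring_nf; reduce_mod_char)) h1

/-- both vertices on the closed set, not adjacent -/
theorem cr_two (hE : Clo E) (hC : Crs T x u y v p B q A) (hg : s(q, p) ∈ E)
    (hxe : ∀ a b, s(a, b) ∈ E → s(a, b) ≠ s(q, p) → T.X x u a b = false)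
    (hye : ∀ a b, s(a, b) ∈ E → s(a, b) ≠ s(q, p) → T.X y v a b = false)
    {a a' b b' : V} (hx : Nb E x a a') (hy : Nb E y b b')
    (hxy : s(x, y) ∉ E) (hu : s(x, u) ∉ E) (hv : s(y, v) ∉ E) (hl : Lpl E) :
    pc T E x y = al T x a a' y u + al T y b b' x v +
      (z2 (inn T p B q A x) + z2 (inn T p B q A y)) := by
  obtain ⟨xu, yv, xy, xv, uy, uv⟩ := T.ne _ _ _ _ hC.c1
  have nex : ∀ c, s(x, c) ∈ E → c ≠ x ∧ c ≠ y ∧ c ≠ u ∧ s(x, c) ≠ s(q, p) := by
    intro c h
    refine ⟨?_, ?_, ?_, ?_⟩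
    · intro h2; subst h2; exact hl c h
    · intro h2; subst h2; exact hxy h
    · intro h2; subst h2; exact hu h
    · intro h2
      rw [Sym2.eq_iff] at h2
      rcases h2 with ⟨h3, _⟩ | ⟨h3, _⟩
      · exact hC.xq h3
      · exact hC.xp h3
  have ney : ∀ c, s(y, c) ∈ E → c ≠ x ∧ c ≠ y ∧ c ≠ v ∧ s(y, c) ≠ s(q, p) := by
    intro c h
    refine ⟨?_, ?_, ?_, ?_⟩
    · intro h2; subst h2; exact hxy (by rw [Sym2.eq_swap]; exact h)
    · intro h2; subst h2; exact hl c h
    · intro h2; subst h2; exact hv h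
    · intro h2
      rw [Sym2.eq_iff] at h2
      rcases h2 with ⟨h3, _⟩ | ⟨h3, _⟩
      · exact hC.yq h3
      · exact hC.yp h3
  have na := nex a hx.m1
  have na' := nex a' hx.m2
  have nb := ney b hy.m1
  have nb' := ney b' hy.m2
  have h1 := hE (pot T x u y v)
  rw [sum_two hx hy xy hxy] at h1
  unfold pc
  rw [sum_two hx hy xy hxy, rst_pot' hC.c1 hg hC.xp hC.xq hC.yp hC.yq hxe hye hl, g8_eq hC]
  simp only [xe_mk, ds_mk, pot_x, pot_y, x4_adj1, x4_adj3] at h1 ⊢
  rw [pot_of na.1 na.2.1, pot_of na'.1 na'.2.1, pot_of nb.1 nb.2.1, pot_of nb'.1 nb'.2.1] at h1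
  have e1 := sec hC.c1 (hxe y b hy.m1 nb.2.2.2) (hxe y b' hy.m2 nb'.2.2.2) nb.2.1 nb'.2.1 nb.1 nb'.1
    nb.2.2.1 nb'.2.2.1 hy.ne
  have hX' : T.X y v x u = true := by rw [T.xs4]; exact hC.c1
  have e2 := sec hX' (hye x a hx.m1 na.2.2.2) (hye x a' hx.m2 na'.2.2.2) na.1 na'.1 na.2.1 na'.2.1
    na.2.2.1 na'.2.2.1 hx.ne
  rw [inn_swap T x u y v a, inn_swap T x u y v a'] at e2
  rw [e1, e2]
  linear_combination (norm := (ring_nf; reduce_mod_char)) h1

/-- both vertices on the closed set, adjacent -/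
theorem cr_adj (hE : Clo E) (hC : Crs T x u y v p B q A) (hg : s(q, p) ∈ E)
    (hxe : ∀ a b, s(a, b) ∈ E → s(a, b) ≠ s(q, p) → T.X x u a b = false)
    (hye : ∀ a b, s(a, b) ∈ E → s(a, b) ≠ s(q, p) → T.X y v a b = false)
    {a b : V} (hx : Nb E x y a) (hy : Nb E y b x) (hl : Lpl E) :
    pc T E x y = z2 (inn T x u y v a) + z2 (inn T x u y v b) +
      (z2 (inn T p B q A x) + z2 (inn T p B q A y)) := by
  obtain ⟨xu, yv, xy, xv, uy, uv⟩ := T.ne _ _ _ _ hC.c1
  have ax : a ≠ x := fun h => hl x (by have := hx.m2; rwa [h] at this)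
  have by_ : b ≠ y := fun h => hl y (by have := hy.m1; rwa [h] at this)
  have h1 := hE (pot T x u y v)
  rw [sum_adj hx hy xy] at h1
  unfold pc
  rw [sum_adj hx hy xy, rst_pot' hC.c1 hg hC.xp hC.xq hC.yp hC.yq hxe hye hl, g8_eq hC]
  simp only [xe_mk, ds_mk, pot_x, pot_y, x4_adj1, x4_adj3] at h1 ⊢
  rw [pot_of ax hx.ne.symm, pot_of hy.ne by_] at h1
  linear_combination (norm := (ring_nf; reduce_mod_char)) h1

end

/-! ## rooms -/

section

variable {w : ℕ → V} {p : ℕ} {A B : V}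

/-- the edge `x u` misses the path -/
def Mis (T : Table V) (w : ℕ → V) (p : ℕ) (x u : V) : Prop :=
  ∀ t < p, T.X x u (w t) (w (t + 1)) = false

theorem re_g : s(w p, w 0) ∈ re w p := by
  unfold re
  rw [mem_union, mem_singleton]
  exact Or.inr rfl

theorem re_mis {x u : V} (h : Mis T w p x u) (a b : V) (hab : s(a, b) ∈ re w p)
    (hne : s(a, b) ≠ s(w p, w 0)) : T.X x u a b = false := by
  unfold re at hab
  rw [mem_union, mem_singleton, mem_image] at hab
  rcases hab with ⟨k, hk, e⟩ | e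
  · rw [mem_range] at hk
    rw [Sym2.eq_iff] at e
    rcases e with ⟨e1, e2⟩ | ⟨e1, e2⟩
    · rw [← e1, ← e2]
      exact h k hk
    · rw [← e1, ← e2, T.xs2]
      exact h k hk
  · exact absurd e hne

/-- the two crosses -/
theorem mkC (h : Room T w p A B) {x u y v : V} (hX : T.X x u y v = true)
    (hc : T.X x u (w 0) B = false) (hd : T.X x u (w p) A = false)
    (hc' : T.X y v (w 0) B = false) (hd' : T.X y v (w p) A = false)
    (x0 : x ≠ w 0) (xp : x ≠ w p) (y0 : y ≠ w 0) (yp : y ≠ w p) :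
    Crs T x u y v (w 0) B (w p) A := ⟨hX, h.crs, hc, hd, hc', hd', x0, xp, y0, yp⟩

/-- (RSEP) both vertices off the path -/
theorem rsep_off (h : Room T w p A B) {x u y v : V} (hx : ∀ i ≤ p, w i ≠ x) (hy : ∀ i ≤ p, w i ≠ y)
    (hX : T.X x u y v = true) (mx : Mis T w p x u) (hc : T.X x u (w 0) B = false)
    (hd : T.X x u (w p) A = false) (my : Mis T w p y v) (hc' : T.X y v (w 0) B = false)
    (hd' : T.X y v (w p) A = false) : rs T w p A B x = rs T w p A B y := by
  have hC := mkC h hX hc hd hc' hd' (hx 0 (by omega)).symm (hx p le_rfl).symm (hy 0 (by omega)).symm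
    (hy p le_rfl).symm
  have h1 := cr_off h.rclo hC re_g (re_mis mx) (re_mis my) (h.roff hx) (h.roff hy) h.rlpl
  have h2 := pc_co h.rclo (h.roff hx) (h.roff hy) (h.roff h.offB) (T := T)
  unfold rs
  linear_combination (norm := (ring_nf; reduce_mod_char)) h1 + h2

/-- (RSEP) `x` off the path, `y = w i` -/
theorem rsep_one (h : Room T w p A B) {x u v : V} {i : ℕ} (h1 : 0 < i) (h2 : i < p)
    (hx : ∀ i ≤ p, w i ≠ x) (hX : T.X x u (w i) v = true) (mx : Mis T w p x u)
    (hc : T.X x u (w 0) B = false) (hd : T.X x u (w p) A = false) (my : Mis T w p (w i) v)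
    (hc' : T.X (w i) v (w 0) B = false) (hd' : T.X (w i) v (w p) A = false)
    (v1 : v ≠ w (i + 1)) (v2 : v ≠ w (i - 1)) : rs T w p A B x = rf T w p A B i v := by
  have hC := mkC h hX hc hd hc' hd' (hx 0 (by omega)).symm (hx p le_rfl).symm
    (h.ne_w (by omega) (by omega) (by omega)) (h.ne_w (by omega) (by omega) (by omega))
  have nb := h.rnb h1 h2
  have hv : s(w i, v) ∉ re w p := by
    intro h4
    rcases nb.only _ h4 with h5 | h5
    · exact v1 h5
    · exact v2 h5
  have h3 := cr_one h.rclo hC re_g (re_mis mx) (re_mis my) (h.roff hx) nb hv h.rlpl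
  have h4 := pc_one' h.rclo nb (hx i (by omega)) (h.offB i (by omega)) (h.roff hx) (h.roff h.offB)
    h.rlpl (T := T)
  have h5 := al_add (T := T) (u := w i) (a := w (i + 1)) (b := w (i - 1)) (y := x) (z := v) (w := B)
    (h.ne_w (by omega) (by omega) (by omega)) (h.ne_w (by omega) (by omega) (by omega)) nb.ne
    (hx i (by omega)).symm (hx _ (by omega)).symm (hx _ (by omega)).symm (T.ne _ _ _ _ hX).2.1.symm v1 v2
    (h.offB _ (by omega)).symm (h.offB _ (by omega)).symm (h.offB _ (by omega)).symm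
  unfold rf rs
  rw [pc_symm T _ (w i) x] at h4
  linear_combination (norm := (ring_nf; reduce_mod_char)) h3 + h4 + h5

/-- (RSEP) `x = w i`, `y = w j`, not adjacent -/
theorem rsep_two (h : Room T w p A B) {u v : V} {i j : ℕ} (h1 : 0 < i) (h2 : i + 2 ≤ j) (h3 : j < p)
    (hX : T.X (w i) u (w j) v = true) (mx : Mis T w p (w i) u)
    (hc : T.X (w i) u (w 0) B = false) (hd : T.X (w i) u (w p) A = false) (my : Mis T w p (w j) v)
    (hc' : T.X (w j) v (w 0) B = false) (hd' : T.X (w j) v (w p) A = false)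
    (u1 : u ≠ w (i + 1)) (u2 : u ≠ w (i - 1))
    (v1 : v ≠ w (j + 1)) (v2 : v ≠ w (j - 1)) : rf T w p A B i u = rf T w p A B j v := by
  have hC := mkC h hX hc hd hc' hd'
    (h.ne_w (by omega) (by omega) (by omega)) (h.ne_w (by omega) (by omega) (by omega))
    (h.ne_w (by omega) (by omega) (by omega)) (h.ne_w (by omega) (by omega) (by omega))
  have nbi := h.rnb h1 (by omega : i < p)
  have nbj := h.rnb (by omega : 0 < j) h3
  have out : ∀ {k : ℕ} {z : V}, 0 < k → k < p → z ≠ w (k + 1) → z ≠ w (k - 1) → s(w k, z) ∉ re w p := by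
    intro k z g1 g2 a1 a2 h4
    rcases (h.rnb g1 g2).only _ h4 with h5 | h5
    · exact a1 h5
    · exact a2 h5
  have hij := out h1 (by omega : i < p) (z := w j) (h.ne_w (by omega) (by omega) (by omega))
    (h.ne_w (by omega) (by omega) (by omega))
  have e3 := cr_two h.rclo hC re_g (re_mis mx) (re_mis my) nbi nbj hij
    (out h1 (by omega) u1 u2) (out (by omega) h3 v1 v2) h.rlpl
  have e4 := pc_two h.rclo nbi nbj (h.ne_w (by omega) (by omega) (by omega)) hij (h.roff h.offB) h.rlpl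
    (T := T)
  have e5 := al_add (T := T) (u := w i) (a := w (i + 1)) (b := w (i - 1)) (y := w j) (z := u) (w := B)
    (h.ne_w (by omega) (by omega) (by omega)) (h.ne_w (by omega) (by omega) (by omega)) nbi.ne
    (h.ne_w (by omega) (by omega) (by omega)) (h.ne_w (by omega) (by omega) (by omega))
    (h.ne_w (by omega) (by omega) (by omega)) (T.ne _ _ _ _ hX).1.symm u1 u2
    (h.offB _ (by omega)).symm (h.offB _ (by omega)).symm (h.offB _ (by omega)).symm
  have e6 := al_add (T := T) (u := w j) (a := w (j + 1)) (b := w (j - 1)) (y := w i) (z := v) (w := B)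
    (h.ne_w (by omega) (by omega) (by omega)) (h.ne_w (by omega) (by omega) (by omega)) nbj.ne
    (h.ne_w (by omega) (by omega) (by omega)) (h.ne_w (by omega) (by omega) (by omega))
    (h.ne_w (by omega) (by omega) (by omega)) (T.ne _ _ _ _ hX).2.1.symm v1 v2
    (h.offB _ (by omega)).symm (h.offB _ (by omega)).symm (h.offB _ (by omega)).symm
  unfold rf rs
  rw [pc_symm T (re w p) B (w j)] at e4
  linear_combination (norm := (ring_nf; reduce_mod_char)) e3 + e4 + e5 + e6

/-- (RSEP) `x = w i`, `y = w (i + 1)` -/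
theorem rsep_adj (h : Room T w p A B) {u v : V} {i : ℕ} (h1 : 0 < i) (h3 : i + 1 < p)
    (hX : T.X (w i) u (w (i + 1)) v = true) (mx : Mis T w p (w i) u)
    (hc : T.X (w i) u (w 0) B = false) (hd : T.X (w i) u (w p) A = false) (my : Mis T w p (w (i + 1)) v)
    (hc' : T.X (w (i + 1)) v (w 0) B = false) (hd' : T.X (w (i + 1)) v (w p) A = false)
    (u2 : u ≠ w (i - 1)) (v1 : v ≠ w (i + 2)) : rf T w p A B i u = rf T w p A B (i + 1) v := by
  have hC := mkC h hX hc hd hc' hd'
    (h.ne_w (by omega) (by omega) (by omega)) (h.ne_w (by omega) (by omega) (by omega))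
    (h.ne_w (by omega) (by omega) (by omega)) (h.ne_w (by omega) (by omega) (by omega))
  have nbi := h.rnb h1 (by omega : i < p)
  have nbj := h.rnb (by omega : 0 < i + 1) h3
  rw [Nat.add_sub_cancel] at nbj
  have e3 := cr_adj h.rclo hC re_g (re_mis mx) (re_mis my) nbi nbj h.rlpl
  have e4 := pc_adj h.rclo nbi nbj (h.ne_w (by omega) (by omega) (by omega)) (h.roff h.offB) h.rlpl (T := T)
  have g2 : T.X (w (i + 1)) v (w i) (w (i - 1)) = false := by
    have := my (i - 1) (by omega)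
    rw [Nat.sub_add_cancel (by omega : 1 ≤ i), T.xs2] at this
    exact this
  have e5 := adj_all (T := T) (x := w i) (y := w (i + 1)) (a := w (i - 1)) (b := w (i + 1 + 1))
    (u := u) (v := v) (w := B) (h.ne_w (by omega) (by omega) (by omega)) nbi.ne.symm nbj.ne
    (h.ne_w (by omega) (by omega) (by omega)) u2 v1 (h.offB _ (by omega)).symm (h.offB _ (by omega)).symm
    (h.offB _ (by omega)).symm (h.offB _ (by omega)).symm hX (mx (i + 1) (by omega)) g2
  unfold rf rs
  rw [Nat.add_sub_cancel]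
  rw [pc_symm T _ B (w (i + 1))] at e4
  linear_combination (norm := (ring_nf; reduce_mod_char)) e3 + e4 + e5

/-- (RSEP) `x = w i`, `y = w j`, all cases -/
theorem rsep_all (h : Room T w p A B) {u v : V} {i j : ℕ} (h1 : 0 < i) (h2 : i < j) (h3 : j < p)
    (hX : T.X (w i) u (w j) v = true) (mx : Mis T w p (w i) u)
    (hc : T.X (w i) u (w 0) B = false) (hd : T.X (w i) u (w p) A = false) (my : Mis T w p (w j) v)
    (hc' : T.X (w j) v (w 0) B = false) (hd' : T.X (w j) v (w p) A = false)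
    (u1 : u ≠ w (i + 1)) (u2 : u ≠ w (i - 1))
    (v1 : v ≠ w (j + 1)) (v2 : v ≠ w (j - 1)) : rf T w p A B i u = rf T w p A B j v := by
  by_cases e : j = i + 1
  · subst e
    exact rsep_adj h h1 h3 hX mx hc hd my hc' hd' u2 v1
  · exact rsep_two h h1 (by omega) h3 hX mx hc hd my hc' hd' u1 u2 v1 v2

end

end H10S
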