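import Pool.Agent.Lib.H10S.RSep

/-!
# H10S, file Rules: rules for the chords of a cornered curve

`h : Room T w p A B`. `sd T w p A B i j`: start side of the ray `w i → w j` (`= 1`: in the room), for `0 ≤ i ≤ p`.
A chord `w s, w t` (`s + 2 ≤ t`) misses the path (`Mis`).

* `rule_R`: two interleaved chords `s < x < t < y` which do not cross: `sd t s + sd x y = 1`;
* `rule_NE`: a chord `x, y` inside `s, t` which does not cross it: `sd x y = sd y x`;
* `rule_CM1`: `s < y < t`, `sd s t ≠ sd s y`: `sd y s = sd s y`;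
* `rule_CM2`: `s < x < t`, `sd t s ≠ sd t x`: `sd x t = sd t x`.
-/

set_option autoImplicit false
set_option linter.unusedSectionVars false

namespace H10S

open H53P H30P Finset

variable {V : Type*} [DecidableEq V] {T : Table V} {w : ℕ → V} {p : ℕ} {A B : V}

/-! ## finite facts -/

theorem al1 (T : Table V) (u a b c d : V) : al T u a b c d = al T u b a c d := by
  unfold al
  rw [T.as1]

theorem al2 (T : Table V) (u a b c d : V) : al T u a b c d = al T u a b d c := by
  unfold al
  rw [T.as2]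

theorem al4 (T : Table V) (u a b c d : V) : al T u a b c d = al T u c d a b := by
  unfold al
  rw [T.as4]

/-- at most one of the pairings alternates -/
theorem al_one {u a b y z : V} (au : a ≠ u) (bu : b ≠ u) (yu : y ≠ u) (zu : z ≠ u) (ab : a ≠ b) (ay : a ≠ y)
    (az : a ≠ z) (by_ : b ≠ y) (bz : b ≠ z) (yz : y ≠ z) (h : al T u a b y z = 1) :
    al T u a y b z = 0 ∧ al T u a z b y = 0 := by
  have h1 := (T.rot3 au bu yu zu ab ay az by_ bz yz).2
  have h2 := al_rot au bu yu zu ab ay az by_ bz yz (T := T)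
  have h3 : T.alt u a b y z = true := by
    cases e : T.alt u a b y z with
    | true => rfl
    | false =>
      unfold al at h
      rw [e] at h
      exact absurd h (by decide)
  have h4 : T.alt u a y b z = false := by
    cases e : T.alt u a y b z with
    | false => rfl
    | true =>
      change (!(T.alt u a b y z && T.alt u a y b z)) = true at h1
      rw [h3, e] at h1
      exact absurd h1 (by decide)
  have h5 : al T u a y b z = 0 := by
    unfold al
    rw [h4]
    rfl
  refine ⟨h5, ?_⟩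
  rw [h, h5, add_zero] at h2
  linear_combination h2

/-- the two rotations at an end of a chord -/
theorem end5 {x y g b B : V} (xy : x ≠ y) (xg : x ≠ g) (xb : x ≠ b) (xB : x ≠ B) (yg : y ≠ g) (yb : y ≠ b)
    (yB : y ≠ B) (gb : g ≠ b) (gB : g ≠ B) (bB : b ≠ B) :
    al T y g x b B + al T y b x g B + 1 = x4 T x B y g + x4 T x B y b + tt T x y B g b := by
  have h := p5z (T := T) (a := x) (b := y) (c := g) (d := b) (e := B)
    (by simp [xy, xg, xb, xB, yg, yb, yB, gb, gB, bB])
  rw [al_eq, al_eq]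
  unfold tt
  simp only [x4_1, x4_2, x4_4] at h ⊢
  linear_combination (norm := (ring_nf; reduce_mod_char)) h

/-- P4 for two closed sets with a common edge -/
theorem end_two {E R : Finset (Sym2 V)} (hE : Clo E) (hR : Clo R) (lE : Lpl E) (lR : Lpl R) {x y a g b B : V}
    (ex : Nb E x y a) (ey : Nb E y g x) (rx : Nb R x y a) (ry : Nb R y b x) (xy : x ≠ y)
    (oE : Off E B) (oR : Off R B) :
    pc T E x B + pc T E y B + pc T E x y + (pc T R x B + pc T R y B + pc T R x y) =
      x4 T x B y g + x4 T x B y b + tt T x y B g b := by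
  have h1 := pc_adj hE ex ey xy oE lE (T := T)
  have h2 := pc_adj hR rx ry xy oR lR (T := T)
  have xB : x ≠ B := fun h => oE y (h ▸ ex.m1)
  have yB : y ≠ B := fun h => oE g (h ▸ ey.m1)
  have ax : a ≠ x := fun h => lE x (by have := ex.m2; rwa [h] at this)
  have gy : g ≠ y := fun h => lE y (by have := ey.m1; rwa [h] at this)
  have by_ : b ≠ y := fun h => lR y (by have := ry.m1; rwa [h] at this)
  have aB : a ≠ B := fun h => oE x (by rw [Sym2.eq_swap]; exact h ▸ ex.m2)
  have gB : g ≠ B := fun h => oE y (by rw [Sym2.eq_swap]; exact h ▸ ey.m1)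
  have bB : b ≠ B := fun h => oR y (by rw [Sym2.eq_swap]; exact h ▸ ry.m1)
  have h3 := tt_tri T xy yB xB.symm (a := g) (b := a) (c := b) ey.ne gy gB ax ex.ne.symm aB ry.ne by_ bB
  rw [pc_symm T E B y] at h1
  rw [pc_symm T R B y] at h2
  rw [tt_symm T x y B a b] at h3
  linear_combination (norm := (ring_nf; reduce_mod_char)) h1 + h2 + h3

/-- the two rotations at an end of a chord, in terms of crossings -/
theorem end_gen {E R : Finset (Sym2 V)} (hE : Clo E) (hR : Clo R) (lE : Lpl E) (lR : Lpl R) {x y a g b B : V}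
    (ex : Nb E x y a) (ey : Nb E y g x) (rx : Nb R x y a) (ry : Nb R y b x) (xy : x ≠ y) (gb : g ≠ b)
    (oE : Off E B) (oR : Off R B) :
    (pc T E y B + al T y g x b B) + (pc T R y B + al T y b x g B) + 1 =
      pc T E x B + pc T R x B + pc T E x y + pc T R x y := by
  have h1 := end_two hE hR lE lR ex ey rx ry xy oE oR (T := T)
  have xB : x ≠ B := fun h => oE y (h ▸ ex.m1)
  have yB : y ≠ B := fun h => oE g (h ▸ ey.m1)
  have gy : g ≠ y := fun h => lE y (by have := ey.m1; rwa [h] at this)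
  have by_ : b ≠ y := fun h => lR y (by have := ry.m1; rwa [h] at this)
  have gB : g ≠ B := fun h => oE y (by rw [Sym2.eq_swap]; exact h ▸ ey.m1)
  have bB : b ≠ B := fun h => oR y (by rw [Sym2.eq_swap]; exact h ▸ ry.m1)
  have h2 := end5 (T := T) xy ey.ne.symm ry.ne.symm xB gy.symm by_.symm yB gb gB bB
  linear_combination (norm := (ring_nf; reduce_mod_char)) h1 + h2

/-- the sum of the two sides at an end of a chord, in terms of one alternation -/
theorem end_al {E R : Finset (Sym2 V)} (hE : Clo E) (hR : Clo R) (lE : Lpl E) (lR : Lpl R) {x y a g b B : V}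
    (ex : Nb E x y a) (ey : Nb E y g x) (rx : Nb R x y a) (ry : Nb R y b x) (xy : x ≠ y)
    (oE : Off E B) (oR : Off R B) :
    pc T E x B + pc T E y B + pc T E x y + (pc T R x B + pc T R y B + pc T R x y) = al T y g b x B := by
  rw [end_two hE hR lE lR ex ey rx ry xy oE oR, al_eq, x4_4 T x B y g, x4_4 T x B y b, tt_swap T x y B g b]
  ring

theorem nbs {E : Finset (Sym2 V)} {x a b : V} (h : Nb E x a b) : Nb E x b a :=
  ⟨h.ne.symm, h.m2, h.m1, fun c hc => (h.only c hc).symm⟩

/-! ## the closed set of a chord -/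

/-- the arc `w s .. w t` and the chord -/
def ze (w : ℕ → V) (s t : ℕ) : Finset (Sym2 V) := pe (sub w s (t + 1 - s)) (t + 1 - s)

section

variable (h : Room T w p A B) {s t : ℕ}

include h

theorem zper (h1 : s + 2 ≤ t) (h2 : t ≤ p) : Per (sub w s (t + 1 - s)) (t + 1 - s) where
  three := by omega
  per k := by
    unfold sub
    rw [Nat.add_mod_right]
  inj a ha b hb hab := by
    unfold sub at hab
    rw [Nat.mod_eq_of_lt ha, Nat.mod_eq_of_lt hb] at hab
    have := h.inj _ (by omega) _ (by omega) hab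
    omega

theorem zclo (h1 : s + 2 ≤ t) (h2 : t ≤ p) : Clo (ze w s t) := (zper h h1 h2).clo

theorem zlpl (h1 : s + 2 ≤ t) (h2 : t ≤ p) : Lpl (ze w s t) := (zper h h1 h2).lpl

theorem zoff (h1 : s + 2 ≤ t) (h2 : t ≤ p) {x : V} (hx : ∀ i, s ≤ i → i ≤ t → w i ≠ x) : Off (ze w s t) x := by
  apply (zper h h1 h2).off
  intro k
  have h3 : k % (t + 1 - s) < t + 1 - s := Nat.mod_lt _ (by omega)
  exact hx _ (by omega) (by omega)

theorem zoffB (h1 : s + 2 ≤ t) (h2 : t ≤ p) : Off (ze w s t) B :=
  zoff h h1 h2 fun i _ h3 => h.offB i (by omega)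

theorem zoffw (h1 : s + 2 ≤ t) (h2 : t ≤ p) {y : ℕ} (hy : y ≤ p) (h3 : y < s ∨ t < y) : Off (ze w s t) (w y) :=
  zoff h h1 h2 fun i h4 h5 => h.ne_w (by omega) hy (by omega)

theorem znb (h1 : s + 2 ≤ t) (h2 : t ≤ p) {i : ℕ} (h3 : s < i) (h4 : i < t) :
    Nb (ze w s t) (w i) (w (i + 1)) (w (i - 1)) := by
  have h5 := (zper h h1 h2).nb (i - s)
  unfold sub at h5
  rw [Nat.mod_eq_of_lt (by omega : i - s < t + 1 - s), Nat.mod_eq_of_lt (by omega : i - s + 1 < t + 1 - s),
    show i - s + (t + 1 - s) - 1 = (i - s - 1) + (t + 1 - s) by omega, Nat.add_mod_right,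
    Nat.mod_eq_of_lt (by omega : i - s - 1 < t + 1 - s), show s + (i - s) = i by omega,
    show s + (i - s + 1) = i + 1 by omega, show s + (i - s - 1) = i - 1 by omega] at h5
  exact h5

theorem znbt (h1 : s + 2 ≤ t) (h2 : t ≤ p) : Nb (ze w s t) (w t) (w s) (w (t - 1)) := by
  have h5 := (zper h h1 h2).nb (t - s)
  unfold sub at h5
  rw [Nat.mod_eq_of_lt (by omega : t - s < t + 1 - s), show t - s + 1 = t + 1 - s by omega, Nat.mod_self,
    show t - s + (t + 1 - s) - 1 = (t - s - 1) + (t + 1 - s) by omega, Nat.add_mod_right,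
    Nat.mod_eq_of_lt (by omega : t - s - 1 < t + 1 - s), show s + (t - s) = t by omega,
    show s + (t - s - 1) = t - 1 by omega, Nat.add_zero] at h5
  exact h5

theorem znbs (h1 : s + 2 ≤ t) (h2 : t ≤ p) : Nb (ze w s t) (w s) (w (s + 1)) (w t) := by
  have h5 := (zper h h1 h2).nb 0
  unfold sub at h5
  rw [Nat.mod_eq_of_lt (by omega : 0 < t + 1 - s), Nat.mod_eq_of_lt (by omega : 0 + 1 < t + 1 - s),
    show 0 + (t + 1 - s) - 1 = t - s by omega, Nat.mod_eq_of_lt (by omega : t - s < t + 1 - s),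
    show s + (t - s) = t by omega, Nat.add_zero, Nat.zero_add] at h5
  exact h5

/-- crossings with the closed set -/
theorem zpc (h1 : s + 2 ≤ t) (h2 : t ≤ p) (x y : V) :
    pc T (ze w s t) x y = asum T w x y s t + x4 T x y (w t) (w s) := by
  have h3 := pc_sub (T := T) h.rper (i := s) (m := t + 1 - s) (by omega) (by omega) x y
  have e : pe (sub (wc w p) s (t + 1 - s)) (t + 1 - s) = ze w s t := by
    unfold ze pe
    apply image_congr
    intro k hk
    rw [mem_coe, mem_range] at hk
    have h4 : (k + 1) % (t + 1 - s) < t + 1 - s := Nat.mod_lt _ (by omega)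
    show s(sub (wc w p) s (t + 1 - s) k, sub (wc w p) s (t + 1 - s) (k + 1)) =
      s(sub w s (t + 1 - s) k, sub w s (t + 1 - s) (k + 1))
    unfold sub
    rw [Nat.mod_eq_of_lt hk, wc_of (by omega), wc_of (by omega)]
  rw [e, show s + (t + 1 - s) - 1 = t by omega, wc_of (by omega), wc_of (by omega)] at h3
  rw [h3]
  congr 1
  unfold asum
  apply sum_congr rfl
  intro k hk
  rw [mem_Ico] at hk
  rw [wc_of (by omega), wc_of (by omega)]

/-- path edges do not cross the closed set -/
theorem zp0 (h1 : s + 2 ≤ t) (h2 : t ≤ p) (hm : Mis T w p (w s) (w t)) {k : ℕ} (hk : k < p) :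
    pc T (ze w s t) (w k) (w (k + 1)) = 0 := by
  rw [zpc h h1 h2, asum_unc (fun i _ h4 => h.plane k hk i (by omega)), zero_add, x4_4, x4_1]
  exact x4_false (hm k hk)

/-- another chord does not cross the closed set -/
theorem zc0 (h1 : s + 2 ≤ t) (h2 : t ≤ p) {x y : V} (hm : Mis T w p x y)
    (hX : T.X (w s) (w t) x y = false) : pc T (ze w s t) x y = 0 := by
  rw [zpc h h1 h2, asum_unc (fun i _ h4 => hm i (by omega)), zero_add, x4_4, x4_1]
  exact x4_false hX

/-- path edges and the closed path -/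
theorem rp0 {k : ℕ} (h1 : 0 < k) (h2 : k + 1 < p) : pc T (re w p) (w k) (w (k + 1)) =
    z2 (inn T (w 0) B (w p) A (w k)) + z2 (inn T (w 0) B (w p) A (w (k + 1))) := by
  rw [h.rpc, asum_unc (fun i _ h4 => h.plane k (by omega) i h4), zero_add]
  exact h.rcl (h.ne_w (by omega) (by omega) (by omega)) (h.ne_w (by omega) (by omega) (by omega))
    (h.ne_w (by omega) (by omega) (by omega)) (h.ne_w (by omega) (by omega) (by omega))
    (h.ne_w (by omega) (by omega) (by omega)) (h.unc k (by omega)) (h.und k (by omega))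

theorem rp0' {k : ℕ} (h1 : k < p) (h2 : k = 0 ∨ k + 1 = p) : pc T (re w p) (w k) (w (k + 1)) = 0 := by
  rw [h.rpc, asum_unc (fun i _ h4 => h.plane k h1 i h4), zero_add]
  rcases h2 with h2 | h2
  · rw [h2, x4_adj2]
  · rw [h2, x4_adj3]

end

/-- the defect of a chord -/
def dl (T : Table V) (w : ℕ → V) (p : ℕ) (A B : V) (s t : ℕ) : ZMod 2 :=
  pc T (ze w s t) (w (s + 1)) B + rs T w p A B (w (s + 1))

theorem ne_one {a b : ZMod 2} (h : a ≠ b) : a + b = 1 := by
  revert h
  revert a b
  decide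

section

variable (h : Room T w p A B) {s t : ℕ} (h1 : s + 2 ≤ t) (h2 : t ≤ p) (hm : Mis T w p (w s) (w t))

include h h1 h2 hm

/-- the defect is the same at all inner vertices of the arc -/
theorem dl_eq {i : ℕ} (h3 : s < i) (h4 : i < t) : pc T (ze w s t) (w i) B + rs T w p A B (w i) = dl T w p A B s t := by
  induction i, h3 using Nat.le_induction with
  | base => rfl
  | succ i hi ih =>
    have hi' : s < i := hi
    rw [← ih (by omega)]
    have e1 := znb h h1 h2 hi' (by omega : i < t)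
    have e2 := znb h h1 h2 (by omega : s < i + 1) h4
    have e3 := h.rnb (by omega : 0 < i) (by omega : i < p)
    have e4 := h.rnb (by omega : 0 < i + 1) (by omega : i + 1 < p)
    rw [Nat.add_sub_cancel] at e2 e4
    have e5 := end_two (zclo h h1 h2) h.rclo (zlpl h h1 h2) h.rlpl e1 e2 e3 e4
      (h.ne_w (by omega) (by omega) (by omega)) (zoffB h h1 h2) (h.roff h.offB) (T := T)
    rw [tt_self, zp0 h h1 h2 hm (by omega), rp0 h (by omega) (by omega)] at e5
    unfold rs
    linear_combination (norm := (ring_nf; reduce_mod_char)) e5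

/-- (V1) the side at an inner vertex of the arc -/
theorem zv1 {i : ℕ} (h3 : s < i) (h4 : i < t) (z : V) :
    pc T (ze w s t) (w i) B + al T (w i) (w (i + 1)) (w (i - 1)) z B = dl T w p A B s t + rf T w p A B i z := by
  rw [← dl_eq h h1 h2 hm h3 h4]
  unfold rf
  have := two_z (rs T w p A B (w i))
  linear_combination -this

/-- (V4) at `w t` -/
theorem zv4a (h3 : t < p) : pc T (ze w s t) (w t) B + al T (w t) (w s) (w (t - 1)) (w (t + 1)) B =
    dl T w p A B s t + 1 + rf T w p A B t (w s) := by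
  obtain ⟨u, rfl⟩ : ∃ u, t = u + 1 := ⟨t - 1, by omega⟩
  have e1 := znb h h1 h2 (by omega : s < u) (by omega : u < u + 1)
  have e2 := znbt h h1 h2
  have e3 := h.rnb (by omega : 0 < u) (by omega : u < p)
  have e4 := h.rnb (by omega : 0 < u + 1) (by omega : u + 1 < p)
  rw [Nat.add_sub_cancel] at e2 e4 ⊢
  have e5 := end_gen (zclo h h1 h2) h.rclo (zlpl h h1 h2) h.rlpl e1 e2 e3 e4
    (h.ne_w (by omega) (by omega) (by omega)) (h.ne_w (by omega) (by omega) (by omega))
    (zoffB h h1 h2) (h.roff h.offB) (T := T)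
  rw [zp0 h h1 h2 hm (by omega), rp0 h (by omega) (by omega)] at e5
  rw [← dl_eq h h1 h2 hm (by omega : s < u) (by omega)]
  unfold rf rs
  rw [Nat.add_sub_cancel]
  linear_combination (norm := (ring_nf; reduce_mod_char)) e5

/-- (V5) at `w s` -/
theorem zv5a (h3 : 0 < s) : pc T (ze w s t) (w s) B + al T (w s) (w (s + 1)) (w t) (w (s - 1)) B =
    dl T w p A B s t + 1 + rf T w p A B s (w t) := by
  have e1 := nbs (znb h h1 h2 (by omega : s < s + 1) (by omega : s + 1 < t))
  have e2 := nbs (znbs h h1 h2)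
  have e3 := nbs (h.rnb (by omega : 0 < s + 1) (by omega : s + 1 < p))
  have e4 := nbs (h.rnb (by omega : 0 < s) (by omega : s < p))
  rw [Nat.add_sub_cancel] at e1 e3
  have e5 := end_gen (zclo h h1 h2) h.rclo (zlpl h h1 h2) h.rlpl e1 e2 e3 e4
    (h.ne_w (by omega) (by omega) (by omega)) (h.ne_w (by omega) (by omega) (by omega))
    (zoffB h h1 h2) (h.roff h.offB) (T := T)
  rw [pc_symm T _ (w (s + 1)) (w s), pc_symm T _ (w (s + 1)) (w s), zp0 h h1 h2 hm (by omega),
    rp0 h (by omega) (by omega), al1 T _ (w t) (w (s + 1)), al1 T _ (w (s - 1)) (w (s + 1))] at e5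
  unfold dl rf rs
  linear_combination (norm := (ring_nf; reduce_mod_char)) e5

/-- (V4) the vertices behind `w t` -/
theorem zv4 {y : ℕ} (h3 : t < y) (h4 : y ≤ p) :
    pc T (ze w s t) (w y) B = dl T w p A B s t + 1 + rf T w p A B t (w s) := by
  induction y, h3 using Nat.le_induction with
  | base =>
    have h5 : t < p := h4
    change pc T (ze w s t) (w (t + 1)) B = _
    rw [← zv4a h h1 h2 hm h5]
    have e1 := pc_one' (zclo h h1 h2) (znbt h h1 h2) (h.ne_w (by omega) (by omega) (by omega))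
      (h.offB t h2) (zoffw h h1 h2 (y := t + 1) (by omega) (by omega)) (zoffB h h1 h2) (zlpl h h1 h2) (T := T)
    rw [zp0 h h1 h2 hm h5] at e1
    linear_combination (norm := (ring_nf; reduce_mod_char)) e1
  | succ y hy ih =>
    have hy' : t < y := hy
    rw [← ih (by omega)]
    have e1 := pc_co (zclo h h1 h2) (zoffw h h1 h2 (y := y) (by omega) (by omega))
      (zoffw h h1 h2 (y := y + 1) (by omega) (by omega)) (zoffB h h1 h2) (T := T)
    rw [zp0 h h1 h2 hm (by omega)] at e1
    linear_combination (norm := (ring_nf; reduce_mod_char)) e1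

/-- (V2) the side at `w t`, an inner vertex of the path -/
theorem zv2 (h3 : t < p) {z : V} (zt : z ≠ w t) (z1 : z ≠ w (t + 1)) (z3 : z ≠ w (t - 1)) (zs : z ≠ w s)
    (hne : rf T w p A B t (w s) ≠ rf T w p A B t z) :
    pc T (ze w s t) (w t) B + al T (w t) (w s) (w (t - 1)) z B = dl T w p A B s t + rf T w p A B t z := by
  have e1 := zv4a h h1 h2 hm h3
  have e2 := ne_one hne
  have ts : w s ≠ w t := h.ne_w (by omega) (by omega) (by omega)
  have t1 : w (t + 1) ≠ w t := h.ne_w (by omega) (by omega) (by omega)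
  have t3 : w (t - 1) ≠ w t := h.ne_w (by omega) (by omega) (by omega)
  have s1 : w s ≠ w (t + 1) := h.ne_w (by omega) (by omega) (by omega)
  have s3 : w s ≠ w (t - 1) := h.ne_w (by omega) (by omega) (by omega)
  have u1 : w (t + 1) ≠ w (t - 1) := h.ne_w (by omega) (by omega) (by omega)
  have e3 := h.rf_add (y := w s) (z := z) (by omega : 0 < t) h3 ts s1 s3 zt z1 z3
  rw [e2] at e3
  have e4 := al_one t1 t3 ts zt u1 s1.symm z1.symm s3.symm z3.symm zs.symm e3.symm
  have e5 := al_add (T := T) (u := w t) (a := w s) (b := w (t - 1)) (y := z) (z := w (t + 1)) (w := B)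
    ts.symm t3.symm s3 zt zs z3 t1 s1.symm u1 (h.offB _ (by omega)).symm (h.offB _ (by omega)).symm
    (h.offB _ (by omega)).symm
  have e6 := e4.2
  rw [al4, al1 T _ (w (t - 1)) (w s), al2] at e6
  rw [e6] at e5
  linear_combination (norm := (ring_nf; reduce_mod_char)) e1 + e5 + e2

/-- (V3) the side at `w s`, an inner vertex of the path -/
theorem zv3 (h3 : 0 < s) {z : V} (zs : z ≠ w s) (z1 : z ≠ w (s + 1)) (z3 : z ≠ w (s - 1)) (zt : z ≠ w t)
    (hne : rf T w p A B s (w t) ≠ rf T w p A B s z) :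
    pc T (ze w s t) (w s) B + al T (w s) (w (s + 1)) (w t) z B = dl T w p A B s t + rf T w p A B s z := by
  have e1 := zv5a h h1 h2 hm h3
  have e2 := ne_one hne
  have ts : w t ≠ w s := h.ne_w (by omega) (by omega) (by omega)
  have s1 : w (s + 1) ≠ w s := h.ne_w (by omega) (by omega) (by omega)
  have s3 : w (s - 1) ≠ w s := h.ne_w (by omega) (by omega) (by omega)
  have t1 : w t ≠ w (s + 1) := h.ne_w (by omega) (by omega) (by omega)
  have t3 : w t ≠ w (s - 1) := h.ne_w (by omega) (by omega) (by omega)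
  have u1 : w (s + 1) ≠ w (s - 1) := h.ne_w (by omega) (by omega) (by omega)
  have e3 := h.rf_add (y := w t) (z := z) h3 (by omega : s < p) ts t1 t3 zs z1 z3
  rw [e2] at e3
  have e4 := al_one s1 s3 ts zs u1 t1.symm z1.symm t3.symm z3.symm zt.symm e3.symm
  have e5 := al_add (T := T) (u := w s) (a := w (s + 1)) (b := w t) (y := z) (z := w (s - 1)) (w := B)
    s1.symm ts.symm t1.symm zs z1 zt s3 u1.symm t3.symm (h.offB _ (by omega)).symm (h.offB _ (by omega)).symm
    (h.offB _ (by omega)).symm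
  have e6 := e4.1
  rw [al2] at e6
  rw [e6] at e5
  linear_combination (norm := (ring_nf; reduce_mod_char)) e1 + e5 + e2

end

/-! ## the ends of the path -/

/-- start side of the ray `w 0 → z` -/
def sd0 (T : Table V) (w : ℕ → V) (p : ℕ) (A B z : V) : ZMod 2 :=
  asum T w (w 0) A 0 p + al T (w 0) (w 1) B z A

/-- start side of the ray `w p → z` -/
def sdp (T : Table V) (w : ℕ → V) (p : ℕ) (A B z : V) : ZMod 2 :=
  asum T w (w p) B 0 p + al T (w p) (w (p - 1)) A z B

/-- the edge `(w 0) A` and the path -/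
theorem asum_0A (h : Room T w p A B) : asum T w (w 0) A 0 p = z2 (inn T (w 0) B A (w p) (w 1)) := by
  have h2 := h.two
  have hX : T.X (w 0) B A (w p) = true := by rw [T.xs2]; exact h.crs
  have e1 : ∀ t, 0 < t → t < p → x4 T (w 0) A (w t) (w (t + 1)) =
      z2 (inn T (w 0) B A (w p) (w t)) + z2 (inn T (w 0) B A (w p) (w (t + 1))) := by
    intro t h0 ht
    apply sm_edge hX (h.ne_w (by omega) (by omega) (by omega)) (h.ne_w (by omega) (by omega) (by omega))
      (h.offA _ (by omega)) (h.ne_w (by omega) (by omega) (by omega)) (h.offA _ (by omega))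
    · exact h.unc t ht
    · rw [T.xs1]; exact h.und t ht
  have e2 : ∀ k, 1 ≤ k → k ≤ p → asum T w (w 0) A 0 k =
      z2 (inn T (w 0) B A (w p) (w 1)) + z2 (inn T (w 0) B A (w p) (w k)) := by
    intro k hk
    induction k, hk using Nat.le_induction with
    | base =>
      intro _
      unfold asum
      rw [sum_Ico_succ_top (Nat.zero_le 0), Ico_self, sum_empty, x4_adj1, two_z, two_z]
    | succ k hk ih =>
      intro hk'
      have e3 := ih (by omega)
      unfold asum at e3 ⊢
      rw [sum_Ico_succ_top (Nat.zero_le k), e3, e1 k (by omega) (by omega)]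
      have e4 := two_z (z2 (inn T (w 0) B A (w p) (w k)))
      linear_combination e4
  rw [e2 p (by omega) le_rfl, inn_v, z2_false, add_zero]

theorem re_ze : re w p = ze w 0 p := by
  rw [re_eq]
  unfold ze
  rw [Nat.sub_zero]
  congr 1
  funext k
  unfold wc sub
  rw [Nat.zero_add]

/-- the defect of a chord at `w 0` -/
theorem dl0 (h : Room T w p A B) {t : ℕ} (h1 : 2 ≤ t) (h2 : t ≤ p) (hm : Mis T w p (w 0) (w t)) :
    dl T w p A B 0 t + sd0 T w p A B (w t) = 1 := by
  have h0 : 0 + 2 ≤ t := by omega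
  have hp := h.two
  have e1 := nbs (znb h h0 h2 (by omega : 0 < 0 + 1) (by omega : 0 + 1 < t))
  have e2 := nbs (znbs h h0 h2)
  have e3 := nbs (h.rnb (by omega : 0 < 0 + 1) (by omega : 0 + 1 < p))
  have e4 := nbs (znbs h (by omega : 0 + 2 ≤ p) le_rfl)
  rw [← re_ze] at e4
  rw [Nat.add_sub_cancel] at e1 e3
  have e5 := end_al (zclo h h0 h2) h.rclo (zlpl h h0 h2) h.rlpl e1 e2 e3 e4
    (h.ne_w (by omega) (by omega) (by omega)) (zoffB h h0 h2) (h.roff h.offB) (T := T)
  have f1 : pc T (ze w 0 t) (w 0) B = 0 := by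
    rw [zpc h h0 h2, asum_unc (fun i _ h4 => h.unc i (by omega)), x4_adj2, add_zero]
  have f2 : pc T (re w p) (w 0) B = 0 := by
    rw [h.rpc, asum_unc (fun i _ h4 => h.unc i h4), x4_adj2, add_zero]
  have f3 : pc T (re w p) (w 0) (w (0 + 1)) = 0 := rp0' h (by omega) (Or.inl rfl)
  rw [f1, f2, pc_symm T _ (w (0 + 1)) (w 0), pc_symm T _ (w (0 + 1)) (w 0), zp0 h h0 h2 hm (by omega), f3,
    al4] at e5
  have n1 : w (0 + 1) ≠ w 0 := h.ne_w (by omega) (by omega) (by omega)
  have nt : w t ≠ w 0 := h.ne_w (by omega) (by omega) (by omega)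
  have np : w p ≠ w 0 := h.ne_w (by omega) (by omega) (by omega)
  have nt1 : w t ≠ w (0 + 1) := h.ne_w (by omega) (by omega) (by omega)
  have np1 : w p ≠ w (0 + 1) := h.ne_w (by omega) (by omega) (by omega)
  obtain ⟨x0, _, wp0, w0A, BP, BA⟩ := T.ne _ _ _ _ h.crs
  have e6 := al_add (T := T) (u := w 0) (a := w (0 + 1)) (b := B) (y := w t) (z := w p) (w := A)
    n1.symm x0 (h.offB _ (by omega)) nt nt1 (h.offB _ (by omega)) np np1 (h.offB _ (by omega))
    (h.offA 0 (by omega)).symm (h.offA _ (by omega)).symm BA.symm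
  have hX : T.X (w p) A (w 0) B = true := by rw [T.xs4]; exact h.crs
  have e7 := kf (a := w (0 + 1)) hX np1.symm n1 (h.offA _ (by omega))
  rw [inn_swap T (w 0) B (w p) A, tt_swap] at e7
  have e8 : al T (w 0) (w (0 + 1)) B (w p) A = tt T (w 0) (w p) A (w (0 + 1)) B + 1 := by
    rw [al_eq, x4_false (h.und 0 (by omega)), x4_true hX, add_zero]
  have e9 := asum_0A h
  unfold dl rs sd0
  rw [e9]
  linear_combination (norm := (ring_nf; reduce_mod_char)) e5 + e6 + e7 + e8

/-- (V3) the side at `w 0` -/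
theorem zv30 (h : Room T w p A B) {t : ℕ} (h1 : 2 ≤ t) (h2 : t ≤ p) (hm : Mis T w p (w 0) (w t)) {z : V}
    (z0 : z ≠ w 0) (z1 : z ≠ w (0 + 1)) (zt : z ≠ w t) (zB : z ≠ B)
    (hne : sd0 T w p A B (w t) ≠ sd0 T w p A B z) :
    pc T (ze w 0 t) (w 0) B + al T (w 0) (w (0 + 1)) (w t) z B = dl T w p A B 0 t + sd0 T w p A B z := by
  have h0 : 0 + 2 ≤ t := by omega
  have hp := h.two
  have f1 : pc T (ze w 0 t) (w 0) B = 0 := by
    rw [zpc h h0 h2, asum_unc (fun i _ h4 => h.unc i (by omega)), x4_adj2, add_zero]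
  have n1 : w (0 + 1) ≠ w 0 := h.ne_w (by omega) (by omega) (by omega)
  have nt : w t ≠ w 0 := h.ne_w (by omega) (by omega) (by omega)
  have nt1 : w t ≠ w (0 + 1) := h.ne_w (by omega) (by omega) (by omega)
  obtain ⟨x0, _, wp0, w0A, BP, BA⟩ := T.ne _ _ _ _ h.crs
  have e2 := ne_one hne
  have e3 := al_add (T := T) (u := w 0) (a := w (0 + 1)) (b := B) (y := w t) (z := z) (w := A)
    n1.symm x0 (h.offB _ (by omega)) nt nt1 (h.offB _ (by omega)) z0 z1 zB
    (h.offA 0 (by omega)).symm (h.offA _ (by omega)).symm BA.symm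
  have e4 : al T (w 0) (w (0 + 1)) B (w t) z = 1 := by
    unfold sd0 at e2
    linear_combination (norm := (ring_nf; reduce_mod_char)) e2 + e3
  have e5 := al_one n1 x0.symm nt z0 (h.offB _ (by omega)) nt1.symm z1.symm (h.offB _ (by omega)).symm zB.symm
    zt.symm e4
  have e6 := e5.1
  rw [al2] at e6
  rw [f1, e6]
  have e7 := dl0 h h1 h2 hm
  linear_combination (norm := (ring_nf; reduce_mod_char)) e7 + e2

/-- (V2) the side at `w p` -/
theorem zv2p (h : Room T w p A B) {s : ℕ} (h1 : s + 2 ≤ p) (hm : Mis T w p (w s) (w p)) {z : V}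
    (zp : z ≠ w p) (z1 : z ≠ w (p - 1)) (zs : z ≠ w s) (zB : z ≠ B) (zA : z ≠ A)
    (hne : sdp T w p A B (w s) ≠ sdp T w p A B z) :
    pc T (ze w s p) (w p) B + al T (w p) (w s) (w (p - 1)) z B = dl T w p A B s p + sdp T w p A B z := by
  obtain ⟨u, rfl⟩ : ∃ u, p = u + 1 := ⟨p - 1, by omega⟩
  have e1 := znb h h1 le_rfl (by omega : s < u) (by omega : u < u + 1)
  have e2 := znbt h h1 le_rfl
  have e3 := h.rnb (by omega : 0 < u) (by omega : u < u + 1)
  have e4 := znbt h (by omega : 0 + 2 ≤ u + 1) le_rfl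
  rw [← re_ze] at e4
  rw [Nat.add_sub_cancel] at e2 e4 z1 ⊢
  have e5 := end_al (zclo h h1 le_rfl) h.rclo (zlpl h h1 le_rfl) h.rlpl e1 e2 e3 e4
    (h.ne_w (by omega) (by omega) (by omega)) (zoffB h h1 le_rfl) (h.roff h.offB) (T := T)
  have f1 : pc T (re w (u + 1)) (w (u + 1)) B = asum T w (w (u + 1)) B 0 (u + 1) := by
    rw [h.rpc, x4_adj1, add_zero]
  have f2 : pc T (re w (u + 1)) (w u) (w (u + 1)) = 0 := rp0' h (by omega) (Or.inr rfl)
  rw [zp0 h h1 le_rfl hm (by omega), f1, f2, al4] at e5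
  have e6 := dl_eq h h1 le_rfl hm (by omega : s < u) (by omega)
  obtain ⟨x0, yA, wp0, w0A, BP, BA⟩ := T.ne _ _ _ _ h.crs
  have ux : w u ≠ w (u + 1) := h.ne_w (by omega) (by omega) (by omega)
  have gx : w s ≠ w (u + 1) := h.ne_w (by omega) (by omega) (by omega)
  have gu : w s ≠ w u := h.ne_w (by omega) (by omega) (by omega)
  have bx : w 0 ≠ w (u + 1) := h.ne_w (by omega) (by omega) (by omega)
  have bu : w 0 ≠ w u := h.ne_w (by omega) (by omega) (by omega)
  have uA := h.offA u (by omega)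
  have uB := h.offB u (by omega)
  have gA := h.offA s (by omega)
  have gB := h.offB s (by omega)
  have bB := h.offB 0 (by omega)
  have e7 := ne_one hne
  unfold sdp at e7
  rw [Nat.add_sub_cancel] at e7
  have e8 := al_add (T := T) (u := w (u + 1)) (a := w u) (b := A) (y := w s) (z := z) (w := B)
    ux.symm yA uA gx gu gA zp z1 zA BP uB.symm BA
  have e9 : al T (w (u + 1)) (w u) A (w s) z = 1 := by
    linear_combination (norm := (ring_nf; reduce_mod_char)) e7 + e8
  have e10 := (al_one ux yA.symm gx zp uA gu.symm z1.symm gA.symm zA.symm zs.symm e9).1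
  have e11 := al_add (T := T) (u := w (u + 1)) (a := w u) (b := w s) (y := z) (z := A) (w := B)
    ux.symm gx.symm gu.symm zp z1 zs yA.symm uA.symm gA.symm BP uB.symm gB.symm
  rw [al2 T _ _ _ z A, e10] at e11
  have e12 := al_rot (T := T) (u := w (u + 1)) (a := w u) (b := w s) (y := A) (z := B)
    ux gx yA.symm BP gu.symm uA uB gA gB BA.symm
  have e13 := al_add (T := T) (u := w (u + 1)) (a := w u) (b := B) (y := w s) (z := w 0) (w := A)
    ux.symm BP.symm uB gx gu gB bx bu bB yA.symm uA.symm BA.symm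
  have e14 := sec_z (b := w u) h.crs (by rw [T.xs2]; exact h.unc u (by omega)) ux bu.symm uA uB
  rw [al1] at e14
  rw [al1 T _ (w s) (w u)]
  unfold sdp
  rw [Nat.add_sub_cancel]
  unfold rs at e6
  rw [← e6]
  linear_combination (norm := (ring_nf; reduce_mod_char)) e5 + e7 + e11 + e12 + e13 + e14

/-! ## the rules -/

/-- start side of the ray `w i → w j` (`= 1`: in the room) -/
def sd (T : Table V) (w : ℕ → V) (p : ℕ) (A B : V) (i j : ℕ) : ZMod 2 :=
  if i = 0 then sd0 T w p A B (w j) else if i = p then sdp T w p A B (w j) else rf T w p A B i (w j)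

theorem sd_0 {j : ℕ} : sd T w p A B 0 j = sd0 T w p A B (w j) := by
  unfold sd
  rw [if_pos rfl]

theorem sd_p (hp : 0 < p) {j : ℕ} : sd T w p A B p j = sdp T w p A B (w j) := by
  unfold sd
  rw [if_neg (by omega), if_pos rfl]

theorem sd_i {i j : ℕ} (h0 : 0 < i) (hp : i < p) : sd T w p A B i j = rf T w p A B i (w j) := by
  unfold sd
  rw [if_neg (by omega), if_neg (by omega)]

/-- (R) two interleaved chords which do not cross -/
theorem rule_R (h : Room T w p A B) {s x t y : ℕ} (sx : s < x) (xt : x < t) (ty : t < y) (yp : y ≤ p)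
    (m1 : Mis T w p (w s) (w t)) (m2 : Mis T w p (w x) (w y)) (hX : T.X (w s) (w t) (w x) (w y) = false) :
    sd T w p A B t s + sd T w p A B x y = 1 := by
  have h1 : s + 2 ≤ t := by omega
  have h2 : t ≤ p := by omega
  rw [sd_i (by omega) (by omega), sd_i (by omega) (by omega)]
  have e1 := zv1 h h1 h2 m1 sx xt (w y)
  have e2 := zv4 h h1 h2 m1 ty yp
  have e3 := pc_one' (zclo h h1 h2) (znb h h1 h2 sx xt) (h.ne_w (by omega) yp (by omega))
    (h.offB x (by omega)) (zoffw h h1 h2 yp (by omega)) (zoffB h h1 h2) (zlpl h h1 h2) (T := T)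
  rw [zc0 h h1 h2 m2 hX] at e3
  linear_combination (norm := (ring_nf; reduce_mod_char)) e1 + e2 + e3

/-- (NE) a chord inside another one, they do not cross -/
theorem rule_NE (h : Room T w p A B) {s x y t : ℕ} (sx : s < x) (xy : x + 2 ≤ y) (yt : y < t) (tp : t ≤ p)
    (m1 : Mis T w p (w s) (w t)) (m2 : Mis T w p (w x) (w y)) (hX : T.X (w s) (w t) (w x) (w y) = false) :
    sd T w p A B x y = sd T w p A B y x := by
  have h1 : s + 2 ≤ t := by omega
  rw [sd_i (by omega) (by omega), sd_i (by omega) (by omega)]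
  have e1 := zv1 h h1 tp m1 sx (by omega : x < t) (w y)
  have e2 := zv1 h h1 tp m1 (by omega : s < y) yt (w x)
  have hn : s(w x, w y) ∉ ze w s t := by
    intro h4
    rcases (znb h h1 tp sx (by omega : x < t)).only _ h4 with h5 | h5
    · exact h.ne_w (by omega) (by omega) (by omega : y ≠ x + 1) h5
    · exact h.ne_w (by omega) (by omega) (by omega : y ≠ x - 1) h5
  have e3 := pc_two (zclo h h1 tp) (znb h h1 tp sx (by omega : x < t)) (znb h h1 tp (by omega : s < y) yt)
    (h.ne_w (by omega) (by omega) (by omega)) hn (zoffB h h1 tp) (zlpl h h1 tp) (T := T)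
  rw [zc0 h h1 tp m2 hX, pc_symm T _ B (w y)] at e3
  linear_combination (norm := (ring_nf; reduce_mod_char)) e1 + e2 + e3

/-- (CM1) two chords with the left end `w s` -/
theorem rule_CM1 (h : Room T w p A B) {s y t : ℕ} (sy : s + 2 ≤ y) (yt : y < t) (tp : t ≤ p)
    (m1 : Mis T w p (w s) (w t)) (m2 : Mis T w p (w s) (w y)) (hne : sd T w p A B s t ≠ sd T w p A B s y) :
    sd T w p A B y s = sd T w p A B s y := by
  have h1 : s + 2 ≤ t := by omega
  rw [sd_i (by omega) (by omega)]
  have e1 := zv1 h h1 tp m1 (by omega : s < y) yt (w s)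
  have e2 : pc T (ze w s t) (w s) B + al T (w s) (w (s + 1)) (w t) (w y) B =
      dl T w p A B s t + sd T w p A B s y := by
    rcases Nat.eq_zero_or_pos s with h0 | h0
    · subst h0
      rw [sd_0, sd_0] at hne
      rw [sd_0]
      exact zv30 h (by omega) tp m1 (h.ne_w (by omega) (by omega) (by omega))
        (h.ne_w (by omega) (by omega) (by omega)) (h.ne_w (by omega) (by omega) (by omega))
        (h.offB y (by omega)) hne
    · rw [sd_i h0 (by omega), sd_i h0 (by omega)] at hne
      rw [sd_i h0 (by omega)]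
      exact zv3 h h1 tp m1 h0 (h.ne_w (by omega) (by omega) (by omega))
        (h.ne_w (by omega) (by omega) (by omega)) (h.ne_w (by omega) (by omega) (by omega))
        (h.ne_w (by omega) (by omega) (by omega)) hne
  have hn : s(w s, w y) ∉ ze w s t := by
    intro h4
    rcases (znbs h h1 tp).only _ h4 with h5 | h5
    · exact h.ne_w (by omega) (by omega) (by omega : y ≠ s + 1) h5
    · exact h.ne_w (by omega) (by omega) (by omega : y ≠ t) h5
  have e3 := pc_two (zclo h h1 tp) (znbs h h1 tp) (znb h h1 tp (by omega : s < y) yt)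
    (h.ne_w (by omega) (by omega) (by omega)) hn (zoffB h h1 tp) (zlpl h h1 tp) (T := T)
  have e4 : pc T (ze w s t) (w s) (w y) = 0 := by
    rw [zpc h h1 tp, asum_unc (fun i _ h4 => m2 i (by omega)), zero_add, x4_adj2]
  rw [e4, pc_symm T _ B (w y)] at e3
  linear_combination (norm := (ring_nf; reduce_mod_char)) e1 + e2 + e3

/-- (CM2) two chords with the right end `w t` -/
theorem rule_CM2 (h : Room T w p A B) {s x t : ℕ} (sx : s < x) (xt : x + 2 ≤ t) (tp : t ≤ p)
    (m1 : Mis T w p (w s) (w t)) (m2 : Mis T w p (w x) (w t)) (hne : sd T w p A B t s ≠ sd T w p A B t x) :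
    sd T w p A B x t = sd T w p A B t x := by
  have h1 : s + 2 ≤ t := by omega
  rw [sd_i (by omega) (by omega)]
  have e1 := zv1 h h1 tp m1 sx (by omega : x < t) (w t)
  have e2 : pc T (ze w s t) (w t) B + al T (w t) (w s) (w (t - 1)) (w x) B =
      dl T w p A B s t + sd T w p A B t x := by
    rcases Nat.lt_or_ge t p with h0 | h0
    · rw [sd_i (by omega) h0, sd_i (by omega) h0] at hne
      rw [sd_i (by omega) h0]
      exact zv2 h h1 tp m1 h0 (h.ne_w (by omega) (by omega) (by omega))
        (h.ne_w (by omega) (by omega) (by omega)) (h.ne_w (by omega) (by omega) (by omega))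
        (h.ne_w (by omega) (by omega) (by omega)) hne
    · obtain rfl : t = p := by omega
      rw [sd_p (by omega), sd_p (by omega)] at hne
      rw [sd_p (by omega)]
      exact zv2p h h1 m1 (h.ne_w (by omega) (by omega) (by omega))
        (h.ne_w (by omega) (by omega) (by omega)) (h.ne_w (by omega) (by omega) (by omega))
        (h.offB x (by omega)) (h.offA x (by omega)) hne
  have hn : s(w x, w t) ∉ ze w s t := by
    intro h4
    rcases (znb h h1 tp sx (by omega : x < t)).only _ h4 with h5 | h5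
    · exact h.ne_w (by omega) (by omega) (by omega : t ≠ x + 1) h5
    · exact h.ne_w (by omega) (by omega) (by omega : t ≠ x - 1) h5
  have e3 := pc_two (zclo h h1 tp) (znb h h1 tp sx (by omega : x < t)) (znbt h h1 tp)
    (h.ne_w (by omega) (by omega) (by omega)) hn (zoffB h h1 tp) (zlpl h h1 tp) (T := T)
  have e4 : pc T (ze w s t) (w x) (w t) = 0 := by
    rw [zpc h h1 tp, asum_unc (fun i _ h4 => m2 i (by omega)), zero_add, x4_adj3]
  rw [e4, pc_symm T _ B (w t)] at e3
  linear_combination (norm := (ring_nf; reduce_mod_char)) e1 + e2 + e3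

end H10S
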