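import Pool.Agent.Lib.H30P.Il

/-!
# H10S, file Sep3: separation with both vertices on the polygon

`x u` crosses `y v`, both edges are uncrossed by the polygon, `x` and `y` are on the polygon: the two rays
`x → u` and `y → v` start on the same side (`sep3`: not adjacent, `sep3_adj`: adjacent, `sep3_all`).
-/

set_option autoImplicit false

namespace H10S

open H53P H30P Finset

variable {V : Type*} [DecidableEq V] {T : Table V}

/-- the sector at `y` of the crossing `xu x yv` -/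
theorem sec {x u y v a b : V} (hX : T.X x u y v = true) (ha : T.X x u y a = false)
    (hb : T.X x u y b = false) (ay : a ≠ y) (by_ : b ≠ y) (ax : a ≠ x) (bx : b ≠ x) (av : a ≠ v)
    (bv : b ≠ v) (ab : a ≠ b) :
    al T y a b x v = z2 (inn T x u y v a) + z2 (inn T x u y v b) := by
  obtain ⟨xu, yv, xy, xv, uy, uv⟩ := T.ne _ _ _ _ hX
  unfold al
  by_cases au : a = u
  · subst au
    rw [inn_u, z2_false, zero_add]
    rw [sepd (T := T) (w := x) (u := a) (z := y) (v := v) (b := b)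
      (by simp [xu, xy, xv, uy, uv, yv, Ne.symm bx, Ne.symm by_, Ne.symm bv, ab]) hX hb]
  · by_cases bu : b = u
    · subst bu
      rw [inn_u, z2_false, add_zero, T.as1]
      rw [sepd (T := T) (w := x) (u := b) (z := y) (v := v) (b := a)
        (by simp [xu, xy, xv, uy, uv, yv, Ne.symm ax, Ne.symm ay, Ne.symm av, Ne.symm ab]) hX ha]
    · rw [sepc (T := T) (w := x) (u := u) (z := y) (v := v) (a := a) (b := b)
        (by simp [xu, xy, xv, uy, uv, yv, Ne.symm bx, Ne.symm by_, Ne.symm bv, ab, Ne.symm ax,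
          Ne.symm ay, Ne.symm av, Ne.symm au, Ne.symm bu]) hX ha hb, z2_xor]

/-- the potential of the small triangle, zero at `x` and `y` -/
def pot (T : Table V) (x u y v : V) (a : V) : ZMod 2 :=
  if a = x ∨ a = y then 0 else z2 (inn T x u y v a)

theorem pot_x {x u y v : V} : pot T x u y v x = 0 := by
  unfold pot
  simp

theorem pot_y {x u y v : V} : pot T x u y v y = 0 := by
  unfold pot
  simp

theorem pot_of {x u y v a : V} (ax : a ≠ x) (ay : a ≠ y) :
    pot T x u y v a = z2 (inn T x u y v a) := by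
  unfold pot
  simp [ax, ay]

/-- the edges off `x` and `y` -/
def rst (E : Finset (Sym2 V)) (x y : V) : Finset (Sym2 V) :=
  (E.filter (fun e => ¬ x ∈ e)).filter (fun e => ¬ y ∈ e)

theorem sum_two {E : Finset (Sym2 V)} {x y a a' b b' : V} (hx : Nb E x a a') (hy : Nb E y b b')
    (xy : x ≠ y) (hxy : s(x, y) ∉ E) (g : Sym2 V → ZMod 2) :
    ∑ e ∈ E, g e = g s(x, a) + g s(x, a') + (g s(y, b) + g s(y, b') + ∑ e ∈ rst E x y, g e) := by
  unfold rst
  rw [← Finset.sum_filter_add_sum_filter_not E (fun e => x ∈ e),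
    ← Finset.sum_filter_add_sum_filter_not (E.filter (fun e => ¬ x ∈ e)) (fun e => y ∈ e)]
  have e0 : (E.filter (fun e => ¬ x ∈ e)).filter (fun e => y ∈ e) = E.filter (fun e => y ∈ e) := by
    ext e
    simp only [mem_filter]
    constructor
    · rintro ⟨⟨h3, _⟩, h4⟩
      exact ⟨h3, h4⟩
    · rintro ⟨h3, h4⟩
      refine ⟨⟨h3, ?_⟩, h4⟩
      intro h5
      exact hxy ((Sym2.mem_and_mem_iff xy).1 ⟨h5, h4⟩ ▸ h3)
  rw [e0, hx.sum_star, hy.sum_star]

theorem sum_adj {E : Finset (Sym2 V)} {x y a b : V} (hx : Nb E x y a) (hy : Nb E y b x)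
    (xy : x ≠ y) (g : Sym2 V → ZMod 2) :
    ∑ e ∈ E, g e = g s(x, y) + g s(x, a) + (g s(y, b) + ∑ e ∈ rst E x y, g e) := by
  unfold rst
  rw [← Finset.sum_filter_add_sum_filter_not E (fun e => x ∈ e),
    ← Finset.sum_filter_add_sum_filter_not (E.filter (fun e => ¬ x ∈ e)) (fun e => y ∈ e)]
  have e0 : (E.filter (fun e => ¬ x ∈ e)).filter (fun e => y ∈ e) = {s(y, b)} := by
    ext e
    simp only [mem_filter, mem_singleton]
    constructor
    · rintro ⟨⟨h3, h5⟩, h4⟩
      obtain ⟨t, rfl⟩ := h4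
      rcases hy.only t h3 with rfl | rfl
      · rfl
      · exact absurd (Sym2.mem_mk_right _ _) h5
    · rintro rfl
      refine ⟨⟨hy.m1, ?_⟩, Sym2.mem_mk_left _ _⟩
      intro h5
      rw [Sym2.mem_iff] at h5
      rcases h5 with h5 | h5
      · exact xy h5
      · exact hy.ne h5.symm
  rw [e0, hx.sum_star, sum_singleton]

theorem rst_mem {E : Finset (Sym2 V)} {x y c d : V} (h : s(c, d) ∈ rst E x y) :
    s(c, d) ∈ E ∧ c ≠ x ∧ d ≠ x ∧ c ≠ y ∧ d ≠ y := by
  unfold rst at h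
  rw [mem_filter, mem_filter, Sym2.mem_iff, Sym2.mem_iff, not_or, not_or] at h
  exact ⟨h.1.1, Ne.symm h.1.2.1, Ne.symm h.1.2.2, Ne.symm h.2.1, Ne.symm h.2.2⟩

/-- the edges off `x` and `y` -/
theorem rst_pot {E : Finset (Sym2 V)} {x u y v : V} (hX : T.X x u y v = true)
    (hxe : ∀ a b, s(a, b) ∈ E → T.X x u a b = false)
    (hye : ∀ a b, s(a, b) ∈ E → T.X y v a b = false) (hl : Lpl E) :
    ∑ e ∈ rst E x y, xe T x y e = ∑ e ∈ rst E x y, ds (pot T x u y v) e := by
  apply sum_congr rfl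
  intro e he
  induction e with
  | _ c d =>
  obtain ⟨hE, cx, dx, cy, dy⟩ := rst_mem he
  have cd : c ≠ d := fun h => hl c (by rw [← h] at hE; exact hE)
  rw [xe_mk, ds_mk, pot_of cx cy, pot_of dx dy]
  exact sm_edge hX cd cx cy dx dy (hxe c d hE) (hye c d hE)

/-- (SEP3) both vertices on the closed set, not adjacent -/
theorem sm_two {E : Finset (Sym2 V)} (hE : Clo E) {x u y v a a' b b' : V} (hX : T.X x u y v = true)
    (hxe : ∀ a b, s(a, b) ∈ E → T.X x u a b = false)
    (hye : ∀ a b, s(a, b) ∈ E → T.X y v a b = false) (hx : Nb E x a a') (hy : Nb E y b b')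
    (hxy : s(x, y) ∉ E) (hu : s(x, u) ∉ E) (hv : s(y, v) ∉ E) (hl : Lpl E) :
    pc T E x y = al T x a a' y u + al T y b b' x v := by
  obtain ⟨xu, yv, xy, xv, uy, uv⟩ := T.ne _ _ _ _ hX
  have nex : ∀ c, s(x, c) ∈ E → c ≠ x ∧ c ≠ y ∧ c ≠ u := by
    intro c h
    refine ⟨?_, ?_, ?_⟩ <;> intro h2 <;> subst h2
    · exact hl c h
    · exact hxy h
    · exact hu h
  have ney : ∀ c, s(y, c) ∈ E → c ≠ x ∧ c ≠ y ∧ c ≠ v := by
    intro c h
    refine ⟨?_, ?_, ?_⟩ <;> intro h2 <;> subst h2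
    · exact hxy (by rw [Sym2.eq_swap]; exact h)
    · exact hl c h
    · exact hv h
  have na := nex a hx.m1
  have na' := nex a' hx.m2
  have nb := ney b hy.m1
  have nb' := ney b' hy.m2
  have h1 := hE (pot T x u y v)
  rw [sum_two hx hy xy hxy] at h1
  unfold pc
  rw [sum_two hx hy xy hxy, rst_pot hX hxe hye hl]
  simp only [xe_mk, ds_mk, pot_x, pot_y, x4_adj1, x4_adj3] at h1 ⊢
  rw [pot_of na.1 na.2.1, pot_of na'.1 na'.2.1, pot_of nb.1 nb.2.1, pot_of nb'.1 nb'.2.1] at h1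
  have e1 := sec hX (hxe y b hy.m1) (hxe y b' hy.m2) nb.2.1 nb'.2.1 nb.1 nb'.1 nb.2.2 nb'.2.2 hy.ne
  have hX' : T.X y v x u = true := by rw [T.xs4]; exact hX
  have e2 := sec hX' (hye x a hx.m1) (hye x a' hx.m2) na.1 na'.1 na.2.1 na'.2.1 na.2.2 na'.2.2 hx.ne
  rw [inn_swap T x u y v a, inn_swap T x u y v a'] at e2
  rw [e1, e2]
  have h2 := two_z (∑ e ∈ rst E x y, ds (pot T x u y v) e)
  linear_combination -h1 + h2

/-- both vertices on the closed set, adjacent: potentials -/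
theorem sm_adj {E : Finset (Sym2 V)} (hE : Clo E) {x u y v a b : V} (hX : T.X x u y v = true)
    (hxe : ∀ a b, s(a, b) ∈ E → T.X x u a b = false)
    (hye : ∀ a b, s(a, b) ∈ E → T.X y v a b = false) (hx : Nb E x y a) (hy : Nb E y b x)
    (hl : Lpl E) :
    pc T E x y = z2 (inn T x u y v a) + z2 (inn T x u y v b) := by
  obtain ⟨xu, yv, xy, xv, uy, uv⟩ := T.ne _ _ _ _ hX
  have ax : a ≠ x := fun h => hl x (by have := hx.m2; rwa [h] at this)
  have by_ : b ≠ y := fun h => hl y (by have := hy.m1; rwa [h] at this)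
  have h1 := hE (pot T x u y v)
  rw [sum_adj hx hy xy] at h1
  unfold pc
  rw [sum_adj hx hy xy, rst_pot hX hxe hye hl]
  simp only [xe_mk, ds_mk, pot_x, pot_y, x4_adj1, x4_adj3] at h1 ⊢
  rw [pot_of ax hx.ne.symm, pot_of hy.ne by_] at h1
  have h2 := two_z (∑ e ∈ rst E x y, ds (pot T x u y v) e)
  linear_combination -h1 + h2

/-- (P4) two adjacent vertices on the closed set -/
theorem pc_adj {E : Finset (Sym2 V)} (hE : Clo E) {x y w a b : V}
    (hx : Nb E x y a) (hy : Nb E y b x) (xy : x ≠ y) (hw : Off E w) (hl : Lpl E) :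
    pc T E x w + pc T E w y + pc T E x y =
      x4 T w y x a + x4 T x w y b + tt T x y w b a := by
  have xw : x ≠ w := fun h => hw y (h ▸ hx.m1)
  have yw : y ≠ w := fun h => hw b (h ▸ hy.m1)
  have ax : a ≠ x := fun h => hl x (by have := hx.m2; rwa [h] at this)
  have by_ : b ≠ y := fun h => hl y (by have := hy.m1; rwa [h] at this)
  have ay : a ≠ y := hx.ne.symm
  have bx : b ≠ x := hy.ne
  have aw : a ≠ w := fun h => hw x (by rw [Sym2.eq_swap]; exact h ▸ hx.m2)
  have bw : b ≠ w := fun h => hw y (by rw [Sym2.eq_swap]; exact h ▸ hy.m1)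
  obtain ⟨f, hf⟩ : ∃ f : V → ZMod 2, f = fun v => if v = x ∨ v = y then 0 else tt T x y w v a := ⟨_, rfl⟩
  have fx : f x = 0 := by rw [hf]; simp
  have fy : f y = 0 := by rw [hf]; simp
  have fo : ∀ v, v ≠ x → v ≠ y → f v = tt T x y w v a := by
    intro v h1 h2
    rw [hf]
    simp [h1, h2]
  have h1 := hE f
  have h2 : pc T E x w + pc T E w y + pc T E x y = ∑ e ∈ E, (xe T x w e + xe T w y e + xe T x y e) := by
    unfold pc
    rw [← Finset.sum_add_distrib, ← Finset.sum_add_distrib]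
  rw [h2]
  rw [sum_adj hx hy xy] at h1 ⊢
  have h3 : ∑ e ∈ rst E x y, (xe T x w e + xe T w y e + xe T x y e) =
      ∑ e ∈ rst E x y, ds f e := by
    apply Finset.sum_congr rfl
    intro e he
    induction e with
    | _ c d =>
    obtain ⟨hE, cx, dx, cy, dy⟩ := rst_mem he
    have hc : c ≠ w := fun h => hw d (h ▸ hE)
    have hd : d ≠ w := fun h => hw c (by rw [Sym2.eq_swap]; exact h ▸ hE)
    rw [xe_mk, xe_mk, xe_mk, ds_mk, fo c cx cy, fo d dx dy]
    have h4 := tt_tri T xy yw xw.symm cx cy hc ax ay aw dx dy hd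
    rw [tt_symm T x y w d a, h4]
    unfold tt
    rw [x4_1 T w x c d, x4_1 T w y c d]
    ring
  rw [h3]
  rw [ds_mk, ds_mk, ds_mk, fx, fy, fo a ax ay, fo b bx by_, tt_self] at h1
  simp only [xe_mk, x4_adj1, x4_adj2, x4_adj3, x4_adj4]
  have h5 := two_z (tt T x y w b a)
  linear_combination h1 - h5

theorem p5z {a b c d e : V} (hN : [a, b, c, d, e].Nodup) :
    x4 T a b c d + x4 T a c b d + x4 T a d b c + x4 T a b c e + x4 T a c b e + x4 T a e b c +
    x4 T a b d e + x4 T a d b e + x4 T a e b d + x4 T a c d e + x4 T a d c e + x4 T a e c d +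
    x4 T b c d e + x4 T b d c e + x4 T b e c d = 1 := by
  have h := congrArg z2 (p5 (T := T) hN)
  simp only [z2_xor, z2_true] at h
  exact h

/-- elimination of the reference vertex -/
theorem adj_w {x y a b u v w : V} (xy : x ≠ y) (ax : a ≠ x) (ay : a ≠ y) (bx : b ≠ x) (by_ : b ≠ y)
    (ab : a ≠ b) (ux : u ≠ x) (uy : u ≠ y) (ua : u ≠ a) (vx : v ≠ x) (vy : v ≠ y) (vb : v ≠ b)
    (wx : w ≠ x) (wy : w ≠ y) (wa : w ≠ a) (wb : w ≠ b) :
    x4 T w y x a + x4 T x w y b + tt T x y w b a + al T x y a u w + al T y b x v w =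
      tt T x y a u b + tt T x y b v a + x4 T x u y a + x4 T y v x b + 1 + x4 T x a y b + x4 T x b y a := by
  have h1 : tt T x y a u w + tt T x y a w b = tt T x y a u b :=
    tt_tri T xy ay.symm ax ux uy ua wx wy wa bx by_ ab.symm
  have h2 : tt T x y b v w + tt T x y b w a = tt T x y b v a :=
    tt_tri T xy by_.symm bx vx vy vb wx wy wb ax ay ab
  have h3 := p5z (T := T) (a := x) (b := y) (c := a) (d := b) (e := w)
    (by simp [xy, Ne.symm ax, Ne.symm ay, Ne.symm bx, Ne.symm by_, ab, Ne.symm wx, Ne.symm wy,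
      Ne.symm wa, Ne.symm wb])
  rw [al_eq, al_eq]
  rw [← h1, ← h2]
  unfold tt
  simp only [x4_1, x4_2, x4_4] at h3 ⊢
  linear_combination (norm := (ring_nf; reduce_mod_char)) h3

theorem x4_true {a b c d : V} (h : T.X a b c d = true) : x4 T a b c d = 1 := by
  unfold x4
  rw [h]
  rfl

theorem x4_false {a b c d : V} (h : T.X a b c d = false) : x4 T a b c d = 0 := by
  unfold x4
  rw [h]
  rfl

/-- a crossing in four points is the only one -/
theorem one_z {a b c d : V} (h : T.X a b c d = true) : x4 T a c b d = 0 ∧ x4 T a d b c = 0 := by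
  have h1 := T.one a b c d h
  have h2 : T.X a b d c = true := by rw [T.xs2]; exact h
  have h3 := T.one a b d c h2
  exact ⟨x4_false h1, x4_false h3⟩

theorem sec_z {x u y v b : V} (hX : T.X x u y v = true) (hb : T.X x u y b = false)
    (by_ : b ≠ y) (bx : b ≠ x) (bv : b ≠ v) (bu : b ≠ u) :
    z2 (inn T x u y v b) = al T y u b x v := by
  obtain ⟨xu, yv, xy, xv, uy, uv⟩ := T.ne _ _ _ _ hX
  unfold al
  rw [sepd (T := T) (w := x) (u := u) (z := y) (v := v) (b := b)
      (by simp [xu, xy, xv, uy, uv, yv, Ne.symm bx, Ne.symm by_, Ne.symm bv, Ne.symm bu]) hX hb]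

theorem adj_fin {x y a b u v : V} (ax : a ≠ x) (ay : a ≠ y) (bx : b ≠ x) (by_ : b ≠ y)
    (ab : a ≠ b) (ua : u ≠ a) (vb : v ≠ b) (hX : T.X x u y v = true)
    (h1 : T.X x u y b = false) (h2 : T.X y v x a = false) :
    tt T x y a u b + tt T x y b v a + x4 T x u y a + x4 T y v x b + 1 + x4 T x a y b + x4 T x b y a =
      z2 (inn T x u y v a) + z2 (inn T x u y v b) := by
  obtain ⟨xu, yv, xy, xv, uy, uv⟩ := T.ne _ _ _ _ hX
  have hX' : T.X y v x u = true := by rw [T.xs4]; exact hX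
  have g0 := x4_true hX
  obtain ⟨g1, g2⟩ := one_z hX
  have ga : v ≠ a → z2 (inn T x u y v a) = al T x v a y u := by
    intro va
    rw [← inn_swap]
    exact sec_z hX' h2 ax ay (Ne.symm ua) (Ne.symm va)
  have gb : u ≠ b → z2 (inn T x u y v b) = al T y u b x v :=
    fun ub => sec_z hX h1 by_ bx (Ne.symm vb) (Ne.symm ub)
  by_cases ub : u = b
  · subst ub
    rw [inn_u, z2_false, tt_self]
    by_cases va : v = a
    · subst va
      rw [inn_v, z2_false, tt_self]
      simp only [x4_1, x4_2, x4_4] at g0 g1 g2 ⊢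
      linear_combination (norm := (ring_nf; reduce_mod_char)) g0 + g2
    · rw [ga va, al_eq]
      unfold tt
      simp only [x4_1, x4_2, x4_4] at g0 g1 g2 ⊢
      linear_combination (norm := (ring_nf; reduce_mod_char)) g0 + g2
  · by_cases va : v = a
    · subst va
      rw [inn_v, z2_false, tt_self, gb ub, al_eq]
      unfold tt
      simp only [x4_1, x4_2, x4_4] at g0 g1 g2 ⊢
      linear_combination (norm := (ring_nf; reduce_mod_char)) g0 + g2
    · rw [ga va, gb ub, al_eq, al_eq]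
      have p1 := p5z (T := T) (a := x) (b := y) (c := u) (d := v) (e := a)
        (by simp [xy, xu, xv, uy, Ne.symm uy, uv, yv, Ne.symm ax, Ne.symm ay, ua, va])
      have p2 := p5z (T := T) (a := x) (b := y) (c := v) (d := a) (e := b)
        (by simp [xy, xv, yv, Ne.symm ax, Ne.symm ay, Ne.symm bx, Ne.symm by_, ab, va, vb])
      have p3 := tt_tri T xy yv xv.symm xu.symm uy uv ax ay (Ne.symm va) bx by_ (Ne.symm vb)
      have p4 := tt_tri T xy (Ne.symm ay) ax xu.symm uy ua xv.symm yv.symm va bx by_ (Ne.symm ab)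
      unfold tt at p3 p4 ⊢
      simp only [x4_1, x4_2, x4_4] at g0 g1 g2 p1 p2 p3 p4 ⊢
      linear_combination (norm := (ring_nf; reduce_mod_char)) g0 + g2 + p1 + p2 + p3 + p4

/-- the case of a triangle -/
theorem adj_tri {x y a u v w : V} (ax : a ≠ x) (ay : a ≠ y) (ua : u ≠ a) (va : v ≠ a)
    (wx : w ≠ x) (wy : w ≠ y) (wa : w ≠ a) (hX : T.X x u y v = true)
    (h1 : T.X x u y a = false) (h2 : T.X y v x a = false) :
    x4 T w y x a + x4 T x w y a + al T x y a u w + al T y a x v w = 0 := by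
  obtain ⟨xu, yv, xy, xv, uy, uv⟩ := T.ne _ _ _ _ hX
  obtain ⟨g1, g2⟩ := one_z hX
  have p1 := tt_tri (T := T) xy ay.symm ax xu.symm uy ua wx wy wa xv.symm yv.symm va
  have e1 := sepb (T := T) (w := u) (u := x) (z := v) (v := y) (y := a)
    (by simp [xu.symm, uv, uy, ua, xv, xy, Ne.symm ax, yv.symm, va, Ne.symm ay])
    (by rw [T.xs1, T.xs2]; exact hX) (by rw [T.xs2, T.xs4]; exact h2)
  have e2 := sepb (T := T) (w := v) (u := y) (z := u) (v := x) (y := a)
    (by simp [yv.symm, uv.symm, xv.symm, va, uy.symm, xy.symm, Ne.symm ay, xu.symm, ua, Ne.symm ax])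
    (by rw [T.xs1, T.xs2, T.xs4]; exact hX) (by rw [T.xs2, T.xs4]; exact h1)
  rw [inn_swap T u x v y a] at e2
  have e3 : x4 T x a u v = x4 T y a v u := by
    unfold x4
    rw [e1, e2]
  have f1 := x4_false h1
  have f2 := x4_false h2
  rw [al_eq, al_eq]
  unfold tt at p1 ⊢
  simp only [x4_1, x4_2, x4_4] at g1 g2 e3 p1 f1 f2 ⊢
  linear_combination (norm := (ring_nf; reduce_mod_char)) g1 + e3 + p1 + f1 + f2

/-- finite fact for adjacent vertices -/
theorem adj_all {x y a b u v w : V} (ax : a ≠ x) (ay : a ≠ y) (bx : b ≠ x) (by_ : b ≠ y)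
    (ua : u ≠ a) (vb : v ≠ b) (wx : w ≠ x) (wy : w ≠ y) (wa : w ≠ a) (wb : w ≠ b)
    (hX : T.X x u y v = true) (h1 : T.X x u y b = false) (h2 : T.X y v x a = false) :
    x4 T w y x a + x4 T x w y b + tt T x y w b a + al T x y a u w + al T y b x v w =
      z2 (inn T x u y v a) + z2 (inn T x u y v b) := by
  obtain ⟨xu, yv, xy, xv, uy, uv⟩ := T.ne _ _ _ _ hX
  by_cases ab : a = b
  · subst ab
    rw [tt_self, two_z, add_zero]
    exact adj_tri ax ay ua vb wx wy wa hX h1 h2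
  · rw [adj_w xy ax ay bx by_ ab xu.symm uy ua xv.symm yv.symm vb wx wy wa wb]
    exact adj_fin ax ay bx by_ ab ua vb hX h1 h2

/-- (SEP3) for polygons, vertices which are not adjacent -/
theorem sep3 {c : ℕ → V} {n : ℕ} (h : Per c n) {w u v : V} {i j : ℕ} (hw : ∀ k, c k ≠ w)
    (hij : i + 2 ≤ j) (hji : j + 2 ≤ i + n) (hX : T.X (c i) u (c j) v = true)
    (h1 : Unc T c (c i) u) (h2 : Unc T c (c j) v)
    (hu1 : u ≠ c (i + 1)) (hu2 : u ≠ c (i + n - 1)) (hv1 : v ≠ c (j + 1)) (hv2 : v ≠ c (j + n - 1)) :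
    pfl T c n w i u = pfl T c n w j v := by
  obtain ⟨xu, yv, xy, xv, uy, uv⟩ := T.ne _ _ _ _ hX
  have hn := h.three
  have nbi := h.nb i
  have nbj := h.nb j
  have g : ∀ {p q : V}, Unc T c p q → ∀ a b, s(a, b) ∈ pe c n → T.X p q a b = false := by
    intro p q hu a b hab
    obtain ⟨k, hk⟩ := h.mem_pe.1 hab
    rw [Sym2.eq_iff] at hk
    rcases hk with ⟨r1, r2⟩ | ⟨r1, r2⟩
    · rw [r1, r2]; exact hu k
    · rw [r1, r2, T.xs2]; exact hu k
  have out : ∀ {k : ℕ} {z : V}, z ≠ c (k + 1) → z ≠ c (k + n - 1) → s(c k, z) ∉ pe c n := by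
    intro k z a1 a2 h3
    rcases (h.nb k).only _ h3 with h4 | h4
    · exact a1 h4
    · exact a2 h4
  have nj1 : c j ≠ c (i + 1) := (h.ne_of (by omega) (by omega)).symm
  have nj2 : c j ≠ c (i + n - 1) := h.ne_of (by omega) (by omega)
  have ni1 : c i ≠ c (j + 1) := h.ne_of (by omega) (by omega)
  have ni2 : c i ≠ c (j + n - 1) := by
    have e : c (j + n - 1) = c (j - 1) := by
      rw [show j + n - 1 = (j - 1) + n by omega, h.per]
    rw [e]
    exact h.ne_of (by omega) (by omega)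
  have h3 := sm_two h.clo hX (g h1) (g h2) nbi nbj (out nj1 nj2) (out hu1 hu2) (out hv1 hv2) h.lpl
  have h4 := pc_two h.clo nbi nbj xy (out nj1 nj2) (h.off hw) h.lpl (T := T)
  have i1 : c i ≠ c (i + 1) := h.ne_succ i
  have i2 : c i ≠ c (i + n - 1) := h.ne_of (by omega) (by omega)
  have j1 : c j ≠ c (j + 1) := h.ne_succ j
  have j2 : c j ≠ c (j + n - 1) := h.ne_of (by omega) (by omega)
  have h5 := al_add (T := T) (u := c i) (a := c (i + 1)) (b := c (i + n - 1)) (y := c j) (z := u) (w := w)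
    i1 i2 nbi.ne xy.symm nj1 nj2 (Ne.symm xu) hu1 hu2 (hw i).symm (hw _).symm (hw _).symm
  have h6 := al_add (T := T) (u := c j) (a := c (j + 1)) (b := c (j + n - 1)) (y := c i) (z := v) (w := w)
    j1 j2 nbj.ne xy ni1 ni2 (Ne.symm yv) hv1 hv2 (hw j).symm (hw _).symm (hw _).symm
  unfold pfl
  rw [pc_symm T _ w (c j)] at h4
  linear_combination (norm := (ring_nf; reduce_mod_char)) h3 + h4 + h5 + h6

/-- (SEP3) for polygons, adjacent vertices -/
theorem sep3_adj {c : ℕ → V} {n : ℕ} (h : Per c n) {w u v : V} {i : ℕ} (hw : ∀ k, c k ≠ w)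
    (hX : T.X (c i) u (c (i + 1)) v = true)
    (h1 : Unc T c (c i) u) (h2 : Unc T c (c (i + 1)) v)
    (hu : u ≠ c (i + n - 1)) (hv : v ≠ c (i + 2)) :
    pfl T c n w i u = pfl T c n w (i + 1) v := by
  obtain ⟨xu, yv, xy, xv, uy, uv⟩ := T.ne _ _ _ _ hX
  have hn := h.three
  have nbi := h.nb i
  have nbj := h.nb (i + 1)
  have e0 : c (i + 1 + n - 1) = c i := by
    rw [show i + 1 + n - 1 = i + n by omega, h.per]
  rw [e0] at nbj
  have g : ∀ {p q : V}, Unc T c p q → ∀ a b, s(a, b) ∈ pe c n → T.X p q a b = false := by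
    intro p q hu a b hab
    obtain ⟨k, hk⟩ := h.mem_pe.1 hab
    rw [Sym2.eq_iff] at hk
    rcases hk with ⟨r1, r2⟩ | ⟨r1, r2⟩
    · rw [r1, r2]; exact hu k
    · rw [r1, r2, T.xs2]; exact hu k
  have h3 := sm_adj h.clo hX (g h1) (g h2) nbi nbj h.lpl
  have h4 := pc_adj h.clo nbi nbj xy (h.off hw) h.lpl (T := T)
  have i2 : c i ≠ c (i + n - 1) := h.ne_of (by omega) (by omega)
  have j1 : c (i + 1) ≠ c (i + 1 + 1) := h.ne_succ (i + 1)
  have h5 := adj_all (T := T) (x := c i) (y := c (i + 1)) (a := c (i + n - 1)) (b := c (i + 1 + 1))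
    (u := u) (v := v) (w := w) i2.symm nbi.ne.symm nbj.ne j1.symm hu hv (hw _).symm (hw _).symm
    (hw _).symm (hw _).symm hX (h1 (i + 1)) (g h2 _ _ nbi.m2)
  unfold pfl
  rw [e0]
  rw [pc_symm T _ w (c (i + 1))] at h4
  linear_combination (norm := (ring_nf; reduce_mod_char)) h3 + h4 + h5

theorem pfl_per {c : ℕ → V} {n : ℕ} (h : Per c n) (w : V) (k : ℕ) (z : V) :
    pfl T c n w (k + n) z = pfl T c n w k z := by
  have hn := h.three
  unfold pfl
  rw [h.per, show k + n + 1 = (k + 1) + n by ring, h.per, show k + n + n - 1 = (k + n - 1) + n by omega,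
    h.per]

/-- (SEP3) for polygons, all cases -/
theorem sep3_all {c : ℕ → V} {n : ℕ} (h : Per c n) {w u v : V} {i j : ℕ} (hw : ∀ k, c k ≠ w)
    (hij : i < j) (hji : j < i + n) (hX : T.X (c i) u (c j) v = true)
    (h1 : Unc T c (c i) u) (h2 : Unc T c (c j) v)
    (hu1 : u ≠ c (i + 1)) (hu2 : u ≠ c (i + n - 1)) (hv1 : v ≠ c (j + 1)) (hv2 : v ≠ c (j + n - 1)) :
    pfl T c n w i u = pfl T c n w j v := by
  have hn := h.three
  by_cases a1 : j = i + 1
  · subst a1
    exact sep3_adj h hw hX h1 h2 hu2 hv1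
  by_cases a2 : j + 1 = i + n
  · have e1 : c (j + 1) = c i := by rw [a2, h.per]
    have h3 := sep3_adj (T := T) h (w := w) (u := v) (v := u) (i := j) hw
      (by rw [e1, T.xs4]; exact hX) h2 (by rw [e1]; exact h1) hv2
      (by rw [show j + 2 = (i + 1) + n by omega, h.per]; exact hu1)
    rw [h3, a2, pfl_per h]
  · exact sep3 h hw (by omega) (by omega) hX h1 h2 hu1 hu2 hv1 hv2

end H10S
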